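import Pool.Agent.MP_1a6d78_lc.SD.Spec
import Pool.Agent.MP_1a6d78_lc.DD.All
import Pool.Agent.MP_1a6d78_lc.GM.RecC

/-! PROJECT SD: the assembly of the rows. -/

namespace Pool.Agent.MP_1a6d78_lc.DS.SD

open Classical ED PR DD SC

theorem runK (tw : TwK) (base : BaseS) (nd : NdS) (sl : SlS) (th : ThS) (sh : ShS) (dp : DpS) :
    RunK := by
  intro M r cy cj l ok
  induction l with
  | zero => exact base tw M r ok
  | succ l ih =>
    have a := nd M _ ih.1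
    exact ⟨sh th M r _ _ _ _ ih.1 a (sl M r _ _ _ _ ih.1 a),
      dp tw M r l _ _ _ _ ih.1 a (sl M r _ _ _ _ ih.1 a) ih.2⟩

/-- The function of the earlier machine. -/
theorem old (r : ℕ) (hr : 1 ≤ r) : ∃ f : List Bool → ℕ,
    (Ev (bm (Mt r)) fun κ => Cn κ fun x _ => f x) ∧ ∀ x, (inp x).Ok → num x 2 < num x 0 →
      ((f x != 0) = true ↔ ∃ c ≤ num x 3, Dw (inp x) (us x) (wt x) (num x 1) (num x 2) c) := by
  have i := piS roS fmC 1 le_rfl
  have fin := fin1S digS tabS sndS erS (winS digS DD.baseS phS erS) kkS2 sldS lgS abS legS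
  have gap : ∀ j e, Gap (DD.mm j) e (alG j e) := by
    intro j
    induction j with
    | zero => exact g0S fin compS2 scS
    | succ j ih =>
      exact fun e => g1S fin scS compS2 dkS2 nxS2 sizeS2 subS2 vzS levS2 j e _
        (ceE vzS compS2 sumS potS estS stpS ih _ _)
  have cg : ∀ j e, Ev (bm Mx) fun κ => Cn κ fun x _ => alG j e x := by
    intro j
    induction j with
    | zero => exact fun e => paS2 i pgS pwS e sk1 (Ev.all (sk1C i))
    | succ j ih =>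
      exact fun e => paS2 i pgS pwS e _ (pnS2 fmC i poS2 _ (fun x => Mx x ^ (j + 1))
        (alEC i poS2 psS2 (alG_le j) ih _ _) (alE_le (alG_le j) _ _)
        (fun κ => K.pow _ (MxC i κ)) e)
  refine ⟨_, ptS2 i poS2 r (alE (alG r) (9 * r) (9 * r))
    (alEC i poS2 psS2 (alG_le r) (cg r) _ _) (alE_le (alG_le r) _ _), fun x ok ht => ?_⟩
  have q := topS2 vzS roS r _ x hr (ceE vzS compS2 sumS potS estS stpS (gap r) (9 * r) (9 * r)) ok ht
  have u : tp2 r (alE (alG r) (9 * r) (9 * r)) x ≤ 1 := alE_le (alG_le r) _ _ _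
  rw [← q, bne_iff_ne]
  omega

theorem mainS (tw : TwK) (base : BaseS) (nd : NdS) (sl : SlS) (th : ThS) (sh : ShS) (dp : DpS)
    (gn : GnS) (en' : EndS) (kl : KlS) (key : KeyS) (gd : GdS) (co : CoS) (bf' : BfK) (dc : DcK)
    (sp : SpS) (rg : RgS) (sz : SzS) (rc' : RcS) (ct : CtS) (cu : CuS) (ge' : GeS) (pt : PtS)
    (en : EnS) (tp : TpS) (kt : KtS) (el : ElS) (q1 : Q1S) (q2 : Q2S) (ch : ChS) (gc : GcS)
    (rgc : RgCS) (bq : BqS) (fq : FqS) (rq : RqS) (nu : NuS) (sd' : SdS) (it' : ItS) (mc' : McS) :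
    MainS := by
  intro ε hε
  have i := piS roS fmC 1 le_rfl
  have k := kt i
  obtain ⟨K, hK⟩ : ∃ K : ℕ, 40000 ≤ K := ⟨_, le_rfl⟩
  obtain ⟨r, hr, h⟩ := mc' it' roS i k ε hε
  obtain ⟨f, f1, f2⟩ := old r hr
  have s1 := sd' GM.recC i k rq bf' nu K ((ch GM.recC el i k q1 q2 K).imp fun κ _ a b =>
    fq k bq K κ b (gc i k K κ a) (rgc k K κ _
      (fun x => le_trans (by unfold qx; omega) (b x)) (gc i k K κ a)))
  obtain ⟨M, c, hM⟩ := h f (sd K) f1 s1
  refine ⟨M, c, fun x => ?_⟩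
  obtain ⟨b, b1, b2, b3, b4⟩ := hM x
  refine ⟨b, b1, b3, fun n σ α dir w s t θ hα hp hx => ?_⟩
  obtain ⟨c1, _, c3, c4, c5, c6, c7, c8⟩ := codS σ α dir w s t θ x hα hp hx
  have ht : num x 2 < num x 0 := by rw [c5, c3]; exact t.2
  refine ⟨?_, fun hw => c6 ▸ b4 fun d hd u => ?_⟩
  · have e : (∃ c ≤ num x 3, Dw (inp x) (us x) (wt x) (num x 1) (num x 2) c) ↔
        ∃ c ≤ θ, Walk σ α dir w s t c := by
      rw [c4, c5, c6]
      simp only [c8]
    rw [← e]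
    rcases b2 with b2 | ⟨pw, b2⟩
    · rw [b2]
      exact f2 x c1 ht
    · rw [b2, ← tp (runK tw base nd sl th sh dp) nd sl gn en' gd kl key co en tw ct cu ge' pt bf' dc
        sp sz rg rc' K x hK c1 ht pw, bne_iff_ne]
      unfold sd
      split_ifs <;> simp
  · obtain ⟨-, -, e1, e2⟩ := c7 ⟨d, c3 ▸ hd⟩
    exact (hw _ (e2.1 u)).trans e1.ge

end Pool.Agent.MP_1a6d78_lc.DS.SD
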