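import Pool.Agent.MP_1a6d78_lc.SD.Spec

/-! PROJECT SD: distances inside a shallow forest (rows packed). -/

section MrgPart1

/-! Row BF of project SD: Bellman-Ford on a small set. -/

namespace Pool.Agent.MP_1a6d78_lc.DS.SD

open Classical ED PR DD SC

namespace BfL

theorem gtab {n e : ℕ} (f : ℕ → ℕ) (h : e < n) : gt (tab n f) e = f e := by
  simp [gt, tab, List.getD_eq_getElem?_getD, h]

variable {n N : ℕ} {B : ℕ → Prop} {leg : ℕ → ℕ → ℕ} {u : ℕ}

theorem bv0 {e : ℕ} (h : e < N) : gt (bv n N B leg u 0) e = leg u (sel n B e) := gtab _ h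

theorem bvS {m e : ℕ} (h : e < N) : gt (bv n N B leg u (m + 1)) e = mn N (fun _ => True)
    (fun e' => gt (bv n N B leg u m) e' + leg (sel n B e') (sel n B e)) (leg u (sel n B e)) :=
  gtab _ h

theorem bv_le {m e : ℕ} (h : e < N) : gt (bv n N B leg u m) e ≤ leg u (sel n B e) := by
  cases m with
  | zero => exact (bv0 h).le
  | succ m => rw [bvS h]; exact mn_le_z

/-- One relaxation is sound. -/
theorem relax {Z : ℕ} {W : ℕ → ℕ → ℕ → Prop}
    (tr : ∀ a b c x y, W a b x → W b c y → W a c (x + y))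
    (h0 : ∀ y z, leg y z < Z → W y z (leg y z)) {V : List ℕ}
    (hV : ∀ e < N, gt V e < Z → W u (sel n B e) (gt V e)) (v : ℕ)
    (h : mn N (fun _ => True) (fun e => gt V e + leg (sel n B e) v) (leg u v) < Z) :
    W u v (mn N (fun _ => True) (fun e => gt V e + leg (sel n B e) v) (leg u v)) := by
  rcases mn_eq (n := N) (P := fun _ => True) (c := fun e => gt V e + leg (sel n B e) v)
    (z := leg u v) with e | ⟨i, hi, _, e⟩
  · rw [e] at h ⊢
    exact h0 _ _ h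
  · rw [e] at h ⊢
    exact tr _ _ _ _ _ (hV i hi (by omega)) (h0 _ _ (by omega))

theorem bv_snd {Z : ℕ} {W : ℕ → ℕ → ℕ → Prop}
    (tr : ∀ a b c x y, W a b x → W b c y → W a c (x + y))
    (h0 : ∀ y z, leg y z < Z → W y z (leg y z)) (m : ℕ) :
    ∀ e < N, gt (bv n N B leg u m) e < Z → W u (sel n B e) (gt (bv n N B leg u m) e) := by
  induction m with
  | zero =>
    intro e he h
    rw [bv0 he] at h ⊢
    exact h0 _ _ h
  | succ m ih =>
    intro e he h
    rw [bvS he] at h ⊢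
    exact relax tr h0 ih _ h

theorem rel_le {V : List ℕ} {y c : ℕ} (hN : cnt n B ≤ N) (hy : y < n) (hB : B y)
    (h : gt V (cnt y B) ≤ c) (z : ℕ) :
    mn N (fun _ => True) (fun e => gt V e + leg (sel n B e) z) (leg u z) ≤ c + leg y z := by
  obtain ⟨a, b⟩ := sel_cnt hy hB
  refine (mn_le (i := cnt y B) (by omega) trivial).trans ?_
  simp only [a]
  omega

theorem bv_cpl (hN : cnt n B ≤ N) {m z c : ℕ} (h : Ch n B leg u m z c) :
    ∀ m2, m ≤ m2 → z < n → B z → gt (bv n N B leg u m2) (cnt z B) ≤ c := by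
  induction h with
  | one z =>
    intro m2 _ hz hB
    obtain ⟨a, b⟩ := sel_cnt hz hB
    have := bv_le (n := n) (N := N) (B := B) (leg := leg) (u := u) (m := m2) (e := cnt z B) (by omega)
    rwa [a] at this
  | step z _ hy hBy ih =>
    intro m2 hm hz hB
    obtain ⟨a, b⟩ := sel_cnt hz hB
    obtain ⟨k, rfl⟩ : ∃ k, m2 = k + 1 := ⟨m2 - 1, by omega⟩
    rw [bvS (by omega), a]
    exact rel_le hN hy hBy (ih k (by omega) hy hBy) z

theorem bv_congr {leg' : ℕ → ℕ → ℕ} (hu : u ≤ n) (h : ∀ y ≤ n, ∀ z ≤ n, leg y z = leg' y z) (m : ℕ) :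
    bv n N B leg u m = bv n N B leg' u m := by
  have a : ∀ e, leg u (sel n B e) = leg' u (sel n B e) := fun e => h _ hu _ (sel_le _ _ _)
  have b : ∀ e e', leg (sel n B e) (sel n B e') = leg' (sel n B e) (sel n B e') :=
    fun e e' => h _ (sel_le _ _ _) _ (sel_le _ _ _)
  unfold bv
  simp only [a, b]

end BfL

open BfL in
theorem bfK : BfK where
  snd n N θ Z B leg W tr h0 u v h := relax tr h0 (bv_snd tr h0 θ) v h
  cpl n N θ B leg u m v c hN hm h := by
    cases h with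
    | one => exact mn_le_z
    | step _ h hy hB => exact rel_le hN hy hB (bv_cpl hN h θ (by omega) hy hB) v
  le n N θ B leg u v := mn_le_z
  congr n N θ B leg leg' u v hu hv h := by
    have b : ∀ e, leg (sel n B e) v = leg' (sel n B e) v := fun e => h _ (sel_le _ _ _) _ hv
    unfold bf
    simp only [bv_congr hu h, b, h u hu v hv]

end Pool.Agent.MP_1a6d78_lc.DS.SD

end MrgPart1

section MrgPart2

/-! PROJECT SD, row DEC: a walk is cut into legs. -/

namespace Pool.Agent.MP_1a6d78_lc.DS.SD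

open Classical ED PR DD SC

namespace DcL

variable {n : ℕ} {nd β w : ℕ → ℕ}

theorem trans {P : ℕ → Prop} {a b c x y : ℕ} (h : Wu n nd β w P a b x) (h' : Wu n nd β w P b c y) :
    Wu n nd β w P a c (x + y) := by
  induction h' with
  | nil => exact h
  | step _ hd hp ih => exact Nat.add_assoc _ _ _ ▸ ih.step hd hp

theorem mono {P P' : ℕ → Prop} {a b x : ℕ} (hP : ∀ d < n, P d → P' d) (h : Wu n nd β w P a b x) :
    Wu n nd β w P' a b x := by
  induction h with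
  | nil => exact .nil
  | step _ hd hp ih => exact ih.step hd (hP _ hd hp)

theorem one {P : ℕ → Prop} {d : ℕ} (hd : d < n) (hp : P d) :
    Wu n nd β w P (nd d) (nd (β d)) (w d) := by
  have := (Wu.nil (n := n) (nd := nd) (β := β) (w := w) (P := P) (u := nd d)).step hd hp
  rwa [Nat.zero_add] at this

theorem s0 (Z : ℕ) (P : ℕ → Prop) (y z : ℕ) (h : l0 n Z nd β w P y z < Z) :
    Wu n nd β w P y z (l0 n Z nd β w P y z) := by
  unfold l0 at h ⊢
  split_ifs at h ⊢ with e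
  · exact e ▸ .nil
  · rcases mn_eq n (fun d => P d ∧ nd d = y ∧ nd (β d) = z) w Z with k | ⟨d, hd, ⟨p, e1, e2⟩, k⟩
    · omega
    · rw [k, ← e1, ← e2]
      exact one hd p

theorem c0 (Z : ℕ) (P B : ℕ → Prop) (u v c : ℕ)
    (hP : ∀ d < n, P d → 1 ≤ w d ∧ nd d < n ∧ B (nd d)) (h : Wu n nd β w P u v c) :
    ∃ m ≤ c, ∃ c' ≤ c, Ch n B (l0 n Z nd β w P) u m v c' := by
  induction h with
  | nil => exact ⟨0, le_rfl, _, by simp [l0], .one u⟩
  | @step d c _ hd hp ih =>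
    obtain ⟨m, hm, c', hc, k⟩ := ih
    obtain ⟨h1, h2, h3⟩ := hP d hd hp
    have h4 : l0 n Z nd β w P (nd d) (nd (β d)) ≤ w d := by
      unfold l0
      split_ifs
      · exact Nat.zero_le _
      · exact mn_le hd ⟨hp, rfl, rfl⟩
    exact ⟨m + 1, by omega, _, by omega, k.step (nd (β d)) h2 h3⟩

theorem close {Z W : ℕ} {B : ℕ → Prop} {Pw : ℕ → ℕ → Prop} {g : ℕ → ℕ → ℕ → ℕ} {u v c i y c1 : ℕ}
    (hg : ∀ i < W, ∀ y z c', c' < Z → Wu n nd β w (Pw i) y z c' → g i y z ≤ c') (hc : c < Z)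
    (hi : i < W) (hw : Wu n nd β w (Pw i) y v c1)
    (h : (y = u ∧ c1 ≤ c) ∨ ∃ m c0, Ch n B (fun y z => mn W (fun _ => True) (fun i => g i y z) Z)
      u m y c0 ∧ y < n ∧ B y ∧ c0 + c1 ≤ c ∧ m + 1 ≤ c) :
    ∃ m ≤ c, ∃ c' ≤ c, Ch n B (fun y z => mn W (fun _ => True) (fun i => g i y z) Z) u m v c' := by
  have h1 : c1 < Z := by rcases h with h | ⟨m, c0, -, -, -, h, -⟩ <;> omega
  have h2 : mn W (fun _ => True) (fun i => g i y v) Z ≤ c1 :=
    (mn_le (P := fun _ => True) (c := fun i => g i y v) hi trivial).trans (hg i hi y v c1 h1 hw)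
  rcases h with ⟨rfl, h⟩ | ⟨m, c0, k, hy, hB, h3, h4⟩
  · exact ⟨0, Nat.zero_le _, _, h2.trans h, .one v⟩
  · exact ⟨m + 1, h4, _, (Nat.add_le_add_left h2 c0).trans h3, k.step v hy hB⟩

theorem c1 (Z W : ℕ) (P B : ℕ → Prop) (Pw : ℕ → ℕ → Prop) (g : ℕ → ℕ → ℕ → ℕ) (u v c : ℕ)
    (hW : 0 < W) (hP : ∀ d < n, P d → 1 ≤ w d ∧ nd d < n ∧ ∃ i < W, Pw i d)
    (hB : ∀ d < n, ∀ d' < n, ∀ i < W, P d → P d' → Pw i d → nd (β d) = nd d' → Pw i d' ∨ B (nd d'))
    (hg : ∀ i < W, ∀ y z c', c' < Z → Wu n nd β w (Pw i) y z c' → g i y z ≤ c') (hc : c < Z)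
    (h : Wu n nd β w P u v c) :
    ∃ m ≤ c, ∃ c' ≤ c, Ch n B (fun y z => mn W (fun _ => True) (fun i => g i y z) Z) u m v c' := by
  have key : ∃ i < W, ∃ y c1, Wu n nd β w (Pw i) y v c1 ∧
      ((y = u ∧ c1 ≤ c) ∨ ∃ m c0, Ch n B (fun y z => mn W (fun _ => True) (fun i => g i y z) Z)
        u m y c0 ∧ y < n ∧ B y ∧ c0 + c1 ≤ c ∧ m + 1 ≤ c) ∧
      (v = u ∨ ∃ d < n, P d ∧ Pw i d ∧ nd (β d) = v) := by
    induction h with
    | nil => exact ⟨0, hW, u, 0, .nil, .inl ⟨rfl, le_rfl⟩, .inl rfl⟩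
    | @step d c _ hd hp ih =>
      obtain ⟨i, hi, y, c1, hw, h1, h2⟩ := ih (by omega)
      obtain ⟨w1, hn, j, hj, pj⟩ := hP d hd hp
      rcases h2 with e | ⟨d0, hd0, p0, q0, e⟩
      · exact ⟨j, hj, nd d, w d, one hd pj, .inl ⟨e, by omega⟩, .inr ⟨d, hd, hp, pj, rfl⟩⟩
      rcases hB d0 hd0 d hd i hi p0 hp q0 e with k | k
      · refine ⟨i, hi, y, c1 + w d, hw.step hd k, ?_, .inr ⟨d, hd, hp, k, rfl⟩⟩
        rcases h1 with ⟨e1, e2⟩ | ⟨m, c0, a1, a2, a3, a4, a5⟩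
        · exact .inl ⟨e1, by omega⟩
        · exact .inr ⟨m, c0, a1, a2, a3, by omega, by omega⟩
      · obtain ⟨m, hm, c', hc', a⟩ := close hg (by omega : c < Z) hi hw h1
        exact ⟨j, hj, nd d, w d, one hd pj, .inr ⟨m, c', a, hn, k, by omega, by omega⟩,
          .inr ⟨d, hd, hp, pj, rfl⟩⟩
  obtain ⟨i, hi, y, c1, hw, h1, -⟩ := key
  exact close hg hc hi hw h1

end DcL

theorem dcK : DcK where
  trans := DcL.trans
  mono := DcL.mono
  s0 := fun _ Z _ _ _ P y z => DcL.s0 Z P y z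
  c0 := fun _ Z _ _ _ P B u v c => DcL.c0 Z P B u v c
  c1 := fun _ Z W _ _ _ P B Pw g u v c => DcL.c1 Z W P B Pw g u v c

end Pool.Agent.MP_1a6d78_lc.DS.SD

end MrgPart2

section MrgPart3

/-! A balanced closed interval. -/

namespace Pool.Agent.MP_1a6d78_lc.DS.SD

open Classical ED PR DD SC

namespace SpL

open Finset

theorem step (S : Finset ℕ) (pos o : ℕ → ℕ) (B : ℕ) (ho : ∀ d ∈ S, o d ∈ S ∧ o (o d) = d)
    (inj : ∀ a ∈ S, ∀ b ∈ S, pos a = pos b → a = b)
    (nc : ∀ a ∈ S, ∀ c ∈ S, ¬(pos a < pos c ∧ pos c < pos (o a) ∧ pos (o a) < pos (o c)))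
    (k : ℕ) : ∀ lo ≤ B, ∀ hi ≤ B,
      (∀ d ∈ S, lo ≤ pos d ∧ pos d < hi → lo ≤ pos (o d) ∧ pos (o d) < hi) →
      (S.filter fun d => lo ≤ pos d ∧ pos d < hi).card = k → S.card ≤ 3 * k →
      ∃ lo ≤ B, ∃ hi ≤ B, (∀ d ∈ S, lo ≤ pos d ∧ pos d < hi → lo ≤ pos (o d) ∧ pos (o d) < hi) ∧
        S.card ≤ 3 * (S.filter fun d => lo ≤ pos d ∧ pos d < hi).card ∧
        3 * (S.filter fun d => lo ≤ pos d ∧ pos d < hi).card ≤ 2 * S.card + 6 := by
  induction k using Nat.strong_induction_on with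
  | _ k ih =>
  intro lo h1 hi h2 cl hk hS
  by_cases c : 3 * k ≤ 2 * S.card + 6
  · exact ⟨lo, h1, hi, h2, cl, hk ▸ hS, hk ▸ c⟩
  obtain ⟨x, hx, mx⟩ := exists_min_image (S.filter fun d => lo ≤ pos d ∧ pos d < hi) pos
    (card_pos.1 (by omega))
  obtain ⟨xS, x1⟩ := mem_filter.1 hx
  have x2 := cl x xS x1
  have mn : ∀ d ∈ S, lo ≤ pos d ∧ pos d < hi → pos x ≤ pos d := fun d a b =>
    mx d (mem_filter.2 ⟨a, b⟩)
  have x3 := mn _ (ho x xS).1 x2
  have e1 : ∀ d ∈ S, pos (o d) = pos x → pos d = pos (o x) := fun d a b => by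
    rw [← inj _ (ho d a).1 _ xS b, (ho d a).2]
  have e2 : ∀ d ∈ S, pos (o d) = pos (o x) → pos d = pos x := fun d a b => by
    rw [← (ho d a).2, inj _ (ho d a).1 _ (ho x xS).1 b, (ho x xS).2]
  have cA : ∀ d ∈ S, pos x + 1 ≤ pos d ∧ pos d < pos (o x) →
      pos x + 1 ≤ pos (o d) ∧ pos (o d) < pos (o x) := fun d a b => by
    have := mn _ (ho d a).1 (cl d a (by omega))
    have := e1 d a
    have := e2 d a
    have := nc x xS d a
    omega
  have cC : ∀ d ∈ S, pos (o x) + 1 ≤ pos d ∧ pos d < hi →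
      pos (o x) + 1 ≤ pos (o d) ∧ pos (o d) < hi := fun d a b => by
    have p := cl d a (by omega)
    have := mn _ (ho d a).1 p
    have := e1 d a
    have := e2 d a
    have := cA _ (ho d a).1
    rw [(ho d a).2] at this
    omega
  have lt : ∀ l h, pos x < l → h ≤ hi → (S.filter fun d => l ≤ pos d ∧ pos d < h).card < k :=
    fun l h a b => hk ▸ card_lt_card ⟨fun d hd => by
      rw [mem_filter] at hd ⊢
      exact ⟨hd.1, by omega⟩, fun s => by
        have := (mem_filter.1 (s hx)).2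
        omega⟩
  have cv : (S.filter fun d => lo ≤ pos d ∧ pos d < hi) ⊆ {x, o x} ∪
      ((S.filter fun d => pos x + 1 ≤ pos d ∧ pos d < pos (o x)) ∪
        S.filter fun d => pos (o x) + 1 ≤ pos d ∧ pos d < hi) := fun d hd => by
    obtain ⟨a, b⟩ := mem_filter.1 hd
    have := mn d a b
    have := inj d a x xS
    have := inj d a _ (ho x xS).1
    simp only [mem_union, mem_insert, mem_singleton, mem_filter, a, true_and]
    omega
  have := (card_le_card cv).trans ((card_union_le _ _).trans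
    (Nat.add_le_add card_le_two (card_union_le _ _)))
  by_cases g : S.card ≤ 3 * (S.filter fun d => pos x + 1 ≤ pos d ∧ pos d < pos (o x)).card
  · exact ih _ (lt _ _ (by omega) (by omega)) _ (by omega) _ (by omega) cA rfl g
  · exact ih _ (lt _ _ (by omega) le_rfl) _ (by omega) _ h2 cC rfl (by omega)

end SpL

theorem spS : SpS := by
  intro G H U ok hU
  have mS : ∀ d, d ∈ (Finset.range G.n).filter U ↔ d < G.n ∧ U d := fun d => by
    rw [Finset.mem_filter, Finset.mem_range]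
  obtain ⟨lo, h1, hi, h2, cl, c1, c2⟩ := SpL.step ((Finset.range G.n).filter U) G.pos G.o
    (G.n * G.n) (fun d hd => ⟨(mS _).2 ⟨(ok.iv d ((mS d).1 hd).1).1,
      hU d ((mS d).1 hd).1 ((mS d).1 hd).2⟩, (ok.iv d ((mS d).1 hd).1).2⟩)
    (fun a ha b hb => ok.inj a ((mS a).1 ha).1 b ((mS b).1 hb).1)
    (fun a ha b hb => ok.nc a ((mS a).1 ha).1 b ((mS b).1 hb).1) _ 0 (Nat.zero_le _) _ le_rfl
    (fun d hd _ => ⟨Nat.zero_le _, (ok.lt _ (ok.iv d ((mS d).1 hd).1).1).1⟩) rfl (by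
      rw [Finset.filter_true_of_mem (p := fun d => 0 ≤ G.pos d ∧ G.pos d < G.n * G.n)
        fun d hd => ⟨Nat.zero_le _, (ok.lt d ((mS d).1 hd).1).1⟩]
      omega)
  have p1 : lo < G.P := Nat.lt_succ_of_le h1
  have p2 : hi < G.P := Nat.lt_succ_of_le h2
  have hI : ∀ d, G.In (lo * G.P + hi) d ↔ lo ≤ G.pos d ∧ G.pos d < hi := fun d => by
    rw [Ge.In, Nat.add_comm, Nat.add_mul_div_right _ _ (by omega), Nat.add_mul_mod_self_right,
      Nat.div_eq_of_lt p2, Nat.mod_eq_of_lt p2, Nat.zero_add]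
  have e : cnt G.n (fun d => U d ∧ G.In (lo * G.P + hi) d) =
      (((Finset.range G.n).filter U).filter fun d => lo ≤ G.pos d ∧ G.pos d < hi).card := by
    rw [Finset.filter_filter]
    exact congrArg _ (Finset.filter_congr_decidable .. |>.trans
      (Finset.filter_congr fun d _ => by rw [hI]))
  refine ⟨lo * G.P + hi, by nlinarith, fun d a b => ?_, e ▸ c1, e ▸ c2⟩
  rw [hI, hI]
  refine ⟨cl d ((mS d).2 ⟨a, b⟩), fun k => ?_⟩
  have := cl _ ((mS _).2 ⟨(ok.iv d a).1, hU d a b⟩) k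
  rwa [(ok.iv d a).2] at this

end Pool.Agent.MP_1a6d78_lc.DS.SD

end MrgPart3

section MrgPart4

/-! PROJECT SD: the regions. -/

namespace Pool.Agent.MP_1a6d78_lc.DS.SD

open Classical ED PR DD SC

namespace RgL

theorem dg_eq (a h : ℕ) : dg 2 a h = a / 2 ^ h % 2 := by
  have : ∀ h, itr (fun _ a => a / 2) a h = a / 2 ^ h := by
    intro h
    induction h with
    | zero => simp [itr]
    | succ h ih => rw [itr, ih, Nat.div_div_eq_div_mul, pow_succ]
  rw [dg, this]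

theorem dg_low (a w : ℕ) {h l : ℕ} (k : h < l) : dg 2 (a + w * 2 ^ l) h = dg 2 a h := by
  obtain ⟨m, rfl⟩ := Nat.exists_eq_add_of_lt k
  have e : w * 2 ^ (h + m + 1) = (w * 2 ^ m * 2) * 2 ^ h := by ring
  rw [dg_eq, dg_eq, e, Nat.add_mul_div_right _ _ (by positivity), Nat.add_mul_mod_self_right]

theorem dg_top {a l : ℕ} (b : ℕ) (k : a < 2 ^ l) : dg 2 (a + b * 2 ^ l) l = b % 2 := by
  rw [dg_eq, Nat.add_mul_div_right _ _ (by positivity), Nat.div_eq_of_lt k, zero_add]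

variable (G : Ge) (K : ℕ)

theorem cuts_succ (a l : ℕ) :
    G.cuts K a (l + 1) = El.upd K (G.cuts K a l) l (G.spl (G.U K a l)) := rfl

theorem mem_congr {C C' : List ℕ} {a a' l : ℕ} (h1 : ∀ h < l, gt C h = gt C' h)
    (h2 : ∀ h < l, dg 2 a h = dg 2 a' h) : G.mem C a l = G.mem C' a' l := by
  funext d
  exact propext (forall₂_congr fun h k => by rw [h1 h k, h2 h k])

theorem cuts_congr {a a' : ℕ} : ∀ l, (∀ h < l, dg 2 a h = dg 2 a' h) →
    G.cuts K a l = G.cuts K a' l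
  | 0, _ => rfl
  | l + 1, h => by
    have e := cuts_congr l fun i k => h i (by omega)
    rw [cuts_succ, cuts_succ, Ge.U, Ge.U, e,
      mem_congr G (fun _ _ => rfl) fun i k => h i (by omega)]

theorem U_congr {a a' l : ℕ} (h : ∀ i < l, dg 2 a i = dg 2 a' i) : G.U K a l = G.U K a' l := by
  rw [Ge.U, Ge.U, cuts_congr G K l h]
  exact mem_congr G (fun _ _ => rfl) h

theorem cuts_stab (a : ℕ) {h l : ℕ} (k : h < l) : ∀ l', l + l' ≤ K →
    gt (G.cuts K a (l + l')) h = gt (G.cuts K a l) h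
  | 0, _ => rfl
  | l' + 1, e => by
    rw [← add_assoc, cuts_succ, El.gt_upd _ _ _ (by omega), if_neg (by omega),
      cuts_stab a k l' (by omega)]

theorem suc (a l : ℕ) (k : l < K) (d : ℕ) : G.U K a (l + 1) d ↔ G.U K a l d ∧
    (G.In (G.spl (G.U K a l)) d ↔ dg 2 a l = 1) := by
  have e : gt (G.cuts K a (l + 1)) l = G.spl (G.U K a l) := by
    rw [cuts_succ, El.gt_upd _ _ _ k, if_pos rfl]
  rw [← e]
  constructor
  · intro h
    refine ⟨fun i hi => ?_, h l (by omega)⟩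
    rw [← cuts_stab G K a hi 1 k]
    exact h i (by omega)
  · rintro ⟨h1, h2⟩ i hi
    rcases Nat.lt_succ_iff_lt_or_eq.1 hi with c | rfl
    · rw [cuts_stab G K a c 1 k]
      exact h1 i c
    · exact h2

theorem pre (a w l l' : ℕ) (k : l + l' ≤ K) (d : ℕ) :
    G.U K (a + w * 2 ^ l) (l + l') d ↔ G.U K a l d ∧
      ∀ h < l', G.In (gt (G.cuts K (a + w * 2 ^ l) (l + l')) (l + h)) d ↔
        dg 2 (a + w * 2 ^ l) (l + h) = 1 := by
  rw [← U_congr G K fun i hi => dg_low a w hi]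
  constructor
  · intro h
    refine ⟨fun i hi => ?_, fun i hi => h (l + i) (by omega)⟩
    rw [← cuts_stab G K _ hi l' k]
    exact h i (by omega)
  · rintro ⟨h1, h2⟩ i hi
    by_cases c : i < l
    · rw [cuts_stab G K _ c l' k]
      exact h1 i c
    · obtain ⟨m, rfl⟩ := Nat.exists_eq_add_of_le (not_lt.1 c)
      exact h2 m (by omega)

theorem cov (a l : ℕ) (ha : a < 2 ^ l) (d : ℕ) (h : G.U K a l d) : ∀ l', l + l' ≤ K →
    ∃ w < 2 ^ l', G.U K (a + w * 2 ^ l) (l + l') d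
  | 0, _ => ⟨0, by simp, by simpa using h⟩
  | l' + 1, k => by
    obtain ⟨w, w1, w2⟩ := cov a l ha d h l' (by omega)
    have lt : a + w * 2 ^ l < 2 ^ (l + l') := by
      calc a + w * 2 ^ l < (w + 1) * 2 ^ l := by rw [add_mul, one_mul]; omega
        _ ≤ 2 ^ l' * 2 ^ l := Nat.mul_le_mul_right _ w1
        _ = 2 ^ (l + l') := by ring
    have key : ∀ b, b ≤ 1 → (G.In (G.spl (G.U K (a + w * 2 ^ l) (l + l'))) d ↔ b % 2 = 1) →
        ∃ w < 2 ^ (l' + 1), G.U K (a + w * 2 ^ l) (l + (l' + 1)) d := by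
      intro b b1 b2
      have e : a + (w + b * 2 ^ l') * 2 ^ l = a + w * 2 ^ l + b * 2 ^ (l + l') := by ring
      have b3 : b * 2 ^ l' ≤ 1 * 2 ^ l' := Nat.mul_le_mul_right _ b1
      refine ⟨w + b * 2 ^ l', by rw [pow_succ]; omega, ?_⟩
      rw [← add_assoc, suc G K _ _ (by omega), e, dg_top b lt,
        U_congr G K fun i hi => dg_low (a + w * 2 ^ l) b hi]
      exact ⟨w2, b2⟩
    by_cases c : G.In (G.spl (G.U K (a + w * 2 ^ l) (l + l'))) d
    · exact key 1 le_rfl (iff_of_true c rfl)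
    · exact key 0 (by omega) (iff_of_false c (by omega))

end RgL

theorem rgS : RgS := fun G K =>
  ⟨fun _ _ _ h => absurd h (Nat.not_lt_zero _), fun a w l l' _ k d => RgL.pre G K a w l l' k d,
    fun a l l' ha k d h => RgL.cov G K a l ha d h l' k, RgL.suc G K⟩

end Pool.Agent.MP_1a6d78_lc.DS.SD

end MrgPart4

section MrgPart5

/-! PROJECT SD, row SIZE: the regions are closed under the chords and shrink geometrically. -/

namespace Pool.Agent.MP_1a6d78_lc.DS.SD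

open Classical ED PR DD SC

namespace SzL

theorem cnt_split (n : ℕ) (P Q : ℕ → Prop) :
    cnt n (fun d => P d ∧ Q d) + cnt n (fun d => P d ∧ ¬Q d) = cnt n P := by
  induction n with
  | zero => simp [cnt]
  | succ n ih =>
    rw [cnt_succ, cnt_succ, cnt_succ]
    by_cases h1 : P n <;> by_cases h2 : Q n <;> simp [h1, h2] <;> omega

theorem pw (l L n t : ℕ) (hn : n < 2 ^ L) (hl : 2 * L ≤ l) (h : 3 ^ l * t ≤ 2 ^ l * n) :
    t = 0 := by
  obtain ⟨m, rfl⟩ := Nat.exists_eq_add_of_le hl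
  by_contra ht
  have h1 : 3 ^ (2 * L + m) ≤ 3 ^ (2 * L + m) * t :=
    Nat.le_mul_of_pos_right _ (Nat.pos_of_ne_zero ht)
  have h2 : 2 ^ (2 * L + m) * n < 2 ^ (2 * L + m) * 2 ^ L :=
    Nat.mul_lt_mul_of_pos_left hn (by positivity)
  have h3 : 2 ^ (2 * L + m) * 2 ^ L = 8 ^ L * 2 ^ m := by
    rw [show (8 : ℕ) = 2 ^ 3 by norm_num, ← pow_mul, ← pow_add, ← pow_add]
    congr 1
    ring
  have h4 : 3 ^ (2 * L + m) = 9 ^ L * 3 ^ m := by
    rw [show (9 : ℕ) = 3 ^ 2 by norm_num, ← pow_mul, ← pow_add]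
  have h5 : 8 ^ L * 2 ^ m ≤ 9 ^ L * 3 ^ m :=
    Nat.mul_le_mul (Nat.pow_le_pow_left (by norm_num) _) (Nat.pow_le_pow_left (by norm_num) _)
  omega

theorem main (hS : SpS) (G : Ge) (H K : ℕ) (hG : G.Ok H) (hR : RgK G K) (a l : ℕ) (hl : l ≤ K) :
    (∀ d < G.n, G.U K a l d → G.U K a l (G.o d)) ∧
      3 ^ l * (cnt G.n (G.U K a l) - 6) ≤ 2 ^ l * G.n := by
  induction l with
  | zero =>
    refine ⟨fun d _ _ => hR.zero a _, ?_⟩
    have := cnt_le G.n (G.U K a 0)
    simp only [pow_zero, one_mul]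
    omega
  | succ l ih =>
    obtain ⟨i1, i2⟩ := ih (by omega)
    have hb : G.bal (G.U K a l) (G.spl (G.U K a l)) := (lst_spec (hS G H _ hG i1)).2
    obtain ⟨b1, b2, b3⟩ := hb
    have hs := hR.suc a l (by omega)
    refine ⟨fun d hd h => ?_, ?_⟩
    · obtain ⟨h1, h2⟩ := (hs d).1 h
      exact (hs _).2 ⟨i1 d hd h1, (b1 d hd h1).symm.trans h2⟩
    · have key : 3 * (cnt G.n (G.U K a (l + 1)) - 6) ≤ 2 * (cnt G.n (G.U K a l) - 6) := by
        by_cases hd : dg 2 a l = 1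
        · have e : cnt G.n (G.U K a (l + 1)) =
              cnt G.n (fun d => G.U K a l d ∧ G.In (G.spl (G.U K a l)) d) :=
            cnt_congr fun d _ => by rw [hs d]; simp [hd]
          omega
        · have e : cnt G.n (G.U K a (l + 1)) =
              cnt G.n (fun d => G.U K a l d ∧ ¬G.In (G.spl (G.U K a l)) d) :=
            cnt_congr fun d _ => by rw [hs d]; simp [hd]
          have e2 := cnt_split G.n (G.U K a l) (G.In (G.spl (G.U K a l)))
          omega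
      calc 3 ^ (l + 1) * (cnt G.n (G.U K a (l + 1)) - 6)
          = 3 ^ l * (3 * (cnt G.n (G.U K a (l + 1)) - 6)) := by ring
        _ ≤ 3 ^ l * (2 * (cnt G.n (G.U K a l) - 6)) := Nat.mul_le_mul_left _ key
        _ = 2 * (3 ^ l * (cnt G.n (G.U K a l) - 6)) := by ring
        _ ≤ 2 * (2 ^ l * G.n) := Nat.mul_le_mul_left _ i2
        _ = 2 ^ (l + 1) * G.n := by ring

end SzL

theorem szS : SzS := by
  intro hS G H K hG hR a l hl
  obtain ⟨h1, h2⟩ := SzL.main hS G H K hG hR a l hl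
  refine ⟨h1, fun L hn hL => ?_⟩
  have := SzL.pw l L G.n _ hn hL h2
  omega

end Pool.Agent.MP_1a6d78_lc.DS.SD

end MrgPart5

section MrgPart6

/-! PROJECT SD, row REC: the recursion over the regions is exact below the threshold. -/

namespace Pool.Agent.MP_1a6d78_lc.DS.SD

open Classical ED PR DD SC

namespace RcL

theorem cnt_ex (n b W : ℕ) (Q : ℕ → ℕ → Prop) (h : ∀ w, cnt n (Q w) ≤ b) :
    cnt n (fun v => ∃ w < W, Q w v) ≤ W * b := by
  induction W with
  | zero => simp [cnt]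
  | succ W ih =>
    have k : cnt n (fun v => ∃ w < W + 1, Q w v) ≤ cnt n (fun v => (∃ w < W, Q w v) ∨ Q W v) :=
      cnt_mono fun v _ ⟨w, hw, q⟩ => by
        rcases Nat.lt_succ_iff_lt_or_eq.1 hw with e | rfl
        exacts [Or.inl ⟨w, e, q⟩, Or.inr q]
    have k2 := cnt_or n (fun v => ∃ w < W, Q w v) (Q W)
    have k3 := h W
    rw [Nat.succ_mul]
    omega

theorem cnt_img (n : ℕ) (U : ℕ → Prop) (f : ℕ → ℕ) :
    cnt n (fun v => ∃ d < n, U d ∧ f d = v) ≤ cnt n U := by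
  refine cnt_inj (fun v => if h : ∃ d < n, U d ∧ f d = v then h.choose else 0)
    (fun v _ h => ?_) fun a _ b _ ha hb e => ?_
  · simp only [dif_pos h]
    exact ⟨h.choose_spec.1, h.choose_spec.2.1⟩
  · simp only [dif_pos ha, dif_pos hb] at e
    rw [← ha.choose_spec.2.2, ← hb.choose_spec.2.2, e]

theorem cnt_B1 {G : Ge} {H : ℕ} (Λ : Pa) (ok : G.Ok H) (a l e : ℕ) :
    cnt G.n (G.B1 Λ a l e) ≤ Λ.W * Λ.i * (2 * (2 * H + 1)) := by
  rw [Nat.mul_assoc]
  refine cnt_ex _ _ _ _ fun w => cnt_ex _ _ _ _ fun h => (cnt_or _ _ _).trans ?_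
  have k1 := ok.cut (gt (G.cuts Λ.K (a + w * e) (l + Λ.i)) (l + h) / G.P)
  have k2 := ok.cut (gt (G.cuts Λ.K (a + w * e) (l + Λ.i)) (l + h) % G.P)
  omega

theorem sep {G : Ge} {z x b v : ℕ} (hx : x < G.n) (hb : b < G.n) (ex : G.nd x = v)
    (eb : G.nd b = v ∨ G.nd (G.τ b) = v) (h : ¬(G.In z x ↔ G.In z b)) :
    G.X (z / G.P) v ∨ G.X (z % G.P) v := by
  by_cases k : G.pos x < z / G.P ↔ G.pos b < z / G.P
  · refine Or.inr ⟨x, hx, b, hb, ex, eb, fun k2 => h ?_⟩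
    unfold Ge.In
    rw [k2, ← Nat.not_lt, ← Nat.not_lt, k]
  · exact Or.inl ⟨x, hx, b, hb, ex, eb, k⟩

theorem child {a l i w : ℕ} (ha : a < 2 ^ l) (hw : w < 2 ^ i) : a + w * 2 ^ l < 2 ^ (l + i) := by
  have : (w + 1) * 2 ^ l ≤ 2 ^ i * 2 ^ l := Nat.mul_le_mul_right _ hw
  rw [pow_add, Nat.mul_comm (2 ^ l)]
  rw [Nat.succ_mul] at this
  omega

end RcL

open RcL in
theorem rcS : RcS := by
  intro bk dk sp sz rg G Λ H ok pk D
  have R := rg G Λ.K
  have hK := pk.K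
  induction D with
  | zero => intro l a _ h1 h2; omega
  | succ D ih =>
    intro l a ha h1 h2 u v
    simp only [Ge.dr, Ge.bd]
    split_ifs with hl
    · refine ⟨fun h => bk.snd G.n Λ.N Λ.θ (Λ.θ + 1) _ _
        (Wu G.n G.nd G.β G.w (G.arc Λ a l)) (fun _ _ _ _ _ => dk.trans)
        (fun y z => dk.s0 _ _ _ _ _ _ y z) u v (Nat.lt_succ_of_le h), fun c hc hw => ?_⟩
      obtain ⟨m, hm, c', hc', ch⟩ := dk.c0 G.n (Λ.θ + 1) G.nd G.β G.w (G.arc Λ a l) (G.B0 Λ a l)
        u v c (fun d hd h => ⟨(ok.ar d hd h.1).1, (ok.lt d hd).2, d, hd, h.2, rfl⟩) hw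
      refine (bk.cpl _ _ _ _ _ _ _ _ _ ?_ (hm.trans hc) ch).trans hc'
      obtain ⟨L, hL, eL⟩ := pk.Lm
      have k1 := (sz sp G H Λ.K ok R a l (by omega)).2 L hL (by omega)
      have k2 : cnt G.n (G.B0 Λ a l) ≤ _ := cnt_img G.n (G.U Λ.K a l) G.nd
      have k3 : 2 ^ 2 ≤ Λ.W := by rw [pk.W]; exact Nat.pow_le_pow_right (by norm_num) pk.i
      have k4 : 2 ^ 2 * 2 * 2 ≤ Λ.W * Λ.i * (2 * (2 * H + 1)) :=
        Nat.mul_le_mul (Nat.mul_le_mul k3 pk.i) (by omega)
      have k5 := pk.N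
      omega
    · have lK : l + Λ.i ≤ Λ.K := by omega
      have IH := fun w (hw : w < Λ.W) => ih (l + Λ.i) (a + w * 2 ^ l)
        (child ha (pk.W ▸ hw)) (by omega) (by rw [Nat.succ_mul] at h2; omega)
      refine ⟨fun h => bk.snd G.n Λ.N Λ.θ (Λ.θ + 1) _ _
        (Wu G.n G.nd G.β G.w (G.arc Λ a l)) (fun _ _ _ _ _ => dk.trans)
        (fun y z k => ?_) u v (Nat.lt_succ_of_le h), fun c hc hw => ?_⟩
      · rcases mn_eq Λ.W (fun _ => True)
          (fun w => G.dr Λ D (l + Λ.i) (a + w * 2 ^ l) y z) (Λ.θ + 1) with e | ⟨w, hw, -, e⟩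
        · exact absurd e k.ne
        · rw [e] at k ⊢
          exact dk.mono (fun d _ q => ⟨q.1, ((R.pre a w l Λ.i ha lK d).1 q.2).1⟩)
            ((IH w hw y z).1 (Nat.lt_succ_iff.1 k))
      · obtain ⟨m, hm, c', hc', ch⟩ := dk.c1 G.n (Λ.θ + 1) Λ.W G.nd G.β G.w (G.arc Λ a l)
          (G.B1 Λ a l (2 ^ l)) (fun w => G.arc Λ (a + w * 2 ^ l) (l + Λ.i))
          (fun w => G.dr Λ D (l + Λ.i) (a + w * 2 ^ l)) u v c (by rw [pk.W]; positivity)
          (fun d hd h => by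
            obtain ⟨w, hw, q⟩ := R.cov a l Λ.i ha lK d h.2
            exact ⟨(ok.ar d hd h.1).1, (ok.lt d hd).2, w, pk.W ▸ hw, h.1, q⟩)
          (fun d hd d' hd' j hj _ p' q e => by
            by_cases k : G.U Λ.K (a + j * 2 ^ l) (l + Λ.i) d'
            · exact Or.inl ⟨p'.1, k⟩
            rw [R.pre a j l Λ.i ha lK d', not_and, not_forall₂] at k
            obtain ⟨h, hh, k⟩ := k p'.2
            refine Or.inr ⟨j, hj, h, hh, ?_⟩
            rcases (ok.ar d hd q.1).2 with t | t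
            · refine sep hd' hd rfl (Or.inr (t ▸ e)) fun s => k (s.trans ?_)
              exact ((R.pre a j l Λ.i ha lK d).1 q.2).2 h hh
            · refine sep hd' (ok.iv d hd).1 rfl (Or.inl (t ▸ e)) fun s => k (s.trans ?_)
              exact ((R.pre a j l Λ.i ha lK _).1
                ((sz sp G H Λ.K ok R _ _ lK).1 d hd q.2)).2 h hh)
          (fun j hj y z c' k q => (IH j hj y z).2 c' (Nat.lt_succ_iff.1 k) q)
          (Nat.lt_succ_of_le hc) hw
        exact (bk.cpl _ _ _ _ _ _ _ _ _ ((cnt_B1 Λ ok a l _).trans pk.N) (hm.trans hc) ch).trans hc'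

end Pool.Agent.MP_1a6d78_lc.DS.SD

end MrgPart6

section MrgPart7

/-! PROJECT SD, row CONT: the line of the contours. -/

namespace Pool.Agent.MP_1a6d78_lc.DS.SD

open Classical ED PR DD SC PR.Cont

namespace CtL

theorem core {n : ℕ} {ρ β τ : ℕ → ℕ} (hρ : Pm n ρ) (hβ : Iv n β) (hp : Pl n ρ β) (hτ : Iv n τ)
    (hs : Sb n τ β) (one : ∀ d < n, Sc n (fun d => ρ (τ d)) d (τ d))
    (br : ∀ d < n, τ d ≠ d → ¬Conn n ρ (del τ d) d (τ d)) :
    CtK n ρ τ (out (fun d => if Sc n (fun d => ρ (τ d)) d (β d) then β d else d) τ)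
      (ps n (fun d => ρ (τ d)) fun _ => True) := by
  have hf := hρ.comp hτ.pm
  have iv : Iv n fun d => if Sc n (fun d => ρ (τ d)) d (β d) then β d else d := fun d hd => by
    by_cases k : Sc n (fun d => ρ (τ d)) d (β d)
    · have k' : Sc n (fun d => ρ (τ d)) (β d) (β (β d)) := by
        rw [(hβ d hd).2]; exact k.symm hf hd
      simp only [if_pos k, if_pos k']
      exact hβ d hd
    · simp only [if_neg k]
      exact ⟨hd, trivial⟩
  have sb : Sb n (fun d => if Sc n (fun d => ρ (τ d)) d (β d) then β d else d) β := fun d _ => by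
    by_cases k : Sc n (fun d => ρ (τ d)) d (β d)
    · exact Or.inr (if_pos k)
    · exact Or.inl (if_neg k)
  have C := contS swapK n ρ _ τ (fun _ => True) hρ iv (hp.sub sb) hτ
    (fun d hd => (hs d hd).imp id fun e => by
      have k := one d hd
      rw [e] at k
      rw [e]
      exact (if_pos k).symm)
    (fun d hd => by
      by_cases k : Sc n (fun d => ρ (τ d)) d (β d)
      · simp only [if_pos k]; exact k.conn hρ hτ hd
      · simp only [if_neg k]; exact Conn.refl _ _ _ _)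
    br fun d hd => ⟨d, hd, Conn.refl _ _ _ _, trivial⟩
  have h : ∀ d < n, ∃ e < n, Sc n (fun d => ρ (τ d)) d e ∧ (fun _ => True) e := fun d hd =>
    ⟨d, hd, Sc.refl _ hd, trivial⟩
  have e1 : ∀ d < n, st n (fun d => ρ (τ d)) (fun _ => True) (τ d) =
      st n (fun d => ρ (τ d)) (fun _ => True) d := fun d hd => (st_eq hf hd (one d hd)).symm
  refine ⟨C.inj, fun d hd => ?_, C.ivo, C.nco, C.nci, fun f hd => ?_, fun a ha b hb k1 k2 => ?_⟩
  · have a := (st_spec h hd).1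
    have b := (tm_spec hf h hd).1
    have := Nat.mul_le_mul_right n (Nat.succ_le_of_lt a)
    rw [Nat.succ_mul] at this
    rw [ps_eq]
    omega
  · have s := C.succ (τ f) (hτ f hd).1
    rw [(hτ f hd).2] at s
    by_cases k : st n (fun d => ρ (τ d)) (fun _ => True) (ρ f) = ρ f
    · have hr := hρ.1 f hd
      have z : tm n (fun d => ρ (τ d)) (fun _ => True) (ρ f) = 0 :=
        Nat.le_zero.1 (lst_le (P := fun t => it n (fun d => ρ (τ d)) t
          (st n (fun d => ρ (τ d)) (fun _ => True) (ρ f)) = ρ f) (by omega) k)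
      have u := C.uniq f hd (ρ f) hr (Sc.step hρ.1 hd)
      refine Or.inr ⟨?_, fun d hd' l => ?_⟩
      · rw [ps_eq, ps_eq, z, u]
        omega
      · have b := (tm_spec hf h (hτ d hd').1).1
        rw [ps_eq, ps_eq, z] at l
        rw [ps_eq, ps_eq, z, e1 d hd']
        have c : st n (fun d => ρ (τ d)) (fun _ => True) d <
            st n (fun d => ρ (τ d)) (fun _ => True) (ρ f) := by
          by_contra c
          have := Nat.mul_le_mul_right n (not_lt.1 c)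
          omega
        have := Nat.mul_le_mul_right n (Nat.succ_le_of_lt c)
        rw [Nat.succ_mul] at this
        omega
    · exact Or.inl (s k)
  · have a1 := st_le hf h hb k1
    have a2 := st_le hf h (hτ a ha).1 k2.le
    rw [e1 a ha] at a2
    have u := (st_spec h ha).2.1
    have v := (st_spec h hb).2.1
    rw [le_antisymm a1 a2] at u
    exact (u.conn hρ hτ ha).trans (v.conn hρ hτ hb).symm

end CtL

theorem ctS : CtS := fun _ _ _ _ h k =>
  CtL.core h.ok.pm h.ok.iv h.ok.pl k.iv k.sb h.one k.br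

end Pool.Agent.MP_1a6d78_lc.DS.SD

end MrgPart7

section MrgPart8

/-! Few vertices are cut at a position of the line of the contours. -/

namespace Pool.Agent.MP_1a6d78_lc.DS.SD

open Classical ED PR DD SC

namespace CuL

variable {n : ℕ} {ρ τ o pos : ℕ → ℕ}

theorem one {P : ℕ → Prop} (h : ∀ a < n, ∀ b < n, P a → P b → a = b) : cnt n P ≤ 1 :=
  Finset.card_le_one.2 fun a ha b hb => by
    simp only [Finset.mem_filter, Finset.mem_range] at ha hb
    exact h a ha.1 b hb.1 ha.2 hb.2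

theorem zero {P : ℕ → Prop} (h : ∀ a < n, ¬P a) : cnt n P = 0 :=
  Finset.card_eq_zero.2 (Finset.filter_eq_empty_iff.2 fun a ha => h a (Finset.mem_range.1 ha))

theorem img (P : ℕ → Prop) (g : ℕ → ℕ) :
    cnt n (fun v => ∃ d < n, P d ∧ g d = v) ≤ cnt n P := by
  refine le_trans (Finset.card_le_card fun v hv => ?_) (Finset.card_image_le (f := g))
  simp only [Finset.mem_filter, Finset.mem_range, Finset.mem_image] at hv ⊢
  obtain ⟨-, d, h1, h2, h3⟩ := hv
  exact ⟨d, ⟨h1, h2⟩, h3⟩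

/-- The inside of the tree edge `d`. -/
def J (τ pos : ℕ → ℕ) (d e : ℕ) : Prop := pos d < pos e ∧ pos e ≤ pos (τ d)

theorem mid (hτ : Iv n τ) (K : CtK n ρ τ o pos) {d f : ℕ} (hd : d < n) (hf : f < n)
    (h1 : pos d < pos (τ f)) (h2 : pos (τ f) < pos (τ d)) : J τ pos d f := by
  have a1 := K.nci d hd (τ f) (hτ f hf).1
  have a2 := K.nci f hf d hd
  rw [(hτ f hf).2] at a1
  have a3 : pos f ≠ pos d := fun e => by
    rw [K.inj f hf d hd e] at h2
    omega
  unfold J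
  omega

theorem rot (hτ : Iv n τ) (K : CtK n ρ τ o pos) {d f : ℕ} (hd : d < n) (hf : f < n)
    (h : J τ pos d (ρ f)) : J τ pos d f := by
  obtain ⟨h1, h2⟩ := h
  rcases K.pre f hf with e | ⟨-, e⟩
  · by_cases c : pos (τ f) = pos d
    · have k := K.inj _ (hτ f hf).1 d hd c
      have k' : τ d = f := by rw [← k, (hτ f hf).2]
      rw [k'] at h2
      unfold J
      rw [k']
      omega
    · exact mid hτ K hd hf (by omega) (by omega)
  · have := e d hd h1
    omega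

theorem edge (hτ : Iv n τ) (K : CtK n ρ τ o pos) {d f : ℕ} (hd : d < n) (hf : f < n)
    (h : J τ pos d (τ f)) : J τ pos d f ∨ d = f := by
  obtain ⟨h1, h2⟩ := h
  rcases h2.eq_or_lt with c | c
  · exact Or.inr (hτ.pm.2 f hf d hd (K.inj _ (hτ f hf).1 _ (hτ d hd).1 c)).symm
  · exact Or.inl (mid hτ K hd hf h1 c)

theorem walk (hτ : Iv n τ) (K : CtK n ρ τ o pos) {a b k : ℕ} (h : Tw n ρ τ a b k) :
    cnt n (fun d => ¬J τ pos d a ∧ J τ pos d b) ≤ k := by
  induction h with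
  | nil k => exact (zero fun d _ c => c.1 c.2).le.trans (Nat.zero_le k)
  | rot _ hb ih => exact (cnt_mono fun d hd c => ⟨c.1, rot hτ K hd hb c.2⟩).trans ih
  | @edge b k _ hb ih =>
    refine (cnt_mono (Q := fun d => (¬J τ pos d a ∧ J τ pos d b) ∨ d = b) fun d hd c =>
      (edge hτ K hd hb c.2).imp_left fun e => ⟨c.1, e⟩).trans ((cnt_or _ _ _).trans ?_)
    exact Nat.add_le_add ih (one fun _ _ _ _ e e' => e.trans e'.symm)

theorem cross {H : ℕ} (hτ : Iv n τ) (K : CtK n ρ τ o pos)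
    (hH : ∀ a < n, ∀ b < n, Conn n ρ τ a b → Tw n ρ τ a b H) (p : ℕ) :
    cnt n (fun d => pos d < p ∧ p ≤ pos (τ d)) ≤ H := by
  rcases ((Finset.range n).filter fun d => pos d < p ∧ p ≤ pos (τ d)).eq_empty_or_nonempty with
    e | e
  · refine (zero fun d hd c => ?_).le.trans (Nat.zero_le H)
    exact Finset.filter_eq_empty_iff.1 e (Finset.mem_range.2 hd) c
  · obtain ⟨x, hx, mx⟩ := Finset.exists_min_image _ pos e
    obtain ⟨y, hy, my⟩ := Finset.exists_max_image _ pos e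
    simp only [Finset.mem_filter, Finset.mem_range] at hx mx hy my
    have c : Conn n ρ τ x (τ y) :=
      (K.blk x hx.1 y hy.1 (mx y hy) (by omega)).trans (Conn.gam ρ τ hy.1)
    refine (cnt_mono fun d hd k => ?_).trans (walk hτ K (hH x hx.1 _ (hτ y hy.1).1 c))
    have b1 := mx d ⟨hd, k⟩
    have b2 := my d ⟨hd, k⟩
    have b3 := K.nci d hd y hy.1
    unfold J
    by_cases q : pos d = pos y
    · rw [K.inj d hd y hy.1 q] at b1 ⊢
      omega
    · omega

end CuL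

open CuL

theorem cuS : CuS := by
  intro G ρ H hρ hτ K hn _ hH p
  have key : ∀ v, ∀ a < G.n, ∀ b < G.n, G.nd a = v → G.nd b = v → G.pos a < p → ¬G.pos b < p →
      (∃ d < G.n, (G.pos d < p ∧ p ≤ G.pos (G.τ d)) ∧ G.nd d = v) ∨
        ∃ z < G.n, G.pos z = p ∧ G.nd z = v := by
    intro v a ha b hb ea eb h1 h2
    refine (Sc.ind hρ.1 (Q := fun e => (G.nd e = v ∧ G.pos e < p) ∨
      ((∃ d < G.n, (G.pos d < p ∧ p ≤ G.pos (G.τ d)) ∧ G.nd d = v) ∨
        ∃ z < G.n, G.pos z = p ∧ G.nd z = v)) ha (Or.inl ⟨ea, h1⟩) (fun f hf k => ?_)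
      ((hn a ha b hb).1 (ea.trans eb.symm))).resolve_left fun c => h2 c.2
    rcases k with ⟨k1, k2⟩ | k
    · have e : G.nd (ρ f) = v :=
        ((hn f hf _ (hρ.1 f hf)).2 (Sc.step hρ.1 hf)).symm.trans k1
      by_cases c : G.pos (ρ f) < p
      · exact Or.inl ⟨e, c⟩
      · by_cases c' : p ≤ G.pos (G.τ f)
        · exact Or.inr (Or.inl ⟨f, hf, ⟨k2, c'⟩, k1⟩)
        · refine Or.inr (Or.inr ⟨ρ f, hρ.1 f hf, ?_, e⟩)
          rcases K.pre f hf with g | ⟨g, -⟩ <;> omega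
    · exact Or.inr k
  have key2 : ∀ v, ∀ a < G.n, ∀ b < G.n, G.nd a = v → G.nd b = v →
      ¬(G.pos a < p ↔ G.pos b < p) →
      (∃ d < G.n, (G.pos d < p ∧ p ≤ G.pos (G.τ d)) ∧ G.nd d = v) ∨
        ∃ z < G.n, G.pos z = p ∧ G.nd z = v := by
    intro v a ha b hb ea eb h
    by_cases c : G.pos a < p
    · exact key v a ha b hb ea eb c fun c' => h (iff_of_true c c')
    · exact key v b hb a ha eb ea (by_contra fun c' => h (iff_of_false c c')) c
  refine (cnt_mono (Q := fun v =>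
    ((∃ d < G.n, (G.pos d < p ∧ p ≤ G.pos (G.τ d)) ∧ G.nd d = v) ∨
      ∃ z < G.n, G.pos z = p ∧ G.nd z = v) ∨
    ∃ d < G.n, (G.pos d < p ∧ p ≤ G.pos (G.τ d)) ∧ G.nd (G.τ d) = v) fun v _ hv => ?_).trans ?_
  · obtain ⟨a, ha, b, hb, ea, eb | eb, h⟩ := hv
    · exact Or.inl (key2 v a ha b hb ea eb h)
    · by_cases c : G.pos b < p ↔ G.pos (G.τ b) < p
      · exact Or.inl (key2 v a ha _ (hτ b hb).1 ea eb fun k => h (k.trans c.symm))
      · by_cases c' : G.pos b < p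
        · exact Or.inr ⟨b, hb, ⟨c', not_lt.1 fun k => c (iff_of_true c' k)⟩, eb⟩
        · refine Or.inl (Or.inl ⟨G.τ b, (hτ b hb).1,
            ⟨by_contra fun k => c (iff_of_false c' k), ?_⟩, eb⟩)
          rw [(hτ b hb).2]
          exact not_lt.1 c'
  · have a0 := cross hτ K hH p
    have a1 := img (n := G.n) (fun d => G.pos d < p ∧ p ≤ G.pos (G.τ d)) G.nd
    have a2 := img (n := G.n) (fun d => G.pos d < p ∧ p ≤ G.pos (G.τ d)) fun d => G.nd (G.τ d)
    have a3 := img (n := G.n) (fun z => G.pos z = p) G.nd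
    have a4 : cnt G.n (fun z => G.pos z = p) ≤ 1 :=
      one fun a ha b hb e e' => K.inj a ha b hb (e.trans e'.symm)
    refine (cnt_or _ _ _).trans ((Nat.add_le_add_right (cnt_or _ _ _) _).trans ?_)
    omega

end Pool.Agent.MP_1a6d78_lc.DS.SD

end MrgPart8

section MrgPart9

/-! PROJECT SD, row GEO: the line of the contours of a shallow forest is sound. -/

namespace Pool.Agent.MP_1a6d78_lc.DS.SD

open Classical ED PR DD SC

namespace GeL

/-- Two darts of one tree are joined through the root. -/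
theorem tw_of_conn (T : TwK) {n k a b : ℕ} {ρ τ rt : ℕ → ℕ} (hρ : Pm n ρ) (hτ : Iv n τ)
    (h : ∀ d < n, rt (ρ d) = rt d ∧ rt (τ d) = rt d ∧ Tw n ρ τ d (rt d) k) (hb : b < n)
    (ha : a < n) (c : Conn n ρ τ a b) : Tw n ρ τ a b (2 * k) := by
  have e : rt a = rt b :=
    Conn.ind (r := fun x y => rt x = rt y) ⟨fun _ => rfl, Eq.symm, Eq.trans⟩
      (fun d hd => (h d hd).1.symm) (fun d hd => (h d hd).2.1.symm) c
  have h1 : Tw n ρ τ a (rt b) k := e ▸ (h a ha).2.2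
  have h2 : Tw n ρ τ (rt b) b k := T.symm hρ hτ hb (h b hb).2.2
  rw [two_mul]
  exact T.trans h1 h2

end GeL

theorem geS : GeS := by
  intro T C U M r l S us w hS hN hD hw
  have K := C M S us w hS hN
  obtain ⟨-, rt, hrt⟩ := hD
  have hl : ∀ d < M.n, M.nd d < M.n := fun d hd => (Mp.nd_spec hd).1
  refine ⟨K.inj, fun d hd => ⟨K.lt d hd, hl d hd⟩, K.iv, K.nco, fun d hd h => ⟨hw d hd h.1, ?_⟩,
    U (geo M us w (S.tau M)) M.ρ _ hS.ok.pm hN.iv K
      (fun a ha b hb => Mp.nd_iff hS.ok.pm ha hb) hl fun a ha b hb c =>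
        GeL.tw_of_conn T hS.ok.pm hN.iv
          (fun d hd => ⟨(hrt d hd).1, (hrt d hd).2.1, (hrt d hd).2.2.1⟩) hb ha c⟩
  by_cases e : S.tau M d = d
  · refine Or.inr ?_
    show M.β d = out (fun d => if Sc M.n (fun d => M.ρ (S.tau M d)) d (M.β d) then M.β d else d)
      (S.tau M) d
    have h2 : Sc M.n (fun d => M.ρ (S.tau M d)) d (M.β d) := h.2
    rw [out, if_pos e, if_pos h2]
  · exact Or.inl ((hN.sb d hd).resolve_left e).symm

end Pool.Agent.MP_1a6d78_lc.DS.SD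

end MrgPart9

section MrgPart10

/-! Walks on nodes and walks on darts. -/

namespace Pool.Agent.MP_1a6d78_lc.DS.SD

open Classical ED PR DD SC

namespace PtL

theorem rot {M : Mp} {us : ℕ → Prop} {w : ℕ → ℕ} {s a b c : ℕ} (hM : M.Ok) (ha : a < M.n)
    (hb : b < M.n) (e : M.nd a = M.nd b) (h : Dw M us w s a c) : Dw M us w s b c :=
  Sc.ind hM.pm.1 (Q := fun d => Dw M us w s d c) ha h (fun _ _ k => k.rot)
    ((Mp.nd_iff hM.pm ha hb).1 e)

theorem one {M : Mp} {us P : ℕ → Prop} {w : ℕ → ℕ} {s v c : ℕ} (hM : M.Ok) (hs : s < M.n)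
    (hP : ∀ d < M.n, P d → us d) (h : Wu M.n M.nd M.β w P (M.nd s) v c) :
    ∀ t < M.n, M.nd t = v → Dw M us w s t c := by
  induction h with
  | nil => exact fun t ht e => rot hM hs ht e.symm .nil
  | step _ hd pd ih =>
    exact fun t ht e => rot hM (hM.iv _ hd).1 ht e.symm ((ih _ hd rfl).edge (hP _ hd pd))

theorem two {M : Mp} {us : ℕ → Prop} {w : ℕ → ℕ} {s t c : ℕ} (hM : M.Ok) (hs : s < M.n)
    (hw : ∀ d < M.n, us d → 1 ≤ w d) (h : Dw M us w s t c) :
    t < M.n ∧ ∃ F : Finset ℕ, F.card ≤ c ∧ (∀ e ∈ F, e < M.n) ∧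
      ∀ P : ℕ → Prop, (∀ e ∈ F, us e → P e) → Wu M.n M.nd M.β w P (M.nd s) (M.nd t) c := by
  induction h with
  | nil => exact ⟨hs, ∅, by simp, by simp, fun P _ => .nil⟩
  | rot _ ih =>
    obtain ⟨ha, F, f1, f2, f3⟩ := ih
    refine ⟨hM.pm.1 _ ha, F, f1, f2, fun P hP => ?_⟩
    rw [← (Mp.nd_iff hM.pm ha (hM.pm.1 _ ha)).2 (Sc.step hM.pm.1 ha)]
    exact f3 P hP
  | @edge a c _ ua ih =>
    obtain ⟨ha, F, f1, f2, f3⟩ := ih
    refine ⟨(hM.iv _ ha).1, insert a F, ?_, fun e he => ?_, fun P hP => ?_⟩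
    · have := Finset.card_insert_le a F
      have := hw a ha ua
      omega
    · rcases Finset.mem_insert.1 he with rfl | he
      · exact ha
      · exact f2 e he
    · exact (f3 P fun e he => hP e (Finset.mem_insert_of_mem he)).step ha
        (hP a (Finset.mem_insert_self _ _) ua)

end PtL

theorem ptS : PtS := fun _ _ _ _ t _ hM hs ht =>
  ⟨fun _ hP h => PtL.one hM hs hP h t ht rfl, fun hw h => (PtL.two hM hs hw h).2⟩

end Pool.Agent.MP_1a6d78_lc.DS.SD

end MrgPart10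

section MrgPart11

/-! PROJECT SD, row TOP: the value at the top decides the short distance. -/

namespace Pool.Agent.MP_1a6d78_lc.DS.SD

open Classical ED PR DD SC

namespace TpL

theorem n_lt (x : List Bool) : num x 0 < 2 ^ lg x :=
  (nle x 0).trans_lt (Nat.lt_pow_succ_log_self (by omega) _)

theorem pa_ok (K : ℕ) (x : List Bool) : (pa K x).Ok (num x 0) (2 * (K * lg x * rr x)) where
  i := by
    have : 0 < Nat.log 2 (mx x) := Nat.log_pos (by omega) (by unfold mx; omega)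
    show 2 ≤ Nat.log 2 (mx x) + 1
    omega
  W := rfl
  Lm := ⟨lg x, n_lt x, rfl⟩
  N := le_rfl
  K := le_rfl

theorem depth (K : ℕ) (x : List Bool) :
    (pa K x).Lm + (pa K x).i < 0 + Dx x * (pa K x).i + 1 := by
  show 2 * lg x + (Nat.log 2 (mx x) + 1) <
    0 + (2 * lg x / (Nat.log 2 (mx x) + 1) + 2) * (Nat.log 2 (mx x) + 1) + 1
  have := Nat.lt_div_mul_add (a := 2 * lg x) (Nat.succ_pos (Nat.log 2 (mx x)))
  rw [add_mul]
  simp only [Nat.succ_eq_add_one] at this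
  omega

theorem coin_le (K : ℕ) (x : List Bool) : 16 ^ (3 * (K * lg x) + 1) ≤ bt K x := by
  have h1 : 16 ^ (3 * (K * lg x) + 1) = (2 ^ lg x) ^ (12 * K) * 2 ^ 4 := by
    rw [show 16 = 2 ^ 4 from rfl, ← pow_mul, ← pow_mul, ← pow_add]
    congr 1
    ring
  rw [h1]
  calc (2 ^ lg x) ^ (12 * K) * 2 ^ 4
      ≤ ((x.length + 2) ^ 2) ^ (12 * K) * (x.length + 2) ^ 4 :=
        Nat.mul_le_mul (Nat.pow_le_pow_left (two_lg x) _) (Nat.pow_le_pow_left (by omega) _)
    _ = (x.length + 2) ^ (2 * (12 * K) + 4) := by rw [← pow_mul, ← pow_add]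
    _ ≤ bt K x := Nat.pow_le_pow_right (by omega) (by omega)

end TpL

open TpL in
theorem tpS : TpS := by
  intro hRun hNd hSl hGn hEnd hGd hKl hKey hCo hEn hTw hCt hCu hGe hPt hBf hDc hSp hSz hRg hRc
    K x hK hM ht hw
  have hs : num x 1 < num x 0 := hM.s
  have e1 : min (num x 0) ((inp x).nd (num x 1)) = (inp x).nd (num x 1) :=
    min_eq_right (Mp.nd_spec (M := inp x) hs).1.le
  have e2 : min (num x 0) ((inp x).nd (num x 2)) = (inp x).nd (num x 2) :=
    min_eq_right (Mp.nd_spec (M := inp x) ht).1.le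
  have hgx : ∀ p < bt K x, gx K x p = geo (inp x) (us x) (wt x)
      ((run (inp x) (rr x) (cyy (K * lg x) p) (cjj p) (K * lg x)).tau (inp x)) := by
    intro p hp
    unfold gx
    rw [min_eq_right hp.le, hEn hRun hNd K x p hM]
  have main : ∀ p < bt K x,
      (dt K x p ≤ num x 3 → Wu (inp x).n (inp x).nd (inp x).β (wt x) ((gx K x p).arc (pa K x) 0 0)
        ((inp x).nd (num x 1)) ((inp x).nd (num x 2)) (dt K x p)) ∧
      ∀ c ≤ num x 3, Wu (inp x).n (inp x).nd (inp x).β (wt x) ((gx K x p).arc (pa K x) 0 0)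
        ((inp x).nd (num x 1)) ((inp x).nd (num x 2)) c → dt K x p ≤ c := by
    intro p hp
    obtain ⟨r1, r2⟩ := hRun (inp x) (rr x) (cyy (K * lg x) p) (cjj p) (K * lg x) hM
    have hG : (gx K x p).Ok (2 * (K * lg x * rr x)) := by
      rw [hgx p hp]
      exact hGe hTw hCt hCu _ _ _ _ _ _ r1 (hNd _ _ r1) r2 hw
    have := hRc hBf hDc hSp hSz hRg (gx K x p) (pa K x) _ hG (pa_ok K x) (Dx x) 0 0
      (by norm_num) (Nat.add_pos_right _ (Nat.succ_pos _)) (depth K x)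
      ((inp x).nd (num x 1)) ((inp x).nd (num x 2))
    unfold dt
    rw [e1, e2]
    exact this
  constructor
  · intro h
    unfold sd at h
    split_ifs at h with h'
    obtain ⟨p, hp, hd⟩ := h'
    exact ⟨_, hd, (hPt (inp x) (us x) (wt x) _ _ _ hM hs ht).1 _ (fun d _ k => k.1.1)
      ((main p hp).1 hd)⟩
  · rintro ⟨c, hc, hD⟩
    obtain ⟨F, f1, f2, f3⟩ := (hPt (inp x) (us x) (wt x) _ _ c hM hs ht).2 hw hD
    have hT : 1 ≤ K * lg x := Nat.mul_pos (by omega) (Nat.succ_pos _)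
    obtain ⟨cy, cj, g1, g2, g3⟩ := hGd hRun hNd hSl hKl hKey (inp x) (num x 3 + 1) (K * lg x) F hM
      (by omega) hT (by omega) f2
    obtain ⟨p, hp, hp'⟩ := hCo.1 _ cy cj g1 g2
    have hpb : p < bt K x := hp.trans_le (coin_le K x)
    have g4 := g3 (hEnd hRun hNd hSl hGn (inp x) _ cy cj K (lg x) hM hK (n_lt x))
    rw [← hCo.2.2 (inp x) _ _ _ cy cj _ hp'] at g4
    have nk := hNd _ _ (hRun (inp x) (rr x) (cyy (K * lg x) p) (cjj p) (K * lg x) hM).1
    have hWu := f3 ((gx K x p).arc (pa K x) 0 0) fun e he hu => by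
      refine ⟨?_, (hRg _ _).zero 0 e⟩
      rw [hgx p hpb]
      exact ⟨hu, (nk.cs e (f2 e he) _ (hM.iv e (f2 e he)).1).1 (g4 e he)⟩
    unfold sd
    rw [if_pos ⟨p, hpb, ((main p hpb).2 c hc hWu).trans hc⟩]

end Pool.Agent.MP_1a6d78_lc.DS.SD

end MrgPart11
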