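import Pool.Agent.MP_1a6d78_lc.SD.Spec
import Pool.Agent.MP_1a6d78_lc.GE.ElimC
import Pool.Agent.MP_1a6d78_lc.DD.All

/-! PROJECT SD: computability (rows packed). -/

section MrgPart1

/-! PROJECT SD, row KIT: the parameters are functions of the plain calculus. -/

namespace Pool.Agent.MP_1a6d78_lc.DS.SD

open Classical ED PR DD SC

namespace KtL

variable {κ : List Bool → ℕ}

theorem p2_eq (b y : ℕ) : itr (fun _ a => min b (2 * a)) (min b 1) y = min b (2 ^ y) := by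
  induction y with
  | zero => simp [itr]
  | succ y ih =>
    simp only [itr, ih, pow_succ]
    omega

theorem p2 {b y : List Bool → Env → ℕ} (hb : Cn κ b) (hy : Cn κ y) :
    Cn κ fun x ρ => min (b x ρ) (2 ^ y x ρ) :=
  K.cg ((kitOne κ).fold (fun x ρ _ a => min (b x ρ) (2 * a)) (fun x ρ _ => b x ρ) hy
    (K.min hb (K.c 1)) (K.min (K.w (K.w hb)) (K.mul (K.c 2) (K.v 0))) (K.w hb)
    fun _ _ _ _ _ _ h => (min_le_left _ _).trans h) fun _ _ => p2_eq _ _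

theorem log_eq (a : ℕ) : cnt a (fun i => min (a + 1) (2 ^ (i + 1)) ≤ a) = Nat.log 2 a := by
  unfold PR.cnt
  refine (congrArg Finset.card ?_).trans (Finset.card_range (Nat.log 2 a))
  ext m
  simp only [Finset.mem_filter, Finset.mem_range]
  rcases Nat.eq_zero_or_pos a with k | k
  · simp [k]
  · rw [← Nat.succ_le_iff (n := Nat.log 2 a), Nat.le_log_iff_pow_le (by omega) k.ne']
    have := Nat.lt_two_pow_self (n := m + 1)
    simp only [Nat.succ_eq_add_one]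
    omega

theorem log {a : List Bool → Env → ℕ} (ha : Cn κ a) : Cn κ fun x ρ => Nat.log 2 (a x ρ) :=
  K.cg (K.cnt (P := fun x ρ i => min (a x ρ + 1) (2 ^ (i + 1)) ≤ a x ρ) ha
    (K.le (p2 (K.add (K.w ha) (K.c 1)) (K.add (K.v 0) (K.c 1))) (K.w ha))) fun _ _ => log_eq _

theorem usC (i : PiK 1) (κ : List Bool → ℕ) : P1 κ fun x _ => us x :=
  K.eq (K.app (i.num κ) (K.add (K.add (K.add (K.add (K.c 4) (nmC i κ 0)) (nmC i κ 0))
    (nmC i κ 0)) (K.v 0))) (K.c 1)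

theorem btC (J : ℕ) (κ : List Bool → ℕ) : Cn κ fun x _ => bt J x :=
  K.pow _ (K.add (kitOne κ).len (K.c 2))

theorem rrC (i : PiK 1) (κ : List Bool → ℕ) : Cn κ fun x _ => rr x :=
  K.pow _ (K.mul (K.c 2) (K.add (nmC i κ 3) (K.c 1)))

theorem mxC (i : PiK 1) (κ : List Bool → ℕ) : Cn κ fun x _ => mx x :=
  K.add (K.add (nmC i κ 3) (lgC κ)) (K.c 2)

theorem iC (i : PiK 1) (κ : List Bool → ℕ) : Cn κ fun x _ => Nat.log 2 (mx x) + 1 :=
  K.add (log (mxC i κ)) (K.c 1)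

theorem WC (i : PiK 1) (κ : List Bool → ℕ) : Cn κ fun x _ => 2 ^ (Nat.log 2 (mx x) + 1) :=
  K.cg (p2 (K.mul (K.c 2) (mxC i κ)) (iC i κ)) fun x _ => by
    have h : mx x ≠ 0 := by unfold mx; omega
    have := Nat.pow_log_le_self 2 h
    rw [pow_succ]
    omega

theorem cbC (J : ℕ) {p l : List Bool → Env → ℕ} (hp : Cn κ p) (hl : Cn κ l) :
    Cn κ fun x ρ => cb (J * lg x) (p x ρ) (l x ρ) :=
  K.app (K.sel (P := fun x ρ i => 8 ≤ dg 16 (p x ρ) i)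
    (K.add (K.mul (K.c 3) (K.mul (K.c J) (lgC κ))) (K.c 1))
    (K.le (K.c 8) (dgC (K.c 16) (K.w hp) (K.v 0)))) hl

theorem cy_le (J : ℕ) (x : List Bool) (p l : ℕ) : 2 ^ cyy (J * lg x) p l ≤ bt J x := by
  have h1 : cb (J * lg x) p (l + 1) ≤ 3 * (J * lg x) + 1 := sel_le _ _ _
  have h2 : cyy (J * lg x) p l ≤ lg x * (3 * J) := by
    have : lg x * (3 * J) = 3 * (J * lg x) := by ring
    unfold cyy
    omega
  calc 2 ^ cyy (J * lg x) p l ≤ 2 ^ (lg x * (3 * J)) := Nat.pow_le_pow_right (by omega) h2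
    _ = (2 ^ lg x) ^ (3 * J) := pow_mul _ _ _
    _ ≤ ((x.length + 2) ^ 2) ^ (3 * J) := Nat.pow_le_pow_left (two_lg x) _
    _ = (x.length + 2) ^ (2 * (3 * J)) := (pow_mul _ _ _).symm
    _ ≤ bt J x := Nat.pow_le_pow_right (by omega) (by omega)

end KtL

open KtL

theorem ktS : KtS := fun i =>
  { p2 := fun _ _ _ hb hy => p2 hb hy
    log := fun _ _ ha => log ha
    us := usC i
    bt := btC
    rr := rrC i
    mx := mxC i
    pi := fun J κ => ⟨iC i κ, WC i κ, K.mul (K.c 2) (lgC κ),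
      K.mul (K.mul (WC i κ) (iC i κ)) (K.mul (K.c 2) (K.add (K.mul (K.c 2) (K.mul (K.c 2)
        (K.mul (K.mul (K.c J) (lgC κ)) (rrC i κ)))) (K.c 1))),
      nmC i κ 3, K.add (K.mul (K.c 2) (lgC κ)) (iC i κ),
      K.add (K.div (K.mul (K.c 2) (lgC κ)) (iC i κ)) (K.c 2)⟩
    co := fun J κ _ _ hp hl =>
      ⟨K.cg (p2 (btC J κ) (K.sub (K.sub (cbC J hp (K.add hl (K.c 1))) (cbC J hp hl)) (K.c 1)))
        fun x _ => min_eq_right (cy_le J x _ _), K.mod (dgC (K.c 16) hp hl) (K.c 8)⟩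
    pw := fun κ => K.all (P := fun x _ d => us x d → 1 ≤ wt x d) (nmC i κ 0)
      (K.imp (usC i κ) (K.le (K.c 1) (i.wt κ))) }

end Pool.Agent.MP_1a6d78_lc.DS.SD

end MrgPart1

section MrgPart2

/-! PROJECT SD, rows ELIMC and ITEK. -/

namespace Pool.Agent.MP_1a6d78_lc.DS.SD

open Classical ED PR DD SC

theorem itS : ItS := fun _ _ _ _ hf hP h => GE.iteK hf hP fun x _ p => h x p

theorem elS : ElS := by
  intro _ r m b J hb hJ β W base step Φ hβ hW hC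
  have l1 : ∀ x, 1 ≤ lg x := fun _ => Nat.succ_pos _
  have b1 : ∀ x, J * lg x ≤ β x := fun x => by
    obtain ⟨b, rfl⟩ : ∃ e, b = e + 1 := ⟨b - 1, by omega⟩
    rw [hβ]
    exact Nat.mul_le_mul (hJ.trans (Nat.pow_le_pow_left (by omega) _))
      ((lg_le x).trans (Nat.le_succ _))
  obtain ⟨E, hE⟩ := GE.elimC r (b + m + 2 * ((m + 2) * (J + 1))) (fun _ => 0) (fun _ => m) β
    (fun x => J * lg x) W base step Φ
    (fun κ h => ⟨(hC κ h).1, (hC κ h).2.1, (hC κ h).2.2.1⟩) (fun _ => PR.K.c 0)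
    (fun κ => PR.K.cg (PR.K.pow b (PR.K.add (kitOne κ).len (PR.K.c 2))) fun x _ => by rw [hβ])
    (fun κ => PR.K.mul (PR.K.c _) (lgC κ)) (fun κ h => (hC κ h).2.2.2)
    (fun x => by
      refine ⟨by rw [hβ]; exact Nat.pow_le_pow_right (by omega) (by omega),
        (const_le_pw x.length m).trans (pw_mono le_rfl (by omega)), ?_⟩
      have := l1 x
      calc _ ≤ (m + 2) ^ ((J + 1) * lg x) := Nat.pow_le_pow_right (by omega) (by nlinarith)
        _ ≤ (2 ^ (m + 2)) ^ ((J + 1) * lg x) := Nat.pow_le_pow_left Nat.lt_two_pow_self.le _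
        _ = (2 ^ lg x) ^ ((m + 2) * (J + 1)) := by rw [← pow_mul, ← pow_mul]; congr 1; ring
        _ ≤ ((x.length + 2) ^ 2) ^ ((m + 2) * (J + 1)) := Nat.pow_le_pow_left (two_lg x) _
        _ ≤ _ := by rw [← pow_mul]; exact Nat.pow_le_pow_right (by omega) (by omega))
    (fun x => by rw [hβ]; exact Nat.one_le_pow _ _ (by omega)) b1 hW
  refine ⟨E * (J + 1) * (J + 1), fun κ hκ => hE κ fun x => le_trans ?_ (hκ x)⟩
  have := l1 x
  calc E * (0 + J * lg x + 1) * (J * lg x + 1) ≤ E * ((J + 1) * lg x) * ((J + 1) * lg x) := by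
        gcongr <;> nlinarith
    _ = _ := by ring

end Pool.Agent.MP_1a6d78_lc.DS.SD

end MrgPart2

section MrgPart3

/-! PROJECT SD, row Q1: the tests that do not depend on the seed are computable. -/

namespace Pool.Agent.MP_1a6d78_lc.DS.SD

open Classical ED PR DD SC

namespace Q1L

abbrev q12 : List Bool → ℕ := fun _ => 12

theorem amin_le (n : ℕ) (f : ℕ → ℕ) : amin n f ≤ n := by
  unfold amin lst
  rcases Set.eq_empty_or_nonempty {m | m < n ∧ ∀ m' < n, f m ≤ f m'} with h | h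
  · rw [h, Nat.sInf_empty]
    exact Nat.zero_le _
  · exact (Nat.sInf_mem h).1.le

theorem amin_cg (n : ℕ) (f : ℕ → ℕ) : amin n (fun t => f (min n t)) = amin n f := by
  unfold amin lst
  congr 1
  ext m
  refine and_congr_right fun hm => forall_congr' fun m' => forall_congr' fun hm' => ?_
  simp only [min_eq_right hm.le, min_eq_right hm'.le]

variable {κ β : List Bool → ℕ} {S : List Bool → Orc → St} {a b t : List Bool → Orc → Env → ℕ}

theorem nC (i : PiK 1) : Nq κ q12 β fun x _ _ => (inp x).n := Q.lift (i.M κ).1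

theorem bC (i : PiK 1) (ha : Nq κ q12 β a) : Nq κ q12 β fun x g ρ => (inp x).β (a x g ρ) :=
  Q.op1 (fun x => (inp x).β) (i.M κ).2.2.1 ha

theorem nx (h : StQ κ β S) (ha : Nq κ q12 β a) :
    Nq κ q12 β fun x g ρ => (S x g).nx (a x g ρ) := Q.app h.nx ha

theorem dep (h : StQ κ β S) (ha : Nq κ q12 β a) :
    Nq κ q12 β fun x g ρ => (S x g).dep (a x g ρ) := Q.app h.dep ha

theorem go (i : PiK 1) (h : StQ κ β S) (ht : Nq κ q12 β t) (hk : ∀ x g ρ, t x g ρ ≤ 12)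
    (ha : Nq κ q12 β a) : Nq κ q12 β fun x g ρ => (S x g).go (inp x) (t x g ρ) (a x g ρ) :=
  Q.it (nC i) h.nx ht hk ha

theorem cost (i : PiK 1) (h : StQ κ β S) (ha : Nq κ q12 β a) :
    Nq κ q12 β fun x g ρ => (S x g).cost (inp x) (a x g ρ) :=
  Q.add (Q.add (Q.c 1) (dep h ha)) (dep h (bC i ha))

theorem eidC (i : PiK 1) (ha : Nq κ q12 β a) : Nq κ q12 β fun x g ρ => eid (inp x) (a x g ρ) :=
  Q.min ha (bC i ha)

theorem key (i : PiK 1) (h : StQ κ β S) (ha : Nq κ q12 β a) :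
    Nq κ q12 β fun x g ρ => (S x g).key (inp x) (a x g ρ) :=
  Q.add (Q.mul (cost i h ha) (nC i)) (eidC i ha)

theorem fc (i : PiK 1) (h : StQ κ β S) (ha : Nq κ q12 β a) :
    Nq κ q12 β fun x g ρ => (S x g).fc (inp x) (a x g ρ) := nx h (bC i ha)

theorem exgo (i : PiK 1) (h : StQ κ β S) (e : ℕ) (he : e ≤ 1) (ha : Nq κ q12 β a)
    (hb : Nq κ q12 β b) :
    Pq κ q12 β fun x g ρ => ∃ t < 6, (S x g).go (inp x) (t + e) (a x g ρ) = b x g ρ :=
  Q.cgP (Q.ex (P := fun x g ρ t => (S x g).go (inp x) (min 6 t + e) (a x g ρ) = b x g ρ) (Q.c 6)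
    (fun _ _ _ => (by decide : 6 ≤ 12))
    (Q.eq (go i h (Q.add (Q.min (Q.c 6) (Q.v 0)) (Q.c e)) (fun _ _ _ => by omega) (Q.w ha))
      (Q.w hb))) fun x g ρ =>
    exists_congr fun t => and_congr_right fun ht => by rw [min_eq_right ht.le]

theorem dl (i : PiK 1) (k : KtK) (h : StQ κ β S) (ha : Nq κ q12 β a) :
    Pq κ q12 β fun x g ρ => (S x g).dl (inp x) (rr x) (a x g ρ) :=
  Q.or (Q.lt (Q.lift (k.rr κ)) (cost i h ha)) (Q.or (exgo i h 0 (by decide) ha (bC i ha))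
    (Q.and (Q.eq (fc i h (fc i h ha)) ha) (Q.lt (key i h (fc i h ha)) (key i h ha))))

theorem nm (i : PiK 1) (h : StQ κ β S) (ha : Nq κ q12 β a) :
    Nq κ q12 β fun x g ρ => (S x g).nm (inp x) (a x g ρ) :=
  Q.cg (Q.fold (fun x g ρ j acc => min acc ((S x g).go (inp x) (min 6 j) (a x g ρ)))
    (fun _ _ _ _ => 0) (Q.c 6) (fun _ _ _ => (by decide : 6 ≤ 12)) ha
    (Q.min (Q.v 0) (go i h (Q.min (Q.c 6) (Q.v 1)) (fun _ _ _ => by omega) (Q.w (Q.w ha))))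
    (Q.c 0) fun _ _ _ _ _ _ h _ => (min_le_left _ _).trans h) fun x g ρ => by
      simp [St.nm, mn, itr]

theorem ce (i : PiK 1) (h : StQ κ β S) (ha : Nq κ q12 β a) :
    Nq κ q12 β fun x g ρ => (S x g).ce (inp x) (a x g ρ) :=
  go i h (Q.cg (Q.amin (f := fun x g ρ j =>
      (S x g).cost (inp x) ((S x g).go (inp x) (min 8 j) (a x g ρ))) (Q.c 8)
      (fun _ _ _ => (by decide : 8 ≤ 12))
      (cost i h (go i h (Q.min (Q.c 8) (Q.v 0)) (fun _ _ _ => by omega) (Q.w ha))))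
      fun x g ρ => amin_cg 8 fun j => (S x g).cost (inp x) ((S x g).go (inp x) j (a x g ρ)))
    (fun _ _ _ => (amin_le 8 _).trans (by decide)) ha

theorem cf0 (i : PiK 1) (h : StQ κ β S) (ha : Nq κ q12 β a) (ht : Nq κ q12 β t) :
    Nq κ q12 β fun x g ρ => (S x g).cf0 (inp x) (a x g ρ) (t x g ρ) :=
  eidC i (Q.ite (Q.eq (Q.mod ht (Q.c 2)) (Q.c 0)) (nx h ha) (fc i h ha))

theorem cf1 (i : PiK 1) (h : StQ κ β S) (ha : Nq κ q12 β a) (ht : Nq κ q12 β t)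
    (hk : ∀ x g ρ, t x g ρ ≤ 12) :
    Nq κ q12 β fun x g ρ => (S x g).cf1 (inp x) (a x g ρ) (t x g ρ) :=
  have h1 := go i h (Q.div ht (Q.c 2)) (fun x g ρ => (Nat.div_le_self _ _).trans (hk x g ρ)) ha
  nm i h (bC i (Q.ite (Q.eq (Q.mod ht (Q.c 2)) (Q.c 0)) h1 (fc i h h1)))

end Q1L

open Q1L in
theorem q1S : Q1S := fun i k _ _ _ h =>
  { cost := cost i h (Q.v 0)
    Del := Q.or (dl i k h (Q.v 0)) (dl i k h (bC i (Q.v 0)))
    low := exgo i h 1 le_rfl (Q.v 0) (Q.v 0)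
    nm := nm i h (Q.v 0)
    ce := ce i h (Q.v 0)
    cf := fun _ _ ha ht hk => ⟨go i h ht hk ha, cf0 i h ha ht, cf1 i h ha ht hk⟩ }

end Pool.Agent.MP_1a6d78_lc.DS.SD

end MrgPart3

section MrgPart4

/-! SQ2: one round of the levelled contraction is computable with few calls. -/

namespace Pool.Agent.MP_1a6d78_lc.DS.SD

open Classical ED PR DD SC

namespace Q2L

/-- Everything the row may use. -/
structure Cx (κ β : List Bool → ℕ) (S : List Bool → Orc → St) : Prop where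
  n : Cn κ fun x _ => (inp x).n
  b : F1 κ fun x _ => (inp x).β
  s : StQ κ β S
  k : Q1K κ β S

variable {κ β : List Bool → ℕ} {S : List Bool → Orc → St}
  {q u j d : List Bool → Orc → Env → ℕ}

theorem hn (c : Cx κ β S) : Nq κ (fun _ => 12) β fun x _ _ => (inp x).n := Q.lift c.n

theorem hb (c : Cx κ β S) (hd' : Nq κ (fun _ => 12) β d) :
    Nq κ (fun _ => 12) β fun x g ρ => (inp x).β (d x g ρ) :=
  Q.op1 (fun x a => (inp x).β a) c.b hd'

theorem eid (c : Cx κ β S) (hd' : Nq κ (fun _ => 12) β d) :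
    Nq κ (fun _ => 12) β fun x g ρ => SD.eid (inp x) (d x g ρ) :=
  Q.min hd' (hb c hd')

theorem col (c : Cx κ β S) (hq : Nq κ (fun _ => 12) β q) (hd' : Nq κ (fun _ => 12) β d) :
    Pq κ (fun _ => 12) β fun x g ρ => SD.col (inp x) (q x g ρ) (d x g ρ) := by
  have m : Nq κ (fun _ => 12) β fun x _ _ => 2 * (inp x).n + 3 :=
    Q.add (Q.mul (Q.c 2) (hn c)) (Q.c 3)
  have h2 : Nq κ (fun _ => 12) β fun x g ρ => q x g ρ / 2 := Q.div hq (Q.c 2)
  exact Q.and (Q.lt hd' (hn c))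
    (Q.eq (Q.mod (Q.mod (Q.mul (Q.mod (Q.div h2 m) m) hd') (Q.mod h2 m)) (Q.c 48))
      (Q.div (Q.div h2 m) m))

theorem hA (c : Cx κ β S) (hd' : Nq κ (fun _ => 12) β d) :
    Pq κ (fun _ => 12) β fun x g ρ => (S x g).A (d x g ρ) :=
  Q.appP (P := fun x g _ => (S x g).A) c.s.A hd'

theorem hDel (c : Cx κ β S) (hd' : Nq κ (fun _ => 12) β d) :
    Pq κ (fun _ => 12) β fun x g ρ => (S x g).Del (inp x) (rr x) (d x g ρ) :=
  Q.appP (P := fun x g _ => (S x g).Del (inp x) (rr x)) c.k.Del hd'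

theorem cost (c : Cx κ β S) (hd' : Nq κ (fun _ => 12) β d) :
    Nq κ (fun _ => 12) β fun x g ρ => (S x g).cost (inp x) (d x g ρ) :=
  Q.app (f := fun x g _ => (S x g).cost (inp x)) c.k.cost hd'

theorem nm (c : Cx κ β S) (hd' : Nq κ (fun _ => 12) β d) :
    Nq κ (fun _ => 12) β fun x g ρ => (S x g).nm (inp x) (d x g ρ) :=
  Q.app (f := fun x g _ => (S x g).nm (inp x)) c.k.nm hd'

theorem idx : Nq κ (fun _ => 12) β fun _ _ ρ => min 12 (hd (ρ 0)) := Q.min (Q.c 12) (Q.v 0)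

theorem s0 (c : Cx κ β S) (hq : Nq κ (fun _ => 12) β q) (hd' : Nq κ (fun _ => 12) β d) :
    Pq κ (fun _ => 12) β fun x g ρ => (S x g).s0 (inp x) (rr x) (q x g ρ) (d x g ρ) := by
  have f := (c.k.cf _ _ (Q.w hd') idx fun _ _ _ => min_le_left _ _).2.1
  have a := Q.all (n := fun _ _ _ => 12) (P := fun x g ρ i =>
      (S x g).cf0 (inp x) (d x g ρ) (min 12 i) ≠ d x g ρ →
        ¬SD.col (inp x) (q x g ρ) ((S x g).cf0 (inp x) (d x g ρ) (min 12 i)))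
    (Q.c 12) (fun _ _ _ => le_rfl) (Q.imp (Q.ne f (Q.w hd')) (Q.not (col c (Q.w hq) f)))
  refine Q.and (hDel c hd') (Q.and (col c hq hd') (Q.cgP a fun x g ρ => ?_))
  refine forall₂_congr fun i hi => ?_
  rw [min_eq_right hi.le]

theorem s1 (c : Cx κ β S) (hq : Nq κ (fun _ => 12) β q) (hd' : Nq κ (fun _ => 12) β d) :
    Pq κ (fun _ => 12) β fun x g ρ => (S x g).s1 (inp x) (rr x) (q x g ρ) (d x g ρ) := by
  have f0 := c.k.cf _ _ (Q.w hd') idx fun _ _ _ => min_le_left _ _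
  have f := f0.2.2
  have a := Q.all (n := fun _ _ _ => 12) (P := fun x g ρ i =>
      (S x g).cf1 (inp x) (d x g ρ) (min 12 i) ≠ d x g ρ →
        ¬SD.col (inp x) (q x g ρ) ((S x g).cf1 (inp x) (d x g ρ) (min 12 i)))
    (Q.c 12) (fun _ _ _ => le_rfl) (Q.imp (Q.ne f (Q.w hd')) (Q.not (col c (Q.w hq) f)))
  have b := Q.all (n := fun _ _ _ => 6) (P := fun x g ρ i =>
      ¬(S x g).Del (inp x) (rr x) ((S x g).go (inp x) (min 12 i) (d x g ρ)))
    (Q.c 6) (fun _ _ _ => by norm_num) (Q.not (hDel c f0.1))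
  refine Q.and (Q.cgP b fun x g ρ => ?_) (Q.and (col c hq hd') (Q.cgP a fun x g ρ => ?_))
  · refine forall₂_congr fun i hi => ?_
    rw [min_eq_right (by omega : i ≤ 12)]
  · refine forall₂_congr fun i hi => ?_
    rw [min_eq_right hi.le]

theorem par (hq : Nq κ (fun _ => 12) β q) (k : ℕ) :
    Pq κ (fun _ => 12) β fun x g ρ => q x g ρ % 2 = k := Q.eq (Q.mod hq (Q.c 2)) (Q.c k)

theorem sl (c : Cx κ β S) (hq : Nq κ (fun _ => 12) β q) (hd' : Nq κ (fun _ => 12) β d) :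
    Pq κ (fun _ => 12) β fun x g ρ => (S x g).sl (inp x) (rr x) (q x g ρ) (d x g ρ) :=
  Q.and (par hq 1) (Q.and (hA c hd')
    (Q.and (Q.appP (P := fun x g _ => (S x g).low (inp x)) c.k.low hd') (s1 c hq (nm c hd'))))

theorem pk (c : Cx κ β S) (hu : Nq κ (fun _ => 12) β u) (hj : Nq κ (fun _ => 12) β j)
    (hd' : Nq κ (fun _ => 12) β d) :
    Nq κ (fun _ => 12) β fun x g ρ => (S x g).pk (inp x) (u x g ρ) (j x g ρ) (d x g ρ) := by
  have go := (c.k.cf _ _ hd' (Q.mod hj (Q.c 8)) fun x g ρ => by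
    have := Nat.mod_lt (j x g ρ) (by norm_num : 0 < 8)
    omega).1
  have ce : Nq κ (fun _ => 12) β fun x g ρ => (S x g).ce (inp x) (d x g ρ) :=
    Q.app (f := fun x g _ => (S x g).ce (inp x)) c.k.ce hd'
  exact Q.ite (Q.le (cost c go) (Q.mul hu (cost c ce))) go ce

theorem ch (c : Cx κ β S) (hu : Nq κ (fun _ => 12) β u) (hj : Nq κ (fun _ => 12) β j)
    (hd' : Nq κ (fun _ => 12) β d) :
    Nq κ (fun _ => 12) β fun x g ρ => (S x g).ch (inp x) (u x g ρ) (j x g ρ) (d x g ρ) :=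
  pk c hu hj (nm c hd')

theorem con (c : Cx κ β S) (hq : Nq κ (fun _ => 12) β q) (hu : Nq κ (fun _ => 12) β u)
    (hj : Nq κ (fun _ => 12) β j) (hd' : Nq κ (fun _ => 12) β d) :
    Pq κ (fun _ => 12) β fun x g ρ =>
      (S x g).con (inp x) (rr x) (q x g ρ) (u x g ρ) (j x g ρ) (d x g ρ) :=
  Q.and (Q.lt hd' (hn c)) (Q.or (Q.and (sl c hq hd') (Q.eq (ch c hu hj hd') hd'))
    (Q.and (sl c hq (hb c hd')) (Q.eq (ch c hu hj (hb c hd')) (hb c hd'))))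

theorem ev (c : Cx κ β S) (hq : Nq κ (fun _ => 12) β q) (hd' : Nq κ (fun _ => 12) β d) :
    Pq κ (fun _ => 12) β fun x g ρ => q x g ρ % 2 = 0 ∧ (S x g).A (d x g ρ) ∧
      (S x g).s0 (inp x) (rr x) (q x g ρ) (SD.eid (inp x) (d x g ρ)) :=
  Q.and (par hq 0) (Q.and (hA c hd') (s0 c hq (eid c hd')))

theorem mq (c : Cx κ β S) (hq : Nq κ (fun _ => 12) β q) (hd' : Nq κ (fun _ => 12) β d) :
    Pq κ (fun _ => 12) β fun x g ρ => (S x g).mq (inp x) (rr x) (q x g ρ) (d x g ρ) :=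
  Q.or (Q.and (sl c hq hd') (Q.eq (nm c hd') hd')) (ev c hq hd')

theorem sv (c : Cx κ β S) (hq : Nq κ (fun _ => 12) β q) (hu : Nq κ (fun _ => 12) β u)
    (hj : Nq κ (fun _ => 12) β j) (hd' : Nq κ (fun _ => 12) β d) :
    Pq κ (fun _ => 12) β fun x g ρ =>
      (S x g).sv (inp x) (rr x) (q x g ρ) (u x g ρ) (j x g ρ) (d x g ρ) :=
  Q.and (hA c hd') (Q.not (Q.or (con c hq hu hj hd') (ev c hq hd')))

theorem ps1 (c : Cx κ β S) (hq : Nq κ (fun _ => 12) β q) (hu : Nq κ (fun _ => 12) β u)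
    (hj : Nq κ (fun _ => 12) β j) (hd' : Nq κ (fun _ => 12) β d) :
    Nq κ (fun _ => 12) β fun x g ρ =>
      (S x g).ps1 (inp x) (rr x) (q x g ρ) (u x g ρ) (j x g ρ) (d x g ρ) :=
  Q.app (f := fun x g _ => (S x g).nx) c.s.nx (Q.ite (con c hq hu hj hd') (hb c hd') hd')

theorem n3 (c : Cx κ β S) (hq : Nq κ (fun _ => 12) β q) (hu : Nq κ (fun _ => 12) β u)
    (hj : Nq κ (fun _ => 12) β j) (hd' : Nq κ (fun _ => 12) β d) :
    Nq κ (fun _ => 12) β fun x g ρ =>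
      (S x g).n3 (inp x) (rr x) (q x g ρ) (u x g ρ) (j x g ρ) (d x g ρ) := by
  have p1 := ps1 c hq hu hj hd'
  have p2 := ps1 c hq hu hj p1
  have p3 := ps1 c hq hu hj p2
  exact Q.ite (sv c hq hu hj p1) p1 (Q.ite (sv c hq hu hj p2) p2 p3)

theorem inc (c : Cx κ β S) (hq : Nq κ (fun _ => 12) β q) (hu : Nq κ (fun _ => 12) β u)
    (hj : Nq κ (fun _ => 12) β j) (hd' : Nq κ (fun _ => 12) β d) :
    Nq κ (fun _ => 12) β fun x g ρ =>
      (S x g).inc (inp x) (rr x) (q x g ρ) (u x g ρ) (j x g ρ) (d x g ρ) :=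
  Q.ite (sl c hq hd') (cost c (ch c hu hj hd')) (Q.c 0)

end Q2L

theorem q2S : Q2S := by
  intro hP _ κ β S hS hK
  have c : Q2L.Cx κ β S := ⟨(hP.M κ).1, (hP.M κ).2.2.1, hS, hK⟩
  have hq : Nq κ (fun _ => 12) β fun _ _ ρ => hd (ρ 0) := Q.v 0
  have hu : Nq κ (fun _ => 12) β fun _ _ ρ => hd (ρ 1) := Q.v 1
  have hj : Nq κ (fun _ => 12) β fun _ _ ρ => hd (ρ 2) := Q.v 2
  have h0 : Nq κ (fun _ => 12) β fun _ _ ρ => gt (ρ 3) 0 := Q.gt (Q.vL 3) (Q.c 0)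
  have h1 : Nq κ (fun _ => 12) β fun _ _ ρ => gt (ρ 3) 1 := Q.gt (Q.vL 3) (Q.c 1)
  have sv := Q2L.sv c hq hu hj h1
  have tr := Q.and (Q.lt h1 (Q2L.hn c))
    (Q.or (Q.appP (P := fun x g _ => (S x g).tr) hS.tr h1) (Q2L.con c hq hu hj h1))
  have nx := Q.ite (i := fun _ _ _ => propDecidable _) sv (Q2L.n3 c hq hu hj h1) h1
  have dep := Q.ite (i := fun _ _ _ => propDecidable _) sv
    (Q.add (Q.app (f := fun x g _ => (S x g).dep) hS.dep h1) (Q2L.inc c hq hu hj h1)) (Q.c 0)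
  exact Q.ite (Q.eq h0 (Q.c 0)) (Q.ite sv (Q.c 1) (Q.c 0))
    (Q.ite (Q.eq h0 (Q.c 1)) (Q.ite tr (Q.c 1) (Q.c 0))
      (Q.ite (Q.eq h0 (Q.c 2)) (Q.ite (Q2L.mq c hq h1) (Q.c 1) (Q.c 0))
        (Q.ite (Q.eq h0 (Q.c 3)) nx dep)))

end Pool.Agent.MP_1a6d78_lc.DS.SD

end MrgPart4

section MrgPart5

/-! PROJECT SD, row CHAIN. -/

namespace Pool.Agent.MP_1a6d78_lc.DS.SD

open Classical ED PR DD SC

namespace ChL

variable {κ q : List Bool → ℕ}

theorem pairC (hP : PiK 1) (h2 : ∀ x, 2 ≤ κ x) (k i : ℕ) :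
    Cm κ fun x ρ => [k, min (num x 0) (hd (ρ i))] :=
  (kitOne κ).tab (n := fun _ => 2)
    (fun x ρ e => if e = 0 then k else min (num x 0) (hd (ρ i))) h2 (PR.K.c 2)
    (PR.K.ite (PR.K.eq (PR.K.v 0) (PR.K.c 0)) (PR.K.c k) (PR.K.min (hP.M κ).1 (PR.K.v (i + 1))))

theorem Qs_le (K : ℕ) (x : List Bool) : Qs (inp x) ≤ bt K x := by
  have h1 : num x 0 ≤ x.length := nle x 0
  have h2 : (2 * num x 0 + 3) ^ 2 ≤ (2 * (x.length + 2)) ^ 2 := Nat.pow_le_pow_left (by omega) 2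
  have h3 : 2 ^ 9 ≤ (x.length + 2) ^ 9 := Nat.pow_le_pow_left (by omega) 9
  calc Qs (inp x) = 96 * (2 * num x 0 + 3) ^ 2 := by simp only [Qs, inp]; ring
    _ ≤ 96 * (2 * (x.length + 2)) ^ 2 := Nat.mul_le_mul_left _ h2
    _ = 384 * (x.length + 2) ^ 2 := by ring
    _ ≤ (x.length + 2) ^ 9 * (x.length + 2) ^ 2 := Nat.mul_le_mul_right _ (by omega)
    _ = (x.length + 2) ^ 11 := by ring
    _ ≤ _ := Nat.pow_le_pow_right (by omega) (by omega)

theorem n_le (K : ℕ) (x : List Bool) : num x 0 + 4 ≤ bt K x := by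
  refine le_trans ?_ (Qs_le K x)
  simp only [Qs, inp]
  nlinarith [Nat.zero_le (num x 0)]

theorem callQ (hP : PiK 1) (h2 : ∀ x, 2 ≤ κ x) (K k : ℕ) (hk : k ≤ 4) :
    Nq κ q (bt K) fun x g ρ => g [k, min (num x 0) (hd (ρ 0))] :=
  Q.call (Q.liftL (pairC hP h2 k 0)) fun x _ ρ a ha => by
    have := n_le K x
    simp only [List.mem_cons, List.not_mem_nil, or_false] at ha
    omega

theorem ltQ (hP : PiK 1) (K : ℕ) : Pq κ q (bt K) fun x _ ρ => hd (ρ 0) < num x 0 :=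
  Q.lt (Q.v 0) (Q.lift (hP.M κ).1)

theorem stQ (hP : PiK 1) (h2 : ∀ x, 2 ≤ κ x) (K : ℕ) :
    StQ κ (bt K) fun x g => dec (num x 0) g where
  A := Q.and (ltQ hP K) (Q.eq (callQ hP h2 K 0 (by omega)) (Q.c 1))
  tr := Q.and (ltQ hP K) (Q.eq (callQ hP h2 K 1 (by omega)) (Q.c 1))
  nx := Q.ite (ltQ hP K) (callQ hP h2 K 3 (by omega)) (Q.v 0)
  dep := Q.ite (ltQ hP K) (callQ hP h2 K 4 (by omega)) (Q.c 0)

theorem alC (hP : PiK 1) : P1 κ fun x _ => al0 (inp x) :=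
  PR.K.and (PR.K.lt (PR.K.v 0) (hP.M κ).1) (PR.K.ne (hP.M κ).2.2.1 (PR.K.v 0))

theorem nxC (hP : PiK 1) : F1 κ fun x _ => (st0 (inp x)).nx :=
  PR.K.ite (alC hP)
    (PR.K.it (hP.M κ).1 (hP.M κ).2.1
      (PR.K.add (PR.K.lst
        (P := fun x ρ t => al0 (inp x) (it (inp x).n (inp x).ρ (t + 1) (hd (ρ 0)))) (hP.M κ).1
        (PR.K.appP (alC hP) (PR.K.it (hP.M κ).1 (hP.M κ).2.1
          (PR.K.add (PR.K.v 0) (PR.K.c 1)) (PR.K.v 1)))) (PR.K.c 1)) (PR.K.v 0))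
    (PR.K.v 0)

theorem baseC (hP : PiK 1) : Cn κ fun x ρ => enc (st0 (inp x)) (ρ 0) := by
  have g0 : Cn κ fun _ ρ => gt (ρ 0) 0 := PR.K.gt (PR.K.vL 0) (PR.K.c 0)
  have g1 : Cn κ fun _ ρ => gt (ρ 0) 1 := PR.K.gt (PR.K.vL 0) (PR.K.c 1)
  refine PR.K.cg (PR.K.ite (i := fun _ _ => propDecidable _) (PR.K.eq g0 (PR.K.c 0))
    (PR.K.appP (alC hP) g1)
    (PR.K.ite (i := fun _ _ => propDecidable _) (PR.K.eq g0 (PR.K.c 3)) (PR.K.app (nxC hP) g1)
      (PR.K.c 0))) fun x ρ => ?_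
  unfold enc
  by_cases h0 : gt (ρ 0) 0 = 0
  · rw [if_pos h0, if_pos h0]; rfl
  · rw [if_neg h0, if_neg h0]
    by_cases h3 : gt (ρ 0) 0 = 3
    · rw [if_pos h3, if_neg (by omega), if_neg (by omega), if_pos h3]
    · rw [if_neg h3, if_neg h3]
      simp [st0]

end ChL

open ChL in
theorem chS : ChS := by
  intro hR hE hP hK h1 h2 K
  obtain ⟨A, hA⟩ := hE hR 2 12 (32 * K + 80) K (by omega)
    (Nat.lt_two_pow_self.le.trans (Nat.pow_le_pow_right (by omega) (by omega)))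
    (bt K) (fun x => Qs (inp x)) (fun x => enc (st0 (inp x))) (stq K) phi rfl (Qs_le K)
    fun κ hκ => by
      have n0 : Cn κ fun x _ => num x 0 := (hP.M κ).1
      have hS := stQ hP hκ K
      obtain ⟨c1, c2⟩ := hK.co K κ _ _ (PR.K.v 0) (PR.K.v 2)
      refine ⟨baseC hP, ?_, ?_, ?_⟩
      · exact M.bind _ _ (Q.lift c2) (M.bind _ _ (Q.w (Q.lift c1))
          (M.ren _ (fun i => match i with
            | 0 => 3
            | 1 => 0
            | 2 => 1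
            | _ => 5) (h2 hP hK κ _ _ hS (h1 hP hK κ _ _ hS))))
      · exact Q.sub (Q.lift n0) (Q.cnt (P := fun x g _ => (dec (num x 0) g).mr) (Q.lift n0)
          (fun x _ _ => (Nat.le_add_right _ 4).trans (n_le K x))
          (Q.and (ltQ hP K) (Q.eq (callQ hP hκ K 2 (by omega)) (Q.c 1))))
      · exact PR.K.mul (PR.K.c 2) (PR.K.mul (PR.K.c 48)
          (PR.K.pow 2 (PR.K.add (PR.K.mul (PR.K.c 2) n0) (PR.K.c 3))))
  refine ⟨A + 2, fun κ hκ => ?_⟩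
  have l1 : ∀ x, 1 ≤ lg x ^ 2 := fun x => Nat.one_le_pow _ _ (Nat.succ_pos _)
  have k2 : ∀ x, 2 ≤ κ x := fun x => by
    have := hκ x
    have := l1 x
    nlinarith [Nat.zero_le (A * lg x ^ 2)]
  have hc := hA κ fun x => (Nat.mul_le_mul_right _ (Nat.le_add_right A 2)).trans (hκ x)
  have hd' : Cn κ fun x ρ => chn K x (min (bt K x) (hd (ρ 0))) [1, min (num x 0) (hd (ρ 1))] :=
    (kitA κ).bind _ _ (pairC hP k2 1 1) ((kitA κ).ren _ (fun i => match i with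
      | 0 => 1
      | _ => 0) hc)
  exact PR.K.and (PR.K.lt (PR.K.v 1) (hP.M κ).1) (PR.K.eq hd' (PR.K.c 1))

end Pool.Agent.MP_1a6d78_lc.DS.SD

end MrgPart5

section MrgPart6

/-! PROJECT SD, row GC: the line of the contours is computable. -/

namespace Pool.Agent.MP_1a6d78_lc.DS.SD

open Classical ED PR DD SC

namespace GcL

variable {κ : List Bool → ℕ}

theorem two {R : List Bool → ℕ → ℕ → Prop} (h : Cp κ fun x ρ => R x (hd (ρ 0)) (hd (ρ 1))) :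
    P2 κ R := fun a b ha hb =>
  (kitA κ).bind (fun x ρ => [b x ρ])
    (fun x ρ => [if R x (a x (tl ρ)) (hd (ρ 0)) then 1 else 0]) hb
    ((kitA κ).bind (fun x ρ => [a x (tl ρ)])
      (fun x ρ => [if R x (hd (ρ 0)) (hd (ρ 1)) then 1 else 0]) (K.w ha) h)

variable {n : List Bool → Env → ℕ} {φ : List Bool → Env → ℕ → ℕ} {rt : List Bool → Env → ℕ → Prop}

theorem stC (hn : Cn κ n) (hφ : F1 κ φ) (hr : P1 κ rt) :
    F1 κ fun x ρ => st (n x ρ) (φ x ρ) (rt x ρ) :=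
  K.lst (P := fun x ρ e => Sc (n x (tl ρ)) (φ x (tl ρ)) (hd (ρ 0)) e ∧ rt x (tl ρ) e) (K.w hn)
    (K.and (K.sc (K.w (K.w hn)) (K.wF (K.wF hφ)) (K.v 1) (K.v 0))
      (K.appP (K.wP1 (K.wP1 hr)) (K.v 0)))

theorem psC (hn : Cn κ n) (hφ : F1 κ φ) (hr : P1 κ rt) :
    F1 κ fun x ρ => ps (n x ρ) (φ x ρ) (rt x ρ) :=
  K.add (K.mul (stC hn hφ hr) (K.w hn))
    (K.lst (P := fun x ρ t => it (n x (tl ρ)) (φ x (tl ρ)) t
      (PR.st (n x (tl ρ)) (φ x (tl ρ)) (rt x (tl ρ)) (hd (ρ 0))) = hd (ρ 0)) (K.w hn)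
      (K.eq (K.it (K.w (K.w hn)) (K.wF (K.wF hφ)) (K.v 0)
        (K.app (K.wF (K.wF (stC hn hφ hr))) (K.v 1))) (K.v 1)))

theorem geoC {M : List Bool → Mp} {us : List Bool → ℕ → Prop} {w : List Bool → ℕ → ℕ}
    {τ : List Bool → ℕ → ℕ → ℕ} (hM : Mp.C κ M) (hnd : F1 κ fun x _ => (M x).nd)
    (hu : P1 κ fun x _ => us x) (hw : F1 κ fun x _ => w x) (hτ : F2 κ τ) :
    GeC κ fun x p => geo (M x) (us x) (w x) (τ x p) := by
  obtain ⟨hn, hρ, hβ, -⟩ := hM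
  have hφ : ∀ p, Cn κ p → F1 κ fun x ρ d => (M x).ρ (τ x (p x ρ) d) := fun p hp =>
    K.app hρ (hτ _ _ (K.w hp) (K.v 0))
  have hs : ∀ p d, Cn κ p → Cn κ d → Cp κ fun x ρ =>
      Sc (M x).n (fun d => (M x).ρ (τ x (p x ρ) d)) (d x ρ) ((M x).β (d x ρ)) :=
    fun p d hp hd => K.sc hn (hφ p hp) hd (K.app hβ hd)
  exact
    { n := hn
      nd := fun _ _ _ hb => K.app hnd hb
      β := fun _ _ _ hb => K.app hβ hb
      τ := hτ
      o := fun a b ha hb => K.ite (K.eq (hτ a b ha hb) hb)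
        (K.ite (hs a b ha hb) (K.app hβ hb) hb) hb
      pos := fun a b ha hb => K.app (psC (rt := fun _ _ _ => True) hn (hφ a ha)
        (K.cgP (K.eq (K.c 0) (K.c 0)) fun _ _ => by simp)) hb
      w := fun _ _ _ hb => K.app hw hb
      ar := fun a b ha hb => K.and (K.appP hu hb) (hs a b ha hb) }

end GcL

theorem gcS : GcS := fun hP hK K κ h =>
  GcL.geoC (τ := fun x p => (dec (num x 0) (chn K x (min (bt K x) p))).tau (inp x))
    (hP.M κ) (hP.nd κ) (hK.us κ) (hP.wt κ) fun a b ha hb =>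
      PR.K.ite (GcL.two (R := fun x p d => (dec (num x 0) (chn K x (min (bt K x) p))).tr d) h
        a b ha hb) (PR.K.app (hP.M κ).2.2.1 hb) hb

end Pool.Agent.MP_1a6d78_lc.DS.SD

end MrgPart6

section MrgPart7

/-! PROJECT SD, row RC: the regions are computable. -/

namespace Pool.Agent.MP_1a6d78_lc.DS.SD

open Classical ED PR DD SC

namespace RgCL

variable {κ : List Bool → ℕ} {G : List Bool → ℕ → Ge} {k : List Bool → ℕ}
  {p a l d z q v : List Bool → Env → ℕ}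

theorem iffC {P Q : List Bool → Env → Prop} (hP : Cp κ P) (hQ : Cp κ Q) :
    Cp κ fun x ρ => P x ρ ↔ Q x ρ :=
  K.cgP (K.and (K.imp hP hQ) (K.imp hQ hP)) fun _ _ => iff_iff_implies_and_implies.symm

theorem gt_le {L : List ℕ} {b : ℕ} (h : ∀ y ∈ L, y ≤ b) (e : ℕ) : gt L e ≤ b := by
  unfold gt
  by_cases he : e < L.length
  · rw [List.getD_eq_getElem _ _ he]
    exact h _ (List.getElem_mem he)
  · rw [List.getD_eq_default _ _ (by omega)]
    exact b.zero_le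

theorem updC {S : List Bool → Env → List ℕ} (hk : ∀ x, k x ≤ κ x) (ck : Cn κ fun x _ => k x)
    (hS : Cm κ S) (ha : Cn κ a) (hv : Cn κ v) :
    Cm κ fun x ρ => El.upd (k x) (S x ρ) (a x ρ) (v x ρ) :=
  (kitOne κ).tab (fun x ρ e => if e = a x ρ then v x ρ else gt (S x ρ) e) hk ck
    (K.ite (K.eq (K.v 0) (K.w ha)) (K.w hv) (K.gt (K.wL hS) (K.v 0)))

variable (g : GeC κ G) (hp : Cn κ p)
include g hp

theorem nC : Cn κ fun x ρ => (G x (p x ρ)).n := K.app (f := fun x _ p => (G x p).n) g.n hp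

theorem PC : Cn κ fun x ρ => (G x (p x ρ)).P := K.add (K.mul (nC g hp) (nC g hp)) (K.c 1)

theorem InC (hz : Cn κ z) (hd : Cn κ d) : Cp κ fun x ρ => (G x (p x ρ)).In (z x ρ) (d x ρ) :=
  K.and (K.le (K.div hz (PC g hp)) (g.pos _ _ hp hd)) (K.lt (g.pos _ _ hp hd) (K.mod hz (PC g hp)))

theorem memC {C : List Bool → Env → List ℕ} (hC : Cm κ C) (ha : Cn κ a) (hl : Cn κ l)
    (hd : Cn κ d) : Cp κ fun x ρ => (G x (p x ρ)).mem (C x ρ) (a x ρ) (l x ρ) (d x ρ) :=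
  K.all (P := fun x ρ h => (G x (p x ρ)).In (gt (C x ρ) h) (d x ρ) ↔ dg 2 (a x ρ) h = 1) hl
    (iffC (InC g (K.w hp) (K.gt (K.wL hC) (K.v 0)) (K.w hd))
      (K.eq (dgC (K.c 2) (K.w ha) (K.v 0)) (K.c 1)))

theorem balC {U : List Bool → Env → ℕ → Prop} (hU : P1 κ U) (hz : Cn κ z) :
    Cp κ fun x ρ => (G x (p x ρ)).bal (U x ρ) (z x ρ) := by
  have c1 := K.cnt (nC g hp) hU
  have c2 := K.cnt (P := fun x ρ d => U x ρ d ∧ (G x (p x ρ)).In (z x ρ) d) (nC g hp)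
    (K.and hU (InC g (K.w hp) (K.w hz) (K.v 0)))
  exact K.and (K.all (P := fun x ρ d => U x ρ d → ((G x (p x ρ)).In (z x ρ) d ↔
      (G x (p x ρ)).In (z x ρ) ((G x (p x ρ)).o d))) (nC g hp)
    (K.imp hU (iffC (InC g (K.w hp) (K.w hz) (K.v 0))
      (InC g (K.w hp) (K.w hz) (g.o _ _ (K.w hp) (K.v 0))))))
    (K.and (K.le c1 (K.mul (K.c 3) c2)) (K.le (K.mul (K.c 3) c2) (K.add (K.mul (K.c 2) c1) (K.c 6))))

theorem splC {U : List Bool → Env → ℕ → Prop} (hU : P1 κ U) :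
    Cn κ fun x ρ => (G x (p x ρ)).spl (U x ρ) :=
  K.lst (P := fun x ρ => (G x (p x ρ)).bal (U x ρ)) (K.mul (PC g hp) (PC g hp))
    (balC g (K.w hp) (K.wP1 hU) (K.v 0))

theorem XC (hq : Cn κ q) (hv : Cn κ v) : Cp κ fun x ρ => (G x (p x ρ)).X (q x ρ) (v x ρ) := by
  have p2 := K.w (K.w hp)
  have v2 := K.w (K.w hv)
  have q2 := K.w (K.w hq)
  exact K.ex (P := fun x ρ a => ∃ b < (G x (p x ρ)).n, (G x (p x ρ)).nd a = v x ρ ∧
      ((G x (p x ρ)).nd b = v x ρ ∨ (G x (p x ρ)).nd ((G x (p x ρ)).τ b) = v x ρ) ∧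
      ¬((G x (p x ρ)).pos a < q x ρ ↔ (G x (p x ρ)).pos b < q x ρ)) (nC g hp)
    (K.ex (P := fun x ρ b => (G x (p x (tl ρ))).nd (hd (ρ 0)) = v x (tl ρ) ∧
      ((G x (p x (tl ρ))).nd b = v x (tl ρ) ∨
        (G x (p x (tl ρ))).nd ((G x (p x (tl ρ))).τ b) = v x (tl ρ)) ∧
      ¬((G x (p x (tl ρ))).pos (hd (ρ 0)) < q x (tl ρ) ↔ (G x (p x (tl ρ))).pos b < q x (tl ρ)))
      (nC g (K.w hp))
      (K.and (K.eq (g.nd _ _ p2 (K.v 1)) v2)
        (K.and (K.or (K.eq (g.nd _ _ p2 (K.v 0)) v2)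
          (K.eq (g.nd _ _ p2 (g.τ _ _ p2 (K.v 0))) v2))
          (K.not (iffC (K.lt (g.pos _ _ p2 (K.v 1)) q2) (K.lt (g.pos _ _ p2 (K.v 0)) q2))))))

variable (hk : ∀ x, k x ≤ κ x) (ck : Cn κ fun x _ => k x)
include hk ck

theorem cutsC (ha : Cn κ a) (hl : Cn κ l) :
    Cm κ fun x ρ => (G x (p x ρ)).cuts (k x) (a x ρ) (l x ρ) :=
  (kitOne κ).foldL
    (fun x ρ h C => El.upd (k x) C h ((G x (p x ρ)).spl ((G x (p x ρ)).mem C (a x ρ) h)))
    (fun x ρ _ => (G x (p x ρ)).P * (G x (p x ρ)).P) hl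
    ((kitOne κ).tab (fun _ _ _ => 0) hk ck (K.c 0))
    (updC hk ck (K.vL 0) (K.v 1) (splC g (K.w (K.w hp))
      (U := fun x ρ => (G x (p x (tl (tl ρ)))).mem (ρ 0) (a x (tl (tl ρ))) (hd (ρ 1)))
      (memC g (K.w (K.w (K.w hp))) (K.vL 1) (K.w (K.w (K.w ha))) (K.v 2) (K.v 0))))
    (K.w (K.mul (PC g hp) (PC g hp)))
    fun x ρ m acc b h1 h2 y hy => by
      obtain ⟨e, _, rfl⟩ := List.mem_map.1 hy
      split_ifs
      · exact (lst_lt _ (Nat.mul_pos (Nat.succ_pos _) (Nat.succ_pos _))).le.trans h2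
      · exact gt_le h1 e

theorem UC (ha : Cn κ a) (hl : Cn κ l) (hd : Cn κ d) :
    Cp κ fun x ρ => (G x (p x ρ)).U (k x) (a x ρ) (l x ρ) (d x ρ) :=
  memC g hp (cutsC g hp hk ck ha hl) ha hl hd

end RgCL

open RgCL in
theorem rgCS : RgCS := by
  intro kt K0 κ G hk g
  obtain ⟨ci, cW, -, -, cθ, ck, -⟩ := kt.pi K0 κ
  refine ⟨fun p a l v hp ha hl hv => ?_, fun p a l e v hp ha hl he hv => ?_,
    fun p a l y z hp ha hl hy hz => ?_⟩
  · exact K.ex (P := fun x ρ d => (G x (p x ρ)).U (pa K0 x).K (a x ρ) (l x ρ) d ∧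
        (G x (p x ρ)).nd d = v x ρ) (nC g hp)
      (K.and (UC g (K.w hp) hk ck (K.w ha) (K.w hl) (K.v 0))
        (K.eq (g.nd _ _ (K.w hp) (K.v 0)) (K.w hv)))
  · have p2 := K.w (K.w hp)
    have l2 := K.w (K.w hl)
    have c2 := K.gt (cutsC g p2 hk ck (K.add (K.w (K.w ha)) (K.mul (K.v 1) (K.w (K.w he))))
      (K.add l2 ci)) (K.add l2 (K.v 0))
    exact K.ex (P := fun x ρ w => ∃ h < (pa K0 x).i,
        (G x (p x ρ)).X (gt ((G x (p x ρ)).cuts (pa K0 x).K (a x ρ + w * e x ρ)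
          (l x ρ + (pa K0 x).i)) (l x ρ + h) / (G x (p x ρ)).P) (v x ρ) ∨
        (G x (p x ρ)).X (gt ((G x (p x ρ)).cuts (pa K0 x).K (a x ρ + w * e x ρ)
          (l x ρ + (pa K0 x).i)) (l x ρ + h) % (G x (p x ρ)).P) (v x ρ)) cW
      (K.ex (P := fun x ρ h =>
        (G x (p x (tl ρ))).X (gt ((G x (p x (tl ρ))).cuts (pa K0 x).K
          (a x (tl ρ) + hd (ρ 0) * e x (tl ρ)) (l x (tl ρ) + (pa K0 x).i)) (l x (tl ρ) + h) /
            (G x (p x (tl ρ))).P) (v x (tl ρ)) ∨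
        (G x (p x (tl ρ))).X (gt ((G x (p x (tl ρ))).cuts (pa K0 x).K
          (a x (tl ρ) + hd (ρ 0) * e x (tl ρ)) (l x (tl ρ) + (pa K0 x).i)) (l x (tl ρ) + h) %
            (G x (p x (tl ρ))).P) (v x (tl ρ))) ci
        (K.or (XC g p2 (K.div c2 (PC g p2)) (K.w (K.w hv)))
          (XC g p2 (K.mod c2 (PC g p2)) (K.w (K.w hv)))))
  · have p1 := K.w hp
    exact K.ite (K.eq hy hz) (K.c 0)
      (mnC (P := fun x ρ d => (G x (p x ρ)).arc (pa K0 x) (a x ρ) (l x ρ) d ∧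
          (G x (p x ρ)).nd d = y x ρ ∧ (G x (p x ρ)).nd ((G x (p x ρ)).β d) = z x ρ)
        (c := fun x ρ => (G x (p x ρ)).w) (nC g hp)
        (K.and (K.and (g.ar _ _ p1 (K.v 0)) (UC g p1 hk ck (K.w ha) (K.w hl) (K.v 0)))
          (K.and (K.eq (g.nd _ _ p1 (K.v 0)) (K.w hy))
            (K.eq (g.nd _ _ p1 (g.β _ _ p1 (K.v 0))) (K.w hz))))
        (g.w _ _ p1 (K.v 0)) (K.add cθ (K.c 1)))

end Pool.Agent.MP_1a6d78_lc.DS.SD

end MrgPart7

section MrgPart8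

/-! PROJECT SD, row BFQ: Bellman-Ford with calls in the legs. -/

namespace Pool.Agent.MP_1a6d78_lc.DS.SD

open Classical ED PR DD SC

namespace BqL

variable {κ q β : List Bool → ℕ}

/-- A function of two numbers with calls. -/
def G2 (κ q β : List Bool → ℕ) (f : List Bool → Orc → Env → ℕ → ℕ → ℕ) : Prop :=
  Nq κ q β fun x g ρ => f x g (tl (tl ρ)) (hd (ρ 1)) (hd (ρ 0))

theorem app2 {f : List Bool → Orc → Env → ℕ → ℕ → ℕ} {a b : List Bool → Orc → Env → ℕ}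
    (hf : G2 κ q β f) (ha : Nq κ q β a) (hb : Nq κ q β b) :
    Nq κ q β fun x g ρ => f x g ρ (a x g ρ) (b x g ρ) :=
  SC.M.bind (fun x g ρ => [a x g ρ]) (fun x g ρ => [f x g (tl ρ) (hd (ρ 0)) (b x g (tl ρ))]) ha
    (SC.M.bind (fun x g ρ => [b x g (tl ρ)])
      (fun x g ρ => [f x g (tl (tl ρ)) (hd (ρ 1)) (hd (ρ 0))]) (Q.w hb) hf)

theorem w2 {f : List Bool → Orc → Env → ℕ → ℕ → ℕ} (hf : G2 κ q β f) :
    G2 κ q β fun x g ρ => f x g (tl ρ) :=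
  SC.M.ren (fun x g ρ => [f x g (tl (tl ρ)) (hd (ρ 1)) (hd (ρ 0))]) (fun i => match i with
    | 0 => 0
    | 1 => 1
    | i + 2 => i + 3) hf

theorem mnq {N : List Bool → ℕ} {z : List Bool → Orc → Env → ℕ}
    (c : List Bool → Orc → Env → ℕ → ℕ) (hN : Cn κ fun x _ => N x) (hq : ∀ x, N x ≤ q x)
    (hc : Fq κ q β c) (hz : Nq κ q β z) :
    Nq κ q β fun x g ρ => mn (N x) (fun _ => True) (c x g ρ) (z x g ρ) := by
  refine Q.cg (Q.fold (n := fun x _ _ => N x) (fun x g ρ i acc => min acc (c x g ρ i))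
    (fun _ _ _ _ => 0) (Q.lift hN) (fun x _ _ => hq x) hz
    (Q.min (Q.v 0) (Q.app (Q.wF (Q.wF hc)) (Q.v 1))) (Q.c 0)
    fun _ _ _ _ _ _ h _ => (min_le_left _ _).trans h) fun x g ρ => ?_
  simp only [mn, if_true]

end BqL

open BqL in
theorem bqS : BqS := by
  intro κ q β N θ n B leg u v hb hN hθ hn hB hleg hle hu hv
  have hl : G2 κ q β leg := hleg
  have hNq : ∀ x, N x ≤ q x := fun x => (hb x).2.1
  have hNk : ∀ x, N x ≤ κ x := fun x => (hb x).1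
  have hs : Fq κ q β fun x _ ρ => sel (n x ρ) (B x ρ) := Q.lift (K.sel hn hB)
  have hz : Lq κ q β fun x g ρ =>
      tab (N x) fun e => leg x g ρ (u x g ρ) (sel (n x ρ) (B x ρ) e) :=
    Q.tab (fun x g ρ e => leg x g ρ (u x g ρ) (sel (n x ρ) (B x ρ) e)) hNk hNq hN
      (app2 (w2 hl) (Q.w hu) (Q.app (Q.wF hs) (Q.v 0)))
  have hin : Nq κ q β fun x g ρ => mn (N x) (fun _ => True)
      (fun e' => gt (ρ 1) e' + leg x g (tl (tl (tl ρ)))
        (sel (n x (tl (tl (tl ρ)))) (B x (tl (tl (tl ρ)))) e')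
        (sel (n x (tl (tl (tl ρ)))) (B x (tl (tl (tl ρ)))) (hd (ρ 0))))
      (leg x g (tl (tl (tl ρ))) (u x g (tl (tl (tl ρ))))
        (sel (n x (tl (tl (tl ρ)))) (B x (tl (tl (tl ρ)))) (hd (ρ 0)))) :=
    mnq (fun x g ρ e' => gt (ρ 1) e' + leg x g (tl (tl (tl ρ)))
        (sel (n x (tl (tl (tl ρ)))) (B x (tl (tl (tl ρ)))) e')
        (sel (n x (tl (tl (tl ρ)))) (B x (tl (tl (tl ρ)))) (hd (ρ 0)))) hN hNq
      (Q.add (Q.gt (Q.vL 2) (Q.v 0))
        (app2 (w2 (w2 (w2 (w2 hl)))) (Q.app (Q.wF (Q.wF (Q.wF (Q.wF hs)))) (Q.v 0))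
          (Q.app (Q.wF (Q.wF (Q.wF (Q.wF hs)))) (Q.v 1))))
      (app2 (w2 (w2 (w2 hl))) (Q.w (Q.w (Q.w hu))) (Q.app (Q.wF (Q.wF (Q.wF hs))) (Q.v 0)))
  have hbv : Lq κ q β fun x g ρ =>
      bv (n x ρ) (N x) (B x ρ) (leg x g ρ) (u x g ρ) (θ x) := by
    refine Q.foldL (n := fun x _ _ => θ x)
      (fun x g ρ _ V => tab (N x) fun e => mn (N x) (fun _ => True)
        (fun e' => gt V e' + leg x g ρ (sel (n x ρ) (B x ρ) e') (sel (n x ρ) (B x ρ) e))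
        (leg x g ρ (u x g ρ) (sel (n x ρ) (B x ρ) e)))
      (fun x _ _ _ => θ x + 1) (Q.lift hθ) (fun x _ _ => (hb x).2.2) hz
      (Q.tab (fun x g ρ e => mn (N x) (fun _ => True)
        (fun e' => gt (ρ 0) e' + leg x g (tl (tl ρ))
          (sel (n x (tl (tl ρ))) (B x (tl (tl ρ))) e') (sel (n x (tl (tl ρ))) (B x (tl (tl ρ))) e))
        (leg x g (tl (tl ρ)) (u x g (tl (tl ρ))) (sel (n x (tl (tl ρ))) (B x (tl (tl ρ))) e)))
        hNk hNq hN hin)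
      (Q.add (Q.lift hθ) (Q.c 1)) ?_
    intro x g ρ m acc b _ h a ha
    obtain ⟨e, -, rfl⟩ := List.mem_map.1 ha
    exact mn_le_z.trans ((hle _ _ _ _ _).trans h)
  exact Q.appLN (f := fun x g ρ V => mn (N x) (fun _ => True)
      (fun e => gt V e + leg x g ρ (sel (n x ρ) (B x ρ) e) (v x g ρ))
      (leg x g ρ (u x g ρ) (v x g ρ)))
    (mnq (fun x g ρ e => gt (ρ 0) e +
        leg x g (tl ρ) (sel (n x (tl ρ)) (B x (tl ρ)) e) (v x g (tl ρ))) hN hNq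
      (Q.add (Q.gt (Q.vL 1) (Q.v 0))
        (app2 (w2 (w2 hl)) (Q.app (Q.wF (Q.wF hs)) (Q.v 0)) (Q.w (Q.w hv))))
      (Q.w (app2 hl hu hv))) hbv

end Pool.Agent.MP_1a6d78_lc.DS.SD

end MrgPart8

section MrgPart9

/-! PROJECT SD, row FQ: one frame of the recursion is a function of the calculus with calls. -/

namespace Pool.Agent.MP_1a6d78_lc.DS.SD

open Classical ED PR DD SC

namespace FqL

variable {κ q β : List Bool → ℕ}

theorem ej (j i : ℕ) : Cn κ fun _ ρ => gt (ρ j) i := K.gt (K.vL j) (K.c i)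

theorem mnQ {n z : List Bool → Orc → Env → ℕ} {c : List Bool → Orc → Env → ℕ → ℕ}
    (hn : Nq κ q β n) (hk : ∀ x g ρ, n x g ρ ≤ q x) (hc : Fq κ q β c) (hz : Nq κ q β z) :
    Nq κ q β fun x g ρ => mn (n x g ρ) (fun _ => True) (c x g ρ) (z x g ρ) :=
  Q.cg (Q.fold (fun x g ρ i acc => min acc (c x g ρ i)) (fun _ _ _ _ => 0) hn hk hz
    (Q.min (Q.v 0) (Q.app (Q.wF (Q.wF hc)) (Q.v 1))) (Q.c 0)
    fun _ _ _ _ _ _ h _ => (min_le_left _ _).trans h) fun x g ρ => by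
      simp only [mn, if_true]

theorem clip_eq (b a0 a1 a2 a3 a4 : ℕ) :
    (tab 5 fun e => min b (if e = 0 then a0 else if e = 1 then a1 else if e = 2 then a2
      else if e = 3 then a3 else a4)) = GM.clip 5 b [a0, a1, a2, a3, a4] := rfl

theorem clipQ {a0 a1 a2 a3 a4 : List Bool → Env → ℕ} (h5 : ∀ x, 5 ≤ κ x) (h5' : ∀ x, 5 ≤ q x)
    (hb : Cn κ fun x _ => β x) (h0 : Cn κ a0) (h1 : Cn κ a1) (h2 : Cn κ a2) (h3 : Cn κ a3)
    (h4 : Cn κ a4) : Nq κ q β fun x g ρ =>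
      g (GM.clip 5 (β x) [a0 x ρ, a1 x ρ, a2 x ρ, a3 x ρ, a4 x ρ]) := by
  refine Q.call (Q.cgL (Q.tab (m := fun _ => 5) (fun x _ ρ e => min (β x)
    (if e = 0 then a0 x ρ else if e = 1 then a1 x ρ else if e = 2 then a2 x ρ
      else if e = 3 then a3 x ρ else a4 x ρ)) h5 h5' (K.c 5) ?_)
    fun x _ ρ => clip_eq _ _ _ _ _ _) fun x _ ρ a ha => ?_
  · exact Q.lift (K.min hb (K.ite (K.eq (K.v 0) (K.c 0)) (K.w h0)
      (K.ite (K.eq (K.v 0) (K.c 1)) (K.w h1) (K.ite (K.eq (K.v 0) (K.c 2)) (K.w h2)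
        (K.ite (K.eq (K.v 0) (K.c 3)) (K.w h3) (K.w h4))))))
  · obtain ⟨e, -, rfl⟩ := List.mem_map.1 ha
    exact min_le_left _ _

end FqL

open FqL in
theorem fqS : FqS := by
  intro kt bq K κ hκ hG hR
  obtain ⟨pi, pW, pL, pN, pθ, -, -⟩ := kt.pi K κ
  have hb := kt.bt K κ
  have hq : ∀ x, (pa K x).N ≤ κ x ∧ (pa K x).N ≤ qx K x ∧ (pa K x).θ ≤ qx K x := fun x => by
    have := hκ x
    unfold qx at *
    omega
  have h5 : ∀ x, 5 ≤ qx K x := fun x => by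
    unfold qx
    omega
  have hW : ∀ x, (pa K x).W ≤ qx K x := fun x => by
    unfold qx
    omega
  have hn : Cn κ fun x ρ => (gx K x (gt (ρ 0) 2)).n := PR.K.app hG.n (ej 0 2)
  have he : ∀ j, Cn κ fun x ρ => min (bt K x) (2 ^ gt (ρ j) 3) := fun j =>
    kt.p2 κ _ _ hb (ej j 3)
  have b0 := bq κ (qx K) (bt K) (fun x => (pa K x).N) (fun x => (pa K x).θ)
    (fun x ρ => (gx K x (gt (ρ 0) 2)).n)
    (fun x ρ => (gx K x (gt (ρ 0) 2)).B0 (pa K x) (gt (ρ 0) 4) (gt (ρ 0) 3))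
    (fun x _ ρ => l0 (gx K x (gt (ρ 0) 2)).n ((pa K x).θ + 1) (gx K x (gt (ρ 0) 2)).nd
      (gx K x (gt (ρ 0) 2)).β (gx K x (gt (ρ 0) 2)).w
      ((gx K x (gt (ρ 0) 2)).arc (pa K x) (gt (ρ 0) 4) (gt (ρ 0) 3)))
    (fun _ _ ρ => gt (ρ 0) 0) (fun _ _ ρ => gt (ρ 0) 1) hq pN pθ hn
    (hR.B0 _ _ _ _ (ej 1 2) (ej 1 4) (ej 1 3) (PR.K.v 0))
    (Q.lift (hR.l0 _ _ _ _ _ (ej 2 2) (ej 2 4) (ej 2 3) (PR.K.v 1) (PR.K.v 0)))
    (fun x _ ρ y z => by
      unfold l0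
      split_ifs
      · exact Nat.zero_le _
      · exact mn_le_z)
    (Q.lift (ej 0 0)) (Q.lift (ej 0 1))
  have b1 := bq κ (qx K) (bt K) (fun x => (pa K x).N) (fun x => (pa K x).θ)
    (fun x ρ => (gx K x (gt (ρ 0) 2)).n)
    (fun x ρ => (gx K x (gt (ρ 0) 2)).B1 (pa K x) (gt (ρ 0) 4) (gt (ρ 0) 3)
      (min (bt K x) (2 ^ gt (ρ 0) 3)))
    (fun x g ρ y z => mn (pa K x).W (fun _ => True) (fun w => g (GM.clip 5 (bt K x)
      [y, z, gt (ρ 0) 2, gt (ρ 0) 3 + (pa K x).i,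
        gt (ρ 0) 4 + w * min (bt K x) (2 ^ gt (ρ 0) 3)])) ((pa K x).θ + 1))
    (fun _ _ ρ => gt (ρ 0) 0) (fun _ _ ρ => gt (ρ 0) 1) hq pN pθ hn
    (hR.B1 _ _ _ _ _ (ej 1 2) (ej 1 4) (ej 1 3) (he 1) (PR.K.v 0))
    (mnQ (c := fun x g ρ w => g (GM.clip 5 (bt K x)
      [hd (ρ 1), hd (ρ 0), gt (ρ 2) 2, gt (ρ 2) 3 + (pa K x).i,
        gt (ρ 2) 4 + w * min (bt K x) (2 ^ gt (ρ 2) 3)])) (Q.lift pW) (fun x _ _ => hW x)
      (clipQ (fun x => (h5 x).trans (hκ x)) h5 hb (PR.K.v 2) (PR.K.v 1) (ej 3 2)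
        (PR.K.add (ej 3 3) pi) (PR.K.add (ej 3 4) (PR.K.mul (PR.K.v 0) (he 3))))
      (Q.lift (PR.K.add pθ (PR.K.c 1))))
    (fun _ _ _ _ _ => mn_le_z)
    (Q.lift (ej 0 0)) (Q.lift (ej 0 1))
  exact Q.min (Q.lift hb) (Q.ite (Q.liftP (PR.K.le pL (ej 0 3))) b0 b1)

end Pool.Agent.MP_1a6d78_lc.DS.SD

end MrgPart9

section MrgPart10

/-! PROJECT SD, row RCQ: the recursion of the machine. -/

namespace Pool.Agent.MP_1a6d78_lc.DS.SD

open Classical ED PR DD SC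

namespace RqL

theorem mn_congr {n z : ℕ} {P : ℕ → Prop} {c c' : ℕ → ℕ} (h : ∀ i < n, c i = c' i) :
    mn n P c z = mn n P c' z := by
  induction n with
  | zero => rfl
  | succ n ih => rw [mn_succ, mn_succ, ih fun i hi => h i (by omega), h n (by omega)]

theorem len_le (K : ℕ) (x : List Bool) : x.length + 2 ≤ bt K x :=
  Nat.le_self_pow (by omega) _

theorem two_le (K : ℕ) (x : List Bool) {l : ℕ} (h : l < (pa K x).Lm) :
    2 ^ (l + (pa K x).i) ≤ bt K x := by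
  have a : 2 ^ l ≤ ((x.length + 2) ^ 2) ^ 2 := by
    refine (Nat.pow_le_pow_right two_pos h.le).trans ?_
    change 2 ^ (2 * lg x) ≤ _
    rw [mul_comm, pow_mul]
    exact Nat.pow_le_pow_left (two_lg x) 2
  have b : 2 ^ (pa K x).i ≤ (x.length + 2) ^ 3 := by
    change 2 ^ (Nat.log 2 (mx x) + 1) ≤ _
    have h1 := Nat.pow_log_le_self 2 (show mx x ≠ 0 by unfold mx; omega)
    have h2 : mx x ≤ 2 * x.length + 3 := by
      have := nle x 3
      have := lg_le x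
      unfold mx
      omega
    rw [pow_succ]
    nlinarith [Nat.zero_le (x.length ^ 3), Nat.zero_le (x.length ^ 2)]
  rw [pow_add]
  refine (Nat.mul_le_mul a b).trans ?_
  rw [← pow_mul, ← pow_add]
  exact Nat.pow_le_pow_right (by omega) (by omega)

theorem gt_clip {k b i : ℕ} (l : List ℕ) (h : i < k) (hb : gt l i ≤ b) :
    gt (GM.clip k b l) i = gt l i := by
  rw [GM.clip, SC.gt_tab _ h, min_eq_right hb]

theorem key (hB : BfK) (K : ℕ) (x : List Bool) (p : ℕ) (hp : p ≤ bt K x) (D : ℕ) :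
    ∀ (l a u v : ℕ) (L : List ℕ), gt L 0 = u → gt L 1 = v → gt L 2 = p → gt L 3 = l → gt L 4 = a →
      u ≤ num x 0 → v ≤ num x 0 → a < 2 ^ l →
      rc (Fr K x) D L = (gx K x p).dr (pa K x) D l a u v := by
  have n0 := nle x 0
  have n3 := nle x 3
  have hl := len_le K x
  induction D with
  | zero => exact fun _ _ _ _ _ _ _ _ _ _ _ _ _ => rfl
  | succ D ih =>
    intro l a u v L h0 h1 h2 h3 h4 hu hv ha
    change Fr K x (rc (Fr K x) D) L = (gx K x p).bd (pa K x) l a (2 ^ l) _ u v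
    rw [Fr, h0, h1, h2, h3, h4]
    unfold Ge.bd
    have θ : (pa K x).θ + 1 ≤ bt K x := by
      change num x 3 + 1 ≤ _
      omega
    by_cases c : (pa K x).Lm ≤ l
    · rw [if_pos c, if_pos c]
      refine min_eq_right ((hB.le _ _ _ _ _ _ _).trans (le_trans ?_ θ))
      unfold l0
      split_ifs
      exacts [Nat.zero_le _, mn_le_z]
    · have t := two_le K x (not_le.1 c)
      have t1 : 2 ^ l ≤ bt K x := (Nat.pow_le_pow_right two_pos (Nat.le_add_right _ _)).trans t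
      rw [if_neg c, if_neg c, min_eq_right t1]
      refine (min_eq_right ((hB.le _ _ _ _ _ _ _).trans (le_trans ?_ θ))).trans
        (hB.congr _ _ _ _ _ _ _ _ hu hv fun y hy z hz => mn_congr fun w hw => ?_)
      · exact mn_le_z
      replace hy : y ≤ num x 0 := hy
      replace hz : z ≤ num x 0 := hz
      have t2 : a + w * 2 ^ l < 2 ^ (l + (pa K x).i) := by
        replace hw : w + 1 ≤ 2 ^ (pa K x).i := hw
        have := Nat.mul_le_mul_right (2 ^ l) hw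
        rw [pow_add]
        nlinarith
      have t3 : l + (pa K x).i ≤ bt K x := Nat.lt_two_pow_self.le.trans t
      exact ih _ _ _ _ _ (gt_clip _ (by omega) (show y ≤ _ by omega))
        (gt_clip _ (by omega) (show z ≤ _ by omega)) (gt_clip _ (by omega) hp)
        (gt_clip _ (by omega) t3) (gt_clip _ (by omega) (t2.le.trans t)) hy hz t2

end RqL

theorem rqS : RqS := fun hB K x p k hp hk => by
  have n0 := nle x 0
  have hl := RqL.len_le K x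
  have m : ∀ y, min (num x 0) y ≤ bt K x := fun y => (min_le_left _ _).trans (by omega)
  refine (RqL.key hB K x p hp _ 0 0 _ _ _ ?_ ?_ ?_ ?_ ?_ (min_le_left _ _) (min_le_left _ _)
    one_pos).symm
  · exact RqL.gt_clip _ (by omega) (m _)
  · exact RqL.gt_clip _ (by omega) (m _)
  · exact RqL.gt_clip _ (by omega) hp
  · exact RqL.gt_clip _ (by omega) (Nat.zero_le _)
  · exact RqL.gt_clip _ (by omega) (Nat.zero_le _)

end Pool.Agent.MP_1a6d78_lc.DS.SD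

end MrgPart10

section MrgPart11

/-! Row NUM: the sizes of the parameters. -/

namespace Pool.Agent.MP_1a6d78_lc.DS.SD

open Classical ED PR DD SC

namespace NuL

theorem w_le (x : List Bool) : 2 ^ (Nat.log 2 (mx x) + 1) ≤ 2 * mx x := by
  have := Nat.pow_log_le_self 2 (show mx x ≠ 0 by unfold mx; omega)
  rw [pow_succ]
  omega

theorem mx_le (x : List Bool) : mx x ≤ (x.length + 2) ^ 2 := by
  have : num x 3 ≤ x.length := by
    unfold num
    calc ∑ p ∈ Finset.range x.length, (if zc x p = 3 then bit x p else 0)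
        ≤ ∑ _p ∈ Finset.range x.length, 1 := by
          refine Finset.sum_le_sum fun p _ => ?_
          unfold bit
          split_ifs <;> omega
      _ = x.length := by simp
  have := lg_le x
  unfold mx
  nlinarith

theorem qx_le (K : ℕ) (x : List Bool) : qx K x ≤ (16 * K * 2 ^ 32 + 15) * mx x ^ 35 := by
  have m0 : 1 ≤ mx x := by unfold mx; omega
  have h1 := w_le x
  have h2 : Nat.log 2 (mx x) + 1 ≤ mx x := Nat.log_lt_self 2 (by omega)
  have h3 : lg x ≤ mx x := by unfold mx; omega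
  have h4 : num x 3 + 1 ≤ mx x := by unfold mx; omega
  have h5 : rr x ≤ (2 * mx x) ^ 32 := Nat.pow_le_pow_left (by omega) _
  have h6 : mx x ≤ mx x ^ 35 := Nat.le_self_pow (by omega) _
  have h7 : mx x ^ 2 ≤ mx x ^ 35 := Nat.pow_le_pow_right m0 (by omega)
  have h8 : (pa K x).N ≤ 2 * mx x * mx x * (2 * (2 * (2 * (K * mx x * (2 * mx x) ^ 32)) + 1)) := by
    simp only [pa]
    gcongr
  have h9 : 2 * mx x * mx x * (2 * (2 * (2 * (K * mx x * (2 * mx x) ^ 32)) + 1)) =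
      16 * K * 2 ^ 32 * mx x ^ 35 + 4 * mx x ^ 2 := by ring
  rw [h9] at h8
  rw [qx, add_mul]
  simp only [pa] at h8 ⊢
  omega

end NuL

open NuL in
theorem nuS : NuS := by
  intro K
  refine ⟨⟨_, qx_le K⟩, fun x => ⟨by unfold mx; omega, ?_⟩, ?_⟩
  · have := Nat.div_le_self (2 * lg x) (Nat.log 2 (mx x) + 1)
    rw [Dx]
    have : lg x + 2 ≤ mx x := by unfold mx; omega
    omega
  obtain ⟨c, hc⟩ : ∃ c, ∀ x, qx K x ≤ c * mx x ^ 35 := ⟨_, qx_le K⟩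
  refine ⟨10 * (c + 37) + (32 * K + 80), fun x => ?_⟩
  have n0 : 0 < x.length + 2 := by omega
  have m0 : 1 ≤ mx x ^ 35 := Nat.one_le_pow _ _ (by unfold mx; omega)
  refine ⟨Nat.pow_le_pow_right n0 (Nat.le_add_left _ _), (hc x).trans ?_, ?_⟩
  · calc c * mx x ^ 35 ≤ (x.length + 2) ^ c * ((x.length + 2) ^ 2) ^ 35 :=
          Nat.mul_le_mul (Nat.lt_pow_self (by omega)).le (Nat.pow_le_pow_left (mx_le x) _)
      _ = (x.length + 2) ^ (c + 70) := by rw [← pow_mul, ← pow_add]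
      _ ≤ _ := Nat.pow_le_pow_right n0 (by omega)
  · have h1 := w_le x
    have h2 : mx x ≤ 2 ^ (Nat.log 2 (mx x) + 1) := (Nat.lt_pow_succ_log_self (by omega) _).le
    have h3 : (Nat.log 2 (mx x) + 1) * Dx x ≤ 2 * (lg x + (Nat.log 2 (mx x) + 1)) := by
      have := Nat.mul_div_le (2 * lg x) (Nat.log 2 (mx x) + 1)
      rw [Dx, mul_add]
      omega
    have h4 : 1 ≤ Nat.log 2 (mx x) + 1 := by omega
    generalize Nat.log 2 (mx x) + 1 = i at h1 h2 h3 h4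
    have h5 : qx K x + 2 ≤ 2 ^ ((c + 37) * i) := by
      calc qx K x + 2 ≤ (c + 2) * mx x ^ 35 := by have := hc x; rw [add_mul]; omega
        _ ≤ 2 ^ ((c + 2) * i) * (2 ^ i) ^ 35 :=
          Nat.mul_le_mul (Nat.lt_two_pow_self.le.trans (Nat.pow_le_pow_right (by omega)
            (Nat.le_mul_of_pos_right _ h4))) (Nat.pow_le_pow_left h2 _)
        _ = _ := by rw [← pow_mul, ← pow_add]; congr 1; ring
    have h6 : 2 ^ i ≤ (x.length + 2) ^ 3 := by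
      refine h1.trans ?_
      rw [pow_succ']
      exact Nat.mul_le_mul (by omega) (mx_le x)
    calc (qx K x + 2) ^ Dx x ≤ (2 ^ ((c + 37) * i)) ^ Dx x := Nat.pow_le_pow_left h5 _
      _ = 2 ^ ((c + 37) * (i * Dx x)) := by rw [← pow_mul, mul_assoc]
      _ ≤ 2 ^ ((c + 37) * (2 * (lg x + i))) :=
        Nat.pow_le_pow_right (by omega) (Nat.mul_le_mul_left _ h3)
      _ = (2 ^ lg x * 2 ^ i) ^ (2 * (c + 37)) := by rw [← pow_add, ← pow_mul]; congr 1; ring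
      _ ≤ ((x.length + 2) ^ 2 * (x.length + 2) ^ 3) ^ (2 * (c + 37)) :=
        Nat.pow_le_pow_left (Nat.mul_le_mul (two_lg x) h6) _
      _ = (x.length + 2) ^ (10 * (c + 37)) := by rw [← pow_add, ← pow_mul]; congr 1; ring
      _ ≤ _ := Nat.pow_le_pow_right n0 (Nat.le_add_right _ _)

end Pool.Agent.MP_1a6d78_lc.DS.SD

end MrgPart11

section MrgPart12

/-! PROJECT SD, row SDC: the test for short distances is computable in small space. -/

namespace Pool.Agent.MP_1a6d78_lc.DS.SD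

open Classical ED PR DD SC

namespace SdL

theorem bound {A c E q l m D : ℕ} (h1 : 1 ≤ m) (hq : q ≤ c * m ^ 35) (hl : l ≤ m)
    (hD : D ≤ 2 * m) : E * (A * l ^ 2 + q + 1) * (D + 1) ≤ E * (A + c + 1) * 3 * m ^ 36 := by
  have a1 : l ^ 2 ≤ m ^ 35 :=
    (Nat.pow_le_pow_left hl 2).trans (Nat.pow_le_pow_right h1 (by norm_num))
  have a2 : 1 ≤ m ^ 35 := Nat.one_le_pow _ _ h1
  have a3 : A * l ^ 2 + q + 1 ≤ (A + c + 1) * m ^ 35 := by
    have := Nat.mul_le_mul_left A a1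
    rw [add_mul, add_mul, one_mul]
    omega
  calc E * (A * l ^ 2 + q + 1) * (D + 1) ≤ E * ((A + c + 1) * m ^ 35) * (3 * m) :=
        Nat.mul_le_mul (Nat.mul_le_mul_left E a3) (by omega)
    _ = E * (A + c + 1) * 3 * m ^ 36 := by ring

theorem five {κ : List Bool → ℕ} {a b : List Bool → ℕ} (h5 : ∀ x, 5 ≤ κ x)
    (ha : Cn κ fun x _ => a x) (hb : Cn κ fun x _ => b x) :
    Cm κ fun x ρ => [a x, b x, hd (ρ 0), 0, 0] :=
  (kitOne κ).tab (n := fun _ => 5) (fun x ρ i => if i = 0 then a x else if i = 1 then b x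
    else if i = 2 then hd (ρ 0) else 0) h5 (K.c 5)
    (K.ite (K.eq (K.v 0) (K.c 0)) ha (K.ite (K.eq (K.v 0) (K.c 1)) hb
      (K.ite (K.eq (K.v 0) (K.c 2)) (K.v 1) (K.c 0))))

end SdL

theorem sdS : SdS := by
  rintro hR hP hK hq hB hN J ⟨A, hA⟩
  obtain ⟨⟨c, hc⟩, hm, e, he⟩ := hN J
  have k5 : ∀ x, 5 ≤ A * lg x ^ 2 + qx J x := fun x => by
    unfold qx
    omega
  obtain ⟨E, hE⟩ := hR (fun x => A * lg x ^ 2 + qx J x) (qx J) (bt J) Dx (Fr J) e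
    (hA _ (fun x => Nat.le_add_right _ _) fun x => Nat.le_add_left _ _)
    (fun x g l => min_le_left _ _) (fun x => by have := k5 x; omega) he
  refine ⟨E * (A + c + 1) * 3 + 5, fun κ hκ => ?_⟩
  have m1 : ∀ x, 1 ≤ mx x := fun x => by
    unfold mx
    omega
  have hκ' : ∀ x, E * (A + c + 1) * 3 * mx x ^ 36 + 5 * mx x ^ 36 ≤ κ x := fun x => by
    rw [← add_mul]
    exact hκ x
  have h5 : ∀ x, 5 ≤ κ x := fun x => by
    have := hκ' x
    have := Nat.one_le_pow 36 _ (m1 x)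
    omega
  obtain ⟨-, cW, -, cN, cθ, cK, cD⟩ := hK.pi J κ
  have hrc := hE κ (fun x => (SdL.bound (m1 x) (hc x) (hm x).1 (hm x).2).trans
      ((Nat.le_add_right _ _).trans (hκ' x))) cD
    (K.add (K.mul (K.c A) (K.pow 2 (lgC κ)))
      (K.add (K.add (K.add (K.add cN cθ) cW) cK) (K.c 5))) (hK.bt J κ)
  have cn : ∀ i, Cn κ fun x _ => num x i := fun i => K.app (hP.num κ) (K.c i)
  have cv : ∀ i, Cn κ fun x _ => min (num x 0) ((inp x).nd (num x i)) := fun i =>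
    K.min (cn 0) (K.app (hP.nd κ) (cn i))
  have hd1 : Cn κ fun x ρ => rc (Fr J x) (Dx x) (GM.clip (A * lg x ^ 2 + qx J x) (bt J x)
      [min (num x 0) ((inp x).nd (num x 1)), min (num x 0) ((inp x).nd (num x 2)),
        hd (ρ 0), 0, 0]) :=
    (kitA κ).bind _ _ (SdL.five h5 (cv 1) (cv 2)) hrc
  have hex := K.ex (P := fun x _ p => rc (Fr J x) (Dx x)
    (GM.clip (A * lg x ^ 2 + qx J x) (bt J x) [min (num x 0) ((inp x).nd (num x 1)),
      min (num x 0) ((inp x).nd (num x 2)), p, 0, 0]) ≤ num x 3) (hK.bt J κ) (K.le hd1 (cn 3))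
  have hex' : PR.Cp κ fun x _ => ∃ p < bt J x, dt J x p ≤ num x 3 :=
    K.cgP hex fun x _ => exists_congr fun p => and_congr_right fun hp => by
      rw [hq hB J x p _ hp.le (k5 x)]
  exact K.cg hex' fun x _ => by
    unfold sd
    congr

end Pool.Agent.MP_1a6d78_lc.DS.SD

end MrgPart12

section MrgPart13

/-! PROJECT SD, row MCH: one machine with both space bounds. -/

namespace Pool.Agent.MP_1a6d78_lc.DS.SD

open Classical ED PR DD SC

namespace McL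

theorem le_pow {y : ℕ} (h : 2 ≤ y) (a : ℕ) : a ≤ y ^ a :=
  Nat.lt_two_pow_self.le.trans (Nat.pow_le_pow_left h a)

theorem lgB (n m : ℕ) : Nat.log 2 ((n + 2) ^ (m + 1) + 2) ≤ (m + 2) * (Nat.log 2 n + 2) := by
  have a : n < 2 ^ (Nat.log 2 n + 1) := Nat.lt_pow_succ_log_self (by norm_num) n
  have b : n + 2 ≤ 2 ^ (Nat.log 2 n + 2) := by
    have c : 0 < 2 ^ Nat.log 2 n := by positivity
    rw [pow_succ] at a
    rw [pow_add]
    omega
  refine MchL.log_le ((MchL.time n m).trans ((Nat.pow_le_pow_left b _).trans (le_of_eq ?_)))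
  rw [← pow_mul, mul_comm]

theorem space {κ l c A L y : ℕ} (hy : 2 ≤ y) (h1 : κ ≤ (A + 1) * (y + 1) ^ 36) (h2 : l ≤ L * y) :
    (κ + 1) * (c * l + c) ≤ y ^ (A + 2 + 72 + (c * L + c + 1)) := by
  have a : (y + 1) ^ 36 ≤ y ^ 72 :=
    (Nat.pow_le_pow_left (show y + 1 ≤ y ^ 2 by nlinarith) 36).trans (pow_mul y 2 36).ge
  have a0 : 1 ≤ y ^ 72 := Nat.pow_pos (by omega)
  have a1 : κ + 1 ≤ (A + 2) * y ^ 72 := by
    have := Nat.mul_le_mul_left (A + 1) a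
    rw [show A + 2 = A + 1 + 1 by omega, add_mul (A + 1), one_mul]
    omega
  have a3 : c * l + c ≤ (c * L + c) * y := by
    have b1 : c * l ≤ c * (L * y) := Nat.mul_le_mul_left _ h2
    have b2 : c ≤ c * y := Nat.le_mul_of_pos_right _ (by omega)
    rw [add_mul, mul_assoc]
    omega
  rw [pow_add, pow_add y (A + 2), pow_succ y (c * L + c)]
  exact Nat.mul_le_mul (a1.trans (Nat.mul_le_mul_right _ (le_pow hy _)))
    (a3.trans (Nat.mul_le_mul_right _ (le_pow hy _)))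

end McL

open MchL in
theorem mcS : McS := by
  intro hI hR hP hK ε hε
  obtain ⟨r, hr, h4⟩ : ∃ r : ℕ, 1 ≤ r ∧ 4 / (ε / 2) ≤ r :=
    ⟨⌈4 / (ε / 2)⌉₊, Nat.ceil_pos.2 (by positivity), Nat.le_ceil _⟩
  refine ⟨r, hr, ?_⟩
  rintro f f' ⟨A, hA⟩ ⟨A', hA'⟩
  obtain ⟨P, hPd⟩ : ∃ P : List Bool → Prop,
      P = fun x => posW x ∧ (A' + 1) * mx x ^ 36 ≤ (A + 1) * bm (Mt r) x := ⟨_, rfl⟩
  obtain ⟨κ, hκ⟩ : ∃ κ : List Bool → ℕ,
      κ = fun x => if P x then (A' + 1) * mx x ^ 36 else (A + 1) * bm (Mt r) x := ⟨_, rfl⟩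
  have hPc : Cp κ fun x _ => P x := by
    rw [hPd]
    exact K.and (hK.pw κ) (K.le (K.mul (K.c _) (K.pow 36 (hK.mx κ)))
      (K.mul (K.c _) (K.pow 7 (K.add (K.mul (K.c 5000) (PsL.mt r κ)) (K.c 2)))))
  have hF : Cn κ fun x _ => (if P x then f' x else 0) + if ¬P x then f x else 0 :=
    K.cg (K.add (hI κ (fun x => (A' + 1) * mx x ^ 36) P (fun x _ => f' x)
        (hA' _ fun x => Nat.mul_le_mul_right _ (Nat.le_succ A')) hPc
        fun x h => by simp only [hκ, if_pos h])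
      (hI κ (fun x => (A + 1) * bm (Mt r) x) (fun x => ¬P x) (fun x _ => f x)
        (hA _ fun x => Nat.mul_le_mul_right _ (Nat.le_succ A)) (K.not hPc)
        fun x h => by simp only [hκ, if_neg h])) fun x _ => by congr
  obtain ⟨M, c, H⟩ := mach κ _ hF
  obtain ⟨Q, hQ⟩ : ∃ Q : ℕ, 6561 * (3 : ℝ) ^ ε ≤ Q := ⟨_, Nat.le_ceil _⟩
  obtain ⟨C, hC⟩ : ∃ C : ℕ, C = 5002 ^ 7 := ⟨_, rfl⟩
  obtain ⟨e, he⟩ : ∃ e : ℕ, e = 98 := ⟨_, rfl⟩
  refine ⟨M, (A + e + 2) * c + (((A + 1) * C + 1) * (c * (r * (A + e + 2)) + c) * Q +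
    (A' + 2 + 72 + (c * (A + e + 2) + c + 1))), fun x => ?_⟩
  obtain ⟨k1, k2, k3, k4⟩ := hR r (x.length + 2) hr
  have b1 : 1 ≤ bm (Mt r) x := Nat.pow_pos (by omega)
  have b0 : 1 ≤ mx x ^ 36 := Nat.pow_pos (by unfold mx; omega)
  have b2 : (A + 1) * bm (Mt r) x ≤ (x.length + 2) ^ (A + e + 1) := by
    have : A + 1 ≤ (x.length + 2) ^ (A + 1) :=
      Nat.lt_two_pow_self.le.trans (Nat.pow_le_pow_left (by omega) _)
    rw [show A + e + 1 = A + 1 + e by omega, pow_add]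
    exact Nat.mul_le_mul this (he ▸ bm_pol k4)
  have c1 : 1 ≤ κ x := by
    simp only [hκ]
    split_ifs
    exacts [Nat.mul_pos (by omega) b0, Nat.mul_pos (by omega) b1]
  have c2 : κ x ≤ (A + 1) * bm (Mt r) x := by
    simp only [hκ]
    split_ifs with h
    exacts [(hPd ▸ h :).2, le_rfl]
  have c3 : posW x → κ x ≤ (A' + 1) * mx x ^ 36 := fun hw => by
    simp only [hκ]
    split_ifs with h
    · exact le_rfl
    · rw [hPd] at h
      exact (not_le.1 fun h1 => h ⟨hw, h1⟩).le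
  obtain ⟨H1, H2⟩ := H x ((x.length + 2) ^ (A + e + 1)) c1 (c2.trans b2)
    ((Nat.le_add_right _ 2).trans (Nat.le_self_pow (by omega) _))
  refine ⟨((if P x then f' x else 0) + if ¬P x then f x else 0) != 0, ?_, ?_, fun t i => ?_,
    fun hw t i => ?_⟩
  · rw [Fn.halt M x H1, H1]
    refine (Nat.pow_le_pow_left (time _ _) c).trans ?_
    rw [← pow_mul]
    exact Nat.pow_le_pow_right (by omega) (Nat.le_add_right _ _)
  · by_cases h : P x
    · exact Or.inr ⟨(hPd ▸ h :).1, by simp [h]⟩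
    · exact Or.inl (by simp [h])
  · have a0 : κ x ≤ (A + 1) * C * ro r (x.length + 2) ^ 7 := by
      refine c2.trans ?_
      rw [mul_assoc]
      exact Nat.mul_le_mul_left _ (hC ▸ bm_le k1)
    have a : ((M.run x t).head i : ℝ) ≤ ((((A + 1) * C + 1) *
        (c * (r * (A + e + 2)) + c) * ro r (x.length + 2) ^ 8 : ℕ) : ℝ) :=
      Nat.cast_le.2 ((H2 t i).trans (space k1 a0 (lgB _ k2)))
    have p : (0 : ℝ) ≤ ((x.length : ℝ) + 1) ^ ε :=
      Real.rpow_nonneg (add_nonneg (Nat.cast_nonneg _) zero_le_one) ε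
    have b := (root hε hr h4 k3).trans (mul_le_mul_of_nonneg_right hQ p)
    rw [Nat.cast_mul] at a
    refine (a.trans (mul_le_mul_of_nonneg_left b (Nat.cast_nonneg _))).trans ?_
    rw [← mul_assoc, ← Nat.cast_mul]
    exact mul_le_mul_of_nonneg_right
      (Nat.cast_le.2 ((Nat.le_add_right _ _).trans (Nat.le_add_left _ _))) p
  · have y2 : 2 ≤ num x 3 + Nat.log 2 x.length + 2 := Nat.le_add_left _ _
    have a0 : κ x ≤ (A' + 1) * (num x 3 + Nat.log 2 x.length + 2 + 1) ^ 36 := c3 hw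
    refine ((H2 t i).trans (McL.space y2 a0 ((McL.lgB _ _).trans
      (Nat.mul_le_mul_left _ (by omega))))).trans ?_
    exact Nat.pow_le_pow_right (by omega) ((Nat.le_add_left _ _).trans (Nat.le_add_left _ _))

end Pool.Agent.MP_1a6d78_lc.DS.SD

end MrgPart13
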