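import Pool.Agent.MP_1a6d78_lc.SD.PackA
import Pool.Agent.MP_1a6d78_lc.SD.PackB
import Pool.Agent.MP_1a6d78_lc.SD.PackC
import Pool.Agent.MP_1a6d78_lc.SD.Asm

/-! PROJECT SD: the theorem. -/

namespace Pool.Agent.MP_1a6d78_lc.DS.SD

theorem main : MainS :=
  mainS twK baseS ndS slS thS shS dpS gnS endS klS keyS gdS coS bfK dcK spS rgS szS rcS ctS cuS geS
    ptS enS tpS ktS elS q1S q2S chS gcS rgCS bqS fqS rqS nuS sdS itS mcS

end Pool.Agent.MP_1a6d78_lc.DS.SD
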