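import Pool.Agent.MP_1a6d78_lc.SD.Spec

/-! Row BF of project SD: Bellman-Ford on a small set. -/

namespace Pool.Agent.MP_1a6d78_lc.DS.SD

open Classical ED PR DD SC

namespace BfL

theorem gtab {n e : ℕ} (f : ℕ → ℕ) (h : e < n) : gt (tab n f) e = f e := by
  simp [gt, tab, List.getD_eq_getElem?_getD, h]

variable {n N : ℕ} {B : ℕ → Prop} {leg : ℕ → ℕ → ℕ} {u : ℕ}

theorem bv0 {e : ℕ} (h : e < N) : gt (bv n N B leg u 0) e = leg u (sel n B e) := gtab _ h

theorem bvS {m e : ℕ} (h : e < N) : gt (bv n N B leg u (m + 1)) e = mn N (fun _ => True)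
    (fun e' => gt (bv n N B leg u m) e' + leg (sel n B e') (sel n B e)) (leg u (sel n B e)) :=
  gtab _ h

theorem bv_le {m e : ℕ} (h : e < N) : gt (bv n N B leg u m) e ≤ leg u (sel n B e) := by
  cases m with
  | zero => exact (bv0 h).le
  | succ m => rw [bvS h]; exact mn_le_z

/-- One relaxation is sound. -/
theorem relax {Z : ℕ} {W : ℕ → ℕ → ℕ → Prop}
    (tr : ∀ a b c x y, W a b x → W b c y → W a c (x + y))
    (h0 : ∀ y z, leg y z < Z → W y z (leg y z)) {V : List ℕ}
    (hV : ∀ e < N, gt V e < Z → W u (sel n B e) (gt V e)) (v : ℕ)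
    (h : mn N (fun _ => True) (fun e => gt V e + leg (sel n B e) v) (leg u v) < Z) :
    W u v (mn N (fun _ => True) (fun e => gt V e + leg (sel n B e) v) (leg u v)) := by
  rcases mn_eq (n := N) (P := fun _ => True) (c := fun e => gt V e + leg (sel n B e) v)
    (z := leg u v) with e | ⟨i, hi, _, e⟩
  · rw [e] at h ⊢
    exact h0 _ _ h
  · rw [e] at h ⊢
    exact tr _ _ _ _ _ (hV i hi (by omega)) (h0 _ _ (by omega))

theorem bv_snd {Z : ℕ} {W : ℕ → ℕ → ℕ → Prop}
    (tr : ∀ a b c x y, W a b x → W b c y → W a c (x + y))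
    (h0 : ∀ y z, leg y z < Z → W y z (leg y z)) (m : ℕ) :
    ∀ e < N, gt (bv n N B leg u m) e < Z → W u (sel n B e) (gt (bv n N B leg u m) e) := by
  induction m with
  | zero =>
    intro e he h
    rw [bv0 he] at h ⊢
    exact h0 _ _ h
  | succ m ih =>
    intro e he h
    rw [bvS he] at h ⊢
    exact relax tr h0 ih _ h

theorem rel_le {V : List ℕ} {y c : ℕ} (hN : cnt n B ≤ N) (hy : y < n) (hB : B y)
    (h : gt V (cnt y B) ≤ c) (z : ℕ) :
    mn N (fun _ => True) (fun e => gt V e + leg (sel n B e) z) (leg u z) ≤ c + leg y z := by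
  obtain ⟨a, b⟩ := sel_cnt hy hB
  refine (mn_le (i := cnt y B) (by omega) trivial).trans ?_
  simp only [a]
  omega

theorem bv_cpl (hN : cnt n B ≤ N) {m z c : ℕ} (h : Ch n B leg u m z c) :
    ∀ m2, m ≤ m2 → z < n → B z → gt (bv n N B leg u m2) (cnt z B) ≤ c := by
  induction h with
  | one z =>
    intro m2 _ hz hB
    obtain ⟨a, b⟩ := sel_cnt hz hB
    have := bv_le (n := n) (N := N) (B := B) (leg := leg) (u := u) (m := m2) (e := cnt z B) (by omega)
    rwa [a] at this
  | step z _ hy hBy ih =>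
    intro m2 hm hz hB
    obtain ⟨a, b⟩ := sel_cnt hz hB
    obtain ⟨k, rfl⟩ : ∃ k, m2 = k + 1 := ⟨m2 - 1, by omega⟩
    rw [bvS (by omega), a]
    exact rel_le hN hy hBy (ih k (by omega) hy hBy) z

theorem bv_congr {leg' : ℕ → ℕ → ℕ} (hu : u ≤ n) (h : ∀ y ≤ n, ∀ z ≤ n, leg y z = leg' y z) (m : ℕ) :
    bv n N B leg u m = bv n N B leg' u m := by
  have a : ∀ e, leg u (sel n B e) = leg' u (sel n B e) := fun e => h _ hu _ (sel_le _ _ _)
  have b : ∀ e e', leg (sel n B e) (sel n B e') = leg' (sel n B e) (sel n B e') :=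
    fun e e' => h _ (sel_le _ _ _) _ (sel_le _ _ _)
  unfold bv
  simp only [a, b]

end BfL

open BfL in
theorem bfK : BfK where
  snd n N θ Z B leg W tr h0 u v h := relax tr h0 (bv_snd tr h0 θ) v h
  cpl n N θ B leg u m v c hN hm h := by
    cases h with
    | one => exact mn_le_z
    | step _ h hy hB => exact rel_le hN hy hB (bv_cpl hN h θ (by omega) hy hB) v
  le n N θ B leg u v := mn_le_z
  congr n N θ B leg leg' u v hu hv h := by
    have b : ∀ e, leg (sel n B e) v = leg' (sel n B e) v := fun e => h _ (sel_le _ _ _) _ hv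
    unfold bf
    simp only [bv_congr hu h, b, h u hu v hv]

end Pool.Agent.MP_1a6d78_lc.DS.SD
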