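import Pool.Agent.MP_1a6d78_lc.SD.Spec

/-! PROJECT SD, row BFQ: Bellman-Ford with calls in the legs. -/

namespace Pool.Agent.MP_1a6d78_lc.DS.SD

open Classical ED PR DD SC

namespace BqL

variable {κ q β : List Bool → ℕ}

/-- A function of two numbers with calls. -/
def G2 (κ q β : List Bool → ℕ) (f : List Bool → Orc → Env → ℕ → ℕ → ℕ) : Prop :=
  Nq κ q β fun x g ρ => f x g (tl (tl ρ)) (hd (ρ 1)) (hd (ρ 0))

theorem app2 {f : List Bool → Orc → Env → ℕ → ℕ → ℕ} {a b : List Bool → Orc → Env → ℕ}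
    (hf : G2 κ q β f) (ha : Nq κ q β a) (hb : Nq κ q β b) :
    Nq κ q β fun x g ρ => f x g ρ (a x g ρ) (b x g ρ) :=
  SC.M.bind (fun x g ρ => [a x g ρ]) (fun x g ρ => [f x g (tl ρ) (hd (ρ 0)) (b x g (tl ρ))]) ha
    (SC.M.bind (fun x g ρ => [b x g (tl ρ)])
      (fun x g ρ => [f x g (tl (tl ρ)) (hd (ρ 1)) (hd (ρ 0))]) (Q.w hb) hf)

theorem w2 {f : List Bool → Orc → Env → ℕ → ℕ → ℕ} (hf : G2 κ q β f) :
    G2 κ q β fun x g ρ => f x g (tl ρ) :=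
  SC.M.ren (fun x g ρ => [f x g (tl (tl ρ)) (hd (ρ 1)) (hd (ρ 0))]) (fun i => match i with
    | 0 => 0
    | 1 => 1
    | i + 2 => i + 3) hf

theorem mnq {N : List Bool → ℕ} {z : List Bool → Orc → Env → ℕ}
    (c : List Bool → Orc → Env → ℕ → ℕ) (hN : Cn κ fun x _ => N x) (hq : ∀ x, N x ≤ q x)
    (hc : Fq κ q β c) (hz : Nq κ q β z) :
    Nq κ q β fun x g ρ => mn (N x) (fun _ => True) (c x g ρ) (z x g ρ) := by
  refine Q.cg (Q.fold (n := fun x _ _ => N x) (fun x g ρ i acc => min acc (c x g ρ i))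
    (fun _ _ _ _ => 0) (Q.lift hN) (fun x _ _ => hq x) hz
    (Q.min (Q.v 0) (Q.app (Q.wF (Q.wF hc)) (Q.v 1))) (Q.c 0)
    fun _ _ _ _ _ _ h _ => (min_le_left _ _).trans h) fun x g ρ => ?_
  simp only [mn, if_true]

end BqL

open BqL in
theorem bqS : BqS := by
  intro κ q β N θ n B leg u v hb hN hθ hn hB hleg hle hu hv
  have hl : G2 κ q β leg := hleg
  have hNq : ∀ x, N x ≤ q x := fun x => (hb x).2.1
  have hNk : ∀ x, N x ≤ κ x := fun x => (hb x).1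
  have hs : Fq κ q β fun x _ ρ => sel (n x ρ) (B x ρ) := Q.lift (K.sel hn hB)
  have hz : Lq κ q β fun x g ρ =>
      tab (N x) fun e => leg x g ρ (u x g ρ) (sel (n x ρ) (B x ρ) e) :=
    Q.tab (fun x g ρ e => leg x g ρ (u x g ρ) (sel (n x ρ) (B x ρ) e)) hNk hNq hN
      (app2 (w2 hl) (Q.w hu) (Q.app (Q.wF hs) (Q.v 0)))
  have hin : Nq κ q β fun x g ρ => mn (N x) (fun _ => True)
      (fun e' => gt (ρ 1) e' + leg x g (tl (tl (tl ρ)))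
        (sel (n x (tl (tl (tl ρ)))) (B x (tl (tl (tl ρ)))) e')
        (sel (n x (tl (tl (tl ρ)))) (B x (tl (tl (tl ρ)))) (hd (ρ 0))))
      (leg x g (tl (tl (tl ρ))) (u x g (tl (tl (tl ρ))))
        (sel (n x (tl (tl (tl ρ)))) (B x (tl (tl (tl ρ)))) (hd (ρ 0)))) :=
    mnq (fun x g ρ e' => gt (ρ 1) e' + leg x g (tl (tl (tl ρ)))
        (sel (n x (tl (tl (tl ρ)))) (B x (tl (tl (tl ρ)))) e')
        (sel (n x (tl (tl (tl ρ)))) (B x (tl (tl (tl ρ)))) (hd (ρ 0)))) hN hNq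
      (Q.add (Q.gt (Q.vL 2) (Q.v 0))
        (app2 (w2 (w2 (w2 (w2 hl)))) (Q.app (Q.wF (Q.wF (Q.wF (Q.wF hs)))) (Q.v 0))
          (Q.app (Q.wF (Q.wF (Q.wF (Q.wF hs)))) (Q.v 1))))
      (app2 (w2 (w2 (w2 hl))) (Q.w (Q.w (Q.w hu))) (Q.app (Q.wF (Q.wF (Q.wF hs))) (Q.v 0)))
  have hbv : Lq κ q β fun x g ρ =>
      bv (n x ρ) (N x) (B x ρ) (leg x g ρ) (u x g ρ) (θ x) := by
    refine Q.foldL (n := fun x _ _ => θ x)
      (fun x g ρ _ V => tab (N x) fun e => mn (N x) (fun _ => True)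
        (fun e' => gt V e' + leg x g ρ (sel (n x ρ) (B x ρ) e') (sel (n x ρ) (B x ρ) e))
        (leg x g ρ (u x g ρ) (sel (n x ρ) (B x ρ) e)))
      (fun x _ _ _ => θ x + 1) (Q.lift hθ) (fun x _ _ => (hb x).2.2) hz
      (Q.tab (fun x g ρ e => mn (N x) (fun _ => True)
        (fun e' => gt (ρ 0) e' + leg x g (tl (tl ρ))
          (sel (n x (tl (tl ρ))) (B x (tl (tl ρ))) e') (sel (n x (tl (tl ρ))) (B x (tl (tl ρ))) e))
        (leg x g (tl (tl ρ)) (u x g (tl (tl ρ))) (sel (n x (tl (tl ρ))) (B x (tl (tl ρ))) e)))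
        hNk hNq hN hin)
      (Q.add (Q.lift hθ) (Q.c 1)) ?_
    intro x g ρ m acc b _ h a ha
    obtain ⟨e, -, rfl⟩ := List.mem_map.1 ha
    exact mn_le_z.trans ((hle _ _ _ _ _).trans h)
  exact Q.appLN (f := fun x g ρ V => mn (N x) (fun _ => True)
      (fun e => gt V e + leg x g ρ (sel (n x ρ) (B x ρ) e) (v x g ρ))
      (leg x g ρ (u x g ρ) (v x g ρ)))
    (mnq (fun x g ρ e => gt (ρ 0) e +
        leg x g (tl ρ) (sel (n x (tl ρ)) (B x (tl ρ)) e) (v x g (tl ρ))) hN hNq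
      (Q.add (Q.gt (Q.vL 1) (Q.v 0))
        (app2 (w2 (w2 hl)) (Q.app (Q.wF (Q.wF hs)) (Q.v 0)) (Q.w (Q.w hv))))
      (Q.w (app2 hl hu hv))) hbv

end Pool.Agent.MP_1a6d78_lc.DS.SD
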