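import Pool.Agent.MP_1a6d78_lc.SD.Spec

/-! PROJECT SD, row CHAIN. -/

namespace Pool.Agent.MP_1a6d78_lc.DS.SD

open Classical ED PR DD SC

namespace ChL

variable {κ q : List Bool → ℕ}

theorem pairC (hP : PiK 1) (h2 : ∀ x, 2 ≤ κ x) (k i : ℕ) :
    Cm κ fun x ρ => [k, min (num x 0) (hd (ρ i))] :=
  (kitOne κ).tab (n := fun _ => 2)
    (fun x ρ e => if e = 0 then k else min (num x 0) (hd (ρ i))) h2 (PR.K.c 2)
    (PR.K.ite (PR.K.eq (PR.K.v 0) (PR.K.c 0)) (PR.K.c k) (PR.K.min (hP.M κ).1 (PR.K.v (i + 1))))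

theorem Qs_le (K : ℕ) (x : List Bool) : Qs (inp x) ≤ bt K x := by
  have h1 : num x 0 ≤ x.length := nle x 0
  have h2 : (2 * num x 0 + 3) ^ 2 ≤ (2 * (x.length + 2)) ^ 2 := Nat.pow_le_pow_left (by omega) 2
  have h3 : 2 ^ 9 ≤ (x.length + 2) ^ 9 := Nat.pow_le_pow_left (by omega) 9
  calc Qs (inp x) = 96 * (2 * num x 0 + 3) ^ 2 := by simp only [Qs, inp]; ring
    _ ≤ 96 * (2 * (x.length + 2)) ^ 2 := Nat.mul_le_mul_left _ h2
    _ = 384 * (x.length + 2) ^ 2 := by ring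
    _ ≤ (x.length + 2) ^ 9 * (x.length + 2) ^ 2 := Nat.mul_le_mul_right _ (by omega)
    _ = (x.length + 2) ^ 11 := by ring
    _ ≤ _ := Nat.pow_le_pow_right (by omega) (by omega)

theorem n_le (K : ℕ) (x : List Bool) : num x 0 + 4 ≤ bt K x := by
  refine le_trans ?_ (Qs_le K x)
  simp only [Qs, inp]
  nlinarith [Nat.zero_le (num x 0)]

theorem callQ (hP : PiK 1) (h2 : ∀ x, 2 ≤ κ x) (K k : ℕ) (hk : k ≤ 4) :
    Nq κ q (bt K) fun x g ρ => g [k, min (num x 0) (hd (ρ 0))] :=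
  Q.call (Q.liftL (pairC hP h2 k 0)) fun x _ ρ a ha => by
    have := n_le K x
    simp only [List.mem_cons, List.not_mem_nil, or_false] at ha
    omega

theorem ltQ (hP : PiK 1) (K : ℕ) : Pq κ q (bt K) fun x _ ρ => hd (ρ 0) < num x 0 :=
  Q.lt (Q.v 0) (Q.lift (hP.M κ).1)

theorem stQ (hP : PiK 1) (h2 : ∀ x, 2 ≤ κ x) (K : ℕ) :
    StQ κ (bt K) fun x g => dec (num x 0) g where
  A := Q.and (ltQ hP K) (Q.eq (callQ hP h2 K 0 (by omega)) (Q.c 1))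
  tr := Q.and (ltQ hP K) (Q.eq (callQ hP h2 K 1 (by omega)) (Q.c 1))
  nx := Q.ite (ltQ hP K) (callQ hP h2 K 3 (by omega)) (Q.v 0)
  dep := Q.ite (ltQ hP K) (callQ hP h2 K 4 (by omega)) (Q.c 0)

theorem alC (hP : PiK 1) : P1 κ fun x _ => al0 (inp x) :=
  PR.K.and (PR.K.lt (PR.K.v 0) (hP.M κ).1) (PR.K.ne (hP.M κ).2.2.1 (PR.K.v 0))

theorem nxC (hP : PiK 1) : F1 κ fun x _ => (st0 (inp x)).nx :=
  PR.K.ite (alC hP)
    (PR.K.it (hP.M κ).1 (hP.M κ).2.1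
      (PR.K.add (PR.K.lst
        (P := fun x ρ t => al0 (inp x) (it (inp x).n (inp x).ρ (t + 1) (hd (ρ 0)))) (hP.M κ).1
        (PR.K.appP (alC hP) (PR.K.it (hP.M κ).1 (hP.M κ).2.1
          (PR.K.add (PR.K.v 0) (PR.K.c 1)) (PR.K.v 1)))) (PR.K.c 1)) (PR.K.v 0))
    (PR.K.v 0)

theorem baseC (hP : PiK 1) : Cn κ fun x ρ => enc (st0 (inp x)) (ρ 0) := by
  have g0 : Cn κ fun _ ρ => gt (ρ 0) 0 := PR.K.gt (PR.K.vL 0) (PR.K.c 0)
  have g1 : Cn κ fun _ ρ => gt (ρ 0) 1 := PR.K.gt (PR.K.vL 0) (PR.K.c 1)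
  refine PR.K.cg (PR.K.ite (i := fun _ _ => propDecidable _) (PR.K.eq g0 (PR.K.c 0))
    (PR.K.appP (alC hP) g1)
    (PR.K.ite (i := fun _ _ => propDecidable _) (PR.K.eq g0 (PR.K.c 3)) (PR.K.app (nxC hP) g1)
      (PR.K.c 0))) fun x ρ => ?_
  unfold enc
  by_cases h0 : gt (ρ 0) 0 = 0
  · rw [if_pos h0, if_pos h0]; rfl
  · rw [if_neg h0, if_neg h0]
    by_cases h3 : gt (ρ 0) 0 = 3
    · rw [if_pos h3, if_neg (by omega), if_neg (by omega), if_pos h3]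
    · rw [if_neg h3, if_neg h3]
      simp [st0]

end ChL

open ChL in
theorem chS : ChS := by
  intro hR hE hP hK h1 h2 K
  obtain ⟨A, hA⟩ := hE hR 2 12 (32 * K + 80) K (by omega)
    (Nat.lt_two_pow_self.le.trans (Nat.pow_le_pow_right (by omega) (by omega)))
    (bt K) (fun x => Qs (inp x)) (fun x => enc (st0 (inp x))) (stq K) phi rfl (Qs_le K)
    fun κ hκ => by
      have n0 : Cn κ fun x _ => num x 0 := (hP.M κ).1
      have hS := stQ hP hκ K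
      obtain ⟨c1, c2⟩ := hK.co K κ _ _ (PR.K.v 0) (PR.K.v 2)
      refine ⟨baseC hP, ?_, ?_, ?_⟩
      · exact M.bind _ _ (Q.lift c2) (M.bind _ _ (Q.w (Q.lift c1))
          (M.ren _ (fun i => match i with
            | 0 => 3
            | 1 => 0
            | 2 => 1
            | _ => 5) (h2 hP hK κ _ _ hS (h1 hP hK κ _ _ hS))))
      · exact Q.sub (Q.lift n0) (Q.cnt (P := fun x g _ => (dec (num x 0) g).mr) (Q.lift n0)
          (fun x _ _ => (Nat.le_add_right _ 4).trans (n_le K x))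
          (Q.and (ltQ hP K) (Q.eq (callQ hP hκ K 2 (by omega)) (Q.c 1))))
      · exact PR.K.mul (PR.K.c 2) (PR.K.mul (PR.K.c 48)
          (PR.K.pow 2 (PR.K.add (PR.K.mul (PR.K.c 2) n0) (PR.K.c 3))))
  refine ⟨A + 2, fun κ hκ => ?_⟩
  have l1 : ∀ x, 1 ≤ lg x ^ 2 := fun x => Nat.one_le_pow _ _ (Nat.succ_pos _)
  have k2 : ∀ x, 2 ≤ κ x := fun x => by
    have := hκ x
    have := l1 x
    nlinarith [Nat.zero_le (A * lg x ^ 2)]
  have hc := hA κ fun x => (Nat.mul_le_mul_right _ (Nat.le_add_right A 2)).trans (hκ x)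
  have hd' : Cn κ fun x ρ => chn K x (min (bt K x) (hd (ρ 0))) [1, min (num x 0) (hd (ρ 1))] :=
    (kitA κ).bind _ _ (pairC hP k2 1 1) ((kitA κ).ren _ (fun i => match i with
      | 0 => 1
      | _ => 0) hc)
  exact PR.K.and (PR.K.lt (PR.K.v 1) (hP.M κ).1) (PR.K.eq hd' (PR.K.c 1))

end Pool.Agent.MP_1a6d78_lc.DS.SD
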