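import Pool.Agent.MP_1a6d78_lc.SD.Spec
import Pool.Agent.MP_1a6d78_lc.DD.PackA

/-! PROJECT SD: row COIN. -/

namespace Pool.Agent.MP_1a6d78_lc.DS.SD

open Classical ED PR DD SC

namespace CoL

/-- The positions of the bars. -/
def barp (cy : ℕ → ℕ) (l : ℕ) : ℕ := ∑ i ∈ Finset.range l, cy i + l

theorem bar_succ (cy : ℕ → ℕ) (l : ℕ) : barp cy (l + 1) = barp cy l + cy l + 1 := by
  simp only [barp, Finset.sum_range_succ]; omega

theorem bar_mono (cy : ℕ → ℕ) : StrictMono (barp cy) :=
  strictMono_nat_of_lt_succ fun l => by rw [bar_succ]; omega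

theorem cnt_bar (cy : ℕ → ℕ) {T l : ℕ} (hl : l ≤ T) :
    cnt (barp cy l) (fun i => ∃ m ≤ T, barp cy m = i) = l := by
  have h : (Finset.range (barp cy l)).filter (fun i => ∃ m ≤ T, barp cy m = i) =
      (Finset.range l).image (barp cy) := by
    ext i
    simp only [Finset.mem_filter, Finset.mem_range, Finset.mem_image]
    constructor
    · rintro ⟨h1, m, -, rfl⟩
      exact ⟨m, (bar_mono cy).lt_iff_lt.1 h1, rfl⟩
    · rintro ⟨m, h1, rfl⟩
      exact ⟨bar_mono cy h1, m, by omega, rfl⟩
  have h2 := congrArg Finset.card h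
  rw [Finset.card_image_of_injective _ (bar_mono cy).injective, Finset.card_range] at h2
  unfold cnt
  convert h2

end CoL

open CoL in
theorem coS : CoS := by
  refine ⟨fun T cy cj h1 h2 => ?_, fun T p l => ?_, fun M r cy cj cy' cj' T => ?_⟩
  · obtain ⟨p, hp, h⟩ := digS 16 (3 * T + 1)
      (fun i => (if ∃ m ≤ T, barp cy m = i then 8 else 0) + cj i) (fun i _ => by
        have := h2 i
        split_ifs <;> omega)
    have hT : ∀ l ≤ T, barp cy l < 3 * T + 1 := fun l hl => by
      have h3 := (bar_mono cy).monotone hl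
      have h4 : barp cy T ≤ 3 * T := by unfold barp; omega
      omega
    have hP : ∀ i < 3 * T + 1, 8 ≤ dg 16 p i ↔ ∃ m ≤ T, barp cy m = i := fun i hi => by
      rw [h i hi]
      have := h2 i
      split_ifs with k
      · exact ⟨fun _ => k, fun _ => by omega⟩
      · exact ⟨fun _ => by omega, fun k' => absurd k' k⟩
    have hb : ∀ l ≤ T, cb T p l = barp cy l := fun l hl => by
      have h3 := (sel_cnt (P := fun i => 8 ≤ dg 16 p i) (hT l hl)
        ((hP _ (hT l hl)).2 ⟨l, hl, rfl⟩)).1
      rw [cnt_congr (fun a ha => hP a (ha.trans (hT l hl))), cnt_bar cy hl] at h3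
      exact h3
    refine ⟨p, hp, fun l hl => ⟨?_, ?_⟩⟩
    · rw [cyy, hb _ hl, hb _ hl.le, bar_succ]; omega
    · rw [cjj, h l (by omega)]
      have := h2 l
      split_ifs <;> omega
  · have := sel_le (3 * T + 1) (fun i => 8 ≤ dg 16 p i) (l + 1)
    unfold cyy cb
    omega
  · induction T with
    | zero => intro _; rfl
    | succ T ih =>
      intro h
      have h3 := h T (Nat.lt_succ_self T)
      simp only [run]
      rw [ih fun l hl => h l (by omega), h3.1, h3.2]

end Pool.Agent.MP_1a6d78_lc.DS.SD
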