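import Pool.Agent.MP_1a6d78_lc.SD.Spec

/-! PROJECT SD, row CONT: the line of the contours. -/

namespace Pool.Agent.MP_1a6d78_lc.DS.SD

open Classical ED PR DD SC PR.Cont

namespace CtL

theorem core {n : ℕ} {ρ β τ : ℕ → ℕ} (hρ : Pm n ρ) (hβ : Iv n β) (hp : Pl n ρ β) (hτ : Iv n τ)
    (hs : Sb n τ β) (one : ∀ d < n, Sc n (fun d => ρ (τ d)) d (τ d))
    (br : ∀ d < n, τ d ≠ d → ¬Conn n ρ (del τ d) d (τ d)) :
    CtK n ρ τ (out (fun d => if Sc n (fun d => ρ (τ d)) d (β d) then β d else d) τ)
      (ps n (fun d => ρ (τ d)) fun _ => True) := by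
  have hf := hρ.comp hτ.pm
  have iv : Iv n fun d => if Sc n (fun d => ρ (τ d)) d (β d) then β d else d := fun d hd => by
    by_cases k : Sc n (fun d => ρ (τ d)) d (β d)
    · have k' : Sc n (fun d => ρ (τ d)) (β d) (β (β d)) := by
        rw [(hβ d hd).2]; exact k.symm hf hd
      simp only [if_pos k, if_pos k']
      exact hβ d hd
    · simp only [if_neg k]
      exact ⟨hd, trivial⟩
  have sb : Sb n (fun d => if Sc n (fun d => ρ (τ d)) d (β d) then β d else d) β := fun d _ => by
    by_cases k : Sc n (fun d => ρ (τ d)) d (β d)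
    · exact Or.inr (if_pos k)
    · exact Or.inl (if_neg k)
  have C := contS swapK n ρ _ τ (fun _ => True) hρ iv (hp.sub sb) hτ
    (fun d hd => (hs d hd).imp id fun e => by
      have k := one d hd
      rw [e] at k
      rw [e]
      exact (if_pos k).symm)
    (fun d hd => by
      by_cases k : Sc n (fun d => ρ (τ d)) d (β d)
      · simp only [if_pos k]; exact k.conn hρ hτ hd
      · simp only [if_neg k]; exact Conn.refl _ _ _ _)
    br fun d hd => ⟨d, hd, Conn.refl _ _ _ _, trivial⟩
  have h : ∀ d < n, ∃ e < n, Sc n (fun d => ρ (τ d)) d e ∧ (fun _ => True) e := fun d hd =>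
    ⟨d, hd, Sc.refl _ hd, trivial⟩
  have e1 : ∀ d < n, st n (fun d => ρ (τ d)) (fun _ => True) (τ d) =
      st n (fun d => ρ (τ d)) (fun _ => True) d := fun d hd => (st_eq hf hd (one d hd)).symm
  refine ⟨C.inj, fun d hd => ?_, C.ivo, C.nco, C.nci, fun f hd => ?_, fun a ha b hb k1 k2 => ?_⟩
  · have a := (st_spec h hd).1
    have b := (tm_spec hf h hd).1
    have := Nat.mul_le_mul_right n (Nat.succ_le_of_lt a)
    rw [Nat.succ_mul] at this
    rw [ps_eq]
    omega
  · have s := C.succ (τ f) (hτ f hd).1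
    rw [(hτ f hd).2] at s
    by_cases k : st n (fun d => ρ (τ d)) (fun _ => True) (ρ f) = ρ f
    · have hr := hρ.1 f hd
      have z : tm n (fun d => ρ (τ d)) (fun _ => True) (ρ f) = 0 :=
        Nat.le_zero.1 (lst_le (P := fun t => it n (fun d => ρ (τ d)) t
          (st n (fun d => ρ (τ d)) (fun _ => True) (ρ f)) = ρ f) (by omega) k)
      have u := C.uniq f hd (ρ f) hr (Sc.step hρ.1 hd)
      refine Or.inr ⟨?_, fun d hd' l => ?_⟩
      · rw [ps_eq, ps_eq, z, u]
        omega
      · have b := (tm_spec hf h (hτ d hd').1).1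
        rw [ps_eq, ps_eq, z] at l
        rw [ps_eq, ps_eq, z, e1 d hd']
        have c : st n (fun d => ρ (τ d)) (fun _ => True) d <
            st n (fun d => ρ (τ d)) (fun _ => True) (ρ f) := by
          by_contra c
          have := Nat.mul_le_mul_right n (not_lt.1 c)
          omega
        have := Nat.mul_le_mul_right n (Nat.succ_le_of_lt c)
        rw [Nat.succ_mul] at this
        omega
    · exact Or.inl (s k)
  · have a1 := st_le hf h hb k1
    have a2 := st_le hf h (hτ a ha).1 k2.le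
    rw [e1 a ha] at a2
    have u := (st_spec h ha).2.1
    have v := (st_spec h hb).2.1
    rw [le_antisymm a1 a2] at u
    exact (u.conn hρ hτ ha).trans (v.conn hρ hτ hb).symm

end CtL

theorem ctS : CtS := fun _ _ _ _ h k =>
  CtL.core h.ok.pm h.ok.iv h.ok.pl k.iv k.sb h.one k.br

end Pool.Agent.MP_1a6d78_lc.DS.SD
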