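import Pool.Agent.MP_1a6d78_lc.SD.Spec

/-! Few vertices are cut at a position of the line of the contours. -/

namespace Pool.Agent.MP_1a6d78_lc.DS.SD

open Classical ED PR DD SC

namespace CuL

variable {n : ℕ} {ρ τ o pos : ℕ → ℕ}

theorem one {P : ℕ → Prop} (h : ∀ a < n, ∀ b < n, P a → P b → a = b) : cnt n P ≤ 1 :=
  Finset.card_le_one.2 fun a ha b hb => by
    simp only [Finset.mem_filter, Finset.mem_range] at ha hb
    exact h a ha.1 b hb.1 ha.2 hb.2

theorem zero {P : ℕ → Prop} (h : ∀ a < n, ¬P a) : cnt n P = 0 :=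
  Finset.card_eq_zero.2 (Finset.filter_eq_empty_iff.2 fun a ha => h a (Finset.mem_range.1 ha))

theorem img (P : ℕ → Prop) (g : ℕ → ℕ) :
    cnt n (fun v => ∃ d < n, P d ∧ g d = v) ≤ cnt n P := by
  refine le_trans (Finset.card_le_card fun v hv => ?_) (Finset.card_image_le (f := g))
  simp only [Finset.mem_filter, Finset.mem_range, Finset.mem_image] at hv ⊢
  obtain ⟨-, d, h1, h2, h3⟩ := hv
  exact ⟨d, ⟨h1, h2⟩, h3⟩

/-- The inside of the tree edge `d`. -/
def J (τ pos : ℕ → ℕ) (d e : ℕ) : Prop := pos d < pos e ∧ pos e ≤ pos (τ d)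

theorem mid (hτ : Iv n τ) (K : CtK n ρ τ o pos) {d f : ℕ} (hd : d < n) (hf : f < n)
    (h1 : pos d < pos (τ f)) (h2 : pos (τ f) < pos (τ d)) : J τ pos d f := by
  have a1 := K.nci d hd (τ f) (hτ f hf).1
  have a2 := K.nci f hf d hd
  rw [(hτ f hf).2] at a1
  have a3 : pos f ≠ pos d := fun e => by
    rw [K.inj f hf d hd e] at h2
    omega
  unfold J
  omega

theorem rot (hτ : Iv n τ) (K : CtK n ρ τ o pos) {d f : ℕ} (hd : d < n) (hf : f < n)
    (h : J τ pos d (ρ f)) : J τ pos d f := by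
  obtain ⟨h1, h2⟩ := h
  rcases K.pre f hf with e | ⟨-, e⟩
  · by_cases c : pos (τ f) = pos d
    · have k := K.inj _ (hτ f hf).1 d hd c
      have k' : τ d = f := by rw [← k, (hτ f hf).2]
      rw [k'] at h2
      unfold J
      rw [k']
      omega
    · exact mid hτ K hd hf (by omega) (by omega)
  · have := e d hd h1
    omega

theorem edge (hτ : Iv n τ) (K : CtK n ρ τ o pos) {d f : ℕ} (hd : d < n) (hf : f < n)
    (h : J τ pos d (τ f)) : J τ pos d f ∨ d = f := by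
  obtain ⟨h1, h2⟩ := h
  rcases h2.eq_or_lt with c | c
  · exact Or.inr (hτ.pm.2 f hf d hd (K.inj _ (hτ f hf).1 _ (hτ d hd).1 c)).symm
  · exact Or.inl (mid hτ K hd hf h1 c)

theorem walk (hτ : Iv n τ) (K : CtK n ρ τ o pos) {a b k : ℕ} (h : Tw n ρ τ a b k) :
    cnt n (fun d => ¬J τ pos d a ∧ J τ pos d b) ≤ k := by
  induction h with
  | nil k => exact (zero fun d _ c => c.1 c.2).le.trans (Nat.zero_le k)
  | rot _ hb ih => exact (cnt_mono fun d hd c => ⟨c.1, rot hτ K hd hb c.2⟩).trans ih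
  | @edge b k _ hb ih =>
    refine (cnt_mono (Q := fun d => (¬J τ pos d a ∧ J τ pos d b) ∨ d = b) fun d hd c =>
      (edge hτ K hd hb c.2).imp_left fun e => ⟨c.1, e⟩).trans ((cnt_or _ _ _).trans ?_)
    exact Nat.add_le_add ih (one fun _ _ _ _ e e' => e.trans e'.symm)

theorem cross {H : ℕ} (hτ : Iv n τ) (K : CtK n ρ τ o pos)
    (hH : ∀ a < n, ∀ b < n, Conn n ρ τ a b → Tw n ρ τ a b H) (p : ℕ) :
    cnt n (fun d => pos d < p ∧ p ≤ pos (τ d)) ≤ H := by
  rcases ((Finset.range n).filter fun d => pos d < p ∧ p ≤ pos (τ d)).eq_empty_or_nonempty with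
    e | e
  · refine (zero fun d hd c => ?_).le.trans (Nat.zero_le H)
    exact Finset.filter_eq_empty_iff.1 e (Finset.mem_range.2 hd) c
  · obtain ⟨x, hx, mx⟩ := Finset.exists_min_image _ pos e
    obtain ⟨y, hy, my⟩ := Finset.exists_max_image _ pos e
    simp only [Finset.mem_filter, Finset.mem_range] at hx mx hy my
    have c : Conn n ρ τ x (τ y) :=
      (K.blk x hx.1 y hy.1 (mx y hy) (by omega)).trans (Conn.gam ρ τ hy.1)
    refine (cnt_mono fun d hd k => ?_).trans (walk hτ K (hH x hx.1 _ (hτ y hy.1).1 c))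
    have b1 := mx d ⟨hd, k⟩
    have b2 := my d ⟨hd, k⟩
    have b3 := K.nci d hd y hy.1
    unfold J
    by_cases q : pos d = pos y
    · rw [K.inj d hd y hy.1 q] at b1 ⊢
      omega
    · omega

end CuL

open CuL

theorem cuS : CuS := by
  intro G ρ H hρ hτ K hn _ hH p
  have key : ∀ v, ∀ a < G.n, ∀ b < G.n, G.nd a = v → G.nd b = v → G.pos a < p → ¬G.pos b < p →
      (∃ d < G.n, (G.pos d < p ∧ p ≤ G.pos (G.τ d)) ∧ G.nd d = v) ∨
        ∃ z < G.n, G.pos z = p ∧ G.nd z = v := by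
    intro v a ha b hb ea eb h1 h2
    refine (Sc.ind hρ.1 (Q := fun e => (G.nd e = v ∧ G.pos e < p) ∨
      ((∃ d < G.n, (G.pos d < p ∧ p ≤ G.pos (G.τ d)) ∧ G.nd d = v) ∨
        ∃ z < G.n, G.pos z = p ∧ G.nd z = v)) ha (Or.inl ⟨ea, h1⟩) (fun f hf k => ?_)
      ((hn a ha b hb).1 (ea.trans eb.symm))).resolve_left fun c => h2 c.2
    rcases k with ⟨k1, k2⟩ | k
    · have e : G.nd (ρ f) = v :=
        ((hn f hf _ (hρ.1 f hf)).2 (Sc.step hρ.1 hf)).symm.trans k1
      by_cases c : G.pos (ρ f) < p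
      · exact Or.inl ⟨e, c⟩
      · by_cases c' : p ≤ G.pos (G.τ f)
        · exact Or.inr (Or.inl ⟨f, hf, ⟨k2, c'⟩, k1⟩)
        · refine Or.inr (Or.inr ⟨ρ f, hρ.1 f hf, ?_, e⟩)
          rcases K.pre f hf with g | ⟨g, -⟩ <;> omega
    · exact Or.inr k
  have key2 : ∀ v, ∀ a < G.n, ∀ b < G.n, G.nd a = v → G.nd b = v →
      ¬(G.pos a < p ↔ G.pos b < p) →
      (∃ d < G.n, (G.pos d < p ∧ p ≤ G.pos (G.τ d)) ∧ G.nd d = v) ∨
        ∃ z < G.n, G.pos z = p ∧ G.nd z = v := by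
    intro v a ha b hb ea eb h
    by_cases c : G.pos a < p
    · exact key v a ha b hb ea eb c fun c' => h (iff_of_true c c')
    · exact key v b hb a ha eb ea (by_contra fun c' => h (iff_of_false c c')) c
  refine (cnt_mono (Q := fun v =>
    ((∃ d < G.n, (G.pos d < p ∧ p ≤ G.pos (G.τ d)) ∧ G.nd d = v) ∨
      ∃ z < G.n, G.pos z = p ∧ G.nd z = v) ∨
    ∃ d < G.n, (G.pos d < p ∧ p ≤ G.pos (G.τ d)) ∧ G.nd (G.τ d) = v) fun v _ hv => ?_).trans ?_
  · obtain ⟨a, ha, b, hb, ea, eb | eb, h⟩ := hv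
    · exact Or.inl (key2 v a ha b hb ea eb h)
    · by_cases c : G.pos b < p ↔ G.pos (G.τ b) < p
      · exact Or.inl (key2 v a ha _ (hτ b hb).1 ea eb fun k => h (k.trans c.symm))
      · by_cases c' : G.pos b < p
        · exact Or.inr ⟨b, hb, ⟨c', not_lt.1 fun k => c (iff_of_true c' k)⟩, eb⟩
        · refine Or.inl (Or.inl ⟨G.τ b, (hτ b hb).1,
            ⟨by_contra fun k => c (iff_of_false c' k), ?_⟩, eb⟩)
          rw [(hτ b hb).2]
          exact not_lt.1 c'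
  · have a0 := cross hτ K hH p
    have a1 := img (n := G.n) (fun d => G.pos d < p ∧ p ≤ G.pos (G.τ d)) G.nd
    have a2 := img (n := G.n) (fun d => G.pos d < p ∧ p ≤ G.pos (G.τ d)) fun d => G.nd (G.τ d)
    have a3 := img (n := G.n) (fun z => G.pos z = p) G.nd
    have a4 : cnt G.n (fun z => G.pos z = p) ≤ 1 :=
      one fun a ha b hb e e' => K.inj a ha b hb (e.trans e'.symm)
    refine (cnt_or _ _ _).trans ((Nat.add_le_add_right (cnt_or _ _ _) _).trans ?_)
    omega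

end Pool.Agent.MP_1a6d78_lc.DS.SD
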