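import Pool.Agent.MP_1a6d78_lc.SD.Spec

/-! PROJECT SD, row DEC: a walk is cut into legs. -/

namespace Pool.Agent.MP_1a6d78_lc.DS.SD

open Classical ED PR DD SC

namespace DcL

variable {n : ℕ} {nd β w : ℕ → ℕ}

theorem trans {P : ℕ → Prop} {a b c x y : ℕ} (h : Wu n nd β w P a b x) (h' : Wu n nd β w P b c y) :
    Wu n nd β w P a c (x + y) := by
  induction h' with
  | nil => exact h
  | step _ hd hp ih => exact Nat.add_assoc _ _ _ ▸ ih.step hd hp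

theorem mono {P P' : ℕ → Prop} {a b x : ℕ} (hP : ∀ d < n, P d → P' d) (h : Wu n nd β w P a b x) :
    Wu n nd β w P' a b x := by
  induction h with
  | nil => exact .nil
  | step _ hd hp ih => exact ih.step hd (hP _ hd hp)

theorem one {P : ℕ → Prop} {d : ℕ} (hd : d < n) (hp : P d) :
    Wu n nd β w P (nd d) (nd (β d)) (w d) := by
  have := (Wu.nil (n := n) (nd := nd) (β := β) (w := w) (P := P) (u := nd d)).step hd hp
  rwa [Nat.zero_add] at this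

theorem s0 (Z : ℕ) (P : ℕ → Prop) (y z : ℕ) (h : l0 n Z nd β w P y z < Z) :
    Wu n nd β w P y z (l0 n Z nd β w P y z) := by
  unfold l0 at h ⊢
  split_ifs at h ⊢ with e
  · exact e ▸ .nil
  · rcases mn_eq n (fun d => P d ∧ nd d = y ∧ nd (β d) = z) w Z with k | ⟨d, hd, ⟨p, e1, e2⟩, k⟩
    · omega
    · rw [k, ← e1, ← e2]
      exact one hd p

theorem c0 (Z : ℕ) (P B : ℕ → Prop) (u v c : ℕ)
    (hP : ∀ d < n, P d → 1 ≤ w d ∧ nd d < n ∧ B (nd d)) (h : Wu n nd β w P u v c) :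
    ∃ m ≤ c, ∃ c' ≤ c, Ch n B (l0 n Z nd β w P) u m v c' := by
  induction h with
  | nil => exact ⟨0, le_rfl, _, by simp [l0], .one u⟩
  | @step d c _ hd hp ih =>
    obtain ⟨m, hm, c', hc, k⟩ := ih
    obtain ⟨h1, h2, h3⟩ := hP d hd hp
    have h4 : l0 n Z nd β w P (nd d) (nd (β d)) ≤ w d := by
      unfold l0
      split_ifs
      · exact Nat.zero_le _
      · exact mn_le hd ⟨hp, rfl, rfl⟩
    exact ⟨m + 1, by omega, _, by omega, k.step (nd (β d)) h2 h3⟩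

theorem close {Z W : ℕ} {B : ℕ → Prop} {Pw : ℕ → ℕ → Prop} {g : ℕ → ℕ → ℕ → ℕ} {u v c i y c1 : ℕ}
    (hg : ∀ i < W, ∀ y z c', c' < Z → Wu n nd β w (Pw i) y z c' → g i y z ≤ c') (hc : c < Z)
    (hi : i < W) (hw : Wu n nd β w (Pw i) y v c1)
    (h : (y = u ∧ c1 ≤ c) ∨ ∃ m c0, Ch n B (fun y z => mn W (fun _ => True) (fun i => g i y z) Z)
      u m y c0 ∧ y < n ∧ B y ∧ c0 + c1 ≤ c ∧ m + 1 ≤ c) :
    ∃ m ≤ c, ∃ c' ≤ c, Ch n B (fun y z => mn W (fun _ => True) (fun i => g i y z) Z) u m v c' := by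
  have h1 : c1 < Z := by rcases h with h | ⟨m, c0, -, -, -, h, -⟩ <;> omega
  have h2 : mn W (fun _ => True) (fun i => g i y v) Z ≤ c1 :=
    (mn_le (P := fun _ => True) (c := fun i => g i y v) hi trivial).trans (hg i hi y v c1 h1 hw)
  rcases h with ⟨rfl, h⟩ | ⟨m, c0, k, hy, hB, h3, h4⟩
  · exact ⟨0, Nat.zero_le _, _, h2.trans h, .one v⟩
  · exact ⟨m + 1, h4, _, (Nat.add_le_add_left h2 c0).trans h3, k.step v hy hB⟩

theorem c1 (Z W : ℕ) (P B : ℕ → Prop) (Pw : ℕ → ℕ → Prop) (g : ℕ → ℕ → ℕ → ℕ) (u v c : ℕ)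
    (hW : 0 < W) (hP : ∀ d < n, P d → 1 ≤ w d ∧ nd d < n ∧ ∃ i < W, Pw i d)
    (hB : ∀ d < n, ∀ d' < n, ∀ i < W, P d → P d' → Pw i d → nd (β d) = nd d' → Pw i d' ∨ B (nd d'))
    (hg : ∀ i < W, ∀ y z c', c' < Z → Wu n nd β w (Pw i) y z c' → g i y z ≤ c') (hc : c < Z)
    (h : Wu n nd β w P u v c) :
    ∃ m ≤ c, ∃ c' ≤ c, Ch n B (fun y z => mn W (fun _ => True) (fun i => g i y z) Z) u m v c' := by
  have key : ∃ i < W, ∃ y c1, Wu n nd β w (Pw i) y v c1 ∧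
      ((y = u ∧ c1 ≤ c) ∨ ∃ m c0, Ch n B (fun y z => mn W (fun _ => True) (fun i => g i y z) Z)
        u m y c0 ∧ y < n ∧ B y ∧ c0 + c1 ≤ c ∧ m + 1 ≤ c) ∧
      (v = u ∨ ∃ d < n, P d ∧ Pw i d ∧ nd (β d) = v) := by
    induction h with
    | nil => exact ⟨0, hW, u, 0, .nil, .inl ⟨rfl, le_rfl⟩, .inl rfl⟩
    | @step d c _ hd hp ih =>
      obtain ⟨i, hi, y, c1, hw, h1, h2⟩ := ih (by omega)
      obtain ⟨w1, hn, j, hj, pj⟩ := hP d hd hp
      rcases h2 with e | ⟨d0, hd0, p0, q0, e⟩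
      · exact ⟨j, hj, nd d, w d, one hd pj, .inl ⟨e, by omega⟩, .inr ⟨d, hd, hp, pj, rfl⟩⟩
      rcases hB d0 hd0 d hd i hi p0 hp q0 e with k | k
      · refine ⟨i, hi, y, c1 + w d, hw.step hd k, ?_, .inr ⟨d, hd, hp, k, rfl⟩⟩
        rcases h1 with ⟨e1, e2⟩ | ⟨m, c0, a1, a2, a3, a4, a5⟩
        · exact .inl ⟨e1, by omega⟩
        · exact .inr ⟨m, c0, a1, a2, a3, by omega, by omega⟩
      · obtain ⟨m, hm, c', hc', a⟩ := close hg (by omega : c < Z) hi hw h1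
        exact ⟨j, hj, nd d, w d, one hd pj, .inr ⟨m, c', a, hn, k, by omega, by omega⟩,
          .inr ⟨d, hd, hp, pj, rfl⟩⟩
  obtain ⟨i, hi, y, c1, hw, h1, -⟩ := key
  exact close hg hc hi hw h1

end DcL

theorem dcK : DcK where
  trans := DcL.trans
  mono := DcL.mono
  s0 := fun _ Z _ _ _ P y z => DcL.s0 Z P y z
  c0 := fun _ Z _ _ _ P B u v c => DcL.c0 Z P B u v c
  c1 := fun _ Z W _ _ _ P B Pw g u v c => DcL.c1 Z W P B Pw g u v c

end Pool.Agent.MP_1a6d78_lc.DS.SD
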