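import Pool.Agent.MP_1a6d78_lc.SD.Spec

/-! PROJECT SD: the row DEPTH. -/

namespace Pool.Agent.MP_1a6d78_lc.DS.SD

open Classical ED PR DD SC

namespace DpL

variable {M : Mp} {r q u j : ℕ} {S : St}

theorem tau_pos {d : ℕ} (hd : d < M.n) (h : S.tr d ∨ S.con M r q u j d) :
    (S.stp M r q u j).tau M d = M.β d := if_pos ⟨hd, h⟩

theorem sub (d : ℕ) (hd : d < M.n) :
    S.tau M d = d ∨ (S.stp M r q u j).tau M d = S.tau M d := by
  by_cases h : S.tr d
  · exact Or.inr ((tau_pos hd (Or.inl h)).trans (if_pos h).symm)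
  · exact Or.inl (if_neg h)

theorem chs (k : SlK M r S q u j) {a : ℕ} (h : S.sl M r q a) :
    S.sl M r q (S.ch M u j a) ∧ S.ch M u j (S.ch M u j a) = S.ch M u j a :=
  k.cl _ _ h (k.ch a h.2.1).1 (k.ch a h.2.1).2

end DpL

theorem dpS : DpS := by
  intro tw M r l S q u j sh nd k ⟨h1, rt, h2⟩
  have rc : ∀ a b, S.C M a b → rt a = rt b := fun a b h =>
    Conn.ind (r := fun a b => rt a = rt b) ⟨fun _ => rfl, Eq.symm, Eq.trans⟩
      (fun a ha => (h2 a ha).1.symm) (fun a ha => (h2 a ha).2.1.symm) h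
  obtain ⟨rt', s1, s2⟩ : ∃ rt' : ℕ → ℕ,
      (∀ a d, S.sl M r q a → S.C M a d → rt' d = rt (M.β (S.ch M u j a))) ∧
      ∀ d, (¬∃ a, S.sl M r q a ∧ S.C M a d) → rt' d = rt d := by
    refine ⟨fun d => if h : ∃ a, S.sl M r q a ∧ S.C M a d then
      rt (M.β (S.ch M u j h.choose)) else rt d, fun a d a1 a2 => ?_, fun d h => dif_neg h⟩
    have h : ∃ a, S.sl M r q a ∧ S.C M a d := ⟨a, a1, a2⟩
    have := k.cl a _ a1 h.choose_spec.1.2.1 (Conn.trans a2 (Conn.symm h.choose_spec.2))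
    exact (dif_pos h).trans (by rw [this.2])
  have rc' : ∀ a b, S.C M a b → rt' b = rt' a := fun a b h => by
    by_cases e : ∃ c, S.sl M r q c ∧ S.C M c a
    · obtain ⟨c, c1, c2⟩ := e
      rw [s1 c a c1 c2, s1 c b c1 (Conn.trans c2 h)]
    · rw [s2 a e, s2 b fun ⟨c, c1, c2⟩ => e ⟨c, c1, Conn.trans c2 (Conn.symm h)⟩, rc a b h]
  have ns : ∀ d, S.A d → ¬S.sl M r q d → rt' d = rt d := fun d a b =>
    s2 d fun ⟨c, c1, c2⟩ => b (k.cl c d c1 a c2).1
  have ed : ∀ d, S.sl M r q d → S.ch M u j d = d → rt' (M.β d) = rt' d := fun d a b => by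
    rw [s1 d d a (Conn.refl _ _ _ _), b, ns _ (sh.ab d a.2.1).1 (k.nd d a).2.2]
  have lw : ∀ a d m, S.sl M r q a → S.C M a d → Tw M.n M.ρ (S.tau M) d (rt d) m →
      Tw M.n M.ρ ((S.stp M r q u j).tau M) d (rt' d) (m + S.cost M (S.ch M u j a)) := by
    intro a d m a1 a2 w
    obtain ⟨c1, c2⟩ := k.ch a a1.2.1
    have c3 := sh.lt _ c1
    have c4 := (sh.ab _ c1).1
    have w1 := tw.symm sh.ok.pm nd.iv c3 ((h2 _ c3).2.2.2 c1)
    rw [← rc _ _ c2, rc _ _ a2] at w1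
    have w2 := (tw.sub (τ' := (S.stp M r q u j).tau M) DpL.sub (tw.trans w w1)).edge c3
    rw [DpL.tau_pos c3 (Or.inr ⟨c3, Or.inl (DpL.chs k a1)⟩)] at w2
    rw [s1 a d a1 a2]
    refine tw.mono (tw.trans w2 (tw.sub DpL.sub ((h2 _ (sh.lt _ c4)).2.2.2 c4))) ?_
    unfold St.cost
    omega
  refine ⟨fun d => ?_, rt', fun d hd => ⟨rc' _ _ (Conn.rho _ _ hd), ?_, ?_, fun a => ?_⟩⟩
  · have := h1 d
    show (if _ then S.dep d + (if _ then _ else 0) else 0) ≤ _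
    rw [Nat.succ_mul]
    split_ifs with a b
    · exact Nat.add_le_add this (k.nd _ (DpL.chs k b).1).1
    · exact Nat.add_le_add this (Nat.zero_le _)
    · omega
  · by_cases c : S.con M r q u j d
    · rw [DpL.tau_pos hd (Or.inr c)]
      rcases c.2 with e | e
      · exact ed d e.1 e.2
      · have := ed _ e.1 e.2
        rw [(sh.ok.iv d hd).2] at this
        exact this.symm
    · have : (S.stp M r q u j).tau M d = S.tau M d :=
        if_congr ⟨fun e => e.2.resolve_right c, fun e => ⟨hd, Or.inl e⟩⟩ rfl rfl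
      rw [this]
      exact rc' _ _ (Conn.gam _ _ hd)
  · rw [Nat.succ_mul]
    by_cases e : ∃ c, S.sl M r q c ∧ S.C M c d
    · obtain ⟨c, c1, c2⟩ := e
      exact tw.mono (lw c d _ c1 c2 (h2 d hd).2.2.1)
        (Nat.add_le_add_left (k.nd _ (DpL.chs k c1).1).1 _)
    · rw [s2 d e]
      exact tw.mono (tw.sub DpL.sub (h2 d hd).2.2.1) (Nat.le_add_right _ _)
  · have e : (S.stp M r q u j).dep d = S.dep d + S.inc M r q u j d := if_pos a
    rw [e, St.inc]
    split_ifs with b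
    · exact lw d d _ b (Conn.refl _ _ _ _) ((h2 d hd).2.2.2 a.1)
    · rw [ns d a.1 b]
      exact tw.sub DpL.sub ((h2 d hd).2.2.2 a.1)

end Pool.Agent.MP_1a6d78_lc.DS.SD
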