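import Pool.Agent.MP_1a6d78_lc.SD.Spec
import Pool.Agent.MP_1a6d78_lc.GE.ElimC

/-! PROJECT SD, rows ELIMC and ITEK. -/

namespace Pool.Agent.MP_1a6d78_lc.DS.SD

open Classical ED PR DD SC

theorem itS : ItS := fun _ _ _ _ hf hP h => GE.iteK hf hP fun x _ p => h x p

theorem elS : ElS := by
  intro _ r m b J hb hJ β W base step Φ hβ hW hC
  have l1 : ∀ x, 1 ≤ lg x := fun _ => Nat.succ_pos _
  have b1 : ∀ x, J * lg x ≤ β x := fun x => by
    obtain ⟨b, rfl⟩ : ∃ e, b = e + 1 := ⟨b - 1, by omega⟩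
    rw [hβ]
    exact Nat.mul_le_mul (hJ.trans (Nat.pow_le_pow_left (by omega) _))
      ((lg_le x).trans (Nat.le_succ _))
  obtain ⟨E, hE⟩ := GE.elimC r (b + m + 2 * ((m + 2) * (J + 1))) (fun _ => 0) (fun _ => m) β
    (fun x => J * lg x) W base step Φ
    (fun κ h => ⟨(hC κ h).1, (hC κ h).2.1, (hC κ h).2.2.1⟩) (fun _ => PR.K.c 0)
    (fun κ => PR.K.cg (PR.K.pow b (PR.K.add (kitOne κ).len (PR.K.c 2))) fun x _ => by rw [hβ])
    (fun κ => PR.K.mul (PR.K.c _) (lgC κ)) (fun κ h => (hC κ h).2.2.2)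
    (fun x => by
      refine ⟨by rw [hβ]; exact Nat.pow_le_pow_right (by omega) (by omega),
        (const_le_pw x.length m).trans (pw_mono le_rfl (by omega)), ?_⟩
      have := l1 x
      calc _ ≤ (m + 2) ^ ((J + 1) * lg x) := Nat.pow_le_pow_right (by omega) (by nlinarith)
        _ ≤ (2 ^ (m + 2)) ^ ((J + 1) * lg x) := Nat.pow_le_pow_left Nat.lt_two_pow_self.le _
        _ = (2 ^ lg x) ^ ((m + 2) * (J + 1)) := by rw [← pow_mul, ← pow_mul]; congr 1; ring
        _ ≤ ((x.length + 2) ^ 2) ^ ((m + 2) * (J + 1)) := Nat.pow_le_pow_left (two_lg x) _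
        _ ≤ _ := by rw [← pow_mul]; exact Nat.pow_le_pow_right (by omega) (by omega))
    (fun x => by rw [hβ]; exact Nat.one_le_pow _ _ (by omega)) b1 hW
  refine ⟨E * (J + 1) * (J + 1), fun κ hκ => hE κ fun x => le_trans ?_ (hκ x)⟩
  have := l1 x
  calc E * (0 + J * lg x + 1) * (J * lg x + 1) ≤ E * ((J + 1) * lg x) * ((J + 1) * lg x) := by
        gcongr <;> nlinarith
    _ = _ := by ring

end Pool.Agent.MP_1a6d78_lc.DS.SD
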