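import Pool.Agent.MP_1a6d78_lc.SD.Spec

/-! PROJECT SD, row ENC: the chain of oracles codes the levels. -/

namespace Pool.Agent.MP_1a6d78_lc.DS.SD

open Classical ED PR DD SC

namespace EnL

theorem ev {n b t d : ℕ} (f : List ℕ → ℕ) (hn : n ≤ b) (ht : t ≤ b) (hd : d < n) :
    nrm 2 b f [t, min n d] = min b (f [t, d]) := by
  simp [nrm, tab, gt, List.range_succ, min_eq_right ht, min_eq_right hd.le,
    min_eq_right (hd.le.trans hn)]

theorem ind {b : ℕ} (hb : 4 ≤ b) (P : Prop) : min b (if P then 1 else 0) = 1 ↔ P := by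
  split_ifs with h
  · simp only [h, iff_true]; omega
  · simp only [h, iff_false]; omega

variable {n b : ℕ} (S : St) (hn : n ≤ b) (hb : 4 ≤ b)

include hn hb

theorem mr (d : ℕ) : (dec n (nrm 2 b (enc S))).mr d ↔ d < n ∧ S.mr d :=
  and_congr_right fun h => by
    rw [ev _ hn (by omega) h]
    simpa [enc, gt] using ind hb _

theorem dec_enc (hA : ∀ d, S.A d → d < n) (ht : ∀ d, S.tr d → d < n) (hm : ∀ d, S.mr d → d < n)
    (hf : ∀ d, ¬S.A d → S.nx d = d ∧ S.dep d = 0) (h3 : ∀ d < n, S.nx d ≤ b)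
    (h4 : ∀ d, S.dep d ≤ b) : dec n (nrm 2 b (enc S)) = S := by
  have e2 : (dec n (nrm 2 b (enc S))).mr = S.mr :=
    funext fun d => propext ((mr S hn hb d).trans (and_iff_right_of_imp (hm d)))
  obtain ⟨A, tr, m, nx, dep⟩ := S
  simp only [dec, St.mk.injEq] at e2 ⊢
  refine ⟨funext fun d => propext ?_, funext fun d => propext ?_, e2, funext fun d => ?_,
    funext fun d => ?_⟩
  · refine (and_congr_right fun h => ?_).trans (and_iff_right_of_imp (hA d))
    rw [ev _ hn (by omega) h]
    simpa [enc, gt] using ind hb _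
  · refine (and_congr_right fun h => ?_).trans (and_iff_right_of_imp (ht d))
    rw [ev _ hn (by omega) h]
    simpa [enc, gt] using ind hb _
  · split_ifs with h
    · rw [ev _ hn (by omega) h]
      simpa [enc, gt] using h3 d h
    · exact (hf d fun a => h (hA d a)).1.symm
  · split_ifs with h
    · rw [ev _ hn (by omega) h]
      simpa [enc, gt] using h4 d
    · exact (hf d fun a => h (hA d a)).2.symm

omit hn hb

theorem big (K : ℕ) (x : List Bool) :
    num x 0 ≤ bt K x ∧ 4 ≤ bt K x ∧ K * lg x * rr x ≤ bt K x := by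
  have m : ∀ e ≤ 32 * K + 80, (x.length + 2) ^ e ≤ bt K x := fun e he =>
    Nat.pow_le_pow_right (by omega) he
  refine ⟨le_trans ?_ (m 1 (by omega)), le_trans ?_ (m 2 (by omega)),
    le_trans ?_ (m (K + 1 + 2 * 32) (by omega))⟩
  · have := nle x 0
    rw [pow_one]
    omega
  · exact Nat.pow_le_pow_left (Nat.le_add_left 2 _) 2
  · rw [pow_add, pow_add, pow_mul]
    refine Nat.mul_le_mul (Nat.mul_le_mul
      (Nat.lt_two_pow_self.le.trans (Nat.pow_le_pow_left (by omega) K)) ?_)
      (Nat.pow_le_pow_left ?_ 32)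
    · have := lg_le x
      rw [pow_one]
      omega
    · have := nle x 3
      nlinarith

end EnL

theorem enS : EnS := by
  intro hR hN K x p ok
  obtain ⟨b1, b2, b3⟩ := EnL.big K x
  have de : ∀ j ≤ K * lg x, (∀ d, (run (inp x) (rr x) (cyy (K * lg x) p) (cjj p) j).mr d →
      d < num x 0) → dec (num x 0) (nrm 2 (bt K x)
        (enc (run (inp x) (rr x) (cyy (K * lg x) p) (cjj p) j))) =
      run (inp x) (rr x) (cyy (K * lg x) p) (cjj p) j := fun j hj hm => by
    obtain ⟨s, dp, -⟩ := hR (inp x) (rr x) (cyy (K * lg x) p) (cjj p) j ok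
    refine EnL.dec_enc _ b1 b2 s.lt s.tl hm s.fix (fun d hd => le_trans ?_ b1) fun d =>
      (dp d).trans ((Nat.mul_le_mul_right _ hj).trans b3)
    by_cases a : (run (inp x) (rr x) (cyy (K * lg x) p) (cjj p) j).A d
    · exact (s.lt _ ((hN _ _ s).nx d a)).le
    · exact (s.fix d a).1.trans_le hd.le
  suffices h : ∀ j ≤ K * lg x, dec (num x 0) (El.chain 2 (bt K x) (Qs (inp x))
      (enc (st0 (inp x))) (stq K x p) (phi x) j) =
        run (inp x) (rr x) (cyy (K * lg x) p) (cjj p) j from h _ le_rfl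
  intro j
  induction j with
  | zero => exact fun h => de 0 h fun _ a => a.elim
  | succ j ih =>
    intro h
    have s := (hR (inp x) (rr x) (cyy (K * lg x) p) (cjj p) j ok).1
    rw [← de (j + 1) h fun d a => a.elim (fun a => s.lt d a.1.2.1) fun a => s.lt d a.2.1, El.chain]
    simp only [stq, ih (by omega), run, St.seed, phi]
    congr 5
    funext q
    unfold cnt
    congr 2
    exact Finset.filter_congr fun d hd =>
      (EnL.mr _ b1 b2 d).trans (and_iff_right (Finset.mem_range.1 hd))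

end Pool.Agent.MP_1a6d78_lc.DS.SD
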