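import Pool.Agent.MP_1a6d78_lc.SD.Spec

/-! PROJECT SD, row END: nothing is alive after the last round. -/

namespace Pool.Agent.MP_1a6d78_lc.DS.SD

open Classical ED PR DD SC

namespace EndL

theorem drop (hG : GnS) {M : Mp} {r K : ℕ} {S : St} (hS : Sh M S) (hN : NdK M S)
    (hL : ∀ q u j, SlK M r S q u j) (hK : 40000 ≤ K) (u j : ℕ) :
    cnt M.n (S.stp M r (S.seed M r) u j).A * K ≤ cnt M.n S.A * (K - 1) := by
  obtain ⟨⟨q, hq, h1⟩, h2⟩ := hG M r S hS hN hL
  have h3 : M.n - cnt M.n (S.mq M r (S.seed M r)) ≤ M.n - cnt M.n (S.mq M r q) :=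
    (amin_spec (fun q => M.n - cnt M.n (S.mq M r q)) (show 0 < Qs M by omega)).2 q hq
  have h4 := PR.cnt_le M.n (S.mq M r q)
  have h5 := PR.cnt_le M.n (S.mq M r (S.seed M r))
  have h6 : cnt M.n (S.stp M r (S.seed M r) u j).A + cnt M.n (S.mq M r (S.seed M r)) ≤
      cnt M.n S.A := h2 _ u j
  have h7 : cnt M.n (S.mq M r q) ≤ cnt M.n (S.mq M r (S.seed M r)) := by omega
  obtain ⟨K, rfl⟩ : ∃ K', K = K' + 1 := ⟨K - 1, by omega⟩
  rw [Nat.add_sub_cancel]
  generalize cnt M.n (S.stp M r (S.seed M r) u j).A = a at *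
  generalize cnt M.n (S.mq M r (S.seed M r)) = g at *
  generalize cnt M.n S.A = b at *
  have h8 : b ≤ (K + 1) * g := h1.trans (Nat.mul_le_mul hK h7)
  nlinarith

end EndL

theorem endS : EndS := by
  intro hR hN hL hG M r cy cj K L hM hK hn d hd
  have H := El.half (show 1 ≤ K by omega) (fun l => cnt M.n (run M r cy cj l).A) L fun l _ =>
    have hS := (hR M r cy cj l hM).1
    EndL.drop hG hS (hN M _ hS) (fun q u j => hL M r _ q u j hS (hN M _ hS)) hK _ _
  have h1 := cnt_pos ((hR M r cy cj (K * L) hM).1.lt d hd) hd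
  have h2 := PR.cnt_le M.n (run M r cy cj 0).A
  have h3 := Nat.le_mul_of_pos_left (2 ^ L) h1
  omega

end Pool.Agent.MP_1a6d78_lc.DS.SD
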