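import Pool.Agent.MP_1a6d78_lc.SD.Spec

/-! PROJECT SD, row FQ: one frame of the recursion is a function of the calculus with calls. -/

namespace Pool.Agent.MP_1a6d78_lc.DS.SD

open Classical ED PR DD SC

namespace FqL

variable {κ q β : List Bool → ℕ}

theorem ej (j i : ℕ) : Cn κ fun _ ρ => gt (ρ j) i := K.gt (K.vL j) (K.c i)

theorem mnQ {n z : List Bool → Orc → Env → ℕ} {c : List Bool → Orc → Env → ℕ → ℕ}
    (hn : Nq κ q β n) (hk : ∀ x g ρ, n x g ρ ≤ q x) (hc : Fq κ q β c) (hz : Nq κ q β z) :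
    Nq κ q β fun x g ρ => mn (n x g ρ) (fun _ => True) (c x g ρ) (z x g ρ) :=
  Q.cg (Q.fold (fun x g ρ i acc => min acc (c x g ρ i)) (fun _ _ _ _ => 0) hn hk hz
    (Q.min (Q.v 0) (Q.app (Q.wF (Q.wF hc)) (Q.v 1))) (Q.c 0)
    fun _ _ _ _ _ _ h _ => (min_le_left _ _).trans h) fun x g ρ => by
      simp only [mn, if_true]

theorem clip_eq (b a0 a1 a2 a3 a4 : ℕ) :
    (tab 5 fun e => min b (if e = 0 then a0 else if e = 1 then a1 else if e = 2 then a2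
      else if e = 3 then a3 else a4)) = GM.clip 5 b [a0, a1, a2, a3, a4] := rfl

theorem clipQ {a0 a1 a2 a3 a4 : List Bool → Env → ℕ} (h5 : ∀ x, 5 ≤ κ x) (h5' : ∀ x, 5 ≤ q x)
    (hb : Cn κ fun x _ => β x) (h0 : Cn κ a0) (h1 : Cn κ a1) (h2 : Cn κ a2) (h3 : Cn κ a3)
    (h4 : Cn κ a4) : Nq κ q β fun x g ρ =>
      g (GM.clip 5 (β x) [a0 x ρ, a1 x ρ, a2 x ρ, a3 x ρ, a4 x ρ]) := by
  refine Q.call (Q.cgL (Q.tab (m := fun _ => 5) (fun x _ ρ e => min (β x)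
    (if e = 0 then a0 x ρ else if e = 1 then a1 x ρ else if e = 2 then a2 x ρ
      else if e = 3 then a3 x ρ else a4 x ρ)) h5 h5' (K.c 5) ?_)
    fun x _ ρ => clip_eq _ _ _ _ _ _) fun x _ ρ a ha => ?_
  · exact Q.lift (K.min hb (K.ite (K.eq (K.v 0) (K.c 0)) (K.w h0)
      (K.ite (K.eq (K.v 0) (K.c 1)) (K.w h1) (K.ite (K.eq (K.v 0) (K.c 2)) (K.w h2)
        (K.ite (K.eq (K.v 0) (K.c 3)) (K.w h3) (K.w h4))))))
  · obtain ⟨e, -, rfl⟩ := List.mem_map.1 ha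
    exact min_le_left _ _

end FqL

open FqL in
theorem fqS : FqS := by
  intro kt bq K κ hκ hG hR
  obtain ⟨pi, pW, pL, pN, pθ, -, -⟩ := kt.pi K κ
  have hb := kt.bt K κ
  have hq : ∀ x, (pa K x).N ≤ κ x ∧ (pa K x).N ≤ qx K x ∧ (pa K x).θ ≤ qx K x := fun x => by
    have := hκ x
    unfold qx at *
    omega
  have h5 : ∀ x, 5 ≤ qx K x := fun x => by
    unfold qx
    omega
  have hW : ∀ x, (pa K x).W ≤ qx K x := fun x => by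
    unfold qx
    omega
  have hn : Cn κ fun x ρ => (gx K x (gt (ρ 0) 2)).n := PR.K.app hG.n (ej 0 2)
  have he : ∀ j, Cn κ fun x ρ => min (bt K x) (2 ^ gt (ρ j) 3) := fun j =>
    kt.p2 κ _ _ hb (ej j 3)
  have b0 := bq κ (qx K) (bt K) (fun x => (pa K x).N) (fun x => (pa K x).θ)
    (fun x ρ => (gx K x (gt (ρ 0) 2)).n)
    (fun x ρ => (gx K x (gt (ρ 0) 2)).B0 (pa K x) (gt (ρ 0) 4) (gt (ρ 0) 3))
    (fun x _ ρ => l0 (gx K x (gt (ρ 0) 2)).n ((pa K x).θ + 1) (gx K x (gt (ρ 0) 2)).nd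
      (gx K x (gt (ρ 0) 2)).β (gx K x (gt (ρ 0) 2)).w
      ((gx K x (gt (ρ 0) 2)).arc (pa K x) (gt (ρ 0) 4) (gt (ρ 0) 3)))
    (fun _ _ ρ => gt (ρ 0) 0) (fun _ _ ρ => gt (ρ 0) 1) hq pN pθ hn
    (hR.B0 _ _ _ _ (ej 1 2) (ej 1 4) (ej 1 3) (PR.K.v 0))
    (Q.lift (hR.l0 _ _ _ _ _ (ej 2 2) (ej 2 4) (ej 2 3) (PR.K.v 1) (PR.K.v 0)))
    (fun x _ ρ y z => by
      unfold l0
      split_ifs
      · exact Nat.zero_le _
      · exact mn_le_z)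
    (Q.lift (ej 0 0)) (Q.lift (ej 0 1))
  have b1 := bq κ (qx K) (bt K) (fun x => (pa K x).N) (fun x => (pa K x).θ)
    (fun x ρ => (gx K x (gt (ρ 0) 2)).n)
    (fun x ρ => (gx K x (gt (ρ 0) 2)).B1 (pa K x) (gt (ρ 0) 4) (gt (ρ 0) 3)
      (min (bt K x) (2 ^ gt (ρ 0) 3)))
    (fun x g ρ y z => mn (pa K x).W (fun _ => True) (fun w => g (GM.clip 5 (bt K x)
      [y, z, gt (ρ 0) 2, gt (ρ 0) 3 + (pa K x).i,
        gt (ρ 0) 4 + w * min (bt K x) (2 ^ gt (ρ 0) 3)])) ((pa K x).θ + 1))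
    (fun _ _ ρ => gt (ρ 0) 0) (fun _ _ ρ => gt (ρ 0) 1) hq pN pθ hn
    (hR.B1 _ _ _ _ _ (ej 1 2) (ej 1 4) (ej 1 3) (he 1) (PR.K.v 0))
    (mnQ (c := fun x g ρ w => g (GM.clip 5 (bt K x)
      [hd (ρ 1), hd (ρ 0), gt (ρ 2) 2, gt (ρ 2) 3 + (pa K x).i,
        gt (ρ 2) 4 + w * min (bt K x) (2 ^ gt (ρ 2) 3)])) (Q.lift pW) (fun x _ _ => hW x)
      (clipQ (fun x => (h5 x).trans (hκ x)) h5 hb (PR.K.v 2) (PR.K.v 1) (ej 3 2)
        (PR.K.add (ej 3 3) pi) (PR.K.add (ej 3 4) (PR.K.mul (PR.K.v 0) (he 3))))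
      (Q.lift (PR.K.add pθ (PR.K.c 1))))
    (fun _ _ _ _ _ => mn_le_z)
    (Q.lift (ej 0 0)) (Q.lift (ej 0 1))
  exact Q.min (Q.lift hb) (Q.ite (Q.liftP (PR.K.le pL (ej 0 3))) b0 b1)

end Pool.Agent.MP_1a6d78_lc.DS.SD
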