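import Pool.Agent.MP_1a6d78_lc.SD.Spec

/-! PROJECT SD, row GC: the line of the contours is computable. -/

namespace Pool.Agent.MP_1a6d78_lc.DS.SD

open Classical ED PR DD SC

namespace GcL

variable {κ : List Bool → ℕ}

theorem two {R : List Bool → ℕ → ℕ → Prop} (h : Cp κ fun x ρ => R x (hd (ρ 0)) (hd (ρ 1))) :
    P2 κ R := fun a b ha hb =>
  (kitA κ).bind (fun x ρ => [b x ρ])
    (fun x ρ => [if R x (a x (tl ρ)) (hd (ρ 0)) then 1 else 0]) hb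
    ((kitA κ).bind (fun x ρ => [a x (tl ρ)])
      (fun x ρ => [if R x (hd (ρ 0)) (hd (ρ 1)) then 1 else 0]) (K.w ha) h)

variable {n : List Bool → Env → ℕ} {φ : List Bool → Env → ℕ → ℕ} {rt : List Bool → Env → ℕ → Prop}

theorem stC (hn : Cn κ n) (hφ : F1 κ φ) (hr : P1 κ rt) :
    F1 κ fun x ρ => st (n x ρ) (φ x ρ) (rt x ρ) :=
  K.lst (P := fun x ρ e => Sc (n x (tl ρ)) (φ x (tl ρ)) (hd (ρ 0)) e ∧ rt x (tl ρ) e) (K.w hn)
    (K.and (K.sc (K.w (K.w hn)) (K.wF (K.wF hφ)) (K.v 1) (K.v 0))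
      (K.appP (K.wP1 (K.wP1 hr)) (K.v 0)))

theorem psC (hn : Cn κ n) (hφ : F1 κ φ) (hr : P1 κ rt) :
    F1 κ fun x ρ => ps (n x ρ) (φ x ρ) (rt x ρ) :=
  K.add (K.mul (stC hn hφ hr) (K.w hn))
    (K.lst (P := fun x ρ t => it (n x (tl ρ)) (φ x (tl ρ)) t
      (PR.st (n x (tl ρ)) (φ x (tl ρ)) (rt x (tl ρ)) (hd (ρ 0))) = hd (ρ 0)) (K.w hn)
      (K.eq (K.it (K.w (K.w hn)) (K.wF (K.wF hφ)) (K.v 0)
        (K.app (K.wF (K.wF (stC hn hφ hr))) (K.v 1))) (K.v 1)))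

theorem geoC {M : List Bool → Mp} {us : List Bool → ℕ → Prop} {w : List Bool → ℕ → ℕ}
    {τ : List Bool → ℕ → ℕ → ℕ} (hM : Mp.C κ M) (hnd : F1 κ fun x _ => (M x).nd)
    (hu : P1 κ fun x _ => us x) (hw : F1 κ fun x _ => w x) (hτ : F2 κ τ) :
    GeC κ fun x p => geo (M x) (us x) (w x) (τ x p) := by
  obtain ⟨hn, hρ, hβ, -⟩ := hM
  have hφ : ∀ p, Cn κ p → F1 κ fun x ρ d => (M x).ρ (τ x (p x ρ) d) := fun p hp =>
    K.app hρ (hτ _ _ (K.w hp) (K.v 0))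
  have hs : ∀ p d, Cn κ p → Cn κ d → Cp κ fun x ρ =>
      Sc (M x).n (fun d => (M x).ρ (τ x (p x ρ) d)) (d x ρ) ((M x).β (d x ρ)) :=
    fun p d hp hd => K.sc hn (hφ p hp) hd (K.app hβ hd)
  exact
    { n := hn
      nd := fun _ _ _ hb => K.app hnd hb
      β := fun _ _ _ hb => K.app hβ hb
      τ := hτ
      o := fun a b ha hb => K.ite (K.eq (hτ a b ha hb) hb)
        (K.ite (hs a b ha hb) (K.app hβ hb) hb) hb
      pos := fun a b ha hb => K.app (psC (rt := fun _ _ _ => True) hn (hφ a ha)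
        (K.cgP (K.eq (K.c 0) (K.c 0)) fun _ _ => by simp)) hb
      w := fun _ _ _ hb => K.app hw hb
      ar := fun a b ha hb => K.and (K.appP hu hb) (hs a b ha hb) }

end GcL

theorem gcS : GcS := fun hP hK K κ h =>
  GcL.geoC (τ := fun x p => (dec (num x 0) (chn K x (min (bt K x) p))).tau (inp x))
    (hP.M κ) (hP.nd κ) (hK.us κ) (hP.wt κ) fun a b ha hb =>
      PR.K.ite (GcL.two (R := fun x p d => (dec (num x 0) (chn K x (min (bt K x) p))).tr d) h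
        a b ha hb) (PR.K.app (hP.M κ).2.2.1 hb) hb

end Pool.Agent.MP_1a6d78_lc.DS.SD
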