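import Pool.Agent.MP_1a6d78_lc.SD.Spec

/-! PROJECT SD: a cheap sequence of coins keeps the given edges. -/

set_option autoImplicit false

namespace Pool.Agent.MP_1a6d78_lc.DS.SD

open Classical ED PR DD SC Finset

noncomputable section

namespace GdL

theorem run_congr (M : Mp) (r : ℕ) (cy cj cy' cj' : ℕ → ℕ) (T : ℕ)
    (h : ∀ l < T, cy l = cy' l ∧ cj l = cj' l) : run M r cy cj T = run M r cy' cj' T := by
  induction T with
  | zero => rfl
  | succ T ih =>
    have e := ih fun l hl => h l (by omega)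
    simp only [run]
    rw [e, (h T (by omega)).1, (h T (by omega)).2]

theorem psi_nonneg (M : Mp) (r : ℕ) (S : St) (e : ℕ) : 0 ≤ psi M r S e := by
  unfold psi
  split_ifs
  · exact le_rfl
  · positivity

theorem psi0 (M : Mp) (r e : ℕ) (he : e < M.n) : psi M r (st0 M) e ≤ 1 := by
  unfold psi
  split_ifs with c
  · exact zero_le_one
  · have h1 : M.β e ≠ e := fun h => c (by rw [h]; exact Conn.refl _ _ _ _)
    have h2 : mc M r (st0 M) e ≤ 1 := lst_le (by omega)
      (Or.inr ⟨e, ⟨he, h1⟩, Conn.refl _ _ _ _, Conn.refl _ _ _ _, rfl⟩)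
    exact Real.rpow_le_one (Nat.cast_nonneg _) (by exact_mod_cast h2) (by norm_num)

theorem psi_end (M : Mp) (k : ℕ) (S : St) (e : ℕ) (hA : ∀ d, ¬S.A d) (c : ¬S.C M e (M.β e)) :
    (2 * k : ℝ) < psi M ((2 * k) ^ 32) S e := by
  have h1 : mc M ((2 * k) ^ 32) S e = (2 * k) ^ 32 + 1 := by
    have := (lst_spec (n := (2 * k) ^ 32 + 2) (P := fun c => c = (2 * k) ^ 32 + 1 ∨
      ∃ f, S.A f ∧ S.C M f e ∧ S.C M (M.β f) (M.β e) ∧ S.cost M f = c)
      ⟨(2 * k) ^ 32 + 1, by omega, Or.inl rfl⟩).2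
    rcases this with h | ⟨f, hf, -⟩
    · exact h
    · exact absurd hf (hA f)
  rw [psi, if_neg c, h1]
  have e1 : (2 * k : ℝ) = ((2 * k : ℝ) ^ 32) ^ (1 / 32 : ℝ) := by
    rw [one_div]
    exact (Real.pow_rpow_inv_natCast (n := 32) (by positivity) (by norm_num)).symm
  rw [e1]
  refine Real.rpow_lt_rpow (by positivity) ?_ (by norm_num)
  push_cast
  exact lt_add_one _

theorem coins (M : Mp) (r : ℕ) (K : ℝ) (hK : 0 < K) (Φ : St → ℝ)
    (h : ∀ cy cj l, ∑ y ∈ range (r + 1), ∑ j ∈ range 8, SDKey.P r y / 8 *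
      Φ ((run M r cy cj l).stp M r ((run M r cy cj l).seed M r) (2 ^ y) j) ≤ Φ (run M r cy cj l))
    (T : ℕ) : ∃ cy cj : ℕ → ℕ, (∀ l, cj l < 8) ∧
      Φ (run M r cy cj T) + (∑ l ∈ range T, cy l : ℕ) / K ≤ Φ (st0 M) + T / K := by
  induction T with
  | zero => exact ⟨fun _ => 0, fun _ => 0, fun _ => Nat.succ_pos 7, by simp [run]⟩
  | succ T ih =>
    obtain ⟨cy, cj, h8, hΦ⟩ := ih
    obtain ⟨y, -, j, hj, hc⟩ := SDKey.exists_coin r K _ hK _ (h cy cj T)
    refine ⟨Function.update cy T y, Function.update cj T j, fun l => ?_, ?_⟩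
    · by_cases c : l = T
      · rw [c, Function.update_self]
        exact hj
      · rw [Function.update_of_ne c]
        exact h8 l
    · have e := run_congr M r (Function.update cy T y) (Function.update cj T j) cy cj T
        fun l hl => ⟨Function.update_of_ne hl.ne _ _, Function.update_of_ne hl.ne _ _⟩
      have e2 : ∑ l ∈ range T, Function.update cy T y l = ∑ l ∈ range T, cy l :=
        sum_congr rfl fun l hl => Function.update_of_ne (mem_range.1 hl).ne _ _
      simp only [run]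
      rw [e, sum_range_succ, e2]
      simp only [Function.update_self]
      rw [Nat.cast_add, Nat.cast_add, add_div, add_div, Nat.cast_one]
      linarith

end GdL

theorem gdS : GdS := by
  intro hR hN hS hK hKey M k T P ok hk hT hP hlt
  have k0 : (0 : ℝ) < k := by exact_mod_cast hk
  have T0 : (0 : ℝ) < T := by exact_mod_cast hT
  obtain ⟨cy, cj, h8, hΦ⟩ := GdL.coins M ((2 * k) ^ 32) (T / k) (by positivity)
    (fun S => ∑ e ∈ P, psi M ((2 * k) ^ 32) S e) (by
      intro cy cj l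
      have sh := (hR M ((2 * k) ^ 32) cy cj l ok).1
      have nd := hN _ _ sh
      simp only [mul_sum]
      rw [sum_congr rfl fun y _ => sum_comm, sum_comm]
      exact sum_le_sum fun e he =>
        hKey hK M _ _ _ e sh nd (fun u j => hS M _ _ _ u j sh nd) (hlt e he)) T
  have a0 : ∑ e ∈ P, psi M ((2 * k) ^ 32) (st0 M) e ≤ k := by
    refine (sum_le_sum fun e he => GdL.psi0 M _ e (hlt e he)).trans ?_
    rw [sum_const, nsmul_eq_mul, mul_one]
    exact_mod_cast hP
  have a1 : (T : ℝ) / (T / k) = k := by field_simp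
  have a2 : 0 ≤ ∑ e ∈ P, psi M ((2 * k) ^ 32) (run M ((2 * k) ^ 32) cy cj T) e :=
    sum_nonneg fun e _ => GdL.psi_nonneg _ _ _ _
  have a3 : (0 : ℝ) ≤ (∑ l ∈ range T, cy l : ℕ) / (T / k : ℝ) := by positivity
  rw [a1] at hΦ
  refine ⟨cy, cj, ?_, h8, fun hA e he => ?_⟩
  · have b : ((∑ l ∈ range T, cy l : ℕ) : ℝ) / (T / k : ℝ) ≤ 2 * k := by linarith
    rw [div_le_iff₀ (by positivity)] at b
    have b2 : (2 * k : ℝ) * (T / k) = (2 * T : ℕ) := by
      push_cast
      field_simp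
    rw [b2] at b
    exact_mod_cast b
  · by_contra c
    have b1 := GdL.psi_end M k _ e hA c
    have b2 := single_le_sum (f := fun e => psi M ((2 * k) ^ 32) (run M ((2 * k) ^ 32) cy cj T) e)
      (fun e _ => GdL.psi_nonneg _ _ _ _) he
    linarith

end

end Pool.Agent.MP_1a6d78_lc.DS.SD
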