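import Pool.Agent.MP_1a6d78_lc.SD.Spec

/-! PROJECT SD, row GEO: the line of the contours of a shallow forest is sound. -/

namespace Pool.Agent.MP_1a6d78_lc.DS.SD

open Classical ED PR DD SC

namespace GeL

/-- Two darts of one tree are joined through the root. -/
theorem tw_of_conn (T : TwK) {n k a b : ℕ} {ρ τ rt : ℕ → ℕ} (hρ : Pm n ρ) (hτ : Iv n τ)
    (h : ∀ d < n, rt (ρ d) = rt d ∧ rt (τ d) = rt d ∧ Tw n ρ τ d (rt d) k) (hb : b < n)
    (ha : a < n) (c : Conn n ρ τ a b) : Tw n ρ τ a b (2 * k) := by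
  have e : rt a = rt b :=
    Conn.ind (r := fun x y => rt x = rt y) ⟨fun _ => rfl, Eq.symm, Eq.trans⟩
      (fun d hd => (h d hd).1.symm) (fun d hd => (h d hd).2.1.symm) c
  have h1 : Tw n ρ τ a (rt b) k := e ▸ (h a ha).2.2
  have h2 : Tw n ρ τ (rt b) b k := T.symm hρ hτ hb (h b hb).2.2
  rw [two_mul]
  exact T.trans h1 h2

end GeL

theorem geS : GeS := by
  intro T C U M r l S us w hS hN hD hw
  have K := C M S us w hS hN
  obtain ⟨-, rt, hrt⟩ := hD
  have hl : ∀ d < M.n, M.nd d < M.n := fun d hd => (Mp.nd_spec hd).1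
  refine ⟨K.inj, fun d hd => ⟨K.lt d hd, hl d hd⟩, K.iv, K.nco, fun d hd h => ⟨hw d hd h.1, ?_⟩,
    U (geo M us w (S.tau M)) M.ρ _ hS.ok.pm hN.iv K
      (fun a ha b hb => Mp.nd_iff hS.ok.pm ha hb) hl fun a ha b hb c =>
        GeL.tw_of_conn T hS.ok.pm hN.iv
          (fun d hd => ⟨(hrt d hd).1, (hrt d hd).2.1, (hrt d hd).2.2.1⟩) hb ha c⟩
  by_cases e : S.tau M d = d
  · refine Or.inr ?_
    show M.β d = out (fun d => if Sc M.n (fun d => M.ρ (S.tau M d)) d (M.β d) then M.β d else d)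
      (S.tau M) d
    have h2 : Sc M.n (fun d => M.ρ (S.tau M d)) d (M.β d) := h.2
    rw [out, if_pos e, if_pos h2]
  · exact Or.inl ((hN.sb d hd).resolve_left e).symm

end Pool.Agent.MP_1a6d78_lc.DS.SD
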