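import Pool.Agent.MP_1a6d78_lc.SD.Spec

/-! PROJECT SD, row GAIN: some seed marks a fixed proportion of the alive darts. -/

namespace Pool.Agent.MP_1a6d78_lc.DS.SD

open Classical ED PR DD SC

namespace GnL

theorem cnt_disj (n : ℕ) {P Q R : ℕ → Prop} (h1 : ∀ d, P d → R d) (h2 : ∀ d, Q d → R d)
    (h3 : ∀ d, P d → ¬Q d) : cnt n P + cnt n Q ≤ cnt n R := by
  induction n with
  | zero => simp [cnt]
  | succ n ih =>
    rw [cnt_succ, cnt_succ, cnt_succ]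
    have a := h1 n
    have b := h2 n
    have c := h3 n
    split_ifs <;> first | omega | tauto

variable {M : Mp} {r : ℕ} {S : St}

/-- The darts that may be deleted. -/
def D (M : Mp) (r : ℕ) (S : St) (d : ℕ) : Prop := S.A d ∧ S.Del M r d

/-- The names of the small nodes without such darts. -/
def L (M : Mp) (r : ℕ) (S : St) (d : ℕ) : Prop :=
  S.A d ∧ S.low M d ∧ S.nm M d = d ∧ ∀ t < 6, ¬S.Del M r (S.go M t d)

theorem key_ne (sh : Sh M S) {a b : ℕ} (ha : a < M.n) (hb : b < M.n) (h1 : a ≠ b)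
    (h2 : b ≠ M.β a) : S.key M a ≠ S.key M b := fun e => by
  have m : ∀ d < M.n, S.key M d % M.n = eid M d := fun d hd => by
    rw [St.key, Nat.mul_add_mod']
    exact Nat.mod_eq_of_lt ((min_le_left _ _).trans_lt hd)
  have e1 : eid M a = eid M b := by rw [← m a ha, ← m b hb, e]
  have i1 := (sh.ok.iv a ha).2
  have i2 := (sh.ok.iv b hb).2
  have n1 : a ≠ M.β b := fun k => h2 (by rw [k, i2])
  have n2 : M.β a ≠ M.β b := fun k => h1 (by rw [← i1, k, i2])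
  unfold eid at e1
  omega

theorem cntA (sh : Sh M S) (nd : NdK M S) :
    cnt M.n S.A ≤ 84 * (cnt M.n (D M r S) + cnt M.n (L M r S)) := by
  refine SDE.count sh.ok.pm sh.ok.iv sh.ok.pl nd.iv nd.sb (fun d _ a => (sh.ab d a).1)
    (fun d _ a => if_neg (sh.ab d a).2.2) (fun d _ a => (sh.ab d a).2.1) sh.fr _ _
    (fun d hd a e => ⟨a, Or.inr (Or.inr (Or.inl ⟨1, by omega, ?_⟩))⟩)
    (fun a ha b hb Aa Ab e1 e2 n1 n2 => ?_) fun d _ a ⟨t, t0, t7, e⟩ => ?_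
  · rw [(nd.go 1 _ (sh.ab d a).1).1, (sh.ok.iv d hd).2]
    exact e
  · have f1 : S.fc M a = b := e1
    have f2 : S.fc M b = a := e2
    rcases (key_ne sh ha hb n1 n2).lt_or_gt with c | c
    · exact Or.inr ⟨Ab, Or.inl (Or.inr (Or.inr ⟨by rw [f2, f1], by rw [f2]; exact c⟩))⟩
    · exact Or.inl ⟨Aa, Or.inl (Or.inr (Or.inr ⟨by rw [f1, f2], by rw [f1]; exact c⟩))⟩
  · by_cases c : ∃ u, S.Del M r (S.nx^[u] d)
    · obtain ⟨u, c⟩ := c
      exact ⟨u, Or.inl ⟨(nd.go u d a).1 ▸ (nd.go u d a).2, c⟩⟩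
    have lo : S.low M d := ⟨t - 1, by omega, by
      rw [(nd.go _ d a).1, Nat.sub_add_cancel t0, e]⟩
    obtain ⟨a1, a2⟩ := nd.nm d a
    obtain ⟨b1, b2, u, -, b3⟩ := nd.low d _ a a1 lo a2
    rw [(nd.go u d a).1] at b3
    refine ⟨u, Or.inr ?_⟩
    rw [b3]
    refine ⟨a1, b1, b2, fun v _ k => c ⟨v + u, ?_⟩⟩
    rwa [Function.iterate_add_apply, b3, ← (nd.go v _ a1).1]

theorem seed0 (sh : Sh M S) : ∃ q < Qs M, cnt M.n (D M r S) ≤ 192 * cnt M.n (S.mq M r q) := by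
  obtain ⟨w, h1, h2⟩ := SC.hash M.n 12 (fun x => D M r S x ∧ eid M x = x) (S.cf0 M) (by omega)
  refine ⟨2 * w, by unfold Qs; omega, ?_⟩
  have a1 : cnt M.n (D M r S) ≤ cnt M.n fun x => (D M r S x ∧ eid M x = x) ∨
      (D M r S (M.β x) ∧ eid M (M.β x) = M.β x) := cnt_mono fun d hd k => by
    have i := (sh.ok.iv d hd).2
    rcases le_total d (M.β d) with c | c
    · exact Or.inl ⟨k, min_eq_left c⟩
    · refine Or.inr ⟨⟨(sh.ab d k.1).1, ?_⟩, min_eq_left (by rwa [i])⟩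
      rw [St.Del, i]
      exact k.2.symm
  have a2 := cnt_or M.n (fun x => D M r S x ∧ eid M x = x)
    fun x => D M r S (M.β x) ∧ eid M (M.β x) = M.β x
  have a3 : cnt M.n (fun x => D M r S (M.β x) ∧ eid M (M.β x) = M.β x) ≤
      cnt M.n fun x => D M r S x ∧ eid M x = x :=
    cnt_inj M.β (fun a ha k => ⟨(sh.ok.iv a ha).1, k⟩) fun a ha b hb _ _ e => by
      rw [← (sh.ok.iv a ha).2, e, (sh.ok.iv b hb).2]
  have a4 := h2.trans (Nat.mul_le_mul_left _ (cnt_mono (Q := S.mq M r (2 * w))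
    fun d _ ⟨⟨k1, k2⟩, k3⟩ => Or.inr ⟨by omega, k1.1, by
      rw [k2]
      unfold St.s0 col
      rw [Nat.mul_div_cancel_left _ two_pos]
      exact ⟨k1.2, k3⟩⟩))
  omega

theorem seed1 : ∃ q < Qs M, cnt M.n (L M r S) ≤ 96 * cnt M.n (S.mq M r q) := by
  obtain ⟨w, h1, h2⟩ := SC.hash M.n 12 (L M r S) (S.cf1 M) (by omega)
  refine ⟨2 * w + 1, by unfold Qs; omega, h2.trans (Nat.mul_le_mul_left _ (cnt_mono
    fun d _ ⟨⟨k1, k2, k3, k4⟩, k5⟩ => Or.inl ⟨⟨by omega, k1, k2, ?_⟩, k3⟩))⟩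
  rw [k3]
  unfold St.s1 col
  rw [show (2 * w + 1) / 2 = w by omega]
  exact ⟨k4, k5⟩

theorem marks (sh : Sh M S) (nd : NdK M S) {q u j : ℕ} (sl : SlK M r S q u j) :
    cnt M.n (S.mq M r q) ≤ cnt M.n (S.kill M r q u j) := by
  rcases Nat.mod_two_eq_zero_or_one q with c | c
  · exact cnt_mono fun d _ k => Or.inr (k.resolve_left fun e => by
      have := e.1.1
      omega)
  have m : ∀ d, S.mq M r q d → S.sl M r q d ∧ S.nm M d = d := fun d k =>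
    k.resolve_right fun e => by
      have := e.1
      omega
  refine cnt_inj (S.ch M u j) (fun a _ k => ?_) fun a _ b _ ka kb e => ?_
  · obtain ⟨a1, a2⟩ := sl.ch a (m a k).1.2.1
    exact ⟨sh.lt _ a1, Or.inl ⟨sh.lt _ a1, Or.inl (sl.cl a _ (m a k).1 a1 a2)⟩⟩
  · obtain ⟨⟨-, a1, a2, -⟩, a3⟩ := m a ka
    obtain ⟨⟨-, b1, -⟩, b3⟩ := m b kb
    have c1 : S.C M a b := Conn.trans (sl.ch a a1).2 (e ▸ Conn.symm (sl.ch b b1).2)
    rw [← a3, ← b3, (nd.low a b a1 b1 a2 c1).2.1]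

end GnL

open GnL in
theorem gnS : GnS := by
  intro M r S sh nd sl
  refine ⟨?_, fun q u j => (Nat.add_le_add_left (marks sh nd (sl q u j)) _).trans
    (cnt_disj _ (fun _ k => k.1) (fun d k => ((sl q u j).kill d k).1) fun _ k => k.2)⟩
  obtain ⟨q0, a0, b0⟩ := seed0 (r := r) sh
  obtain ⟨q1, a1, b1⟩ := seed1 (M := M) (r := r) (S := S)
  have c := cntA (r := r) sh nd
  rcases le_total (cnt M.n (S.mq M r q0)) (cnt M.n (S.mq M r q1)) with h | h
  · exact ⟨q1, a1, by omega⟩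
  · exact ⟨q0, a0, by omega⟩

end Pool.Agent.MP_1a6d78_lc.DS.SD
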