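import Pool.Agent.MP_1a6d78_lc.SD.Spec

/-! PROJECT SD, row KEY: the potential of an edge is a supermartingale. -/

namespace Pool.Agent.MP_1a6d78_lc.DS.SD

open Classical ED PR DD SC Finset

namespace KeyL

variable {M : Mp} {r : ℕ} {S : St} {e : ℕ}

theorem top (M : Mp) (r : ℕ) (S : St) (e : ℕ) : mc M r S e ≤ r + 1 :=
  lst_le (by omega) (Or.inl rfl)

theorem spec (M : Mp) (r : ℕ) (S : St) (e : ℕ) : mc M r S e = r + 1 ∨
    ∃ f, S.A f ∧ S.C M f e ∧ S.C M (M.β f) (M.β e) ∧ S.cost M f = mc M r S e :=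
  (lst_spec (n := r + 2) (P := fun c => c = r + 1 ∨
    ∃ f, S.A f ∧ S.C M f e ∧ S.C M (M.β f) (M.β e) ∧ S.cost M f = c)
    ⟨r + 1, by omega, Or.inl rfl⟩).2

theorem rep {f : ℕ} (a : S.A f) (c : S.C M f e) (c' : S.C M (M.β f) (M.β e)) :
    mc M r S e ≤ S.cost M f := by
  by_cases h : S.cost M f < r + 2
  · exact lst_le h (Or.inr ⟨f, a, c, c', rfl⟩)
  · have := top M r S e
    omega

theorem rp {a b : ℕ} (h : a ≤ b) : (a : ℝ) ^ (1 / 32 : ℝ) ≤ (b : ℝ) ^ (1 / 32 : ℝ) :=
  Real.rpow_le_rpow (by positivity) (by exact_mod_cast h) (by norm_num)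

theorem psi_le {b : ℕ} (h : mc M r S e ≤ b) : psi M r S e ≤ (b : ℝ) ^ (1 / 32 : ℝ) := by
  unfold psi
  split_ifs
  · positivity
  · exact rp h

theorem avg (Y : ℕ) (G : ℕ → ℕ → ℝ) (v : ℝ) (h : ∀ y j, G y j ≤ v) :
    ∑ y ∈ range (Y + 1), ∑ j ∈ range 8, SDKey.P Y y / 8 * G y j ≤ v := by
  calc _ ≤ ∑ y ∈ range (Y + 1), ∑ _j ∈ range 8, SDKey.P Y y / 8 * v :=
        sum_le_sum fun y _ => sum_le_sum fun j _ => mul_le_mul_of_nonneg_left (h y j)
          (by have := SDKey.P_pos Y y; positivity)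
    _ = (∑ y ∈ range (Y + 1), SDKey.P Y y) * v := by
        rw [sum_mul]
        refine sum_congr rfl fun y _ => ?_
        simp only [sum_const, card_range, nsmul_eq_mul]
        push_cast; ring
    _ = v := by rw [SDKey.P_sum, one_mul]

theorem keep {q u j g : ℕ} (h : Sh M S) (L : SlK M r S q u j)
    (up : ∀ a b, S.C M a b → (S.stp M r q u j).C M a b) (sv : S.sv M r q u j g)
    (c : S.C M g e) (c' : S.C M (M.β g) (M.β e)) :
    mc M r (S.stp M r q u j) e ≤
      S.cost M g + S.inc M r q u j g + S.inc M r q u j (M.β g) := by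
  have sb : S.sv M r q u j (M.β g) := ⟨(h.ab g sv.1).1, fun k => sv.2 (by
    have := (L.kill _ k).2
    rwa [(h.ok.iv g (h.lt g sv.1)).2] at this)⟩
  refine (rep (S := S.stp M r q u j) sv (up _ _ c) (up _ _ c')).trans (le_of_eq ?_)
  show 1 + (if S.sv M r q u j g then _ else _) + (if S.sv M r q u j (M.β g) then _ else _) = _
  rw [if_pos sv, if_pos sb, St.cost]
  omega

end KeyL

open KeyL

theorem keyS : KeyS := by
  intro Kl M r S q e h N L _
  have up := fun u j => (Kl M r S q u j h N (L u j)).1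
  by_cases ce : S.C M e (M.β e)
  · refine avg r _ _ fun y j => ?_
    rw [psi, psi, if_pos ce, if_pos (up _ _ _ _ ce)]
  rw [psi, if_neg ce]
  rcases spec M r S e with k | ⟨f, a, c, c', k⟩
  · exact avg r _ _ fun y j => psi_le (k ▸ top M r _ e)
  rw [← k]
  have hb := h.ok.iv f (h.lt f a)
  have gone : ∀ u j, S.con M r q u j f → psi M r (S.stp M r q u j) e = 0 := fun u j t => by
    rw [psi, if_pos]
    exact Conn.trans (Conn.symm (up u j _ _ c))
      (Conn.trans ((Kl M r S q u j h N (L u j)).2.1 f t) (up u j _ _ c'))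
  have main : ∀ g, S.sl M r q g → S.cost M g = S.cost M f →
      (∀ u j, S.ch M u j g = g → S.con M r q u j f) →
      (∀ u j, S.ch M u j g ≠ g → mc M r (S.stp M r q u j) e ≤
        S.cost M f + S.cost M (S.ch M u j g)) →
      ∑ y ∈ range (r + 1), ∑ j ∈ range 8, SDKey.P r y / 8 * psi M r (S.stp M r q (2 ^ y) j) e
        ≤ (S.cost M f : ℝ) ^ (1 / 32 : ℝ) := by
    intro g s ec w1 w2
    have ag := s.2.1
    have an := N.nm g ag
    obtain ⟨jf, hj, ej⟩ := (N.low _ g an.1 ag (N.low g _ ag an.1 s.2.2.1 an.2).1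
      (Conn.symm an.2)).2.2
    have am := amin_spec (n := 8) (fun t => S.cost M (S.go M t (S.nm M g))) (by omega)
    have hm : 1 ≤ S.cost M (S.ce M (S.nm M g)) := by unfold St.cost; omega
    have := SDKey.key_step r (S.cost M (S.ce M (S.nm M g))) (S.cost M f) (S.cost M)
      (fun j => S.go M j (S.nm M g)) (fun y j => S.ch M (2 ^ y) j g) jf (by omega) hm
      (fun j k => am.2 j k) (fun j _ => ?_) (fun y j k l => ?_) (fun y j k l => ?_)
      (by rw [ej, ec])
    · refine le_trans (sum_le_sum fun y _ => sum_le_sum fun j _ => mul_le_mul_of_nonneg_left ?_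
        (by have := SDKey.P_pos r y; positivity)) this
      rw [ej]
      split_ifs with t
      · exact (gone _ _ (w1 _ _ t)).le
      · exact psi_le (w2 _ _ t)
    · have gj := N.go j _ an.1
      have cj : S.C M (S.nm M g) (S.go M j (S.nm M g)) :=
        (N.sc _ _ an.1 gj.2).2 ((sc_iff N.pm.1 (h.lt _ an.1)).2 ⟨j, gj.1.symm⟩)
      have := ((L 0 0).nd _ ((L 0 0).cl g _ s gj.2 (Conn.trans an.2 cj)).1).1
      exact this.trans (Nat.lt_two_pow_self.le.trans (Nat.le_mul_of_pos_right _ hm))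
    · rw [St.ch, St.pk, Nat.mod_eq_of_lt k, if_pos l]
    · rw [St.ch, St.pk, Nat.mod_eq_of_lt k, if_neg l]
  have nk : ∀ u j, q % 2 = 1 → ¬S.con M r q u j f → S.sv M r q u j f := fun u j o t =>
    ⟨a, fun k => k.elim t fun k => by have := k.1; omega⟩
  by_cases s1 : S.sl M r q f
  · have s2 := ((L 0 0).nd f s1).2.2
    refine main f s1 rfl (fun u j t => ⟨h.lt f a, Or.inl ⟨s1, t⟩⟩) fun u j t => ?_
    have := keep h (L u j) (up u j)
      (nk u j s1.1 fun k => k.2.elim (fun k => t k.2) fun k => s2 k.1) c c'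
    rwa [St.inc, St.inc, if_pos s1, if_neg s2, add_zero] at this
  by_cases s2 : S.sl M r q (M.β f)
  · refine main _ s2 (by simp only [St.cost, hb.2]; omega)
      (fun u j t => ⟨h.lt f a, Or.inr ⟨s2, t⟩⟩) fun u j t => ?_
    have := keep h (L u j) (up u j)
      (nk u j s2.1 fun k => k.2.elim (fun k => s1 k.1) fun k => t k.2) c c'
    rwa [St.inc, St.inc, if_neg s1, if_pos s2, add_zero] at this
  refine avg r _ _ fun y j => psi_le ?_
  by_cases kf : S.kill M r q (2 ^ y) j f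
  · rcases (Kl M r S q _ j h N (L _ j)).2.2 f kf with t | ⟨o, t | t | ⟨g, sv, c1, c2, t⟩⟩
    · exact (t.2.elim (fun k => s1 k.1) fun k => s2 k.1).elim
    · exact (top M r _ e).trans t
    · exact (ce (Conn.trans (Conn.symm c) (Conn.trans t c'))).elim
    · have := keep h (L _ j) (up _ j) sv (Conn.trans c1 c) (Conn.trans c2 c')
      have ns : ∀ d, ¬S.sl M r q d := fun d k => by have := k.1; omega
      rw [St.inc, St.inc, if_neg (ns _), if_neg (ns _)] at this
      omega
  · have := keep h (L _ j) (up _ j) ⟨a, kf⟩ c c'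
    rwa [St.inc, St.inc, if_neg s1, if_neg s2, add_zero, add_zero] at this

end Pool.Agent.MP_1a6d78_lc.DS.SD
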