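import Pool.Agent.MP_1a6d78_lc.SD.Spec

/-! Row KILL: why an edge dies. -/

namespace Pool.Agent.MP_1a6d78_lc.DS.SD

open Classical ED PR DD SC

namespace KlL

variable {M : Mp} {r : ℕ} {S : St} {q u j : ℕ}

theorem bb (h : Sh M S) {d : ℕ} (hd : S.A d) : M.β (M.β d) = d := (h.ok.2 d (h.lt d hd)).2

theorem cost_b (h : Sh M S) {d : ℕ} (hd : S.A d) : S.cost M (M.β d) = S.cost M d := by
  unfold St.cost
  rw [bb h hd]; omega

theorem eid_b (h : Sh M S) {d : ℕ} (hd : S.A d) : eid M (M.β d) = eid M d := by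
  unfold eid
  rw [bb h hd, min_comm]

theorem key_b (h : Sh M S) {d : ℕ} (hd : S.A d) : S.key M (M.β d) = S.key M d := by
  unfold St.key
  rw [cost_b h hd, eid_b h hd]

theorem key_eid (h : Sh M S) {d : ℕ} (hd : S.A d) : S.key M (eid M d) = S.key M d := by
  rcases min_choice d (M.β d) with e | e
  · exact congrArg _ e
  · exact (congrArg _ e).trans (key_b h hd)

theorem step (h : Sh M S) (k : NdK M S) {d : ℕ} (hd : S.A d) : S.C M d (S.nx d) :=
  (k.sc _ _ hd (k.nx d hd)).2 (Sc.step k.pm.1 (h.lt d hd))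

theorem core (h : Sh M S) (k : NdK M S) (hq : q % 2 = 0) {y : ℕ} (hy : S.A y)
    (hs : S.s0 M r q (eid M y)) (hd : S.dl M r y) :
    r < S.cost M y ∨ S.C M y (M.β y) ∨ ∃ f, S.sv M r q u j f ∧ S.C M f y ∧
      S.C M (M.β f) (M.β y) ∧ S.cost M f ≤ S.cost M y := by
  have hb := (h.ab y hy).1
  rcases hd with a | ⟨t, -, a⟩ | ⟨a, b⟩
  · exact Or.inl a
  · refine Or.inr (Or.inl ((k.sc _ _ hy hb).2 ((sc_iff k.pm.1 (h.lt y hy)).2 ⟨t, ?_⟩)))
    rw [← (k.go t y hy).1, a]
  have hg : S.A (S.fc M y) := k.nx _ hb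
  have hf : S.A (M.β (S.fc M y)) := (h.ab _ hg).1
  refine Or.inr (Or.inr ⟨M.β (S.fc M y), ⟨hf, ?_⟩, ?_, ?_, ?_⟩)
  · rintro (c | c)
    · rcases c.2 with c | c <;> have := c.1.1 <;> omega
    · have c1 : col M q (eid M (S.fc M y)) := eid_b h hg ▸ c.2.2.2.1
      have c2 : eid M (S.fc M y) ≠ eid M y := fun e => by
        have := key_eid h hg
        rw [e, key_eid h hy] at this
        omega
      rcases min_choice y (M.β y) with e | e
      · have e1 : S.cf0 M (eid M y) 1 = eid M (S.fc M y) := by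
          rw [show eid M y = y from e]; rfl
        exact hs.2.2 1 (by omega) (e1 ▸ c2) (e1 ▸ c1)
      · have e1 : S.cf0 M (eid M y) 0 = eid M (S.fc M y) := by
          rw [show eid M y = M.β y from e]; rfl
        exact hs.2.2 0 (by omega) (e1 ▸ c2) (e1 ▸ c1)
  · have := step h k hf
    rwa [show S.nx (M.β (S.fc M y)) = y from a] at this
  · rw [bb h hg]
    exact Conn.symm (step h k hb)
  · rw [cost_b h hg]
    by_contra c
    have c1 : eid M y < M.n := lt_of_le_of_lt (min_le_left _ _) (h.lt y hy)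
    have c2 : (S.cost M y + 1) * M.n ≤ S.cost M (S.fc M y) * M.n :=
      Nat.mul_le_mul_right _ (by omega)
    unfold St.key at b
    rw [Nat.add_mul] at c2
    omega

end KlL

open KlL in
theorem klS : KlS := by
  intro M r S q u j h k l
  refine ⟨fun a b c => Conn.mono (fun d hd => ?_) c, fun d c => ?_, fun d c => ?_⟩
  · unfold St.tau
    by_cases e : S.tr d
    · right
      rw [if_pos e, if_pos (show (S.stp M r q u j).tr d from ⟨hd, Or.inl e⟩)]
    · left
      rw [if_neg e]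
  · have := Conn.gam M.ρ ((S.stp M r q u j).tau M) c.1
    rwa [St.tau, if_pos (show (S.stp M r q u j).tr d from ⟨c.1, Or.inr c⟩)] at this
  rcases c with c | ⟨hq, hd, hs⟩
  · exact Or.inl c
  refine Or.inr ⟨hq, ?_⟩
  have hb := (h.ab d hd).1
  have hD : S.dl M r d ∨ S.dl M r (M.β d) := by
    have := hs.1
    rcases min_choice d (M.β d) with e | e
    · rwa [show eid M d = d from e] at this
    · rw [show eid M d = M.β d from e, St.Del, bb h hd] at this
      exact this.symm
  rcases hD with a | a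
  · exact core h k hq hd hs a
  rcases core (u := u) (j := j) h k hq hb ((eid_b h hd).symm ▸ hs) a with b | b | ⟨f, b1, b2, b3, b4⟩
  · exact Or.inl (cost_b h hd ▸ b)
  · rw [bb h hd] at b
    exact Or.inr (Or.inl (Conn.symm b))
  · rw [bb h hd] at b3
    refine Or.inr (Or.inr ⟨M.β f, ⟨(h.ab f b1.1).1, fun c => b1.2 ?_⟩, b3, ?_, ?_⟩)
    · have := (l.kill _ c).2
      rwa [bb h b1.1] at this
    · rwa [bb h b1.1]
    · rwa [cost_b h b1.1, ← cost_b h hd]

end Pool.Agent.MP_1a6d78_lc.DS.SD
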