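import Pool.Agent.MP_1a6d78_lc.SD.Spec

/-! PROJECT SD, row KIT: the parameters are functions of the plain calculus. -/

namespace Pool.Agent.MP_1a6d78_lc.DS.SD

open Classical ED PR DD SC

namespace KtL

variable {κ : List Bool → ℕ}

theorem p2_eq (b y : ℕ) : itr (fun _ a => min b (2 * a)) (min b 1) y = min b (2 ^ y) := by
  induction y with
  | zero => simp [itr]
  | succ y ih =>
    simp only [itr, ih, pow_succ]
    omega

theorem p2 {b y : List Bool → Env → ℕ} (hb : Cn κ b) (hy : Cn κ y) :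
    Cn κ fun x ρ => min (b x ρ) (2 ^ y x ρ) :=
  K.cg ((kitOne κ).fold (fun x ρ _ a => min (b x ρ) (2 * a)) (fun x ρ _ => b x ρ) hy
    (K.min hb (K.c 1)) (K.min (K.w (K.w hb)) (K.mul (K.c 2) (K.v 0))) (K.w hb)
    fun _ _ _ _ _ _ h => (min_le_left _ _).trans h) fun _ _ => p2_eq _ _

theorem log_eq (a : ℕ) : cnt a (fun i => min (a + 1) (2 ^ (i + 1)) ≤ a) = Nat.log 2 a := by
  unfold PR.cnt
  refine (congrArg Finset.card ?_).trans (Finset.card_range (Nat.log 2 a))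
  ext m
  simp only [Finset.mem_filter, Finset.mem_range]
  rcases Nat.eq_zero_or_pos a with k | k
  · simp [k]
  · rw [← Nat.succ_le_iff (n := Nat.log 2 a), Nat.le_log_iff_pow_le (by omega) k.ne']
    have := Nat.lt_two_pow_self (n := m + 1)
    simp only [Nat.succ_eq_add_one]
    omega

theorem log {a : List Bool → Env → ℕ} (ha : Cn κ a) : Cn κ fun x ρ => Nat.log 2 (a x ρ) :=
  K.cg (K.cnt (P := fun x ρ i => min (a x ρ + 1) (2 ^ (i + 1)) ≤ a x ρ) ha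
    (K.le (p2 (K.add (K.w ha) (K.c 1)) (K.add (K.v 0) (K.c 1))) (K.w ha))) fun _ _ => log_eq _

theorem usC (i : PiK 1) (κ : List Bool → ℕ) : P1 κ fun x _ => us x :=
  K.eq (K.app (i.num κ) (K.add (K.add (K.add (K.add (K.c 4) (nmC i κ 0)) (nmC i κ 0))
    (nmC i κ 0)) (K.v 0))) (K.c 1)

theorem btC (J : ℕ) (κ : List Bool → ℕ) : Cn κ fun x _ => bt J x :=
  K.pow _ (K.add (kitOne κ).len (K.c 2))

theorem rrC (i : PiK 1) (κ : List Bool → ℕ) : Cn κ fun x _ => rr x :=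
  K.pow _ (K.mul (K.c 2) (K.add (nmC i κ 3) (K.c 1)))

theorem mxC (i : PiK 1) (κ : List Bool → ℕ) : Cn κ fun x _ => mx x :=
  K.add (K.add (nmC i κ 3) (lgC κ)) (K.c 2)

theorem iC (i : PiK 1) (κ : List Bool → ℕ) : Cn κ fun x _ => Nat.log 2 (mx x) + 1 :=
  K.add (log (mxC i κ)) (K.c 1)

theorem WC (i : PiK 1) (κ : List Bool → ℕ) : Cn κ fun x _ => 2 ^ (Nat.log 2 (mx x) + 1) :=
  K.cg (p2 (K.mul (K.c 2) (mxC i κ)) (iC i κ)) fun x _ => by
    have h : mx x ≠ 0 := by unfold mx; omega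
    have := Nat.pow_log_le_self 2 h
    rw [pow_succ]
    omega

theorem cbC (J : ℕ) {p l : List Bool → Env → ℕ} (hp : Cn κ p) (hl : Cn κ l) :
    Cn κ fun x ρ => cb (J * lg x) (p x ρ) (l x ρ) :=
  K.app (K.sel (P := fun x ρ i => 8 ≤ dg 16 (p x ρ) i)
    (K.add (K.mul (K.c 3) (K.mul (K.c J) (lgC κ))) (K.c 1))
    (K.le (K.c 8) (dgC (K.c 16) (K.w hp) (K.v 0)))) hl

theorem cy_le (J : ℕ) (x : List Bool) (p l : ℕ) : 2 ^ cyy (J * lg x) p l ≤ bt J x := by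
  have h1 : cb (J * lg x) p (l + 1) ≤ 3 * (J * lg x) + 1 := sel_le _ _ _
  have h2 : cyy (J * lg x) p l ≤ lg x * (3 * J) := by
    have : lg x * (3 * J) = 3 * (J * lg x) := by ring
    unfold cyy
    omega
  calc 2 ^ cyy (J * lg x) p l ≤ 2 ^ (lg x * (3 * J)) := Nat.pow_le_pow_right (by omega) h2
    _ = (2 ^ lg x) ^ (3 * J) := pow_mul _ _ _
    _ ≤ ((x.length + 2) ^ 2) ^ (3 * J) := Nat.pow_le_pow_left (two_lg x) _
    _ = (x.length + 2) ^ (2 * (3 * J)) := (pow_mul _ _ _).symm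
    _ ≤ bt J x := Nat.pow_le_pow_right (by omega) (by omega)

end KtL

open KtL

theorem ktS : KtS := fun i =>
  { p2 := fun _ _ _ hb hy => p2 hb hy
    log := fun _ _ ha => log ha
    us := usC i
    bt := btC
    rr := rrC i
    mx := mxC i
    pi := fun J κ => ⟨iC i κ, WC i κ, K.mul (K.c 2) (lgC κ),
      K.mul (K.mul (WC i κ) (iC i κ)) (K.mul (K.c 2) (K.add (K.mul (K.c 2) (K.mul (K.c 2)
        (K.mul (K.mul (K.c J) (lgC κ)) (rrC i κ)))) (K.c 1))),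
      nmC i κ 3, K.add (K.mul (K.c 2) (lgC κ)) (iC i κ),
      K.add (K.div (K.mul (K.c 2) (lgC κ)) (iC i κ)) (K.c 2)⟩
    co := fun J κ _ _ hp hl =>
      ⟨K.cg (p2 (btC J κ) (K.sub (K.sub (cbC J hp (K.add hl (K.c 1))) (cbC J hp hl)) (K.c 1)))
        fun x _ => min_eq_right (cy_le J x _ _), K.mod (dgC (K.c 16) hp hl) (K.c 8)⟩
    pw := fun κ => K.all (P := fun x _ d => us x d → 1 ≤ wt x d) (nmC i κ 0)
      (K.imp (usC i κ) (K.le (K.c 1) (i.wt κ))) }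

end Pool.Agent.MP_1a6d78_lc.DS.SD
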