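import Pool.Agent.MP_1a6d78_lc.SD.Spec
import Pool.Agent.MP_1a6d78_lc.DD.All

/-! PROJECT SD, row MCH: one machine with both space bounds. -/

namespace Pool.Agent.MP_1a6d78_lc.DS.SD

open Classical ED PR DD SC

namespace McL

theorem le_pow {y : ℕ} (h : 2 ≤ y) (a : ℕ) : a ≤ y ^ a :=
  Nat.lt_two_pow_self.le.trans (Nat.pow_le_pow_left h a)

theorem lgB (n m : ℕ) : Nat.log 2 ((n + 2) ^ (m + 1) + 2) ≤ (m + 2) * (Nat.log 2 n + 2) := by
  have a : n < 2 ^ (Nat.log 2 n + 1) := Nat.lt_pow_succ_log_self (by norm_num) n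
  have b : n + 2 ≤ 2 ^ (Nat.log 2 n + 2) := by
    have c : 0 < 2 ^ Nat.log 2 n := by positivity
    rw [pow_succ] at a
    rw [pow_add]
    omega
  refine MchL.log_le ((MchL.time n m).trans ((Nat.pow_le_pow_left b _).trans (le_of_eq ?_)))
  rw [← pow_mul, mul_comm]

theorem space {κ l c A L y : ℕ} (hy : 2 ≤ y) (h1 : κ ≤ (A + 1) * (y + 1) ^ 36) (h2 : l ≤ L * y) :
    (κ + 1) * (c * l + c) ≤ y ^ (A + 2 + 72 + (c * L + c + 1)) := by
  have a : (y + 1) ^ 36 ≤ y ^ 72 :=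
    (Nat.pow_le_pow_left (show y + 1 ≤ y ^ 2 by nlinarith) 36).trans (pow_mul y 2 36).ge
  have a0 : 1 ≤ y ^ 72 := Nat.pow_pos (by omega)
  have a1 : κ + 1 ≤ (A + 2) * y ^ 72 := by
    have := Nat.mul_le_mul_left (A + 1) a
    rw [show A + 2 = A + 1 + 1 by omega, add_mul (A + 1), one_mul]
    omega
  have a3 : c * l + c ≤ (c * L + c) * y := by
    have b1 : c * l ≤ c * (L * y) := Nat.mul_le_mul_left _ h2
    have b2 : c ≤ c * y := Nat.le_mul_of_pos_right _ (by omega)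
    rw [add_mul, mul_assoc]
    omega
  rw [pow_add, pow_add y (A + 2), pow_succ y (c * L + c)]
  exact Nat.mul_le_mul (a1.trans (Nat.mul_le_mul_right _ (le_pow hy _)))
    (a3.trans (Nat.mul_le_mul_right _ (le_pow hy _)))

end McL

open MchL in
theorem mcS : McS := by
  intro hI hR hP hK ε hε
  obtain ⟨r, hr, h4⟩ : ∃ r : ℕ, 1 ≤ r ∧ 4 / (ε / 2) ≤ r :=
    ⟨⌈4 / (ε / 2)⌉₊, Nat.ceil_pos.2 (by positivity), Nat.le_ceil _⟩
  refine ⟨r, hr, ?_⟩
  rintro f f' ⟨A, hA⟩ ⟨A', hA'⟩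
  obtain ⟨P, hPd⟩ : ∃ P : List Bool → Prop,
      P = fun x => posW x ∧ (A' + 1) * mx x ^ 36 ≤ (A + 1) * bm (Mt r) x := ⟨_, rfl⟩
  obtain ⟨κ, hκ⟩ : ∃ κ : List Bool → ℕ,
      κ = fun x => if P x then (A' + 1) * mx x ^ 36 else (A + 1) * bm (Mt r) x := ⟨_, rfl⟩
  have hPc : Cp κ fun x _ => P x := by
    rw [hPd]
    exact K.and (hK.pw κ) (K.le (K.mul (K.c _) (K.pow 36 (hK.mx κ)))
      (K.mul (K.c _) (K.pow 7 (K.add (K.mul (K.c 5000) (PsL.mt r κ)) (K.c 2)))))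
  have hF : Cn κ fun x _ => (if P x then f' x else 0) + if ¬P x then f x else 0 :=
    K.cg (K.add (hI κ (fun x => (A' + 1) * mx x ^ 36) P (fun x _ => f' x)
        (hA' _ fun x => Nat.mul_le_mul_right _ (Nat.le_succ A')) hPc
        fun x h => by simp only [hκ, if_pos h])
      (hI κ (fun x => (A + 1) * bm (Mt r) x) (fun x => ¬P x) (fun x _ => f x)
        (hA _ fun x => Nat.mul_le_mul_right _ (Nat.le_succ A)) (K.not hPc)
        fun x h => by simp only [hκ, if_neg h])) fun x _ => by congr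
  obtain ⟨M, c, H⟩ := mach κ _ hF
  obtain ⟨Q, hQ⟩ : ∃ Q : ℕ, 6561 * (3 : ℝ) ^ ε ≤ Q := ⟨_, Nat.le_ceil _⟩
  obtain ⟨C, hC⟩ : ∃ C : ℕ, C = 5002 ^ 7 := ⟨_, rfl⟩
  obtain ⟨e, he⟩ : ∃ e : ℕ, e = 98 := ⟨_, rfl⟩
  refine ⟨M, (A + e + 2) * c + (((A + 1) * C + 1) * (c * (r * (A + e + 2)) + c) * Q +
    (A' + 2 + 72 + (c * (A + e + 2) + c + 1))), fun x => ?_⟩
  obtain ⟨k1, k2, k3, k4⟩ := hR r (x.length + 2) hr
  have b1 : 1 ≤ bm (Mt r) x := Nat.pow_pos (by omega)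
  have b0 : 1 ≤ mx x ^ 36 := Nat.pow_pos (by unfold mx; omega)
  have b2 : (A + 1) * bm (Mt r) x ≤ (x.length + 2) ^ (A + e + 1) := by
    have : A + 1 ≤ (x.length + 2) ^ (A + 1) :=
      Nat.lt_two_pow_self.le.trans (Nat.pow_le_pow_left (by omega) _)
    rw [show A + e + 1 = A + 1 + e by omega, pow_add]
    exact Nat.mul_le_mul this (he ▸ bm_pol k4)
  have c1 : 1 ≤ κ x := by
    simp only [hκ]
    split_ifs
    exacts [Nat.mul_pos (by omega) b0, Nat.mul_pos (by omega) b1]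
  have c2 : κ x ≤ (A + 1) * bm (Mt r) x := by
    simp only [hκ]
    split_ifs with h
    exacts [(hPd ▸ h :).2, le_rfl]
  have c3 : posW x → κ x ≤ (A' + 1) * mx x ^ 36 := fun hw => by
    simp only [hκ]
    split_ifs with h
    · exact le_rfl
    · rw [hPd] at h
      exact (not_le.1 fun h1 => h ⟨hw, h1⟩).le
  obtain ⟨H1, H2⟩ := H x ((x.length + 2) ^ (A + e + 1)) c1 (c2.trans b2)
    ((Nat.le_add_right _ 2).trans (Nat.le_self_pow (by omega) _))
  refine ⟨((if P x then f' x else 0) + if ¬P x then f x else 0) != 0, ?_, ?_, fun t i => ?_,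
    fun hw t i => ?_⟩
  · rw [Fn.halt M x H1, H1]
    refine (Nat.pow_le_pow_left (time _ _) c).trans ?_
    rw [← pow_mul]
    exact Nat.pow_le_pow_right (by omega) (Nat.le_add_right _ _)
  · by_cases h : P x
    · exact Or.inr ⟨(hPd ▸ h :).1, by simp [h]⟩
    · exact Or.inl (by simp [h])
  · have a0 : κ x ≤ (A + 1) * C * ro r (x.length + 2) ^ 7 := by
      refine c2.trans ?_
      rw [mul_assoc]
      exact Nat.mul_le_mul_left _ (hC ▸ bm_le k1)
    have a : ((M.run x t).head i : ℝ) ≤ ((((A + 1) * C + 1) *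
        (c * (r * (A + e + 2)) + c) * ro r (x.length + 2) ^ 8 : ℕ) : ℝ) :=
      Nat.cast_le.2 ((H2 t i).trans (space k1 a0 (lgB _ k2)))
    have p : (0 : ℝ) ≤ ((x.length : ℝ) + 1) ^ ε :=
      Real.rpow_nonneg (add_nonneg (Nat.cast_nonneg _) zero_le_one) ε
    have b := (root hε hr h4 k3).trans (mul_le_mul_of_nonneg_right hQ p)
    rw [Nat.cast_mul] at a
    refine (a.trans (mul_le_mul_of_nonneg_left b (Nat.cast_nonneg _))).trans ?_
    rw [← mul_assoc, ← Nat.cast_mul]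
    exact mul_le_mul_of_nonneg_right
      (Nat.cast_le.2 ((Nat.le_add_right _ _).trans (Nat.le_add_left _ _))) p
  · have y2 : 2 ≤ num x 3 + Nat.log 2 x.length + 2 := Nat.le_add_left _ _
    have a0 : κ x ≤ (A' + 1) * (num x 3 + Nat.log 2 x.length + 2 + 1) ^ 36 := c3 hw
    refine ((H2 t i).trans (McL.space y2 a0 ((McL.lgB _ _).trans
      (Nat.mul_le_mul_left _ (by omega))))).trans ?_
    exact Nat.pow_le_pow_right (by omega) ((Nat.le_add_left _ _).trans (Nat.le_add_left _ _))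

end Pool.Agent.MP_1a6d78_lc.DS.SD
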