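import Pool.Agent.MP_1a6d78_lc.SD.Spec

/-! PROJECT SD, row NODE: consequences of the shape. -/

namespace Pool.Agent.MP_1a6d78_lc.DS.SD

open Classical ED PR DD SC

namespace NdL

variable {M : Mp} {S : St}

theorem iv (h : Sh M S) : Iv M.n (S.tau M) := by
  intro d hd
  unfold St.tau
  by_cases k : S.tr d
  · rw [if_pos k, if_pos (h.tb d k)]; exact h.ok.iv d hd
  · rw [if_neg k, if_neg k]; exact ⟨hd, rfl⟩

theorem sb (M : Mp) (S : St) : Sb M.n (S.tau M) M.β := by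
  intro d _
  unfold St.tau
  split_ifs
  exacts [Or.inr rfl, Or.inl rfl]

theorem pf (h : Sh M S) : Pm M.n fun d => M.ρ (S.tau M d) := h.ok.pm.comp (iv h).pm

theorem nx (h : Sh M S) (d : ℕ) (a : S.A d) : S.A (S.nx d) := (h.fr.lt (pf h) (h.lt d a) a).2

theorem pm (h : Sh M S) : Pm M.n S.nx := by
  refine ⟨fun d hd => ?_, fun a ha b hb e => ?_⟩
  · by_cases k : S.A d
    · exact h.lt _ (nx h d k)
    · rw [(h.fix d k).1]; exact hd
  · by_cases k : S.A a <;> by_cases l : S.A b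
    · exact h.fr.inj (pf h) ha hb k l e
    · rw [(h.fix b l).1] at e
      exact absurd (e ▸ nx h a k) l
    · rw [(h.fix a k).1] at e
      exact absurd (e ▸ nx h b l) k
    · rwa [(h.fix a k).1, (h.fix b l).1] at e

theorem go (h : Sh M S) (t d : ℕ) (a : S.A d) : S.go M t d = S.nx^[t] d ∧ S.A (S.go M t d) := by
  have e : S.go M t d = S.nx^[t] d := it_eq (pm h).1 (h.lt d a) t
  exact ⟨e, e ▸ iter_inv (nx h) a t⟩

theorem cs (h : Sh M S) (a : ℕ) (ha : a < M.n) (b : ℕ) :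
    S.C M a b ↔ Sc M.n (fun d => M.ρ (S.tau M d)) a b := by
  refine ⟨fun k => ?_, fun k => k.conn h.ok.pm (iv h) ha⟩
  have p := pf h
  refine (Conn.ind (r := fun x y => (x < M.n ↔ y < M.n) ∧
    (x < M.n → Sc M.n (fun d => M.ρ (S.tau M d)) x y))
    ⟨fun x => ⟨Iff.rfl, Sc.refl _⟩,
      fun k => ⟨k.1.symm, fun l => (k.2 (k.1.2 l)).symm p (k.1.2 l)⟩,
      fun k l => ⟨k.1.trans l.1, fun m => (k.2 m).trans p.1 m (l.2 (k.1.1 m))⟩⟩
    (fun x hx => ⟨iff_of_true hx (h.ok.pm.1 x hx), fun _ => ?_⟩)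
    (fun x hx => ⟨iff_of_true hx (iv h x hx).1, fun _ => h.one x hx⟩) k).2 ha
  have := Sc.step p.1 (iv h x hx).1
  rw [(iv h x hx).2] at this
  exact (h.one x hx).trans p.1 hx this

theorem ci (h : Sh M S) {a b : ℕ} (k : S.A a) (l : S.A b) : S.C M a b ↔ ∃ t, S.nx^[t] a = b :=
  (cs h a (h.lt a k) b).trans (h.fr.sc_iff (pf h) (h.lt a k) k l)

theorem br (h : Sh M S) (d : ℕ) (hd : d < M.n) (e : S.tau M d ≠ d) :
    ¬Conn M.n M.ρ (del (S.tau M) d) d (S.tau M d) := by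
  intro cn
  have g := iv h
  have b := (sb M S d hd).resolve_left e
  have g0 := g.del hd
  have sc : Sc M.n (fun x => M.ρ (del (S.tau M) d x)) d (S.tau M d) := by
    rw [b] at cn ⊢
    exact h.ok.pl _ g0 ((del_sb _ d _).trans (sb M S)) d hd (by simp [del]) cn
  exact swapK.split (h.ok.pm.comp g0.pm) hd (g d hd).1 e.symm sc
    ((h.one d hd).congr (pf h).1 (fun x _ => by rw [SDE.del_sw g hd]) hd)

theorem nm (h : Sh M S) (d : ℕ) (a : S.A d) : S.A (S.nm M d) ∧ S.C M d (S.nm M d) := by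
  rcases mn_eq 6 (fun _ => True) (fun t => S.go M t d) d with e | ⟨t, _, _, e⟩
  · rw [St.nm, e]; exact ⟨a, Conn.refl _ _ _ _⟩
  · rw [St.nm, e]
    exact ⟨(go h t d a).2, (ci h a (go h t d a).2).2 ⟨t, (go h t d a).1.symm⟩⟩

theorem per (h : Sh M S) {a b : ℕ} (k : S.A a) (l : S.A b) (w : S.low M a) (c : S.C M a b) :
    S.low M b ∧ ∃ t < 6, S.go M t a = b := by
  obtain ⟨t, ht, e⟩ := w
  rw [(go h _ a k).1] at e
  obtain ⟨s, rfl⟩ := (ci h k l).1 c
  refine ⟨⟨t, ht, ?_⟩, s % (t + 1), (Nat.mod_lt _ t.succ_pos).trans_le ht, ?_⟩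
  · rw [(go h _ _ l).1, ← Function.iterate_add_apply, add_comm, Function.iterate_add_apply, e]
  · rw [(go h _ a k).1]
    exact Function.IsPeriodicPt.iterate_mod_apply e s

theorem nm_le (h : Sh M S) {a b : ℕ} (k : S.A a) (l : S.A b) (w : S.low M a) (c : S.C M a b) :
    S.nm M a ≤ S.nm M b := by
  obtain ⟨t, ht, e⟩ := (per h k (nm h b l).1 w (Conn.trans c (nm h b l).2)).2
  rw [← e]
  exact mn_le (P := fun _ => True) (c := fun t => S.go M t a) ht trivial

end NdL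

open NdL

theorem ndS : NdS := fun M S h =>
  { iv := iv h
    sb := sb M S
    pm := pm h
    nx := nx h
    go := go h
    cs := fun a ha b _ => cs h a ha b
    sc := fun a _ k l => (ci h k l).trans (sc_iff (pm h).1 (h.lt a k)).symm
    br := br h
    nm := nm h
    low := fun _ _ k l w c =>
      ⟨(per h k l w c).1, le_antisymm (nm_le h l k (per h k l w c).1 (Conn.symm c))
        (nm_le h k l w c), (per h k l w c).2⟩ }

end Pool.Agent.MP_1a6d78_lc.DS.SD
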