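import Pool.Agent.MP_1a6d78_lc.SD.Spec

/-! Row NUM: the sizes of the parameters. -/

namespace Pool.Agent.MP_1a6d78_lc.DS.SD

open Classical ED PR DD SC

namespace NuL

theorem w_le (x : List Bool) : 2 ^ (Nat.log 2 (mx x) + 1) ≤ 2 * mx x := by
  have := Nat.pow_log_le_self 2 (show mx x ≠ 0 by unfold mx; omega)
  rw [pow_succ]
  omega

theorem mx_le (x : List Bool) : mx x ≤ (x.length + 2) ^ 2 := by
  have : num x 3 ≤ x.length := by
    unfold num
    calc ∑ p ∈ Finset.range x.length, (if zc x p = 3 then bit x p else 0)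
        ≤ ∑ _p ∈ Finset.range x.length, 1 := by
          refine Finset.sum_le_sum fun p _ => ?_
          unfold bit
          split_ifs <;> omega
      _ = x.length := by simp
  have := lg_le x
  unfold mx
  nlinarith

theorem qx_le (K : ℕ) (x : List Bool) : qx K x ≤ (16 * K * 2 ^ 32 + 15) * mx x ^ 35 := by
  have m0 : 1 ≤ mx x := by unfold mx; omega
  have h1 := w_le x
  have h2 : Nat.log 2 (mx x) + 1 ≤ mx x := Nat.log_lt_self 2 (by omega)
  have h3 : lg x ≤ mx x := by unfold mx; omega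
  have h4 : num x 3 + 1 ≤ mx x := by unfold mx; omega
  have h5 : rr x ≤ (2 * mx x) ^ 32 := Nat.pow_le_pow_left (by omega) _
  have h6 : mx x ≤ mx x ^ 35 := Nat.le_self_pow (by omega) _
  have h7 : mx x ^ 2 ≤ mx x ^ 35 := Nat.pow_le_pow_right m0 (by omega)
  have h8 : (pa K x).N ≤ 2 * mx x * mx x * (2 * (2 * (2 * (K * mx x * (2 * mx x) ^ 32)) + 1)) := by
    simp only [pa]
    gcongr
  have h9 : 2 * mx x * mx x * (2 * (2 * (2 * (K * mx x * (2 * mx x) ^ 32)) + 1)) =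
      16 * K * 2 ^ 32 * mx x ^ 35 + 4 * mx x ^ 2 := by ring
  rw [h9] at h8
  rw [qx, add_mul]
  simp only [pa] at h8 ⊢
  omega

end NuL

open NuL in
theorem nuS : NuS := by
  intro K
  refine ⟨⟨_, qx_le K⟩, fun x => ⟨by unfold mx; omega, ?_⟩, ?_⟩
  · have := Nat.div_le_self (2 * lg x) (Nat.log 2 (mx x) + 1)
    rw [Dx]
    have : lg x + 2 ≤ mx x := by unfold mx; omega
    omega
  obtain ⟨c, hc⟩ : ∃ c, ∀ x, qx K x ≤ c * mx x ^ 35 := ⟨_, qx_le K⟩
  refine ⟨10 * (c + 37) + (32 * K + 80), fun x => ?_⟩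
  have n0 : 0 < x.length + 2 := by omega
  have m0 : 1 ≤ mx x ^ 35 := Nat.one_le_pow _ _ (by unfold mx; omega)
  refine ⟨Nat.pow_le_pow_right n0 (Nat.le_add_left _ _), (hc x).trans ?_, ?_⟩
  · calc c * mx x ^ 35 ≤ (x.length + 2) ^ c * ((x.length + 2) ^ 2) ^ 35 :=
          Nat.mul_le_mul (Nat.lt_pow_self (by omega)).le (Nat.pow_le_pow_left (mx_le x) _)
      _ = (x.length + 2) ^ (c + 70) := by rw [← pow_mul, ← pow_add]
      _ ≤ _ := Nat.pow_le_pow_right n0 (by omega)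
  · have h1 := w_le x
    have h2 : mx x ≤ 2 ^ (Nat.log 2 (mx x) + 1) := (Nat.lt_pow_succ_log_self (by omega) _).le
    have h3 : (Nat.log 2 (mx x) + 1) * Dx x ≤ 2 * (lg x + (Nat.log 2 (mx x) + 1)) := by
      have := Nat.mul_div_le (2 * lg x) (Nat.log 2 (mx x) + 1)
      rw [Dx, mul_add]
      omega
    have h4 : 1 ≤ Nat.log 2 (mx x) + 1 := by omega
    generalize Nat.log 2 (mx x) + 1 = i at h1 h2 h3 h4
    have h5 : qx K x + 2 ≤ 2 ^ ((c + 37) * i) := by
      calc qx K x + 2 ≤ (c + 2) * mx x ^ 35 := by have := hc x; rw [add_mul]; omega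
        _ ≤ 2 ^ ((c + 2) * i) * (2 ^ i) ^ 35 :=
          Nat.mul_le_mul (Nat.lt_two_pow_self.le.trans (Nat.pow_le_pow_right (by omega)
            (Nat.le_mul_of_pos_right _ h4))) (Nat.pow_le_pow_left h2 _)
        _ = _ := by rw [← pow_mul, ← pow_add]; congr 1; ring
    have h6 : 2 ^ i ≤ (x.length + 2) ^ 3 := by
      refine h1.trans ?_
      rw [pow_succ']
      exact Nat.mul_le_mul (by omega) (mx_le x)
    calc (qx K x + 2) ^ Dx x ≤ (2 ^ ((c + 37) * i)) ^ Dx x := Nat.pow_le_pow_left h5 _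
      _ = 2 ^ ((c + 37) * (i * Dx x)) := by rw [← pow_mul, mul_assoc]
      _ ≤ 2 ^ ((c + 37) * (2 * (lg x + i))) :=
        Nat.pow_le_pow_right (by omega) (Nat.mul_le_mul_left _ h3)
      _ = (2 ^ lg x * 2 ^ i) ^ (2 * (c + 37)) := by rw [← pow_add, ← pow_mul]; congr 1; ring
      _ ≤ ((x.length + 2) ^ 2 * (x.length + 2) ^ 3) ^ (2 * (c + 37)) :=
        Nat.pow_le_pow_left (Nat.mul_le_mul (two_lg x) h6) _
      _ = (x.length + 2) ^ (10 * (c + 37)) := by rw [← pow_add, ← pow_mul]; congr 1; ring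
      _ ≤ _ := Nat.pow_le_pow_right n0 (Nat.le_add_right _ _)

end Pool.Agent.MP_1a6d78_lc.DS.SD
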