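import Pool.Agent.MP_1a6d78_lc.SD.Spec
import Pool.Agent.MP_1a6d78_lc.DD.PackA

/-! PROJECT SD: the levelled contraction (rows packed). -/

section MrgPart1

/-! PROJECT SD, rows TW and BASE. -/

namespace Pool.Agent.MP_1a6d78_lc.DS.SD

open Classical ED PR DD SC

namespace TwL

variable {n : ℕ} {ρ τ τ' : ℕ → ℕ} {a b c k k' : ℕ}

theorem mono (h : Tw n ρ τ a b k) (hk : k ≤ k') : Tw n ρ τ a b k' := by
  induction h generalizing k' with
  | nil k => exact Tw.nil _
  | rot _ hb ih => exact Tw.rot (ih hk) hb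
  | edge _ hb ih =>
    obtain ⟨j, rfl⟩ : ∃ j, k' = j + 1 := ⟨k' - 1, by omega⟩
    exact Tw.edge (ih (by omega)) hb

theorem trans (h : Tw n ρ τ a b k) (h' : Tw n ρ τ b c k') : Tw n ρ τ a c (k + k') := by
  induction h' with
  | nil j => exact mono h (by omega)
  | rot _ hb ih => exact Tw.rot ih hb
  | edge _ hb ih => exact Tw.edge ih hb

theorem lt (hρ : Pm n ρ) (hτ : Iv n τ) (ha : a < n) (h : Tw n ρ τ a b k) : b < n := by
  induction h with
  | nil j => exact ha
  | rot _ hb _ => exact hρ.1 _ hb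
  | edge _ hb _ => exact (hτ _ hb).1

theorem sc (hρ : Pm n ρ) (ha : a < n) (h : Sc n ρ a b) : Tw n ρ τ a b 0 :=
  Sc.ind hρ.1 (Q := fun d => Tw n ρ τ a d 0) ha (Tw.nil 0) (fun _ hd k => Tw.rot k hd) h

theorem symm (hρ : Pm n ρ) (hτ : Iv n τ) (h : Tw n ρ τ a b k) : Tw n ρ τ b a k := by
  induction h with
  | nil j => exact Tw.nil _
  | rot _ hb ih =>
    have := trans (sc (τ := τ) hρ (hρ.1 _ hb) ((Sc.step hρ.1 hb).symm hρ hb)) ih
    rwa [Nat.zero_add] at this
  | @edge b k _ hb ih =>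
    have h1 : Tw n ρ τ (τ b) (τ (τ b)) (0 + 1) := Tw.edge (Tw.nil 0) (hτ _ hb).1
    rw [(hτ _ hb).2] at h1
    exact mono (trans h1 ih) (by omega)

theorem sub (hs : ∀ d < n, τ d = d ∨ τ' d = τ d) (h : Tw n ρ τ a b k) : Tw n ρ τ' a b k := by
  induction h with
  | nil j => exact Tw.nil _
  | rot _ hb ih => exact Tw.rot ih hb
  | edge _ hb ih =>
    rcases hs _ hb with e | e
    · rw [e]; exact mono ih (by omega)
    · rw [← e]; exact Tw.edge ih hb

theorem tau0 (M : Mp) (d : ℕ) : (st0 M).tau M d = d := by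
  simp [St.tau, st0]

end TwL

theorem twK : TwK :=
  ⟨TwL.mono, TwL.trans, TwL.lt, fun hρ hτ _ h => TwL.symm hρ hτ h, TwL.sub, TwL.sc⟩

theorem baseS : BaseS := by
  intro tw M r ok
  have hρ := ok.pm
  have e : (fun d => M.ρ ((st0 M).tau M d)) = M.ρ := funext fun d => by rw [TwL.tau0]
  refine ⟨⟨ok, fun d h => h.1, fun d h => h.elim, fun d h => ?_, fun d h => h.elim,
    fun d h => ⟨if_neg h, rfl⟩, ?_, fun d hd => ?_⟩, fun d => Nat.zero_le _, M.nd, fun d hd => ?_⟩
  · have k := ok.iv d h.1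
    exact ⟨⟨k.1, by rw [k.2]; exact h.2.symm⟩, h.2, fun k => k⟩
  · rw [e]
    intro d hd ha
    have ha' : al0 M d := ha
    obtain ⟨t, ht, et⟩ := (Sc.step hρ.1 hd).symm hρ hd
    rw [it_eq hρ.1 (hρ.1 d hd)] at et
    have ex : ∃ t < M.n, al0 M (it M.n M.ρ (t + 1) d) :=
      ⟨t, ht, by rw [it_eq hρ.1 hd, Function.iterate_succ_apply, et]; exact ha'⟩
    have sp := lst_spec ex
    have nx : (st0 M).nx d =
        it M.n M.ρ (lst M.n (fun t => al0 M (it M.n M.ρ (t + 1) d)) + 1) d := if_pos ha'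
    refine ⟨lst M.n fun t => al0 M (it M.n M.ρ (t + 1) d), by rw [nx, it_eq hρ.1 hd], ?_,
      fun s h0 hs k => ?_⟩
    · rw [nx]; exact sp.2
    · obtain ⟨s, rfl⟩ : ∃ s', s = s' + 1 := ⟨s - 1, by omega⟩
      have := lst_le (n := M.n) (m := s) (P := fun t => al0 M (it M.n M.ρ (t + 1) d))
        (by have := sp.1; omega) (by rw [it_eq hρ.1 hd]; exact k)
      omega
  · rw [TwL.tau0]; exact Sc.refl _ hd
  · have k : Tw M.n M.ρ ((st0 M).tau M) d (M.nd d) 0 := tw.sc hρ hd (Mp.nd_spec hd).2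
    refine ⟨((Mp.nd_iff hρ hd (hρ.1 d hd)).2 (Sc.step hρ.1 hd)).symm, by rw [TwL.tau0],
      tw.mono k (Nat.zero_le _), fun _ => k⟩

end Pool.Agent.MP_1a6d78_lc.DS.SD

end MrgPart1

section MrgPart2

/-! PROJECT SD, row NODE: consequences of the shape. -/

namespace Pool.Agent.MP_1a6d78_lc.DS.SD

open Classical ED PR DD SC

namespace NdL

variable {M : Mp} {S : St}

theorem iv (h : Sh M S) : Iv M.n (S.tau M) := by
  intro d hd
  unfold St.tau
  by_cases k : S.tr d
  · rw [if_pos k, if_pos (h.tb d k)]; exact h.ok.iv d hd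
  · rw [if_neg k, if_neg k]; exact ⟨hd, rfl⟩

theorem sb (M : Mp) (S : St) : Sb M.n (S.tau M) M.β := by
  intro d _
  unfold St.tau
  split_ifs
  exacts [Or.inr rfl, Or.inl rfl]

theorem pf (h : Sh M S) : Pm M.n fun d => M.ρ (S.tau M d) := h.ok.pm.comp (iv h).pm

theorem nx (h : Sh M S) (d : ℕ) (a : S.A d) : S.A (S.nx d) := (h.fr.lt (pf h) (h.lt d a) a).2

theorem pm (h : Sh M S) : Pm M.n S.nx := by
  refine ⟨fun d hd => ?_, fun a ha b hb e => ?_⟩
  · by_cases k : S.A d
    · exact h.lt _ (nx h d k)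
    · rw [(h.fix d k).1]; exact hd
  · by_cases k : S.A a <;> by_cases l : S.A b
    · exact h.fr.inj (pf h) ha hb k l e
    · rw [(h.fix b l).1] at e
      exact absurd (e ▸ nx h a k) l
    · rw [(h.fix a k).1] at e
      exact absurd (e ▸ nx h b l) k
    · rwa [(h.fix a k).1, (h.fix b l).1] at e

theorem go (h : Sh M S) (t d : ℕ) (a : S.A d) : S.go M t d = S.nx^[t] d ∧ S.A (S.go M t d) := by
  have e : S.go M t d = S.nx^[t] d := it_eq (pm h).1 (h.lt d a) t
  exact ⟨e, e ▸ iter_inv (nx h) a t⟩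

theorem cs (h : Sh M S) (a : ℕ) (ha : a < M.n) (b : ℕ) :
    S.C M a b ↔ Sc M.n (fun d => M.ρ (S.tau M d)) a b := by
  refine ⟨fun k => ?_, fun k => k.conn h.ok.pm (iv h) ha⟩
  have p := pf h
  refine (Conn.ind (r := fun x y => (x < M.n ↔ y < M.n) ∧
    (x < M.n → Sc M.n (fun d => M.ρ (S.tau M d)) x y))
    ⟨fun x => ⟨Iff.rfl, Sc.refl _⟩,
      fun k => ⟨k.1.symm, fun l => (k.2 (k.1.2 l)).symm p (k.1.2 l)⟩,
      fun k l => ⟨k.1.trans l.1, fun m => (k.2 m).trans p.1 m (l.2 (k.1.1 m))⟩⟩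
    (fun x hx => ⟨iff_of_true hx (h.ok.pm.1 x hx), fun _ => ?_⟩)
    (fun x hx => ⟨iff_of_true hx (iv h x hx).1, fun _ => h.one x hx⟩) k).2 ha
  have := Sc.step p.1 (iv h x hx).1
  rw [(iv h x hx).2] at this
  exact (h.one x hx).trans p.1 hx this

theorem ci (h : Sh M S) {a b : ℕ} (k : S.A a) (l : S.A b) : S.C M a b ↔ ∃ t, S.nx^[t] a = b :=
  (cs h a (h.lt a k) b).trans (h.fr.sc_iff (pf h) (h.lt a k) k l)

theorem br (h : Sh M S) (d : ℕ) (hd : d < M.n) (e : S.tau M d ≠ d) :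
    ¬Conn M.n M.ρ (del (S.tau M) d) d (S.tau M d) := by
  intro cn
  have g := iv h
  have b := (sb M S d hd).resolve_left e
  have g0 := g.del hd
  have sc : Sc M.n (fun x => M.ρ (del (S.tau M) d x)) d (S.tau M d) := by
    rw [b] at cn ⊢
    exact h.ok.pl _ g0 ((del_sb _ d _).trans (sb M S)) d hd (by simp [del]) cn
  exact swapK.split (h.ok.pm.comp g0.pm) hd (g d hd).1 e.symm sc
    ((h.one d hd).congr (pf h).1 (fun x _ => by rw [SDE.del_sw g hd]) hd)

theorem nm (h : Sh M S) (d : ℕ) (a : S.A d) : S.A (S.nm M d) ∧ S.C M d (S.nm M d) := by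
  rcases mn_eq 6 (fun _ => True) (fun t => S.go M t d) d with e | ⟨t, _, _, e⟩
  · rw [St.nm, e]; exact ⟨a, Conn.refl _ _ _ _⟩
  · rw [St.nm, e]
    exact ⟨(go h t d a).2, (ci h a (go h t d a).2).2 ⟨t, (go h t d a).1.symm⟩⟩

theorem per (h : Sh M S) {a b : ℕ} (k : S.A a) (l : S.A b) (w : S.low M a) (c : S.C M a b) :
    S.low M b ∧ ∃ t < 6, S.go M t a = b := by
  obtain ⟨t, ht, e⟩ := w
  rw [(go h _ a k).1] at e
  obtain ⟨s, rfl⟩ := (ci h k l).1 c
  refine ⟨⟨t, ht, ?_⟩, s % (t + 1), (Nat.mod_lt _ t.succ_pos).trans_le ht, ?_⟩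
  · rw [(go h _ _ l).1, ← Function.iterate_add_apply, add_comm, Function.iterate_add_apply, e]
  · rw [(go h _ a k).1]
    exact Function.IsPeriodicPt.iterate_mod_apply e s

theorem nm_le (h : Sh M S) {a b : ℕ} (k : S.A a) (l : S.A b) (w : S.low M a) (c : S.C M a b) :
    S.nm M a ≤ S.nm M b := by
  obtain ⟨t, ht, e⟩ := (per h k (nm h b l).1 w (Conn.trans c (nm h b l).2)).2
  rw [← e]
  exact mn_le (P := fun _ => True) (c := fun t => S.go M t a) ht trivial

end NdL

open NdL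

theorem ndS : NdS := fun M S h =>
  { iv := iv h
    sb := sb M S
    pm := pm h
    nx := nx h
    go := go h
    cs := fun a ha b _ => cs h a ha b
    sc := fun a _ k l => (ci h k l).trans (sc_iff (pm h).1 (h.lt a k)).symm
    br := br h
    nm := nm h
    low := fun _ _ k l w c =>
      ⟨(per h k l w c).1, le_antisymm (nm_le h l k (per h k l w c).1 (Conn.symm c))
        (nm_le h k l w c), (per h k l w c).2⟩ }

end Pool.Agent.MP_1a6d78_lc.DS.SD

end MrgPart2

section MrgPart3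

/-! SEL: the selected nodes of a round. -/

namespace Pool.Agent.MP_1a6d78_lc.DS.SD

open Classical ED PR DD SC

namespace SlL

variable {M : Mp} {r : ℕ} {S : St} {q u j : ℕ}

theorem goC (h : Sh M S) (K : NdK M S) (t : ℕ) {x : ℕ} (hx : S.A x) :
    S.A (S.go M t x) ∧ S.C M x (S.go M t x) :=
  ⟨(K.go t x hx).2, (K.sc x _ hx (K.go t x hx).2).2
    ((sc_iff K.pm.1 (h.lt x hx)).2 ⟨t, (K.go t x hx).1.symm⟩)⟩

theorem pkC (h : Sh M S) (K : NdK M S) {x : ℕ} (hx : S.A x) :
    S.A (S.pk M u j x) ∧ S.C M x (S.pk M u j x) := by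
  unfold St.pk
  split_ifs
  · exact goC h K _ hx
  · exact goC h K _ hx

theorem back (K : NdK M S) {d : ℕ} (hd : S.A d) (hl : S.low M d) :
    ∃ t < 6, S.go M t (S.nm M d) = d := by
  obtain ⟨h1, h2⟩ := K.nm d hd
  exact (K.low _ d h1 hd (K.low d _ hd h1 hl h2).1 (Conn.symm h2)).2.2

theorem join (K : NdK M S) {a b : ℕ} (ha : S.A a) (hb : S.A b) (e : S.nm M b = S.nm M a) :
    S.C M a b :=
  Conn.trans (K.nm a ha).2 (Conn.symm (e ▸ (K.nm b hb).2))

theorem cf_even (x t : ℕ) : S.cf1 M x (2 * t) = S.nm M (M.β (S.go M t x)) := by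
  unfold St.cf1
  rw [if_pos (by omega), show 2 * t / 2 = t by omega]

theorem cf_odd (x t : ℕ) : S.cf1 M x (2 * t + 1) = S.nm M (M.β (S.fc M (S.go M t x))) := by
  unfold St.cf1
  rw [if_neg (by omega), show (2 * t + 1) / 2 = t by omega]

theorem conf {x i : ℕ} (h : S.s1 M r q x) (hi : i < 12) (hc : col M q (S.cf1 M x i)) :
    S.cf1 M x i = x := by
  by_contra e
  exact h.2.2 i hi e hc

theorem con (h : Sh M S) {d : ℕ} (k : S.con M r q u j d) : S.A d ∧ S.con M r q u j (M.β d) := by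
  obtain ⟨hd, k⟩ := k
  obtain ⟨h1, h2⟩ := h.ok.iv d hd
  refine ⟨?_, h1, ?_⟩
  · rcases k with k | k
    · exact k.1.2.1
    · exact h2 ▸ (h.ab _ k.1.2.1).1
  · rw [h2]
    exact k.symm

end SlL

open SlL in
theorem slS : SlS := by
  intro M r S q u j h K
  refine ⟨?_, ?_, ?_, ?_, fun d k => con h k, ?_⟩
  · rintro a b ⟨h0, ha, hl, hs⟩ hb hc
    obtain ⟨k1, k2, -⟩ := K.low a b ha hb hl hc
    exact ⟨⟨h0, hb, k1, k2 ▸ hs⟩, by unfold St.ch; rw [k2]⟩
  · intro d hd
    obtain ⟨h1, h2⟩ := K.nm d hd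
    exact ⟨(pkC h K h1).1, Conn.trans h2 (pkC h K h1).2⟩
  · rintro d ⟨h0, hd, hl, hs⟩
    obtain ⟨t, ht, e⟩ := back K hd hl
    have hD : ¬S.dl M r d := fun k => hs.1 t ht (Or.inl (e.symm ▸ k))
    have hb := (h.ab d hd).1
    have hC : ¬S.C M d (M.β d) := fun k => hD (Or.inr (Or.inl (K.low d _ hd hb hl k).2.2))
    refine ⟨not_lt.1 fun k => hD (Or.inl k), hC, fun k => hC (join K hd hb ?_)⟩
    have := conf hs (i := 2 * t) (by omega) (by rw [cf_even, e]; exact k.2.2.2.2.1)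
    rwa [cf_even, e] at this
  · rintro d ⟨h0, hd, hl, hs⟩ k
    obtain ⟨t, ht, e⟩ := back K hd hl
    refine join K hd k.2.1 ?_
    have := conf hs (i := 2 * t + 1) (by omega) (by rw [cf_odd, e]; exact k.2.2.2.2.1)
    rwa [cf_odd, e] at this
  · rintro d (k | ⟨h0, hd, hs⟩)
    · exact ⟨(con h k).1, Or.inl (con h k).2⟩
    · refine ⟨hd, Or.inr ⟨h0, (h.ab d hd).1, ?_⟩⟩
      have e : eid M (M.β d) = eid M d := by
        unfold eid
        rw [(h.ok.iv d (h.lt d hd)).2, min_comm]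
      rwa [e]

end Pool.Agent.MP_1a6d78_lc.DS.SD

end MrgPart3

section MrgPart4

/-! PROJECT SD, row THREE: a survivor is found in three steps. -/

namespace Pool.Agent.MP_1a6d78_lc.DS.SD

open Classical ED PR DD SC

namespace ThL

variable {M : Mp} {r : ℕ} {S : St} {q u j : ℕ}

theorem bb (h : Sh M S) {d : ℕ} (a : S.A d) : M.β (M.β d) = d := (h.ok.iv d (h.lt d a)).2

theorem inj (h : Sh M S) (k : NdK M S) {a b : ℕ} (Aa : S.A a) (Ab : S.A b)
    (e : S.nx a = S.nx b) : a = b := k.pm.2 a (h.lt a Aa) b (h.lt b Ab) e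

theorem cnx (h : Sh M S) (k : NdK M S) {a : ℕ} (Aa : S.A a) : S.C M a (S.nx a) := by
  refine (k.sc a _ Aa (k.nx a Aa)).2 ⟨1, ?_, (k.go 1 a Aa).1⟩
  have h1 := h.lt a Aa
  have h2 := h.lt _ (h.ab a Aa).1
  have h3 := (h.ab a Aa).2.1
  omega

theorem aps (h : Sh M S) (k : NdK M S) {a : ℕ} (Aa : S.A a) : S.A (S.ps1 M r q u j a) := by
  unfold St.ps1
  split_ifs
  · exact k.nx _ (h.ab a Aa).1
  · exact k.nx _ Aa

theorem eid_eq (h : Sh M S) {a b : ℕ} (Aa : S.A a) (Ab : S.A b) (e : eid M a = eid M b) :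
    a = b ∨ a = M.β b := by
  have h1 := bb h Aa
  have h2 := bb h Ab
  unfold eid at e
  rcases min_choice a (M.β a) with p | p <;> rcases min_choice b (M.β b) with p' | p'
  · exact Or.inl (by omega)
  · exact Or.inr (by omega)
  · have : M.β a = b := by omega
    exact Or.inr (by rw [← this, h1])
  · have : M.β a = M.β b := by omega
    exact Or.inl (by rw [← h1, this, h2])

theorem s0_nx (h : Sh M S) (k : NdK M S) {a : ℕ} (Aa : S.A a) (s : S.s0 M r q (eid M a))
    (s' : S.s0 M r q (eid M (S.nx a))) : S.nx a = a ∨ S.nx a = M.β a := by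
  refine eid_eq h (k.nx a Aa) Aa ?_
  by_contra ne
  rcases min_choice a (M.β a) with p | p
  · have e : S.cf0 M (eid M a) 0 = eid M (S.nx a) := by
      have : eid M a = a := p
      rw [this]; simp [St.cf0]
    exact s.2.2 0 (by norm_num) (by rw [e]; exact ne) (by rw [e]; exact s'.2.1)
  · have e : S.cf0 M (eid M a) 1 = eid M (S.nx a) := by
      have : eid M a = M.β a := p
      rw [this]; simp [St.cf0, St.fc, bb h Aa]
    exact s.2.2 1 (by norm_num) (by rw [e]; exact ne) (by rw [e]; exact s'.2.1)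

theorem even (h : Sh M S) (k : NdK M S) (hq : q % 2 = 0) {b : ℕ} (v : S.sv M r q u j b)
    (k1 : S.kill M r q u j (S.ps1 M r q u j b))
    (k2 : S.kill M r q u j (S.ps1 M r q u j (S.ps1 M r q u j b)))
    (k3 : S.kill M r q u j (S.ps1 M r q u j (S.ps1 M r q u j (S.ps1 M r q u j b)))) : False := by
  have nc : ∀ d, ¬S.con M r q u j d := fun d c => by
    rcases c.2 with c | c <;> have := c.1.1 <;> omega
  have ps : ∀ d, S.ps1 M r q u j d = S.nx d := fun d => by
    unfold St.ps1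
    rw [if_neg (nc d)]
  simp only [ps] at k1 k2 k3
  have A0 := v.1
  have A1 := k.nx b A0
  have A2 := k.nx _ A1
  have s1 := (k1.resolve_left (nc _)).2.2
  have s2 := (k2.resolve_left (nc _)).2.2
  have s3 := (k3.resolve_left (nc _)).2.2
  have n1 : S.nx (S.nx b) ≠ S.nx b := fun e => v.2 (inj h k A1 A0 e ▸ k1)
  have e2 := (s0_nx h k A1 s1 s2).resolve_left n1
  rcases s0_nx h k A2 s2 s3 with e | e
  · exact n1 (inj h k A2 A1 e)
  · rw [e2, bb h A1, ← e2] at e
    exact v.2 (inj h k A2 A0 e ▸ k2)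

theorem one (s : SlK M r S q u j) {a c : ℕ} (sa : S.sl M r q a) (C : S.C M a c)
    (cc : S.con M r q u j c) : c = S.ch M u j a := by
  obtain ⟨sc, e⟩ := s.cl a c sa (s.con c cc).1 C
  rcases cc.2 with p | p
  · rw [← e, p.2]
  · exact absurd p.1 (s.nd c sc).2.2

theorem odd (h : Sh M S) (k : NdK M S) (s : SlK M r S q u j) (hq : q % 2 = 1) {b : ℕ}
    (v : S.sv M r q u j b) (k1 : S.kill M r q u j (S.ps1 M r q u j b))
    (k2 : S.kill M r q u j (S.ps1 M r q u j (S.ps1 M r q u j b)))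
    (k3 : S.kill M r q u j (S.ps1 M r q u j (S.ps1 M r q u j (S.ps1 M r q u j b)))) : False := by
  have kc : ∀ d, S.kill M r q u j d → S.con M r q u j d := fun d c =>
    c.resolve_right fun c => by have := c.1; omega
  have ps : ∀ d, S.con M r q u j d → S.ps1 M r q u j d = S.nx (M.β d) := fun d c => by
    unfold St.ps1
    rw [if_pos c]
  have A0 := v.1
  have p0 : S.ps1 M r q u j b = S.nx b := by
    unfold St.ps1
    rw [if_neg fun c => v.2 (Or.inl c)]
  rw [p0] at k1 k2 k3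
  have A1 := k.nx b A0
  have n1 : S.nx (S.nx b) ≠ S.nx b := fun e => v.2 (inj h k A1 A0 e ▸ k1)
  generalize S.nx b = c at k1 k2 k3 A1 n1
  have c1 := kc _ k1
  rw [ps c c1] at k2 k3
  have c2 := kc _ k2
  rw [ps _ c2] at k3
  have c3 := kc _ k3
  have Ab := (h.ab c A1).1
  rcases c1.2 with p | p
  · rcases c2.2 with p' | p'
    · exact (s.nd c p.1).2.2 (s.cl _ _ p'.1 Ab (Relation.EqvGen.symm _ _ (cnx h k Ab))).1
    · have e := one s p.1 (s.two c p.1 p'.1) (s.con _ c2).2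
      rw [p.2] at e
      have e' : M.β (S.nx (M.β c)) = c := e
      rw [e'] at c3
      exact n1 ((one s p.1 (cnx h k A1) c3).trans p.2)
  · have e := (one s p.1 (cnx h k Ab) c2).trans p.2
    rw [e, bb h A1] at c3
    have f : S.fc M (M.β c) = S.nx c := by
      unfold St.fc
      rw [bb h A1]
    rcases c3.2 with p' | p'
    · have := (s.cl _ _ p'.1 A1 (Relation.EqvGen.symm _ _ (cnx h k A1))).1
      exact (s.nd c this).2.2 p.1
    · have t := s.two (M.β c) p.1 (by rw [f]; exact p'.1)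
      rw [f] at t
      have e' := (one s p.1 t (s.con _ c3).2).trans p.2
      refine n1 ?_
      rw [← bb h (k.nx c A1), e', bb h A1]

end ThL

theorem thS : ThS := by
  intro M r S q u j h k s d _ v
  have e : (S.stp M r q u j).nx d = S.n3 M r q u j d := if_pos v
  have A1 : S.A (S.ps1 M r q u j d) := ThL.aps h k v.1
  have A2 : S.A (S.ps1 M r q u j (S.ps1 M r q u j d)) := ThL.aps h k A1
  have A3 : S.A (S.ps1 M r q u j (S.ps1 M r q u j (S.ps1 M r q u j d))) := ThL.aps h k A2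
  rw [e]
  unfold St.n3
  split_ifs with v1 v2
  · exact ⟨0, rfl, v1, fun t a b => by omega⟩
  · refine ⟨1, rfl, v2, fun t a b => ?_⟩
    obtain rfl : t = 1 := by omega
    exact v1
  · refine ⟨2, rfl, ⟨A3, fun k3 => ?_⟩, fun t a b => ?_⟩
    · have k1 : S.kill M r q u j _ := not_not.1 fun n => v1 ⟨A1, n⟩
      have k2 : S.kill M r q u j _ := not_not.1 fun n => v2 ⟨A2, n⟩
      rcases Nat.mod_two_eq_zero_or_one q with hq | hq
      · exact ThL.even h k hq v k1 k2 k3
      · exact ThL.odd h k s hq v k1 k2 k3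
    · obtain rfl | rfl : t = 1 ∨ t = 2 := by omega
      · exact v1
      · exact v2

end Pool.Agent.MP_1a6d78_lc.DS.SD

end MrgPart4

section MrgPart5

/-! PROJECT SD, row SHAPE: a round keeps the shape of a state. -/

namespace Pool.Agent.MP_1a6d78_lc.DS.SD

open Classical ED PR DD SC

namespace ShL

variable {n : ℕ} {ρ β : ℕ → ℕ}

theorem fr_trans {A A' : ℕ → Prop} {φ ψ nx : ℕ → ℕ} (h : SDE.FR n A φ ψ) (p : Pm n φ)
    (sub : ∀ d < n, A' d → A d) (h' : SDE.FR n A' ψ nx) : SDE.FR n A' φ nx := by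
  intro d hd a
  obtain ⟨t, e, k, l⟩ := h' d hd a
  have key : ∀ t, ∃ u, ψ^[t + 1] d = φ^[u + 1] d ∧ ∀ s, 0 < s → s ≤ u → A' (φ^[s] d) →
      ∃ s', 0 < s' ∧ s' ≤ t ∧ φ^[s] d = ψ^[s'] d := by
    intro t
    induction t with
    | zero =>
      obtain ⟨u, e, -, l⟩ := h d hd (sub d hd a)
      exact ⟨u, e, fun s h0 hs c =>
        (l s h0 hs (sub _ (iter_inv (Q := fun a => a < n) p.1 hd s) c)).elim⟩
    | succ t ih =>
      obtain ⟨u, e, l⟩ := ih
      have k := h.iter p hd (sub d hd a) (t + 1)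
      obtain ⟨v, e', -, l'⟩ := h _ k.1 k.2
      refine ⟨v + (u + 1), ?_, fun s h0 hs c => ?_⟩
      · rw [Function.iterate_succ_apply' ψ (t + 1), e', e, ← Function.iterate_add_apply]
        congr 1; omega
      rcases lt_trichotomy s (u + 1) with c1 | c1 | c1
      · obtain ⟨s', a1, a2, a3⟩ := l s h0 (by omega) c
        exact ⟨s', a1, by omega, a3⟩
      · exact ⟨t + 1, by omega, le_rfl, by rw [c1, e]⟩
      · refine (l' (s - (u + 1)) (by omega) (by omega) ?_).elim
        rw [e, ← Function.iterate_add_apply, Nat.sub_add_cancel c1.le]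
        exact sub _ (iter_inv (Q := fun a => a < n) p.1 hd s) c
  obtain ⟨u, e', l'⟩ := key t
  refine ⟨u, e.trans e', k, fun s h0 hs c => ?_⟩
  obtain ⟨s', a1, a2, a3⟩ := l' s h0 hs c
  exact l s' a1 a2 (a3 ▸ c)

theorem fr_kap {A : ℕ → Prop} {τ γ κ nx : ℕ → ℕ} (h : SDE.FR n A (fun d => ρ (τ d)) nx)
    (p : Pm n fun d => ρ (τ d)) (fx : ∀ d < n, A d → τ d = d)
    (h1 : ∀ d < n, A d → κ d < n ∧ A (κ d) ∧ γ d = κ d) (h2 : ∀ d < n, ¬A d → γ d = τ d) :
    SDE.FR n A (fun d => ρ (γ d)) fun d => nx (κ d) := by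
  intro d hd a
  obtain ⟨hb, ab, eb⟩ := h1 d hd a
  obtain ⟨t, e, k, l⟩ := h (κ d) hb ab
  have key : ∀ s ≤ t, (fun d => ρ (γ d))^[s + 1] d = (fun d => ρ (τ d))^[s + 1] (κ d) := by
    intro s hs
    induction s with
    | zero =>
      show ρ (γ d) = ρ (τ (κ d))
      rw [eb, fx _ hb ab]
    | succ s ih =>
      rw [Function.iterate_succ_apply', ih (by omega),
        Function.iterate_succ_apply' (fun d => ρ (τ d)) (s + 1)]
      show ρ (γ _) = ρ (τ _)
      rw [h2 _ (iter_inv (Q := fun a => a < n) p.1 hb _) (l (s + 1) (by omega) hs)]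
  refine ⟨t, by rw [key t le_rfl]; exact e, k, fun s h0 hs => ?_⟩
  obtain ⟨s, rfl⟩ : ∃ u, s = u + 1 := ⟨s - 1, by omega⟩
  rw [key s (by omega)]
  exact l _ h0 hs

/-- The contracted darts. -/
def Tr (β : ℕ → ℕ) (Sel : ℕ → Prop) (ch : ℕ → ℕ) (d : ℕ) : Prop :=
  (Sel d ∧ ch d = d) ∨ (Sel (β d) ∧ ch (β d) = β d)

theorem tA {A Sel : ℕ → Prop} {ch : ℕ → ℕ} (q : Iv n β) (cl : ∀ d, A d → A (β d))
    (sA : ∀ d, Sel d → A d) {d : ℕ} (hd : d < n) (t : Tr β Sel ch d) : A d := by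
  rcases t with t | t
  · exact sA d t.1
  · have := cl _ (sA _ t.1)
    rwa [(q d hd).2] at this

theorem tr_b {Sel : ℕ → Prop} {ch : ℕ → ℕ} (q : Iv n β) {d : ℕ} (hd : d < n)
    (t : Tr β Sel ch d) : Tr β Sel ch (β d) := by
  unfold Tr at t ⊢
  rw [(q d hd).2]
  exact t.symm

theorem one_ind {A Sel : ℕ → Prop} {τ ch : ℕ → ℕ} (p : Pm n ρ) (q : Iv n β) (iv : Iv n τ)
    (one : ∀ a < n, ∀ b < n, Conn n ρ τ a b → Sc n (fun d => ρ (τ d)) a b)
    (fx : ∀ d, A d → τ d = d) (cl : ∀ d, A d → A (β d)) (sA : ∀ d, Sel d → A d)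
    (nb : ∀ d, Sel d → ¬Sel (β d))
    (sc : ∀ a b, Sel a → A b → Conn n ρ τ a b → Sel b ∧ ch b = ch a) :
    ∀ γ, Iv n γ → Sb n γ β → (∀ d < n, ¬Tr β Sel ch d → γ d = τ d) →
    ∀ a < n, ∀ b < n, Conn n ρ γ a b → Sc n (fun d => ρ (γ d)) a b := by
  intro γ
  induction h : cnt n (fun d => Tr β Sel ch d ∧ γ d ≠ d) using Nat.strong_induction_on
    generalizing γ with
  | _ k ih =>
    intro g s t
    by_cases e : ∀ d < n, Tr β Sel ch d → γ d = d
    · have eq : ∀ d < n, γ d = τ d := fun d hd => by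
        by_cases a : Tr β Sel ch d
        · rw [e d hd a, fx d (tA q cl sA hd a)]
        · exact t d hd a
      intro a ha b hb c
      exact (one a ha b hb (c.mono fun d hd => Or.inr (eq d hd))).congr (p.comp iv.pm).1
        (fun d hd => by rw [eq d hd]) ha
    push Not at e
    obtain ⟨i, hi, si, ci, e⟩ : ∃ i < n, Sel i ∧ ch i = i ∧ γ i ≠ i := by
      obtain ⟨a, ha, ta | ta, e⟩ := e
      · exact ⟨a, ha, ta.1, ta.2, e⟩
      · have b := (s a ha).resolve_left e
        refine ⟨β a, (q a ha).1, ta.1, ta.2, ?_⟩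
        rw [← b, (g a ha).2]
        exact e.symm
    have b := (s i hi).resolve_left e
    have hb := (g i hi).1
    have g0 := g.del hi
    have s0 := (del_sb n i γ).trans s
    have da : del γ i i = i := by simp [del]
    have db : del γ i (γ i) = γ i := by simp [del]
    have ti : Tr β Sel ch i := Or.inl ⟨si, ci⟩
    have IH := ih _ (by
      rw [← h]
      refine cnt_lt (a := i) (fun d _ u => ⟨u.1, fun v => u.2 ?_⟩) hi ⟨ti, e⟩ fun u => u.2 da
      unfold del
      split_ifs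
      exacts [rfl, v]) (del γ i) rfl g0 s0 fun d hd u => by
        rw [← t d hd u, del, if_neg]
        rintro (c | c)
        · exact u (c ▸ ti)
        · exact u (by rw [c, b]; exact tr_b q hi ti)
    have cn : ¬Conn n ρ (del γ i) i (γ i) := by
      intro c
      have := Conn.ind (r := fun x y => Conn n ρ τ i x ↔ Conn n ρ τ i y)
        ⟨fun _ => Iff.rfl, Iff.symm, Iff.trans⟩
        (fun x hx => ⟨fun k => k.trans (Conn.rho ρ _ hx), fun k => k.trans (Conn.rho ρ _ hx).symm⟩)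
        (fun x hx => ?_) c
      · have c := this.1 (Conn.refl _ _ _ _)
        rw [b] at c
        exact nb i si (sc _ _ si (cl i (sA i si)) c).1
      unfold del
      split_ifs with u
      · rfl
      push Not at u
      by_cases tx : Tr β Sel ch x
      · rcases s x hx with v | v <;> rw [v]
        have ax := tA q cl sA hx tx
        refine iff_of_false (fun k => ?_) fun k => ?_
        · have k := sc _ _ si ax k
          rcases tx with w | w
          · exact u.1 (by rw [← w.2, k.2, ci])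
          · exact nb x k.1 w.1
        · have k := sc _ _ si (cl x ax) k
          rcases tx with w | w
          · exact nb x w.1 k.1
          · refine u.2 ?_
            rw [b, ← ci, ← k.2, w.2, (q x hx).2]
      · rw [t x hx tx]
        exact ⟨fun k => k.trans (Conn.gam ρ _ hx), fun k => k.trans (Conn.gam ρ _ hx).symm⟩
    have p0 := p.comp g0.pm
    have ns : ¬Sc n (fun d => ρ (del γ i d)) i (γ i) := fun k => cn (k.conn p g0 hi)
    intro x hx y hy c
    have c1 := (nclK.add p g0 hi hb da db x hx y hy).1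
      (c.mono fun d _ => Or.inr (SDE.del_sw g hi).symm)
    have c2 := swapK.merge p0 hi hb ns x hx y hy
    simp only [SDE.del_sw g hi] at c2
    refine c2.2 ?_
    rcases c1 with k | ⟨k, l⟩ | ⟨k, l⟩
    · exact Or.inl (IH x hx y hy k)
    · exact Or.inr (Or.inl ⟨IH x hx _ hi k, IH _ hb y hy l⟩)
    · exact Or.inr (Or.inr ⟨IH x hx _ hb k, IH _ hi y hy l⟩)

end ShL

theorem shS : ShS := by
  intro th M r S q u j h N L
  have p := h.ok.pm
  have b := h.ok.iv
  have fx : ∀ d, S.A d → S.tau M d = d := fun d a => if_neg (h.ab d a).2.2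
  have et : ∀ d < M.n, (S.stp M r q u j).tau M d =
      if S.con M r q u j d then M.β d else S.tau M d := by
    intro d hd
    by_cases c : S.con M r q u j d
    · rw [if_pos c]
      exact if_pos ⟨hd, Or.inr c⟩
    · rw [if_neg c]
      by_cases t : S.tr d
      · exact (if_pos ⟨hd, Or.inl t⟩).trans (if_pos t).symm
      · exact (if_neg fun k => k.2.elim t c).trans (if_neg t).symm
  have tb : ∀ d, (S.stp M r q u j).tr d → (S.stp M r q u j).tr (M.β d) := fun d t =>
    ⟨(b d t.1).1, t.2.imp (h.tb d) fun c => (L.con d c).2⟩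
  have iv : Iv M.n ((S.stp M r q u j).tau M) := by
    intro d hd
    by_cases t : (S.stp M r q u j).tr d
    · have e1 : (S.stp M r q u j).tau M d = M.β d := if_pos t
      have e2 : (S.stp M r q u j).tau M (M.β d) = M.β (M.β d) := if_pos (tb d t)
      rw [e1, e2]
      exact b d hd
    · have e1 : (S.stp M r q u j).tau M d = d := if_neg t
      rw [e1, e1]
      exact ⟨hd, rfl⟩
  have sb : Sb M.n ((S.stp M r q u j).tau M) M.β := fun d _ => by
    by_cases t : (S.stp M r q u j).tr d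
    · exact Or.inr (if_pos t)
    · exact Or.inl (if_neg t)
  have fr : SDE.FR M.n S.A (fun d => M.ρ ((S.stp M r q u j).tau M d)) (S.ps1 M r q u j) :=
    ShL.fr_kap (κ := fun d => if S.con M r q u j d then M.β d else d) h.fr (p.comp N.iv.pm)
      (fun d _ a => fx d a)
      (fun d hd a => by
        rw [et d hd]
        split_ifs
        exacts [⟨(b d hd).1, (h.ab d a).1, rfl⟩, ⟨hd, a, fx d a⟩])
      fun d hd a => by rw [et d hd, if_neg fun t => a (L.con d t).1]
  refine ⟨h.ok, fun d a => h.lt d a.1, fun d t => t.1, fun d a => ⟨⟨(h.ab d a.1).1, fun k => ?_⟩,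
    (h.ab d a.1).2.1, fun t => t.2.elim (h.ab d a.1).2.2 fun c => a.2 (Or.inl c)⟩, tb,
    fun d a => ⟨if_neg a, if_neg a⟩,
    ShL.fr_trans fr (p.comp iv.pm) (fun d _ a => a.1) (th M r S q u j h N L), fun d hd => ?_⟩
  · have := (L.kill _ k).2
    rw [(b d (h.lt d a.1)).2] at this
    exact a.2 this
  · refine ShL.one_ind (A := S.A) (Sel := S.sl M r q) (ch := S.ch M u j) p b N.iv
      (fun x hx y hy c => (N.cs x hx y hy).1 c) fx (fun d a => (h.ab d a).1) (fun d s => s.2.1)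
      (fun d s => (L.nd d s).2.2) L.cl _ iv sb (fun x hx t => ?_) d hd _ (iv d hd).1
      (Conn.gam _ _ hd)
    rw [et x hx, if_neg fun c => t c.2]

end Pool.Agent.MP_1a6d78_lc.DS.SD

end MrgPart5

section MrgPart6

/-! PROJECT SD: the row DEPTH. -/

namespace Pool.Agent.MP_1a6d78_lc.DS.SD

open Classical ED PR DD SC

namespace DpL

variable {M : Mp} {r q u j : ℕ} {S : St}

theorem tau_pos {d : ℕ} (hd : d < M.n) (h : S.tr d ∨ S.con M r q u j d) :
    (S.stp M r q u j).tau M d = M.β d := if_pos ⟨hd, h⟩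

theorem sub (d : ℕ) (hd : d < M.n) :
    S.tau M d = d ∨ (S.stp M r q u j).tau M d = S.tau M d := by
  by_cases h : S.tr d
  · exact Or.inr ((tau_pos hd (Or.inl h)).trans (if_pos h).symm)
  · exact Or.inl (if_neg h)

theorem chs (k : SlK M r S q u j) {a : ℕ} (h : S.sl M r q a) :
    S.sl M r q (S.ch M u j a) ∧ S.ch M u j (S.ch M u j a) = S.ch M u j a :=
  k.cl _ _ h (k.ch a h.2.1).1 (k.ch a h.2.1).2

end DpL

theorem dpS : DpS := by
  intro tw M r l S q u j sh nd k ⟨h1, rt, h2⟩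
  have rc : ∀ a b, S.C M a b → rt a = rt b := fun a b h =>
    Conn.ind (r := fun a b => rt a = rt b) ⟨fun _ => rfl, Eq.symm, Eq.trans⟩
      (fun a ha => (h2 a ha).1.symm) (fun a ha => (h2 a ha).2.1.symm) h
  obtain ⟨rt', s1, s2⟩ : ∃ rt' : ℕ → ℕ,
      (∀ a d, S.sl M r q a → S.C M a d → rt' d = rt (M.β (S.ch M u j a))) ∧
      ∀ d, (¬∃ a, S.sl M r q a ∧ S.C M a d) → rt' d = rt d := by
    refine ⟨fun d => if h : ∃ a, S.sl M r q a ∧ S.C M a d then
      rt (M.β (S.ch M u j h.choose)) else rt d, fun a d a1 a2 => ?_, fun d h => dif_neg h⟩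
    have h : ∃ a, S.sl M r q a ∧ S.C M a d := ⟨a, a1, a2⟩
    have := k.cl a _ a1 h.choose_spec.1.2.1 (Conn.trans a2 (Conn.symm h.choose_spec.2))
    exact (dif_pos h).trans (by rw [this.2])
  have rc' : ∀ a b, S.C M a b → rt' b = rt' a := fun a b h => by
    by_cases e : ∃ c, S.sl M r q c ∧ S.C M c a
    · obtain ⟨c, c1, c2⟩ := e
      rw [s1 c a c1 c2, s1 c b c1 (Conn.trans c2 h)]
    · rw [s2 a e, s2 b fun ⟨c, c1, c2⟩ => e ⟨c, c1, Conn.trans c2 (Conn.symm h)⟩, rc a b h]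
  have ns : ∀ d, S.A d → ¬S.sl M r q d → rt' d = rt d := fun d a b =>
    s2 d fun ⟨c, c1, c2⟩ => b (k.cl c d c1 a c2).1
  have ed : ∀ d, S.sl M r q d → S.ch M u j d = d → rt' (M.β d) = rt' d := fun d a b => by
    rw [s1 d d a (Conn.refl _ _ _ _), b, ns _ (sh.ab d a.2.1).1 (k.nd d a).2.2]
  have lw : ∀ a d m, S.sl M r q a → S.C M a d → Tw M.n M.ρ (S.tau M) d (rt d) m →
      Tw M.n M.ρ ((S.stp M r q u j).tau M) d (rt' d) (m + S.cost M (S.ch M u j a)) := by
    intro a d m a1 a2 w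
    obtain ⟨c1, c2⟩ := k.ch a a1.2.1
    have c3 := sh.lt _ c1
    have c4 := (sh.ab _ c1).1
    have w1 := tw.symm sh.ok.pm nd.iv c3 ((h2 _ c3).2.2.2 c1)
    rw [← rc _ _ c2, rc _ _ a2] at w1
    have w2 := (tw.sub (τ' := (S.stp M r q u j).tau M) DpL.sub (tw.trans w w1)).edge c3
    rw [DpL.tau_pos c3 (Or.inr ⟨c3, Or.inl (DpL.chs k a1)⟩)] at w2
    rw [s1 a d a1 a2]
    refine tw.mono (tw.trans w2 (tw.sub DpL.sub ((h2 _ (sh.lt _ c4)).2.2.2 c4))) ?_
    unfold St.cost
    omega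
  refine ⟨fun d => ?_, rt', fun d hd => ⟨rc' _ _ (Conn.rho _ _ hd), ?_, ?_, fun a => ?_⟩⟩
  · have := h1 d
    show (if _ then S.dep d + (if _ then _ else 0) else 0) ≤ _
    rw [Nat.succ_mul]
    split_ifs with a b
    · exact Nat.add_le_add this (k.nd _ (DpL.chs k b).1).1
    · exact Nat.add_le_add this (Nat.zero_le _)
    · omega
  · by_cases c : S.con M r q u j d
    · rw [DpL.tau_pos hd (Or.inr c)]
      rcases c.2 with e | e
      · exact ed d e.1 e.2
      · have := ed _ e.1 e.2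
        rw [(sh.ok.iv d hd).2] at this
        exact this.symm
    · have : (S.stp M r q u j).tau M d = S.tau M d :=
        if_congr ⟨fun e => e.2.resolve_right c, fun e => ⟨hd, Or.inl e⟩⟩ rfl rfl
      rw [this]
      exact rc' _ _ (Conn.gam _ _ hd)
  · rw [Nat.succ_mul]
    by_cases e : ∃ c, S.sl M r q c ∧ S.C M c d
    · obtain ⟨c, c1, c2⟩ := e
      exact tw.mono (lw c d _ c1 c2 (h2 d hd).2.2.1)
        (Nat.add_le_add_left (k.nd _ (DpL.chs k c1).1).1 _)
    · rw [s2 d e]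
      exact tw.mono (tw.sub DpL.sub (h2 d hd).2.2.1) (Nat.le_add_right _ _)
  · have e : (S.stp M r q u j).dep d = S.dep d + S.inc M r q u j d := if_pos a
    rw [e, St.inc]
    split_ifs with b
    · exact lw d d _ b (Conn.refl _ _ _ _) ((h2 d hd).2.2.2 a.1)
    · rw [ns d a.1 b]
      exact tw.sub DpL.sub ((h2 d hd).2.2.2 a.1)

end Pool.Agent.MP_1a6d78_lc.DS.SD

end MrgPart6

section MrgPart7

/-! PROJECT SD, row GAIN: some seed marks a fixed proportion of the alive darts. -/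

namespace Pool.Agent.MP_1a6d78_lc.DS.SD

open Classical ED PR DD SC

namespace GnL

theorem cnt_disj (n : ℕ) {P Q R : ℕ → Prop} (h1 : ∀ d, P d → R d) (h2 : ∀ d, Q d → R d)
    (h3 : ∀ d, P d → ¬Q d) : cnt n P + cnt n Q ≤ cnt n R := by
  induction n with
  | zero => simp [cnt]
  | succ n ih =>
    rw [cnt_succ, cnt_succ, cnt_succ]
    have a := h1 n
    have b := h2 n
    have c := h3 n
    split_ifs <;> first | omega | tauto

variable {M : Mp} {r : ℕ} {S : St}

/-- The darts that may be deleted. -/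
def D (M : Mp) (r : ℕ) (S : St) (d : ℕ) : Prop := S.A d ∧ S.Del M r d

/-- The names of the small nodes without such darts. -/
def L (M : Mp) (r : ℕ) (S : St) (d : ℕ) : Prop :=
  S.A d ∧ S.low M d ∧ S.nm M d = d ∧ ∀ t < 6, ¬S.Del M r (S.go M t d)

theorem key_ne (sh : Sh M S) {a b : ℕ} (ha : a < M.n) (hb : b < M.n) (h1 : a ≠ b)
    (h2 : b ≠ M.β a) : S.key M a ≠ S.key M b := fun e => by
  have m : ∀ d < M.n, S.key M d % M.n = eid M d := fun d hd => by
    rw [St.key, Nat.mul_add_mod']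
    exact Nat.mod_eq_of_lt ((min_le_left _ _).trans_lt hd)
  have e1 : eid M a = eid M b := by rw [← m a ha, ← m b hb, e]
  have i1 := (sh.ok.iv a ha).2
  have i2 := (sh.ok.iv b hb).2
  have n1 : a ≠ M.β b := fun k => h2 (by rw [k, i2])
  have n2 : M.β a ≠ M.β b := fun k => h1 (by rw [← i1, k, i2])
  unfold eid at e1
  omega

theorem cntA (sh : Sh M S) (nd : NdK M S) :
    cnt M.n S.A ≤ 84 * (cnt M.n (D M r S) + cnt M.n (L M r S)) := by
  refine SDE.count sh.ok.pm sh.ok.iv sh.ok.pl nd.iv nd.sb (fun d _ a => (sh.ab d a).1)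
    (fun d _ a => if_neg (sh.ab d a).2.2) (fun d _ a => (sh.ab d a).2.1) sh.fr _ _
    (fun d hd a e => ⟨a, Or.inr (Or.inr (Or.inl ⟨1, by omega, ?_⟩))⟩)
    (fun a ha b hb Aa Ab e1 e2 n1 n2 => ?_) fun d _ a ⟨t, t0, t7, e⟩ => ?_
  · rw [(nd.go 1 _ (sh.ab d a).1).1, (sh.ok.iv d hd).2]
    exact e
  · have f1 : S.fc M a = b := e1
    have f2 : S.fc M b = a := e2
    rcases (key_ne sh ha hb n1 n2).lt_or_gt with c | c
    · exact Or.inr ⟨Ab, Or.inl (Or.inr (Or.inr ⟨by rw [f2, f1], by rw [f2]; exact c⟩))⟩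
    · exact Or.inl ⟨Aa, Or.inl (Or.inr (Or.inr ⟨by rw [f1, f2], by rw [f1]; exact c⟩))⟩
  · by_cases c : ∃ u, S.Del M r (S.nx^[u] d)
    · obtain ⟨u, c⟩ := c
      exact ⟨u, Or.inl ⟨(nd.go u d a).1 ▸ (nd.go u d a).2, c⟩⟩
    have lo : S.low M d := ⟨t - 1, by omega, by
      rw [(nd.go _ d a).1, Nat.sub_add_cancel t0, e]⟩
    obtain ⟨a1, a2⟩ := nd.nm d a
    obtain ⟨b1, b2, u, -, b3⟩ := nd.low d _ a a1 lo a2
    rw [(nd.go u d a).1] at b3
    refine ⟨u, Or.inr ?_⟩
    rw [b3]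
    refine ⟨a1, b1, b2, fun v _ k => c ⟨v + u, ?_⟩⟩
    rwa [Function.iterate_add_apply, b3, ← (nd.go v _ a1).1]

theorem seed0 (sh : Sh M S) : ∃ q < Qs M, cnt M.n (D M r S) ≤ 192 * cnt M.n (S.mq M r q) := by
  obtain ⟨w, h1, h2⟩ := SC.hash M.n 12 (fun x => D M r S x ∧ eid M x = x) (S.cf0 M) (by omega)
  refine ⟨2 * w, by unfold Qs; omega, ?_⟩
  have a1 : cnt M.n (D M r S) ≤ cnt M.n fun x => (D M r S x ∧ eid M x = x) ∨
      (D M r S (M.β x) ∧ eid M (M.β x) = M.β x) := cnt_mono fun d hd k => by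
    have i := (sh.ok.iv d hd).2
    rcases le_total d (M.β d) with c | c
    · exact Or.inl ⟨k, min_eq_left c⟩
    · refine Or.inr ⟨⟨(sh.ab d k.1).1, ?_⟩, min_eq_left (by rwa [i])⟩
      rw [St.Del, i]
      exact k.2.symm
  have a2 := cnt_or M.n (fun x => D M r S x ∧ eid M x = x)
    fun x => D M r S (M.β x) ∧ eid M (M.β x) = M.β x
  have a3 : cnt M.n (fun x => D M r S (M.β x) ∧ eid M (M.β x) = M.β x) ≤
      cnt M.n fun x => D M r S x ∧ eid M x = x :=
    cnt_inj M.β (fun a ha k => ⟨(sh.ok.iv a ha).1, k⟩) fun a ha b hb _ _ e => by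
      rw [← (sh.ok.iv a ha).2, e, (sh.ok.iv b hb).2]
  have a4 := h2.trans (Nat.mul_le_mul_left _ (cnt_mono (Q := S.mq M r (2 * w))
    fun d _ ⟨⟨k1, k2⟩, k3⟩ => Or.inr ⟨by omega, k1.1, by
      rw [k2]
      unfold St.s0 col
      rw [Nat.mul_div_cancel_left _ two_pos]
      exact ⟨k1.2, k3⟩⟩))
  omega

theorem seed1 : ∃ q < Qs M, cnt M.n (L M r S) ≤ 96 * cnt M.n (S.mq M r q) := by
  obtain ⟨w, h1, h2⟩ := SC.hash M.n 12 (L M r S) (S.cf1 M) (by omega)
  refine ⟨2 * w + 1, by unfold Qs; omega, h2.trans (Nat.mul_le_mul_left _ (cnt_mono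
    fun d _ ⟨⟨k1, k2, k3, k4⟩, k5⟩ => Or.inl ⟨⟨by omega, k1, k2, ?_⟩, k3⟩))⟩
  rw [k3]
  unfold St.s1 col
  rw [show (2 * w + 1) / 2 = w by omega]
  exact ⟨k4, k5⟩

theorem marks (sh : Sh M S) (nd : NdK M S) {q u j : ℕ} (sl : SlK M r S q u j) :
    cnt M.n (S.mq M r q) ≤ cnt M.n (S.kill M r q u j) := by
  rcases Nat.mod_two_eq_zero_or_one q with c | c
  · exact cnt_mono fun d _ k => Or.inr (k.resolve_left fun e => by
      have := e.1.1
      omega)
  have m : ∀ d, S.mq M r q d → S.sl M r q d ∧ S.nm M d = d := fun d k =>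
    k.resolve_right fun e => by
      have := e.1
      omega
  refine cnt_inj (S.ch M u j) (fun a _ k => ?_) fun a _ b _ ka kb e => ?_
  · obtain ⟨a1, a2⟩ := sl.ch a (m a k).1.2.1
    exact ⟨sh.lt _ a1, Or.inl ⟨sh.lt _ a1, Or.inl (sl.cl a _ (m a k).1 a1 a2)⟩⟩
  · obtain ⟨⟨-, a1, a2, -⟩, a3⟩ := m a ka
    obtain ⟨⟨-, b1, -⟩, b3⟩ := m b kb
    have c1 : S.C M a b := Conn.trans (sl.ch a a1).2 (e ▸ Conn.symm (sl.ch b b1).2)
    rw [← a3, ← b3, (nd.low a b a1 b1 a2 c1).2.1]

end GnL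

open GnL in
theorem gnS : GnS := by
  intro M r S sh nd sl
  refine ⟨?_, fun q u j => (Nat.add_le_add_left (marks sh nd (sl q u j)) _).trans
    (cnt_disj _ (fun _ k => k.1) (fun d k => ((sl q u j).kill d k).1) fun _ k => k.2)⟩
  obtain ⟨q0, a0, b0⟩ := seed0 (r := r) sh
  obtain ⟨q1, a1, b1⟩ := seed1 (M := M) (r := r) (S := S)
  have c := cntA (r := r) sh nd
  rcases le_total (cnt M.n (S.mq M r q0)) (cnt M.n (S.mq M r q1)) with h | h
  · exact ⟨q1, a1, by omega⟩
  · exact ⟨q0, a0, by omega⟩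

end Pool.Agent.MP_1a6d78_lc.DS.SD

end MrgPart7

section MrgPart8

/-! PROJECT SD, row END: nothing is alive after the last round. -/

namespace Pool.Agent.MP_1a6d78_lc.DS.SD

open Classical ED PR DD SC

namespace EndL

theorem drop (hG : GnS) {M : Mp} {r K : ℕ} {S : St} (hS : Sh M S) (hN : NdK M S)
    (hL : ∀ q u j, SlK M r S q u j) (hK : 40000 ≤ K) (u j : ℕ) :
    cnt M.n (S.stp M r (S.seed M r) u j).A * K ≤ cnt M.n S.A * (K - 1) := by
  obtain ⟨⟨q, hq, h1⟩, h2⟩ := hG M r S hS hN hL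
  have h3 : M.n - cnt M.n (S.mq M r (S.seed M r)) ≤ M.n - cnt M.n (S.mq M r q) :=
    (amin_spec (fun q => M.n - cnt M.n (S.mq M r q)) (show 0 < Qs M by omega)).2 q hq
  have h4 := PR.cnt_le M.n (S.mq M r q)
  have h5 := PR.cnt_le M.n (S.mq M r (S.seed M r))
  have h6 : cnt M.n (S.stp M r (S.seed M r) u j).A + cnt M.n (S.mq M r (S.seed M r)) ≤
      cnt M.n S.A := h2 _ u j
  have h7 : cnt M.n (S.mq M r q) ≤ cnt M.n (S.mq M r (S.seed M r)) := by omega
  obtain ⟨K, rfl⟩ : ∃ K', K = K' + 1 := ⟨K - 1, by omega⟩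
  rw [Nat.add_sub_cancel]
  generalize cnt M.n (S.stp M r (S.seed M r) u j).A = a at *
  generalize cnt M.n (S.mq M r (S.seed M r)) = g at *
  generalize cnt M.n S.A = b at *
  have h8 : b ≤ (K + 1) * g := h1.trans (Nat.mul_le_mul hK h7)
  nlinarith

end EndL

theorem endS : EndS := by
  intro hR hN hL hG M r cy cj K L hM hK hn d hd
  have H := El.half (show 1 ≤ K by omega) (fun l => cnt M.n (run M r cy cj l).A) L fun l _ =>
    have hS := (hR M r cy cj l hM).1
    EndL.drop hG hS (hN M _ hS) (fun q u j => hL M r _ q u j hS (hN M _ hS)) hK _ _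
  have h1 := cnt_pos ((hR M r cy cj (K * L) hM).1.lt d hd) hd
  have h2 := PR.cnt_le M.n (run M r cy cj 0).A
  have h3 := Nat.le_mul_of_pos_left (2 ^ L) h1
  omega

end Pool.Agent.MP_1a6d78_lc.DS.SD

end MrgPart8

section MrgPart9

/-! Row KILL: why an edge dies. -/

namespace Pool.Agent.MP_1a6d78_lc.DS.SD

open Classical ED PR DD SC

namespace KlL

variable {M : Mp} {r : ℕ} {S : St} {q u j : ℕ}

theorem bb (h : Sh M S) {d : ℕ} (hd : S.A d) : M.β (M.β d) = d := (h.ok.2 d (h.lt d hd)).2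

theorem cost_b (h : Sh M S) {d : ℕ} (hd : S.A d) : S.cost M (M.β d) = S.cost M d := by
  unfold St.cost
  rw [bb h hd]; omega

theorem eid_b (h : Sh M S) {d : ℕ} (hd : S.A d) : eid M (M.β d) = eid M d := by
  unfold eid
  rw [bb h hd, min_comm]

theorem key_b (h : Sh M S) {d : ℕ} (hd : S.A d) : S.key M (M.β d) = S.key M d := by
  unfold St.key
  rw [cost_b h hd, eid_b h hd]

theorem key_eid (h : Sh M S) {d : ℕ} (hd : S.A d) : S.key M (eid M d) = S.key M d := by
  rcases min_choice d (M.β d) with e | e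
  · exact congrArg _ e
  · exact (congrArg _ e).trans (key_b h hd)

theorem step (h : Sh M S) (k : NdK M S) {d : ℕ} (hd : S.A d) : S.C M d (S.nx d) :=
  (k.sc _ _ hd (k.nx d hd)).2 (Sc.step k.pm.1 (h.lt d hd))

theorem core (h : Sh M S) (k : NdK M S) (hq : q % 2 = 0) {y : ℕ} (hy : S.A y)
    (hs : S.s0 M r q (eid M y)) (hd : S.dl M r y) :
    r < S.cost M y ∨ S.C M y (M.β y) ∨ ∃ f, S.sv M r q u j f ∧ S.C M f y ∧
      S.C M (M.β f) (M.β y) ∧ S.cost M f ≤ S.cost M y := by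
  have hb := (h.ab y hy).1
  rcases hd with a | ⟨t, -, a⟩ | ⟨a, b⟩
  · exact Or.inl a
  · refine Or.inr (Or.inl ((k.sc _ _ hy hb).2 ((sc_iff k.pm.1 (h.lt y hy)).2 ⟨t, ?_⟩)))
    rw [← (k.go t y hy).1, a]
  have hg : S.A (S.fc M y) := k.nx _ hb
  have hf : S.A (M.β (S.fc M y)) := (h.ab _ hg).1
  refine Or.inr (Or.inr ⟨M.β (S.fc M y), ⟨hf, ?_⟩, ?_, ?_, ?_⟩)
  · rintro (c | c)
    · rcases c.2 with c | c <;> have := c.1.1 <;> omega
    · have c1 : col M q (eid M (S.fc M y)) := eid_b h hg ▸ c.2.2.2.1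
      have c2 : eid M (S.fc M y) ≠ eid M y := fun e => by
        have := key_eid h hg
        rw [e, key_eid h hy] at this
        omega
      rcases min_choice y (M.β y) with e | e
      · have e1 : S.cf0 M (eid M y) 1 = eid M (S.fc M y) := by
          rw [show eid M y = y from e]; rfl
        exact hs.2.2 1 (by omega) (e1 ▸ c2) (e1 ▸ c1)
      · have e1 : S.cf0 M (eid M y) 0 = eid M (S.fc M y) := by
          rw [show eid M y = M.β y from e]; rfl
        exact hs.2.2 0 (by omega) (e1 ▸ c2) (e1 ▸ c1)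
  · have := step h k hf
    rwa [show S.nx (M.β (S.fc M y)) = y from a] at this
  · rw [bb h hg]
    exact Conn.symm (step h k hb)
  · rw [cost_b h hg]
    by_contra c
    have c1 : eid M y < M.n := lt_of_le_of_lt (min_le_left _ _) (h.lt y hy)
    have c2 : (S.cost M y + 1) * M.n ≤ S.cost M (S.fc M y) * M.n :=
      Nat.mul_le_mul_right _ (by omega)
    unfold St.key at b
    rw [Nat.add_mul] at c2
    omega

end KlL

open KlL in
theorem klS : KlS := by
  intro M r S q u j h k l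
  refine ⟨fun a b c => Conn.mono (fun d hd => ?_) c, fun d c => ?_, fun d c => ?_⟩
  · unfold St.tau
    by_cases e : S.tr d
    · right
      rw [if_pos e, if_pos (show (S.stp M r q u j).tr d from ⟨hd, Or.inl e⟩)]
    · left
      rw [if_neg e]
  · have := Conn.gam M.ρ ((S.stp M r q u j).tau M) c.1
    rwa [St.tau, if_pos (show (S.stp M r q u j).tr d from ⟨c.1, Or.inr c⟩)] at this
  rcases c with c | ⟨hq, hd, hs⟩
  · exact Or.inl c
  refine Or.inr ⟨hq, ?_⟩
  have hb := (h.ab d hd).1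
  have hD : S.dl M r d ∨ S.dl M r (M.β d) := by
    have := hs.1
    rcases min_choice d (M.β d) with e | e
    · rwa [show eid M d = d from e] at this
    · rw [show eid M d = M.β d from e, St.Del, bb h hd] at this
      exact this.symm
  rcases hD with a | a
  · exact core h k hq hd hs a
  rcases core (u := u) (j := j) h k hq hb ((eid_b h hd).symm ▸ hs) a with b | b | ⟨f, b1, b2, b3, b4⟩
  · exact Or.inl (cost_b h hd ▸ b)
  · rw [bb h hd] at b
    exact Or.inr (Or.inl (Conn.symm b))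
  · rw [bb h hd] at b3
    refine Or.inr (Or.inr ⟨M.β f, ⟨(h.ab f b1.1).1, fun c => b1.2 ?_⟩, b3, ?_, ?_⟩)
    · have := (l.kill _ c).2
      rwa [bb h b1.1] at this
    · rwa [bb h b1.1]
    · rwa [cost_b h b1.1, ← cost_b h hd]

end Pool.Agent.MP_1a6d78_lc.DS.SD

end MrgPart9

section MrgPart10

/-! PROJECT SD, row KEY: the potential of an edge is a supermartingale. -/

namespace Pool.Agent.MP_1a6d78_lc.DS.SD

open Classical ED PR DD SC Finset

namespace KeyL

variable {M : Mp} {r : ℕ} {S : St} {e : ℕ}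

theorem top (M : Mp) (r : ℕ) (S : St) (e : ℕ) : mc M r S e ≤ r + 1 :=
  lst_le (by omega) (Or.inl rfl)

theorem spec (M : Mp) (r : ℕ) (S : St) (e : ℕ) : mc M r S e = r + 1 ∨
    ∃ f, S.A f ∧ S.C M f e ∧ S.C M (M.β f) (M.β e) ∧ S.cost M f = mc M r S e :=
  (lst_spec (n := r + 2) (P := fun c => c = r + 1 ∨
    ∃ f, S.A f ∧ S.C M f e ∧ S.C M (M.β f) (M.β e) ∧ S.cost M f = c)
    ⟨r + 1, by omega, Or.inl rfl⟩).2

theorem rep {f : ℕ} (a : S.A f) (c : S.C M f e) (c' : S.C M (M.β f) (M.β e)) :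
    mc M r S e ≤ S.cost M f := by
  by_cases h : S.cost M f < r + 2
  · exact lst_le h (Or.inr ⟨f, a, c, c', rfl⟩)
  · have := top M r S e
    omega

theorem rp {a b : ℕ} (h : a ≤ b) : (a : ℝ) ^ (1 / 32 : ℝ) ≤ (b : ℝ) ^ (1 / 32 : ℝ) :=
  Real.rpow_le_rpow (by positivity) (by exact_mod_cast h) (by norm_num)

theorem psi_le {b : ℕ} (h : mc M r S e ≤ b) : psi M r S e ≤ (b : ℝ) ^ (1 / 32 : ℝ) := by
  unfold psi
  split_ifs
  · positivity
  · exact rp h

theorem avg (Y : ℕ) (G : ℕ → ℕ → ℝ) (v : ℝ) (h : ∀ y j, G y j ≤ v) :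
    ∑ y ∈ range (Y + 1), ∑ j ∈ range 8, SDKey.P Y y / 8 * G y j ≤ v := by
  calc _ ≤ ∑ y ∈ range (Y + 1), ∑ _j ∈ range 8, SDKey.P Y y / 8 * v :=
        sum_le_sum fun y _ => sum_le_sum fun j _ => mul_le_mul_of_nonneg_left (h y j)
          (by have := SDKey.P_pos Y y; positivity)
    _ = (∑ y ∈ range (Y + 1), SDKey.P Y y) * v := by
        rw [sum_mul]
        refine sum_congr rfl fun y _ => ?_
        simp only [sum_const, card_range, nsmul_eq_mul]
        push_cast; ring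
    _ = v := by rw [SDKey.P_sum, one_mul]

theorem keep {q u j g : ℕ} (h : Sh M S) (L : SlK M r S q u j)
    (up : ∀ a b, S.C M a b → (S.stp M r q u j).C M a b) (sv : S.sv M r q u j g)
    (c : S.C M g e) (c' : S.C M (M.β g) (M.β e)) :
    mc M r (S.stp M r q u j) e ≤
      S.cost M g + S.inc M r q u j g + S.inc M r q u j (M.β g) := by
  have sb : S.sv M r q u j (M.β g) := ⟨(h.ab g sv.1).1, fun k => sv.2 (by
    have := (L.kill _ k).2
    rwa [(h.ok.iv g (h.lt g sv.1)).2] at this)⟩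
  refine (rep (S := S.stp M r q u j) sv (up _ _ c) (up _ _ c')).trans (le_of_eq ?_)
  show 1 + (if S.sv M r q u j g then _ else _) + (if S.sv M r q u j (M.β g) then _ else _) = _
  rw [if_pos sv, if_pos sb, St.cost]
  omega

end KeyL

open KeyL

theorem keyS : KeyS := by
  intro Kl M r S q e h N L _
  have up := fun u j => (Kl M r S q u j h N (L u j)).1
  by_cases ce : S.C M e (M.β e)
  · refine avg r _ _ fun y j => ?_
    rw [psi, psi, if_pos ce, if_pos (up _ _ _ _ ce)]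
  rw [psi, if_neg ce]
  rcases spec M r S e with k | ⟨f, a, c, c', k⟩
  · exact avg r _ _ fun y j => psi_le (k ▸ top M r _ e)
  rw [← k]
  have hb := h.ok.iv f (h.lt f a)
  have gone : ∀ u j, S.con M r q u j f → psi M r (S.stp M r q u j) e = 0 := fun u j t => by
    rw [psi, if_pos]
    exact Conn.trans (Conn.symm (up u j _ _ c))
      (Conn.trans ((Kl M r S q u j h N (L u j)).2.1 f t) (up u j _ _ c'))
  have main : ∀ g, S.sl M r q g → S.cost M g = S.cost M f →
      (∀ u j, S.ch M u j g = g → S.con M r q u j f) →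
      (∀ u j, S.ch M u j g ≠ g → mc M r (S.stp M r q u j) e ≤
        S.cost M f + S.cost M (S.ch M u j g)) →
      ∑ y ∈ range (r + 1), ∑ j ∈ range 8, SDKey.P r y / 8 * psi M r (S.stp M r q (2 ^ y) j) e
        ≤ (S.cost M f : ℝ) ^ (1 / 32 : ℝ) := by
    intro g s ec w1 w2
    have ag := s.2.1
    have an := N.nm g ag
    obtain ⟨jf, hj, ej⟩ := (N.low _ g an.1 ag (N.low g _ ag an.1 s.2.2.1 an.2).1
      (Conn.symm an.2)).2.2
    have am := amin_spec (n := 8) (fun t => S.cost M (S.go M t (S.nm M g))) (by omega)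
    have hm : 1 ≤ S.cost M (S.ce M (S.nm M g)) := by unfold St.cost; omega
    have := SDKey.key_step r (S.cost M (S.ce M (S.nm M g))) (S.cost M f) (S.cost M)
      (fun j => S.go M j (S.nm M g)) (fun y j => S.ch M (2 ^ y) j g) jf (by omega) hm
      (fun j k => am.2 j k) (fun j _ => ?_) (fun y j k l => ?_) (fun y j k l => ?_)
      (by rw [ej, ec])
    · refine le_trans (sum_le_sum fun y _ => sum_le_sum fun j _ => mul_le_mul_of_nonneg_left ?_
        (by have := SDKey.P_pos r y; positivity)) this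
      rw [ej]
      split_ifs with t
      · exact (gone _ _ (w1 _ _ t)).le
      · exact psi_le (w2 _ _ t)
    · have gj := N.go j _ an.1
      have cj : S.C M (S.nm M g) (S.go M j (S.nm M g)) :=
        (N.sc _ _ an.1 gj.2).2 ((sc_iff N.pm.1 (h.lt _ an.1)).2 ⟨j, gj.1.symm⟩)
      have := ((L 0 0).nd _ ((L 0 0).cl g _ s gj.2 (Conn.trans an.2 cj)).1).1
      exact this.trans (Nat.lt_two_pow_self.le.trans (Nat.le_mul_of_pos_right _ hm))
    · rw [St.ch, St.pk, Nat.mod_eq_of_lt k, if_pos l]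
    · rw [St.ch, St.pk, Nat.mod_eq_of_lt k, if_neg l]
  have nk : ∀ u j, q % 2 = 1 → ¬S.con M r q u j f → S.sv M r q u j f := fun u j o t =>
    ⟨a, fun k => k.elim t fun k => by have := k.1; omega⟩
  by_cases s1 : S.sl M r q f
  · have s2 := ((L 0 0).nd f s1).2.2
    refine main f s1 rfl (fun u j t => ⟨h.lt f a, Or.inl ⟨s1, t⟩⟩) fun u j t => ?_
    have := keep h (L u j) (up u j)
      (nk u j s1.1 fun k => k.2.elim (fun k => t k.2) fun k => s2 k.1) c c'
    rwa [St.inc, St.inc, if_pos s1, if_neg s2, add_zero] at this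
  by_cases s2 : S.sl M r q (M.β f)
  · refine main _ s2 (by simp only [St.cost, hb.2]; omega)
      (fun u j t => ⟨h.lt f a, Or.inr ⟨s2, t⟩⟩) fun u j t => ?_
    have := keep h (L u j) (up u j)
      (nk u j s2.1 fun k => k.2.elim (fun k => s1 k.1) fun k => t k.2) c c'
    rwa [St.inc, St.inc, if_neg s1, if_pos s2, add_zero] at this
  refine avg r _ _ fun y j => psi_le ?_
  by_cases kf : S.kill M r q (2 ^ y) j f
  · rcases (Kl M r S q _ j h N (L _ j)).2.2 f kf with t | ⟨o, t | t | ⟨g, sv, c1, c2, t⟩⟩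
    · exact (t.2.elim (fun k => s1 k.1) fun k => s2 k.1).elim
    · exact (top M r _ e).trans t
    · exact (ce (Conn.trans (Conn.symm c) (Conn.trans t c'))).elim
    · have := keep h (L _ j) (up _ j) sv (Conn.trans c1 c) (Conn.trans c2 c')
      have ns : ∀ d, ¬S.sl M r q d := fun d k => by have := k.1; omega
      rw [St.inc, St.inc, if_neg (ns _), if_neg (ns _)] at this
      omega
  · have := keep h (L _ j) (up _ j) ⟨a, kf⟩ c c'
    rwa [St.inc, St.inc, if_neg s1, if_neg s2, add_zero, add_zero] at this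

end Pool.Agent.MP_1a6d78_lc.DS.SD

end MrgPart10

section MrgPart11

/-! PROJECT SD: a cheap sequence of coins keeps the given edges. -/

set_option autoImplicit false

namespace Pool.Agent.MP_1a6d78_lc.DS.SD

open Classical ED PR DD SC Finset

noncomputable section

namespace GdL

theorem run_congr (M : Mp) (r : ℕ) (cy cj cy' cj' : ℕ → ℕ) (T : ℕ)
    (h : ∀ l < T, cy l = cy' l ∧ cj l = cj' l) : run M r cy cj T = run M r cy' cj' T := by
  induction T with
  | zero => rfl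
  | succ T ih =>
    have e := ih fun l hl => h l (by omega)
    simp only [run]
    rw [e, (h T (by omega)).1, (h T (by omega)).2]

theorem psi_nonneg (M : Mp) (r : ℕ) (S : St) (e : ℕ) : 0 ≤ psi M r S e := by
  unfold psi
  split_ifs
  · exact le_rfl
  · positivity

theorem psi0 (M : Mp) (r e : ℕ) (he : e < M.n) : psi M r (st0 M) e ≤ 1 := by
  unfold psi
  split_ifs with c
  · exact zero_le_one
  · have h1 : M.β e ≠ e := fun h => c (by rw [h]; exact Conn.refl _ _ _ _)
    have h2 : mc M r (st0 M) e ≤ 1 := lst_le (by omega)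
      (Or.inr ⟨e, ⟨he, h1⟩, Conn.refl _ _ _ _, Conn.refl _ _ _ _, rfl⟩)
    exact Real.rpow_le_one (Nat.cast_nonneg _) (by exact_mod_cast h2) (by norm_num)

theorem psi_end (M : Mp) (k : ℕ) (S : St) (e : ℕ) (hA : ∀ d, ¬S.A d) (c : ¬S.C M e (M.β e)) :
    (2 * k : ℝ) < psi M ((2 * k) ^ 32) S e := by
  have h1 : mc M ((2 * k) ^ 32) S e = (2 * k) ^ 32 + 1 := by
    have := (lst_spec (n := (2 * k) ^ 32 + 2) (P := fun c => c = (2 * k) ^ 32 + 1 ∨
      ∃ f, S.A f ∧ S.C M f e ∧ S.C M (M.β f) (M.β e) ∧ S.cost M f = c)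
      ⟨(2 * k) ^ 32 + 1, by omega, Or.inl rfl⟩).2
    rcases this with h | ⟨f, hf, -⟩
    · exact h
    · exact absurd hf (hA f)
  rw [psi, if_neg c, h1]
  have e1 : (2 * k : ℝ) = ((2 * k : ℝ) ^ 32) ^ (1 / 32 : ℝ) := by
    rw [one_div]
    exact (Real.pow_rpow_inv_natCast (n := 32) (by positivity) (by norm_num)).symm
  rw [e1]
  refine Real.rpow_lt_rpow (by positivity) ?_ (by norm_num)
  push_cast
  exact lt_add_one _

theorem coins (M : Mp) (r : ℕ) (K : ℝ) (hK : 0 < K) (Φ : St → ℝ)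
    (h : ∀ cy cj l, ∑ y ∈ range (r + 1), ∑ j ∈ range 8, SDKey.P r y / 8 *
      Φ ((run M r cy cj l).stp M r ((run M r cy cj l).seed M r) (2 ^ y) j) ≤ Φ (run M r cy cj l))
    (T : ℕ) : ∃ cy cj : ℕ → ℕ, (∀ l, cj l < 8) ∧
      Φ (run M r cy cj T) + (∑ l ∈ range T, cy l : ℕ) / K ≤ Φ (st0 M) + T / K := by
  induction T with
  | zero => exact ⟨fun _ => 0, fun _ => 0, fun _ => Nat.succ_pos 7, by simp [run]⟩
  | succ T ih =>
    obtain ⟨cy, cj, h8, hΦ⟩ := ih
    obtain ⟨y, -, j, hj, hc⟩ := SDKey.exists_coin r K _ hK _ (h cy cj T)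
    refine ⟨Function.update cy T y, Function.update cj T j, fun l => ?_, ?_⟩
    · by_cases c : l = T
      · rw [c, Function.update_self]
        exact hj
      · rw [Function.update_of_ne c]
        exact h8 l
    · have e := run_congr M r (Function.update cy T y) (Function.update cj T j) cy cj T
        fun l hl => ⟨Function.update_of_ne hl.ne _ _, Function.update_of_ne hl.ne _ _⟩
      have e2 : ∑ l ∈ range T, Function.update cy T y l = ∑ l ∈ range T, cy l :=
        sum_congr rfl fun l hl => Function.update_of_ne (mem_range.1 hl).ne _ _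
      simp only [run]
      rw [e, sum_range_succ, e2]
      simp only [Function.update_self]
      rw [Nat.cast_add, Nat.cast_add, add_div, add_div, Nat.cast_one]
      linarith

end GdL

theorem gdS : GdS := by
  intro hR hN hS hK hKey M k T P ok hk hT hP hlt
  have k0 : (0 : ℝ) < k := by exact_mod_cast hk
  have T0 : (0 : ℝ) < T := by exact_mod_cast hT
  obtain ⟨cy, cj, h8, hΦ⟩ := GdL.coins M ((2 * k) ^ 32) (T / k) (by positivity)
    (fun S => ∑ e ∈ P, psi M ((2 * k) ^ 32) S e) (by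
      intro cy cj l
      have sh := (hR M ((2 * k) ^ 32) cy cj l ok).1
      have nd := hN _ _ sh
      simp only [mul_sum]
      rw [sum_congr rfl fun y _ => sum_comm, sum_comm]
      exact sum_le_sum fun e he =>
        hKey hK M _ _ _ e sh nd (fun u j => hS M _ _ _ u j sh nd) (hlt e he)) T
  have a0 : ∑ e ∈ P, psi M ((2 * k) ^ 32) (st0 M) e ≤ k := by
    refine (sum_le_sum fun e he => GdL.psi0 M _ e (hlt e he)).trans ?_
    rw [sum_const, nsmul_eq_mul, mul_one]
    exact_mod_cast hP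
  have a1 : (T : ℝ) / (T / k) = k := by field_simp
  have a2 : 0 ≤ ∑ e ∈ P, psi M ((2 * k) ^ 32) (run M ((2 * k) ^ 32) cy cj T) e :=
    sum_nonneg fun e _ => GdL.psi_nonneg _ _ _ _
  have a3 : (0 : ℝ) ≤ (∑ l ∈ range T, cy l : ℕ) / (T / k : ℝ) := by positivity
  rw [a1] at hΦ
  refine ⟨cy, cj, ?_, h8, fun hA e he => ?_⟩
  · have b : ((∑ l ∈ range T, cy l : ℕ) : ℝ) / (T / k : ℝ) ≤ 2 * k := by linarith
    rw [div_le_iff₀ (by positivity)] at b
    have b2 : (2 * k : ℝ) * (T / k) = (2 * T : ℕ) := by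
      push_cast
      field_simp
    rw [b2] at b
    exact_mod_cast b
  · by_contra c
    have b1 := GdL.psi_end M k _ e hA c
    have b2 := single_le_sum (f := fun e => psi M ((2 * k) ^ 32) (run M ((2 * k) ^ 32) cy cj T) e)
      (fun e _ => GdL.psi_nonneg _ _ _ _) he
    linarith

end

end Pool.Agent.MP_1a6d78_lc.DS.SD

end MrgPart11

section MrgPart12

/-! PROJECT SD: row COIN. -/

namespace Pool.Agent.MP_1a6d78_lc.DS.SD

open Classical ED PR DD SC

namespace CoL

/-- The positions of the bars. -/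
def barp (cy : ℕ → ℕ) (l : ℕ) : ℕ := ∑ i ∈ Finset.range l, cy i + l

theorem bar_succ (cy : ℕ → ℕ) (l : ℕ) : barp cy (l + 1) = barp cy l + cy l + 1 := by
  simp only [barp, Finset.sum_range_succ]; omega

theorem bar_mono (cy : ℕ → ℕ) : StrictMono (barp cy) :=
  strictMono_nat_of_lt_succ fun l => by rw [bar_succ]; omega

theorem cnt_bar (cy : ℕ → ℕ) {T l : ℕ} (hl : l ≤ T) :
    cnt (barp cy l) (fun i => ∃ m ≤ T, barp cy m = i) = l := by
  have h : (Finset.range (barp cy l)).filter (fun i => ∃ m ≤ T, barp cy m = i) =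
      (Finset.range l).image (barp cy) := by
    ext i
    simp only [Finset.mem_filter, Finset.mem_range, Finset.mem_image]
    constructor
    · rintro ⟨h1, m, -, rfl⟩
      exact ⟨m, (bar_mono cy).lt_iff_lt.1 h1, rfl⟩
    · rintro ⟨m, h1, rfl⟩
      exact ⟨bar_mono cy h1, m, by omega, rfl⟩
  have h2 := congrArg Finset.card h
  rw [Finset.card_image_of_injective _ (bar_mono cy).injective, Finset.card_range] at h2
  unfold cnt
  convert h2

end CoL

open CoL in
theorem coS : CoS := by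
  refine ⟨fun T cy cj h1 h2 => ?_, fun T p l => ?_, fun M r cy cj cy' cj' T => ?_⟩
  · obtain ⟨p, hp, h⟩ := digS 16 (3 * T + 1)
      (fun i => (if ∃ m ≤ T, barp cy m = i then 8 else 0) + cj i) (fun i _ => by
        have := h2 i
        split_ifs <;> omega)
    have hT : ∀ l ≤ T, barp cy l < 3 * T + 1 := fun l hl => by
      have h3 := (bar_mono cy).monotone hl
      have h4 : barp cy T ≤ 3 * T := by unfold barp; omega
      omega
    have hP : ∀ i < 3 * T + 1, 8 ≤ dg 16 p i ↔ ∃ m ≤ T, barp cy m = i := fun i hi => by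
      rw [h i hi]
      have := h2 i
      split_ifs with k
      · exact ⟨fun _ => k, fun _ => by omega⟩
      · exact ⟨fun _ => by omega, fun k' => absurd k' k⟩
    have hb : ∀ l ≤ T, cb T p l = barp cy l := fun l hl => by
      have h3 := (sel_cnt (P := fun i => 8 ≤ dg 16 p i) (hT l hl)
        ((hP _ (hT l hl)).2 ⟨l, hl, rfl⟩)).1
      rw [cnt_congr (fun a ha => hP a (ha.trans (hT l hl))), cnt_bar cy hl] at h3
      exact h3
    refine ⟨p, hp, fun l hl => ⟨?_, ?_⟩⟩
    · rw [cyy, hb _ hl, hb _ hl.le, bar_succ]; omega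
    · rw [cjj, h l (by omega)]
      have := h2 l
      split_ifs <;> omega
  · have := sel_le (3 * T + 1) (fun i => 8 ≤ dg 16 p i) (l + 1)
    unfold cyy cb
    omega
  · induction T with
    | zero => intro _; rfl
    | succ T ih =>
      intro h
      have h3 := h T (Nat.lt_succ_self T)
      simp only [run]
      rw [ih fun l hl => h l (by omega), h3.1, h3.2]

end Pool.Agent.MP_1a6d78_lc.DS.SD

end MrgPart12

section MrgPart13

/-! PROJECT SD, row ENC: the chain of oracles codes the levels. -/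

namespace Pool.Agent.MP_1a6d78_lc.DS.SD

open Classical ED PR DD SC

namespace EnL

theorem ev {n b t d : ℕ} (f : List ℕ → ℕ) (hn : n ≤ b) (ht : t ≤ b) (hd : d < n) :
    nrm 2 b f [t, min n d] = min b (f [t, d]) := by
  simp [nrm, tab, gt, List.range_succ, min_eq_right ht, min_eq_right hd.le,
    min_eq_right (hd.le.trans hn)]

theorem ind {b : ℕ} (hb : 4 ≤ b) (P : Prop) : min b (if P then 1 else 0) = 1 ↔ P := by
  split_ifs with h
  · simp only [h, iff_true]; omega
  · simp only [h, iff_false]; omega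

variable {n b : ℕ} (S : St) (hn : n ≤ b) (hb : 4 ≤ b)

include hn hb

theorem mr (d : ℕ) : (dec n (nrm 2 b (enc S))).mr d ↔ d < n ∧ S.mr d :=
  and_congr_right fun h => by
    rw [ev _ hn (by omega) h]
    simpa [enc, gt] using ind hb _

theorem dec_enc (hA : ∀ d, S.A d → d < n) (ht : ∀ d, S.tr d → d < n) (hm : ∀ d, S.mr d → d < n)
    (hf : ∀ d, ¬S.A d → S.nx d = d ∧ S.dep d = 0) (h3 : ∀ d < n, S.nx d ≤ b)
    (h4 : ∀ d, S.dep d ≤ b) : dec n (nrm 2 b (enc S)) = S := by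
  have e2 : (dec n (nrm 2 b (enc S))).mr = S.mr :=
    funext fun d => propext ((mr S hn hb d).trans (and_iff_right_of_imp (hm d)))
  obtain ⟨A, tr, m, nx, dep⟩ := S
  simp only [dec, St.mk.injEq] at e2 ⊢
  refine ⟨funext fun d => propext ?_, funext fun d => propext ?_, e2, funext fun d => ?_,
    funext fun d => ?_⟩
  · refine (and_congr_right fun h => ?_).trans (and_iff_right_of_imp (hA d))
    rw [ev _ hn (by omega) h]
    simpa [enc, gt] using ind hb _
  · refine (and_congr_right fun h => ?_).trans (and_iff_right_of_imp (ht d))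
    rw [ev _ hn (by omega) h]
    simpa [enc, gt] using ind hb _
  · split_ifs with h
    · rw [ev _ hn (by omega) h]
      simpa [enc, gt] using h3 d h
    · exact (hf d fun a => h (hA d a)).1.symm
  · split_ifs with h
    · rw [ev _ hn (by omega) h]
      simpa [enc, gt] using h4 d
    · exact (hf d fun a => h (hA d a)).2.symm

omit hn hb

theorem big (K : ℕ) (x : List Bool) :
    num x 0 ≤ bt K x ∧ 4 ≤ bt K x ∧ K * lg x * rr x ≤ bt K x := by
  have m : ∀ e ≤ 32 * K + 80, (x.length + 2) ^ e ≤ bt K x := fun e he =>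
    Nat.pow_le_pow_right (by omega) he
  refine ⟨le_trans ?_ (m 1 (by omega)), le_trans ?_ (m 2 (by omega)),
    le_trans ?_ (m (K + 1 + 2 * 32) (by omega))⟩
  · have := nle x 0
    rw [pow_one]
    omega
  · exact Nat.pow_le_pow_left (Nat.le_add_left 2 _) 2
  · rw [pow_add, pow_add, pow_mul]
    refine Nat.mul_le_mul (Nat.mul_le_mul
      (Nat.lt_two_pow_self.le.trans (Nat.pow_le_pow_left (by omega) K)) ?_)
      (Nat.pow_le_pow_left ?_ 32)
    · have := lg_le x
      rw [pow_one]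
      omega
    · have := nle x 3
      nlinarith

end EnL

theorem enS : EnS := by
  intro hR hN K x p ok
  obtain ⟨b1, b2, b3⟩ := EnL.big K x
  have de : ∀ j ≤ K * lg x, (∀ d, (run (inp x) (rr x) (cyy (K * lg x) p) (cjj p) j).mr d →
      d < num x 0) → dec (num x 0) (nrm 2 (bt K x)
        (enc (run (inp x) (rr x) (cyy (K * lg x) p) (cjj p) j))) =
      run (inp x) (rr x) (cyy (K * lg x) p) (cjj p) j := fun j hj hm => by
    obtain ⟨s, dp, -⟩ := hR (inp x) (rr x) (cyy (K * lg x) p) (cjj p) j ok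
    refine EnL.dec_enc _ b1 b2 s.lt s.tl hm s.fix (fun d hd => le_trans ?_ b1) fun d =>
      (dp d).trans ((Nat.mul_le_mul_right _ hj).trans b3)
    by_cases a : (run (inp x) (rr x) (cyy (K * lg x) p) (cjj p) j).A d
    · exact (s.lt _ ((hN _ _ s).nx d a)).le
    · exact (s.fix d a).1.trans_le hd.le
  suffices h : ∀ j ≤ K * lg x, dec (num x 0) (El.chain 2 (bt K x) (Qs (inp x))
      (enc (st0 (inp x))) (stq K x p) (phi x) j) =
        run (inp x) (rr x) (cyy (K * lg x) p) (cjj p) j from h _ le_rfl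
  intro j
  induction j with
  | zero => exact fun h => de 0 h fun _ a => a.elim
  | succ j ih =>
    intro h
    have s := (hR (inp x) (rr x) (cyy (K * lg x) p) (cjj p) j ok).1
    rw [← de (j + 1) h fun d a => a.elim (fun a => s.lt d a.1.2.1) fun a => s.lt d a.2.1, El.chain]
    simp only [stq, ih (by omega), run, St.seed, phi]
    congr 5
    funext q
    unfold cnt
    congr 2
    exact Finset.filter_congr fun d hd =>
      (EnL.mr _ b1 b2 d).trans (and_iff_right (Finset.mem_range.1 hd))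

end Pool.Agent.MP_1a6d78_lc.DS.SD

end MrgPart13
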