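import Pool.Agent.MP_1a6d78_lc.SD.Spec

/-! Walks on nodes and walks on darts. -/

namespace Pool.Agent.MP_1a6d78_lc.DS.SD

open Classical ED PR DD SC

namespace PtL

theorem rot {M : Mp} {us : ℕ → Prop} {w : ℕ → ℕ} {s a b c : ℕ} (hM : M.Ok) (ha : a < M.n)
    (hb : b < M.n) (e : M.nd a = M.nd b) (h : Dw M us w s a c) : Dw M us w s b c :=
  Sc.ind hM.pm.1 (Q := fun d => Dw M us w s d c) ha h (fun _ _ k => k.rot)
    ((Mp.nd_iff hM.pm ha hb).1 e)

theorem one {M : Mp} {us P : ℕ → Prop} {w : ℕ → ℕ} {s v c : ℕ} (hM : M.Ok) (hs : s < M.n)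
    (hP : ∀ d < M.n, P d → us d) (h : Wu M.n M.nd M.β w P (M.nd s) v c) :
    ∀ t < M.n, M.nd t = v → Dw M us w s t c := by
  induction h with
  | nil => exact fun t ht e => rot hM hs ht e.symm .nil
  | step _ hd pd ih =>
    exact fun t ht e => rot hM (hM.iv _ hd).1 ht e.symm ((ih _ hd rfl).edge (hP _ hd pd))

theorem two {M : Mp} {us : ℕ → Prop} {w : ℕ → ℕ} {s t c : ℕ} (hM : M.Ok) (hs : s < M.n)
    (hw : ∀ d < M.n, us d → 1 ≤ w d) (h : Dw M us w s t c) :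
    t < M.n ∧ ∃ F : Finset ℕ, F.card ≤ c ∧ (∀ e ∈ F, e < M.n) ∧
      ∀ P : ℕ → Prop, (∀ e ∈ F, us e → P e) → Wu M.n M.nd M.β w P (M.nd s) (M.nd t) c := by
  induction h with
  | nil => exact ⟨hs, ∅, by simp, by simp, fun P _ => .nil⟩
  | rot _ ih =>
    obtain ⟨ha, F, f1, f2, f3⟩ := ih
    refine ⟨hM.pm.1 _ ha, F, f1, f2, fun P hP => ?_⟩
    rw [← (Mp.nd_iff hM.pm ha (hM.pm.1 _ ha)).2 (Sc.step hM.pm.1 ha)]
    exact f3 P hP
  | @edge a c _ ua ih =>
    obtain ⟨ha, F, f1, f2, f3⟩ := ih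
    refine ⟨(hM.iv _ ha).1, insert a F, ?_, fun e he => ?_, fun P hP => ?_⟩
    · have := Finset.card_insert_le a F
      have := hw a ha ua
      omega
    · rcases Finset.mem_insert.1 he with rfl | he
      · exact ha
      · exact f2 e he
    · exact (f3 P fun e he => hP e (Finset.mem_insert_of_mem he)).step ha
        (hP a (Finset.mem_insert_self _ _) ua)

end PtL

theorem ptS : PtS := fun _ _ _ _ t _ hM hs ht =>
  ⟨fun _ hP h => PtL.one hM hs hP h t ht rfl, fun hw h => (PtL.two hM hs hw h).2⟩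

end Pool.Agent.MP_1a6d78_lc.DS.SD
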