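import Pool.Agent.MP_1a6d78_lc.SD.Spec

/-! PROJECT SD, row Q1: the tests that do not depend on the seed are computable. -/

namespace Pool.Agent.MP_1a6d78_lc.DS.SD

open Classical ED PR DD SC

namespace Q1L

abbrev q12 : List Bool → ℕ := fun _ => 12

theorem amin_le (n : ℕ) (f : ℕ → ℕ) : amin n f ≤ n := by
  unfold amin lst
  rcases Set.eq_empty_or_nonempty {m | m < n ∧ ∀ m' < n, f m ≤ f m'} with h | h
  · rw [h, Nat.sInf_empty]
    exact Nat.zero_le _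
  · exact (Nat.sInf_mem h).1.le

theorem amin_cg (n : ℕ) (f : ℕ → ℕ) : amin n (fun t => f (min n t)) = amin n f := by
  unfold amin lst
  congr 1
  ext m
  refine and_congr_right fun hm => forall_congr' fun m' => forall_congr' fun hm' => ?_
  simp only [min_eq_right hm.le, min_eq_right hm'.le]

variable {κ β : List Bool → ℕ} {S : List Bool → Orc → St} {a b t : List Bool → Orc → Env → ℕ}

theorem nC (i : PiK 1) : Nq κ q12 β fun x _ _ => (inp x).n := Q.lift (i.M κ).1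

theorem bC (i : PiK 1) (ha : Nq κ q12 β a) : Nq κ q12 β fun x g ρ => (inp x).β (a x g ρ) :=
  Q.op1 (fun x => (inp x).β) (i.M κ).2.2.1 ha

theorem nx (h : StQ κ β S) (ha : Nq κ q12 β a) :
    Nq κ q12 β fun x g ρ => (S x g).nx (a x g ρ) := Q.app h.nx ha

theorem dep (h : StQ κ β S) (ha : Nq κ q12 β a) :
    Nq κ q12 β fun x g ρ => (S x g).dep (a x g ρ) := Q.app h.dep ha

theorem go (i : PiK 1) (h : StQ κ β S) (ht : Nq κ q12 β t) (hk : ∀ x g ρ, t x g ρ ≤ 12)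
    (ha : Nq κ q12 β a) : Nq κ q12 β fun x g ρ => (S x g).go (inp x) (t x g ρ) (a x g ρ) :=
  Q.it (nC i) h.nx ht hk ha

theorem cost (i : PiK 1) (h : StQ κ β S) (ha : Nq κ q12 β a) :
    Nq κ q12 β fun x g ρ => (S x g).cost (inp x) (a x g ρ) :=
  Q.add (Q.add (Q.c 1) (dep h ha)) (dep h (bC i ha))

theorem eidC (i : PiK 1) (ha : Nq κ q12 β a) : Nq κ q12 β fun x g ρ => eid (inp x) (a x g ρ) :=
  Q.min ha (bC i ha)

theorem key (i : PiK 1) (h : StQ κ β S) (ha : Nq κ q12 β a) :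
    Nq κ q12 β fun x g ρ => (S x g).key (inp x) (a x g ρ) :=
  Q.add (Q.mul (cost i h ha) (nC i)) (eidC i ha)

theorem fc (i : PiK 1) (h : StQ κ β S) (ha : Nq κ q12 β a) :
    Nq κ q12 β fun x g ρ => (S x g).fc (inp x) (a x g ρ) := nx h (bC i ha)

theorem exgo (i : PiK 1) (h : StQ κ β S) (e : ℕ) (he : e ≤ 1) (ha : Nq κ q12 β a)
    (hb : Nq κ q12 β b) :
    Pq κ q12 β fun x g ρ => ∃ t < 6, (S x g).go (inp x) (t + e) (a x g ρ) = b x g ρ :=
  Q.cgP (Q.ex (P := fun x g ρ t => (S x g).go (inp x) (min 6 t + e) (a x g ρ) = b x g ρ) (Q.c 6)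
    (fun _ _ _ => (by decide : 6 ≤ 12))
    (Q.eq (go i h (Q.add (Q.min (Q.c 6) (Q.v 0)) (Q.c e)) (fun _ _ _ => by omega) (Q.w ha))
      (Q.w hb))) fun x g ρ =>
    exists_congr fun t => and_congr_right fun ht => by rw [min_eq_right ht.le]

theorem dl (i : PiK 1) (k : KtK) (h : StQ κ β S) (ha : Nq κ q12 β a) :
    Pq κ q12 β fun x g ρ => (S x g).dl (inp x) (rr x) (a x g ρ) :=
  Q.or (Q.lt (Q.lift (k.rr κ)) (cost i h ha)) (Q.or (exgo i h 0 (by decide) ha (bC i ha))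
    (Q.and (Q.eq (fc i h (fc i h ha)) ha) (Q.lt (key i h (fc i h ha)) (key i h ha))))

theorem nm (i : PiK 1) (h : StQ κ β S) (ha : Nq κ q12 β a) :
    Nq κ q12 β fun x g ρ => (S x g).nm (inp x) (a x g ρ) :=
  Q.cg (Q.fold (fun x g ρ j acc => min acc ((S x g).go (inp x) (min 6 j) (a x g ρ)))
    (fun _ _ _ _ => 0) (Q.c 6) (fun _ _ _ => (by decide : 6 ≤ 12)) ha
    (Q.min (Q.v 0) (go i h (Q.min (Q.c 6) (Q.v 1)) (fun _ _ _ => by omega) (Q.w (Q.w ha))))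
    (Q.c 0) fun _ _ _ _ _ _ h _ => (min_le_left _ _).trans h) fun x g ρ => by
      simp [St.nm, mn, itr]

theorem ce (i : PiK 1) (h : StQ κ β S) (ha : Nq κ q12 β a) :
    Nq κ q12 β fun x g ρ => (S x g).ce (inp x) (a x g ρ) :=
  go i h (Q.cg (Q.amin (f := fun x g ρ j =>
      (S x g).cost (inp x) ((S x g).go (inp x) (min 8 j) (a x g ρ))) (Q.c 8)
      (fun _ _ _ => (by decide : 8 ≤ 12))
      (cost i h (go i h (Q.min (Q.c 8) (Q.v 0)) (fun _ _ _ => by omega) (Q.w ha))))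
      fun x g ρ => amin_cg 8 fun j => (S x g).cost (inp x) ((S x g).go (inp x) j (a x g ρ)))
    (fun _ _ _ => (amin_le 8 _).trans (by decide)) ha

theorem cf0 (i : PiK 1) (h : StQ κ β S) (ha : Nq κ q12 β a) (ht : Nq κ q12 β t) :
    Nq κ q12 β fun x g ρ => (S x g).cf0 (inp x) (a x g ρ) (t x g ρ) :=
  eidC i (Q.ite (Q.eq (Q.mod ht (Q.c 2)) (Q.c 0)) (nx h ha) (fc i h ha))

theorem cf1 (i : PiK 1) (h : StQ κ β S) (ha : Nq κ q12 β a) (ht : Nq κ q12 β t)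
    (hk : ∀ x g ρ, t x g ρ ≤ 12) :
    Nq κ q12 β fun x g ρ => (S x g).cf1 (inp x) (a x g ρ) (t x g ρ) :=
  have h1 := go i h (Q.div ht (Q.c 2)) (fun x g ρ => (Nat.div_le_self _ _).trans (hk x g ρ)) ha
  nm i h (bC i (Q.ite (Q.eq (Q.mod ht (Q.c 2)) (Q.c 0)) h1 (fc i h h1)))

end Q1L

open Q1L in
theorem q1S : Q1S := fun i k _ _ _ h =>
  { cost := cost i h (Q.v 0)
    Del := Q.or (dl i k h (Q.v 0)) (dl i k h (bC i (Q.v 0)))
    low := exgo i h 1 le_rfl (Q.v 0) (Q.v 0)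
    nm := nm i h (Q.v 0)
    ce := ce i h (Q.v 0)
    cf := fun _ _ ha ht hk => ⟨go i h ht hk ha, cf0 i h ha ht, cf1 i h ha ht hk⟩ }

end Pool.Agent.MP_1a6d78_lc.DS.SD
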