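import Pool.Agent.MP_1a6d78_lc.SD.Spec

/-! SQ2: one round of the levelled contraction is computable with few calls. -/

namespace Pool.Agent.MP_1a6d78_lc.DS.SD

open Classical ED PR DD SC

namespace Q2L

/-- Everything the row may use. -/
structure Cx (κ β : List Bool → ℕ) (S : List Bool → Orc → St) : Prop where
  n : Cn κ fun x _ => (inp x).n
  b : F1 κ fun x _ => (inp x).β
  s : StQ κ β S
  k : Q1K κ β S

variable {κ β : List Bool → ℕ} {S : List Bool → Orc → St}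
  {q u j d : List Bool → Orc → Env → ℕ}

theorem hn (c : Cx κ β S) : Nq κ (fun _ => 12) β fun x _ _ => (inp x).n := Q.lift c.n

theorem hb (c : Cx κ β S) (hd' : Nq κ (fun _ => 12) β d) :
    Nq κ (fun _ => 12) β fun x g ρ => (inp x).β (d x g ρ) :=
  Q.op1 (fun x a => (inp x).β a) c.b hd'

theorem eid (c : Cx κ β S) (hd' : Nq κ (fun _ => 12) β d) :
    Nq κ (fun _ => 12) β fun x g ρ => SD.eid (inp x) (d x g ρ) :=
  Q.min hd' (hb c hd')

theorem col (c : Cx κ β S) (hq : Nq κ (fun _ => 12) β q) (hd' : Nq κ (fun _ => 12) β d) :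
    Pq κ (fun _ => 12) β fun x g ρ => SD.col (inp x) (q x g ρ) (d x g ρ) := by
  have m : Nq κ (fun _ => 12) β fun x _ _ => 2 * (inp x).n + 3 :=
    Q.add (Q.mul (Q.c 2) (hn c)) (Q.c 3)
  have h2 : Nq κ (fun _ => 12) β fun x g ρ => q x g ρ / 2 := Q.div hq (Q.c 2)
  exact Q.and (Q.lt hd' (hn c))
    (Q.eq (Q.mod (Q.mod (Q.mul (Q.mod (Q.div h2 m) m) hd') (Q.mod h2 m)) (Q.c 48))
      (Q.div (Q.div h2 m) m))

theorem hA (c : Cx κ β S) (hd' : Nq κ (fun _ => 12) β d) :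
    Pq κ (fun _ => 12) β fun x g ρ => (S x g).A (d x g ρ) :=
  Q.appP (P := fun x g _ => (S x g).A) c.s.A hd'

theorem hDel (c : Cx κ β S) (hd' : Nq κ (fun _ => 12) β d) :
    Pq κ (fun _ => 12) β fun x g ρ => (S x g).Del (inp x) (rr x) (d x g ρ) :=
  Q.appP (P := fun x g _ => (S x g).Del (inp x) (rr x)) c.k.Del hd'

theorem cost (c : Cx κ β S) (hd' : Nq κ (fun _ => 12) β d) :
    Nq κ (fun _ => 12) β fun x g ρ => (S x g).cost (inp x) (d x g ρ) :=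
  Q.app (f := fun x g _ => (S x g).cost (inp x)) c.k.cost hd'

theorem nm (c : Cx κ β S) (hd' : Nq κ (fun _ => 12) β d) :
    Nq κ (fun _ => 12) β fun x g ρ => (S x g).nm (inp x) (d x g ρ) :=
  Q.app (f := fun x g _ => (S x g).nm (inp x)) c.k.nm hd'

theorem idx : Nq κ (fun _ => 12) β fun _ _ ρ => min 12 (hd (ρ 0)) := Q.min (Q.c 12) (Q.v 0)

theorem s0 (c : Cx κ β S) (hq : Nq κ (fun _ => 12) β q) (hd' : Nq κ (fun _ => 12) β d) :
    Pq κ (fun _ => 12) β fun x g ρ => (S x g).s0 (inp x) (rr x) (q x g ρ) (d x g ρ) := by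
  have f := (c.k.cf _ _ (Q.w hd') idx fun _ _ _ => min_le_left _ _).2.1
  have a := Q.all (n := fun _ _ _ => 12) (P := fun x g ρ i =>
      (S x g).cf0 (inp x) (d x g ρ) (min 12 i) ≠ d x g ρ →
        ¬SD.col (inp x) (q x g ρ) ((S x g).cf0 (inp x) (d x g ρ) (min 12 i)))
    (Q.c 12) (fun _ _ _ => le_rfl) (Q.imp (Q.ne f (Q.w hd')) (Q.not (col c (Q.w hq) f)))
  refine Q.and (hDel c hd') (Q.and (col c hq hd') (Q.cgP a fun x g ρ => ?_))
  refine forall₂_congr fun i hi => ?_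
  rw [min_eq_right hi.le]

theorem s1 (c : Cx κ β S) (hq : Nq κ (fun _ => 12) β q) (hd' : Nq κ (fun _ => 12) β d) :
    Pq κ (fun _ => 12) β fun x g ρ => (S x g).s1 (inp x) (rr x) (q x g ρ) (d x g ρ) := by
  have f0 := c.k.cf _ _ (Q.w hd') idx fun _ _ _ => min_le_left _ _
  have f := f0.2.2
  have a := Q.all (n := fun _ _ _ => 12) (P := fun x g ρ i =>
      (S x g).cf1 (inp x) (d x g ρ) (min 12 i) ≠ d x g ρ →
        ¬SD.col (inp x) (q x g ρ) ((S x g).cf1 (inp x) (d x g ρ) (min 12 i)))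
    (Q.c 12) (fun _ _ _ => le_rfl) (Q.imp (Q.ne f (Q.w hd')) (Q.not (col c (Q.w hq) f)))
  have b := Q.all (n := fun _ _ _ => 6) (P := fun x g ρ i =>
      ¬(S x g).Del (inp x) (rr x) ((S x g).go (inp x) (min 12 i) (d x g ρ)))
    (Q.c 6) (fun _ _ _ => by norm_num) (Q.not (hDel c f0.1))
  refine Q.and (Q.cgP b fun x g ρ => ?_) (Q.and (col c hq hd') (Q.cgP a fun x g ρ => ?_))
  · refine forall₂_congr fun i hi => ?_
    rw [min_eq_right (by omega : i ≤ 12)]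
  · refine forall₂_congr fun i hi => ?_
    rw [min_eq_right hi.le]

theorem par (hq : Nq κ (fun _ => 12) β q) (k : ℕ) :
    Pq κ (fun _ => 12) β fun x g ρ => q x g ρ % 2 = k := Q.eq (Q.mod hq (Q.c 2)) (Q.c k)

theorem sl (c : Cx κ β S) (hq : Nq κ (fun _ => 12) β q) (hd' : Nq κ (fun _ => 12) β d) :
    Pq κ (fun _ => 12) β fun x g ρ => (S x g).sl (inp x) (rr x) (q x g ρ) (d x g ρ) :=
  Q.and (par hq 1) (Q.and (hA c hd')
    (Q.and (Q.appP (P := fun x g _ => (S x g).low (inp x)) c.k.low hd') (s1 c hq (nm c hd'))))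

theorem pk (c : Cx κ β S) (hu : Nq κ (fun _ => 12) β u) (hj : Nq κ (fun _ => 12) β j)
    (hd' : Nq κ (fun _ => 12) β d) :
    Nq κ (fun _ => 12) β fun x g ρ => (S x g).pk (inp x) (u x g ρ) (j x g ρ) (d x g ρ) := by
  have go := (c.k.cf _ _ hd' (Q.mod hj (Q.c 8)) fun x g ρ => by
    have := Nat.mod_lt (j x g ρ) (by norm_num : 0 < 8)
    omega).1
  have ce : Nq κ (fun _ => 12) β fun x g ρ => (S x g).ce (inp x) (d x g ρ) :=
    Q.app (f := fun x g _ => (S x g).ce (inp x)) c.k.ce hd'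
  exact Q.ite (Q.le (cost c go) (Q.mul hu (cost c ce))) go ce

theorem ch (c : Cx κ β S) (hu : Nq κ (fun _ => 12) β u) (hj : Nq κ (fun _ => 12) β j)
    (hd' : Nq κ (fun _ => 12) β d) :
    Nq κ (fun _ => 12) β fun x g ρ => (S x g).ch (inp x) (u x g ρ) (j x g ρ) (d x g ρ) :=
  pk c hu hj (nm c hd')

theorem con (c : Cx κ β S) (hq : Nq κ (fun _ => 12) β q) (hu : Nq κ (fun _ => 12) β u)
    (hj : Nq κ (fun _ => 12) β j) (hd' : Nq κ (fun _ => 12) β d) :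
    Pq κ (fun _ => 12) β fun x g ρ =>
      (S x g).con (inp x) (rr x) (q x g ρ) (u x g ρ) (j x g ρ) (d x g ρ) :=
  Q.and (Q.lt hd' (hn c)) (Q.or (Q.and (sl c hq hd') (Q.eq (ch c hu hj hd') hd'))
    (Q.and (sl c hq (hb c hd')) (Q.eq (ch c hu hj (hb c hd')) (hb c hd'))))

theorem ev (c : Cx κ β S) (hq : Nq κ (fun _ => 12) β q) (hd' : Nq κ (fun _ => 12) β d) :
    Pq κ (fun _ => 12) β fun x g ρ => q x g ρ % 2 = 0 ∧ (S x g).A (d x g ρ) ∧
      (S x g).s0 (inp x) (rr x) (q x g ρ) (SD.eid (inp x) (d x g ρ)) :=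
  Q.and (par hq 0) (Q.and (hA c hd') (s0 c hq (eid c hd')))

theorem mq (c : Cx κ β S) (hq : Nq κ (fun _ => 12) β q) (hd' : Nq κ (fun _ => 12) β d) :
    Pq κ (fun _ => 12) β fun x g ρ => (S x g).mq (inp x) (rr x) (q x g ρ) (d x g ρ) :=
  Q.or (Q.and (sl c hq hd') (Q.eq (nm c hd') hd')) (ev c hq hd')

theorem sv (c : Cx κ β S) (hq : Nq κ (fun _ => 12) β q) (hu : Nq κ (fun _ => 12) β u)
    (hj : Nq κ (fun _ => 12) β j) (hd' : Nq κ (fun _ => 12) β d) :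
    Pq κ (fun _ => 12) β fun x g ρ =>
      (S x g).sv (inp x) (rr x) (q x g ρ) (u x g ρ) (j x g ρ) (d x g ρ) :=
  Q.and (hA c hd') (Q.not (Q.or (con c hq hu hj hd') (ev c hq hd')))

theorem ps1 (c : Cx κ β S) (hq : Nq κ (fun _ => 12) β q) (hu : Nq κ (fun _ => 12) β u)
    (hj : Nq κ (fun _ => 12) β j) (hd' : Nq κ (fun _ => 12) β d) :
    Nq κ (fun _ => 12) β fun x g ρ =>
      (S x g).ps1 (inp x) (rr x) (q x g ρ) (u x g ρ) (j x g ρ) (d x g ρ) :=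
  Q.app (f := fun x g _ => (S x g).nx) c.s.nx (Q.ite (con c hq hu hj hd') (hb c hd') hd')

theorem n3 (c : Cx κ β S) (hq : Nq κ (fun _ => 12) β q) (hu : Nq κ (fun _ => 12) β u)
    (hj : Nq κ (fun _ => 12) β j) (hd' : Nq κ (fun _ => 12) β d) :
    Nq κ (fun _ => 12) β fun x g ρ =>
      (S x g).n3 (inp x) (rr x) (q x g ρ) (u x g ρ) (j x g ρ) (d x g ρ) := by
  have p1 := ps1 c hq hu hj hd'
  have p2 := ps1 c hq hu hj p1
  have p3 := ps1 c hq hu hj p2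
  exact Q.ite (sv c hq hu hj p1) p1 (Q.ite (sv c hq hu hj p2) p2 p3)

theorem inc (c : Cx κ β S) (hq : Nq κ (fun _ => 12) β q) (hu : Nq κ (fun _ => 12) β u)
    (hj : Nq κ (fun _ => 12) β j) (hd' : Nq κ (fun _ => 12) β d) :
    Nq κ (fun _ => 12) β fun x g ρ =>
      (S x g).inc (inp x) (rr x) (q x g ρ) (u x g ρ) (j x g ρ) (d x g ρ) :=
  Q.ite (sl c hq hd') (cost c (ch c hu hj hd')) (Q.c 0)

end Q2L

theorem q2S : Q2S := by
  intro hP _ κ β S hS hK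
  have c : Q2L.Cx κ β S := ⟨(hP.M κ).1, (hP.M κ).2.2.1, hS, hK⟩
  have hq : Nq κ (fun _ => 12) β fun _ _ ρ => hd (ρ 0) := Q.v 0
  have hu : Nq κ (fun _ => 12) β fun _ _ ρ => hd (ρ 1) := Q.v 1
  have hj : Nq κ (fun _ => 12) β fun _ _ ρ => hd (ρ 2) := Q.v 2
  have h0 : Nq κ (fun _ => 12) β fun _ _ ρ => gt (ρ 3) 0 := Q.gt (Q.vL 3) (Q.c 0)
  have h1 : Nq κ (fun _ => 12) β fun _ _ ρ => gt (ρ 3) 1 := Q.gt (Q.vL 3) (Q.c 1)
  have sv := Q2L.sv c hq hu hj h1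
  have tr := Q.and (Q.lt h1 (Q2L.hn c))
    (Q.or (Q.appP (P := fun x g _ => (S x g).tr) hS.tr h1) (Q2L.con c hq hu hj h1))
  have nx := Q.ite (i := fun _ _ _ => propDecidable _) sv (Q2L.n3 c hq hu hj h1) h1
  have dep := Q.ite (i := fun _ _ _ => propDecidable _) sv
    (Q.add (Q.app (f := fun x g _ => (S x g).dep) hS.dep h1) (Q2L.inc c hq hu hj h1)) (Q.c 0)
  exact Q.ite (Q.eq h0 (Q.c 0)) (Q.ite sv (Q.c 1) (Q.c 0))
    (Q.ite (Q.eq h0 (Q.c 1)) (Q.ite tr (Q.c 1) (Q.c 0))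
      (Q.ite (Q.eq h0 (Q.c 2)) (Q.ite (Q2L.mq c hq h1) (Q.c 1) (Q.c 0))
        (Q.ite (Q.eq h0 (Q.c 3)) nx dep)))

end Pool.Agent.MP_1a6d78_lc.DS.SD
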