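import Pool.Agent.MP_1a6d78_lc.SD.Spec

/-! PROJECT SD, row REC: the recursion over the regions is exact below the threshold. -/

namespace Pool.Agent.MP_1a6d78_lc.DS.SD

open Classical ED PR DD SC

namespace RcL

theorem cnt_ex (n b W : ℕ) (Q : ℕ → ℕ → Prop) (h : ∀ w, cnt n (Q w) ≤ b) :
    cnt n (fun v => ∃ w < W, Q w v) ≤ W * b := by
  induction W with
  | zero => simp [cnt]
  | succ W ih =>
    have k : cnt n (fun v => ∃ w < W + 1, Q w v) ≤ cnt n (fun v => (∃ w < W, Q w v) ∨ Q W v) :=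
      cnt_mono fun v _ ⟨w, hw, q⟩ => by
        rcases Nat.lt_succ_iff_lt_or_eq.1 hw with e | rfl
        exacts [Or.inl ⟨w, e, q⟩, Or.inr q]
    have k2 := cnt_or n (fun v => ∃ w < W, Q w v) (Q W)
    have k3 := h W
    rw [Nat.succ_mul]
    omega

theorem cnt_img (n : ℕ) (U : ℕ → Prop) (f : ℕ → ℕ) :
    cnt n (fun v => ∃ d < n, U d ∧ f d = v) ≤ cnt n U := by
  refine cnt_inj (fun v => if h : ∃ d < n, U d ∧ f d = v then h.choose else 0)
    (fun v _ h => ?_) fun a _ b _ ha hb e => ?_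
  · simp only [dif_pos h]
    exact ⟨h.choose_spec.1, h.choose_spec.2.1⟩
  · simp only [dif_pos ha, dif_pos hb] at e
    rw [← ha.choose_spec.2.2, ← hb.choose_spec.2.2, e]

theorem cnt_B1 {G : Ge} {H : ℕ} (Λ : Pa) (ok : G.Ok H) (a l e : ℕ) :
    cnt G.n (G.B1 Λ a l e) ≤ Λ.W * Λ.i * (2 * (2 * H + 1)) := by
  rw [Nat.mul_assoc]
  refine cnt_ex _ _ _ _ fun w => cnt_ex _ _ _ _ fun h => (cnt_or _ _ _).trans ?_
  have k1 := ok.cut (gt (G.cuts Λ.K (a + w * e) (l + Λ.i)) (l + h) / G.P)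
  have k2 := ok.cut (gt (G.cuts Λ.K (a + w * e) (l + Λ.i)) (l + h) % G.P)
  omega

theorem sep {G : Ge} {z x b v : ℕ} (hx : x < G.n) (hb : b < G.n) (ex : G.nd x = v)
    (eb : G.nd b = v ∨ G.nd (G.τ b) = v) (h : ¬(G.In z x ↔ G.In z b)) :
    G.X (z / G.P) v ∨ G.X (z % G.P) v := by
  by_cases k : G.pos x < z / G.P ↔ G.pos b < z / G.P
  · refine Or.inr ⟨x, hx, b, hb, ex, eb, fun k2 => h ?_⟩
    unfold Ge.In
    rw [k2, ← Nat.not_lt, ← Nat.not_lt, k]
  · exact Or.inl ⟨x, hx, b, hb, ex, eb, k⟩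

theorem child {a l i w : ℕ} (ha : a < 2 ^ l) (hw : w < 2 ^ i) : a + w * 2 ^ l < 2 ^ (l + i) := by
  have : (w + 1) * 2 ^ l ≤ 2 ^ i * 2 ^ l := Nat.mul_le_mul_right _ hw
  rw [pow_add, Nat.mul_comm (2 ^ l)]
  rw [Nat.succ_mul] at this
  omega

end RcL

open RcL in
theorem rcS : RcS := by
  intro bk dk sp sz rg G Λ H ok pk D
  have R := rg G Λ.K
  have hK := pk.K
  induction D with
  | zero => intro l a _ h1 h2; omega
  | succ D ih =>
    intro l a ha h1 h2 u v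
    simp only [Ge.dr, Ge.bd]
    split_ifs with hl
    · refine ⟨fun h => bk.snd G.n Λ.N Λ.θ (Λ.θ + 1) _ _
        (Wu G.n G.nd G.β G.w (G.arc Λ a l)) (fun _ _ _ _ _ => dk.trans)
        (fun y z => dk.s0 _ _ _ _ _ _ y z) u v (Nat.lt_succ_of_le h), fun c hc hw => ?_⟩
      obtain ⟨m, hm, c', hc', ch⟩ := dk.c0 G.n (Λ.θ + 1) G.nd G.β G.w (G.arc Λ a l) (G.B0 Λ a l)
        u v c (fun d hd h => ⟨(ok.ar d hd h.1).1, (ok.lt d hd).2, d, hd, h.2, rfl⟩) hw
      refine (bk.cpl _ _ _ _ _ _ _ _ _ ?_ (hm.trans hc) ch).trans hc'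
      obtain ⟨L, hL, eL⟩ := pk.Lm
      have k1 := (sz sp G H Λ.K ok R a l (by omega)).2 L hL (by omega)
      have k2 : cnt G.n (G.B0 Λ a l) ≤ _ := cnt_img G.n (G.U Λ.K a l) G.nd
      have k3 : 2 ^ 2 ≤ Λ.W := by rw [pk.W]; exact Nat.pow_le_pow_right (by norm_num) pk.i
      have k4 : 2 ^ 2 * 2 * 2 ≤ Λ.W * Λ.i * (2 * (2 * H + 1)) :=
        Nat.mul_le_mul (Nat.mul_le_mul k3 pk.i) (by omega)
      have k5 := pk.N
      omega
    · have lK : l + Λ.i ≤ Λ.K := by omega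
      have IH := fun w (hw : w < Λ.W) => ih (l + Λ.i) (a + w * 2 ^ l)
        (child ha (pk.W ▸ hw)) (by omega) (by rw [Nat.succ_mul] at h2; omega)
      refine ⟨fun h => bk.snd G.n Λ.N Λ.θ (Λ.θ + 1) _ _
        (Wu G.n G.nd G.β G.w (G.arc Λ a l)) (fun _ _ _ _ _ => dk.trans)
        (fun y z k => ?_) u v (Nat.lt_succ_of_le h), fun c hc hw => ?_⟩
      · rcases mn_eq Λ.W (fun _ => True)
          (fun w => G.dr Λ D (l + Λ.i) (a + w * 2 ^ l) y z) (Λ.θ + 1) with e | ⟨w, hw, -, e⟩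
        · exact absurd e k.ne
        · rw [e] at k ⊢
          exact dk.mono (fun d _ q => ⟨q.1, ((R.pre a w l Λ.i ha lK d).1 q.2).1⟩)
            ((IH w hw y z).1 (Nat.lt_succ_iff.1 k))
      · obtain ⟨m, hm, c', hc', ch⟩ := dk.c1 G.n (Λ.θ + 1) Λ.W G.nd G.β G.w (G.arc Λ a l)
          (G.B1 Λ a l (2 ^ l)) (fun w => G.arc Λ (a + w * 2 ^ l) (l + Λ.i))
          (fun w => G.dr Λ D (l + Λ.i) (a + w * 2 ^ l)) u v c (by rw [pk.W]; positivity)
          (fun d hd h => by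
            obtain ⟨w, hw, q⟩ := R.cov a l Λ.i ha lK d h.2
            exact ⟨(ok.ar d hd h.1).1, (ok.lt d hd).2, w, pk.W ▸ hw, h.1, q⟩)
          (fun d hd d' hd' j hj _ p' q e => by
            by_cases k : G.U Λ.K (a + j * 2 ^ l) (l + Λ.i) d'
            · exact Or.inl ⟨p'.1, k⟩
            rw [R.pre a j l Λ.i ha lK d', not_and, not_forall₂] at k
            obtain ⟨h, hh, k⟩ := k p'.2
            refine Or.inr ⟨j, hj, h, hh, ?_⟩
            rcases (ok.ar d hd q.1).2 with t | t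
            · refine sep hd' hd rfl (Or.inr (t ▸ e)) fun s => k (s.trans ?_)
              exact ((R.pre a j l Λ.i ha lK d).1 q.2).2 h hh
            · refine sep hd' (ok.iv d hd).1 rfl (Or.inl (t ▸ e)) fun s => k (s.trans ?_)
              exact ((R.pre a j l Λ.i ha lK _).1
                ((sz sp G H Λ.K ok R _ _ lK).1 d hd q.2)).2 h hh)
          (fun j hj y z c' k q => (IH j hj y z).2 c' (Nat.lt_succ_iff.1 k) q)
          (Nat.lt_succ_of_le hc) hw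
        exact (bk.cpl _ _ _ _ _ _ _ _ _ ((cnt_B1 Λ ok a l _).trans pk.N) (hm.trans hc) ch).trans hc'

end Pool.Agent.MP_1a6d78_lc.DS.SD
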