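import Pool.Agent.MP_1a6d78_lc.SD.Spec

/-! PROJECT SD: the regions. -/

namespace Pool.Agent.MP_1a6d78_lc.DS.SD

open Classical ED PR DD SC

namespace RgL

theorem dg_eq (a h : ℕ) : dg 2 a h = a / 2 ^ h % 2 := by
  have : ∀ h, itr (fun _ a => a / 2) a h = a / 2 ^ h := by
    intro h
    induction h with
    | zero => simp [itr]
    | succ h ih => rw [itr, ih, Nat.div_div_eq_div_mul, pow_succ]
  rw [dg, this]

theorem dg_low (a w : ℕ) {h l : ℕ} (k : h < l) : dg 2 (a + w * 2 ^ l) h = dg 2 a h := by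
  obtain ⟨m, rfl⟩ := Nat.exists_eq_add_of_lt k
  have e : w * 2 ^ (h + m + 1) = (w * 2 ^ m * 2) * 2 ^ h := by ring
  rw [dg_eq, dg_eq, e, Nat.add_mul_div_right _ _ (by positivity), Nat.add_mul_mod_self_right]

theorem dg_top {a l : ℕ} (b : ℕ) (k : a < 2 ^ l) : dg 2 (a + b * 2 ^ l) l = b % 2 := by
  rw [dg_eq, Nat.add_mul_div_right _ _ (by positivity), Nat.div_eq_of_lt k, zero_add]

variable (G : Ge) (K : ℕ)

theorem cuts_succ (a l : ℕ) :
    G.cuts K a (l + 1) = El.upd K (G.cuts K a l) l (G.spl (G.U K a l)) := rfl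

theorem mem_congr {C C' : List ℕ} {a a' l : ℕ} (h1 : ∀ h < l, gt C h = gt C' h)
    (h2 : ∀ h < l, dg 2 a h = dg 2 a' h) : G.mem C a l = G.mem C' a' l := by
  funext d
  exact propext (forall₂_congr fun h k => by rw [h1 h k, h2 h k])

theorem cuts_congr {a a' : ℕ} : ∀ l, (∀ h < l, dg 2 a h = dg 2 a' h) →
    G.cuts K a l = G.cuts K a' l
  | 0, _ => rfl
  | l + 1, h => by
    have e := cuts_congr l fun i k => h i (by omega)
    rw [cuts_succ, cuts_succ, Ge.U, Ge.U, e,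
      mem_congr G (fun _ _ => rfl) fun i k => h i (by omega)]

theorem U_congr {a a' l : ℕ} (h : ∀ i < l, dg 2 a i = dg 2 a' i) : G.U K a l = G.U K a' l := by
  rw [Ge.U, Ge.U, cuts_congr G K l h]
  exact mem_congr G (fun _ _ => rfl) h

theorem cuts_stab (a : ℕ) {h l : ℕ} (k : h < l) : ∀ l', l + l' ≤ K →
    gt (G.cuts K a (l + l')) h = gt (G.cuts K a l) h
  | 0, _ => rfl
  | l' + 1, e => by
    rw [← add_assoc, cuts_succ, El.gt_upd _ _ _ (by omega), if_neg (by omega),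
      cuts_stab a k l' (by omega)]

theorem suc (a l : ℕ) (k : l < K) (d : ℕ) : G.U K a (l + 1) d ↔ G.U K a l d ∧
    (G.In (G.spl (G.U K a l)) d ↔ dg 2 a l = 1) := by
  have e : gt (G.cuts K a (l + 1)) l = G.spl (G.U K a l) := by
    rw [cuts_succ, El.gt_upd _ _ _ k, if_pos rfl]
  rw [← e]
  constructor
  · intro h
    refine ⟨fun i hi => ?_, h l (by omega)⟩
    rw [← cuts_stab G K a hi 1 k]
    exact h i (by omega)
  · rintro ⟨h1, h2⟩ i hi
    rcases Nat.lt_succ_iff_lt_or_eq.1 hi with c | rfl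
    · rw [cuts_stab G K a c 1 k]
      exact h1 i c
    · exact h2

theorem pre (a w l l' : ℕ) (k : l + l' ≤ K) (d : ℕ) :
    G.U K (a + w * 2 ^ l) (l + l') d ↔ G.U K a l d ∧
      ∀ h < l', G.In (gt (G.cuts K (a + w * 2 ^ l) (l + l')) (l + h)) d ↔
        dg 2 (a + w * 2 ^ l) (l + h) = 1 := by
  rw [← U_congr G K fun i hi => dg_low a w hi]
  constructor
  · intro h
    refine ⟨fun i hi => ?_, fun i hi => h (l + i) (by omega)⟩
    rw [← cuts_stab G K _ hi l' k]
    exact h i (by omega)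
  · rintro ⟨h1, h2⟩ i hi
    by_cases c : i < l
    · rw [cuts_stab G K _ c l' k]
      exact h1 i c
    · obtain ⟨m, rfl⟩ := Nat.exists_eq_add_of_le (not_lt.1 c)
      exact h2 m (by omega)

theorem cov (a l : ℕ) (ha : a < 2 ^ l) (d : ℕ) (h : G.U K a l d) : ∀ l', l + l' ≤ K →
    ∃ w < 2 ^ l', G.U K (a + w * 2 ^ l) (l + l') d
  | 0, _ => ⟨0, by simp, by simpa using h⟩
  | l' + 1, k => by
    obtain ⟨w, w1, w2⟩ := cov a l ha d h l' (by omega)
    have lt : a + w * 2 ^ l < 2 ^ (l + l') := by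
      calc a + w * 2 ^ l < (w + 1) * 2 ^ l := by rw [add_mul, one_mul]; omega
        _ ≤ 2 ^ l' * 2 ^ l := Nat.mul_le_mul_right _ w1
        _ = 2 ^ (l + l') := by ring
    have key : ∀ b, b ≤ 1 → (G.In (G.spl (G.U K (a + w * 2 ^ l) (l + l'))) d ↔ b % 2 = 1) →
        ∃ w < 2 ^ (l' + 1), G.U K (a + w * 2 ^ l) (l + (l' + 1)) d := by
      intro b b1 b2
      have e : a + (w + b * 2 ^ l') * 2 ^ l = a + w * 2 ^ l + b * 2 ^ (l + l') := by ring
      have b3 : b * 2 ^ l' ≤ 1 * 2 ^ l' := Nat.mul_le_mul_right _ b1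
      refine ⟨w + b * 2 ^ l', by rw [pow_succ]; omega, ?_⟩
      rw [← add_assoc, suc G K _ _ (by omega), e, dg_top b lt,
        U_congr G K fun i hi => dg_low (a + w * 2 ^ l) b hi]
      exact ⟨w2, b2⟩
    by_cases c : G.In (G.spl (G.U K (a + w * 2 ^ l) (l + l'))) d
    · exact key 1 le_rfl (iff_of_true c rfl)
    · exact key 0 (by omega) (iff_of_false c (by omega))

end RgL

theorem rgS : RgS := fun G K =>
  ⟨fun _ _ _ h => absurd h (Nat.not_lt_zero _), fun a w l l' _ k d => RgL.pre G K a w l l' k d,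
    fun a l l' ha k d h => RgL.cov G K a l ha d h l' k, RgL.suc G K⟩

end Pool.Agent.MP_1a6d78_lc.DS.SD
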