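import Pool.Agent.MP_1a6d78_lc.SD.Spec

/-! PROJECT SD, row RC: the regions are computable. -/

namespace Pool.Agent.MP_1a6d78_lc.DS.SD

open Classical ED PR DD SC

namespace RgCL

variable {κ : List Bool → ℕ} {G : List Bool → ℕ → Ge} {k : List Bool → ℕ}
  {p a l d z q v : List Bool → Env → ℕ}

theorem iffC {P Q : List Bool → Env → Prop} (hP : Cp κ P) (hQ : Cp κ Q) :
    Cp κ fun x ρ => P x ρ ↔ Q x ρ :=
  K.cgP (K.and (K.imp hP hQ) (K.imp hQ hP)) fun _ _ => iff_iff_implies_and_implies.symm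

theorem gt_le {L : List ℕ} {b : ℕ} (h : ∀ y ∈ L, y ≤ b) (e : ℕ) : gt L e ≤ b := by
  unfold gt
  by_cases he : e < L.length
  · rw [List.getD_eq_getElem _ _ he]
    exact h _ (List.getElem_mem he)
  · rw [List.getD_eq_default _ _ (by omega)]
    exact b.zero_le

theorem updC {S : List Bool → Env → List ℕ} (hk : ∀ x, k x ≤ κ x) (ck : Cn κ fun x _ => k x)
    (hS : Cm κ S) (ha : Cn κ a) (hv : Cn κ v) :
    Cm κ fun x ρ => El.upd (k x) (S x ρ) (a x ρ) (v x ρ) :=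
  (kitOne κ).tab (fun x ρ e => if e = a x ρ then v x ρ else gt (S x ρ) e) hk ck
    (K.ite (K.eq (K.v 0) (K.w ha)) (K.w hv) (K.gt (K.wL hS) (K.v 0)))

variable (g : GeC κ G) (hp : Cn κ p)
include g hp

theorem nC : Cn κ fun x ρ => (G x (p x ρ)).n := K.app (f := fun x _ p => (G x p).n) g.n hp

theorem PC : Cn κ fun x ρ => (G x (p x ρ)).P := K.add (K.mul (nC g hp) (nC g hp)) (K.c 1)

theorem InC (hz : Cn κ z) (hd : Cn κ d) : Cp κ fun x ρ => (G x (p x ρ)).In (z x ρ) (d x ρ) :=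
  K.and (K.le (K.div hz (PC g hp)) (g.pos _ _ hp hd)) (K.lt (g.pos _ _ hp hd) (K.mod hz (PC g hp)))

theorem memC {C : List Bool → Env → List ℕ} (hC : Cm κ C) (ha : Cn κ a) (hl : Cn κ l)
    (hd : Cn κ d) : Cp κ fun x ρ => (G x (p x ρ)).mem (C x ρ) (a x ρ) (l x ρ) (d x ρ) :=
  K.all (P := fun x ρ h => (G x (p x ρ)).In (gt (C x ρ) h) (d x ρ) ↔ dg 2 (a x ρ) h = 1) hl
    (iffC (InC g (K.w hp) (K.gt (K.wL hC) (K.v 0)) (K.w hd))
      (K.eq (dgC (K.c 2) (K.w ha) (K.v 0)) (K.c 1)))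

theorem balC {U : List Bool → Env → ℕ → Prop} (hU : P1 κ U) (hz : Cn κ z) :
    Cp κ fun x ρ => (G x (p x ρ)).bal (U x ρ) (z x ρ) := by
  have c1 := K.cnt (nC g hp) hU
  have c2 := K.cnt (P := fun x ρ d => U x ρ d ∧ (G x (p x ρ)).In (z x ρ) d) (nC g hp)
    (K.and hU (InC g (K.w hp) (K.w hz) (K.v 0)))
  exact K.and (K.all (P := fun x ρ d => U x ρ d → ((G x (p x ρ)).In (z x ρ) d ↔
      (G x (p x ρ)).In (z x ρ) ((G x (p x ρ)).o d))) (nC g hp)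
    (K.imp hU (iffC (InC g (K.w hp) (K.w hz) (K.v 0))
      (InC g (K.w hp) (K.w hz) (g.o _ _ (K.w hp) (K.v 0))))))
    (K.and (K.le c1 (K.mul (K.c 3) c2)) (K.le (K.mul (K.c 3) c2) (K.add (K.mul (K.c 2) c1) (K.c 6))))

theorem splC {U : List Bool → Env → ℕ → Prop} (hU : P1 κ U) :
    Cn κ fun x ρ => (G x (p x ρ)).spl (U x ρ) :=
  K.lst (P := fun x ρ => (G x (p x ρ)).bal (U x ρ)) (K.mul (PC g hp) (PC g hp))
    (balC g (K.w hp) (K.wP1 hU) (K.v 0))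

theorem XC (hq : Cn κ q) (hv : Cn κ v) : Cp κ fun x ρ => (G x (p x ρ)).X (q x ρ) (v x ρ) := by
  have p2 := K.w (K.w hp)
  have v2 := K.w (K.w hv)
  have q2 := K.w (K.w hq)
  exact K.ex (P := fun x ρ a => ∃ b < (G x (p x ρ)).n, (G x (p x ρ)).nd a = v x ρ ∧
      ((G x (p x ρ)).nd b = v x ρ ∨ (G x (p x ρ)).nd ((G x (p x ρ)).τ b) = v x ρ) ∧
      ¬((G x (p x ρ)).pos a < q x ρ ↔ (G x (p x ρ)).pos b < q x ρ)) (nC g hp)
    (K.ex (P := fun x ρ b => (G x (p x (tl ρ))).nd (hd (ρ 0)) = v x (tl ρ) ∧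
      ((G x (p x (tl ρ))).nd b = v x (tl ρ) ∨
        (G x (p x (tl ρ))).nd ((G x (p x (tl ρ))).τ b) = v x (tl ρ)) ∧
      ¬((G x (p x (tl ρ))).pos (hd (ρ 0)) < q x (tl ρ) ↔ (G x (p x (tl ρ))).pos b < q x (tl ρ)))
      (nC g (K.w hp))
      (K.and (K.eq (g.nd _ _ p2 (K.v 1)) v2)
        (K.and (K.or (K.eq (g.nd _ _ p2 (K.v 0)) v2)
          (K.eq (g.nd _ _ p2 (g.τ _ _ p2 (K.v 0))) v2))
          (K.not (iffC (K.lt (g.pos _ _ p2 (K.v 1)) q2) (K.lt (g.pos _ _ p2 (K.v 0)) q2))))))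

variable (hk : ∀ x, k x ≤ κ x) (ck : Cn κ fun x _ => k x)
include hk ck

theorem cutsC (ha : Cn κ a) (hl : Cn κ l) :
    Cm κ fun x ρ => (G x (p x ρ)).cuts (k x) (a x ρ) (l x ρ) :=
  (kitOne κ).foldL
    (fun x ρ h C => El.upd (k x) C h ((G x (p x ρ)).spl ((G x (p x ρ)).mem C (a x ρ) h)))
    (fun x ρ _ => (G x (p x ρ)).P * (G x (p x ρ)).P) hl
    ((kitOne κ).tab (fun _ _ _ => 0) hk ck (K.c 0))
    (updC hk ck (K.vL 0) (K.v 1) (splC g (K.w (K.w hp))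
      (U := fun x ρ => (G x (p x (tl (tl ρ)))).mem (ρ 0) (a x (tl (tl ρ))) (hd (ρ 1)))
      (memC g (K.w (K.w (K.w hp))) (K.vL 1) (K.w (K.w (K.w ha))) (K.v 2) (K.v 0))))
    (K.w (K.mul (PC g hp) (PC g hp)))
    fun x ρ m acc b h1 h2 y hy => by
      obtain ⟨e, _, rfl⟩ := List.mem_map.1 hy
      split_ifs
      · exact (lst_lt _ (Nat.mul_pos (Nat.succ_pos _) (Nat.succ_pos _))).le.trans h2
      · exact gt_le h1 e

theorem UC (ha : Cn κ a) (hl : Cn κ l) (hd : Cn κ d) :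
    Cp κ fun x ρ => (G x (p x ρ)).U (k x) (a x ρ) (l x ρ) (d x ρ) :=
  memC g hp (cutsC g hp hk ck ha hl) ha hl hd

end RgCL

open RgCL in
theorem rgCS : RgCS := by
  intro kt K0 κ G hk g
  obtain ⟨ci, cW, -, -, cθ, ck, -⟩ := kt.pi K0 κ
  refine ⟨fun p a l v hp ha hl hv => ?_, fun p a l e v hp ha hl he hv => ?_,
    fun p a l y z hp ha hl hy hz => ?_⟩
  · exact K.ex (P := fun x ρ d => (G x (p x ρ)).U (pa K0 x).K (a x ρ) (l x ρ) d ∧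
        (G x (p x ρ)).nd d = v x ρ) (nC g hp)
      (K.and (UC g (K.w hp) hk ck (K.w ha) (K.w hl) (K.v 0))
        (K.eq (g.nd _ _ (K.w hp) (K.v 0)) (K.w hv)))
  · have p2 := K.w (K.w hp)
    have l2 := K.w (K.w hl)
    have c2 := K.gt (cutsC g p2 hk ck (K.add (K.w (K.w ha)) (K.mul (K.v 1) (K.w (K.w he))))
      (K.add l2 ci)) (K.add l2 (K.v 0))
    exact K.ex (P := fun x ρ w => ∃ h < (pa K0 x).i,
        (G x (p x ρ)).X (gt ((G x (p x ρ)).cuts (pa K0 x).K (a x ρ + w * e x ρ)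
          (l x ρ + (pa K0 x).i)) (l x ρ + h) / (G x (p x ρ)).P) (v x ρ) ∨
        (G x (p x ρ)).X (gt ((G x (p x ρ)).cuts (pa K0 x).K (a x ρ + w * e x ρ)
          (l x ρ + (pa K0 x).i)) (l x ρ + h) % (G x (p x ρ)).P) (v x ρ)) cW
      (K.ex (P := fun x ρ h =>
        (G x (p x (tl ρ))).X (gt ((G x (p x (tl ρ))).cuts (pa K0 x).K
          (a x (tl ρ) + hd (ρ 0) * e x (tl ρ)) (l x (tl ρ) + (pa K0 x).i)) (l x (tl ρ) + h) /
            (G x (p x (tl ρ))).P) (v x (tl ρ)) ∨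
        (G x (p x (tl ρ))).X (gt ((G x (p x (tl ρ))).cuts (pa K0 x).K
          (a x (tl ρ) + hd (ρ 0) * e x (tl ρ)) (l x (tl ρ) + (pa K0 x).i)) (l x (tl ρ) + h) %
            (G x (p x (tl ρ))).P) (v x (tl ρ))) ci
        (K.or (XC g p2 (K.div c2 (PC g p2)) (K.w (K.w hv)))
          (XC g p2 (K.mod c2 (PC g p2)) (K.w (K.w hv)))))
  · have p1 := K.w hp
    exact K.ite (K.eq hy hz) (K.c 0)
      (mnC (P := fun x ρ d => (G x (p x ρ)).arc (pa K0 x) (a x ρ) (l x ρ) d ∧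
          (G x (p x ρ)).nd d = y x ρ ∧ (G x (p x ρ)).nd ((G x (p x ρ)).β d) = z x ρ)
        (c := fun x ρ => (G x (p x ρ)).w) (nC g hp)
        (K.and (K.and (g.ar _ _ p1 (K.v 0)) (UC g p1 hk ck (K.w ha) (K.w hl) (K.v 0)))
          (K.and (K.eq (g.nd _ _ p1 (K.v 0)) (K.w hy))
            (K.eq (g.nd _ _ p1 (g.β _ _ p1 (K.v 0))) (K.w hz))))
        (g.w _ _ p1 (K.v 0)) (K.add cθ (K.c 1)))

end Pool.Agent.MP_1a6d78_lc.DS.SD
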