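import Pool.Agent.MP_1a6d78_lc.SD.Spec

/-! PROJECT SD, row RCQ: the recursion of the machine. -/

namespace Pool.Agent.MP_1a6d78_lc.DS.SD

open Classical ED PR DD SC

namespace RqL

theorem mn_congr {n z : ℕ} {P : ℕ → Prop} {c c' : ℕ → ℕ} (h : ∀ i < n, c i = c' i) :
    mn n P c z = mn n P c' z := by
  induction n with
  | zero => rfl
  | succ n ih => rw [mn_succ, mn_succ, ih fun i hi => h i (by omega), h n (by omega)]

theorem len_le (K : ℕ) (x : List Bool) : x.length + 2 ≤ bt K x :=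
  Nat.le_self_pow (by omega) _

theorem two_le (K : ℕ) (x : List Bool) {l : ℕ} (h : l < (pa K x).Lm) :
    2 ^ (l + (pa K x).i) ≤ bt K x := by
  have a : 2 ^ l ≤ ((x.length + 2) ^ 2) ^ 2 := by
    refine (Nat.pow_le_pow_right two_pos h.le).trans ?_
    change 2 ^ (2 * lg x) ≤ _
    rw [mul_comm, pow_mul]
    exact Nat.pow_le_pow_left (two_lg x) 2
  have b : 2 ^ (pa K x).i ≤ (x.length + 2) ^ 3 := by
    change 2 ^ (Nat.log 2 (mx x) + 1) ≤ _
    have h1 := Nat.pow_log_le_self 2 (show mx x ≠ 0 by unfold mx; omega)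
    have h2 : mx x ≤ 2 * x.length + 3 := by
      have := nle x 3
      have := lg_le x
      unfold mx
      omega
    rw [pow_succ]
    nlinarith [Nat.zero_le (x.length ^ 3), Nat.zero_le (x.length ^ 2)]
  rw [pow_add]
  refine (Nat.mul_le_mul a b).trans ?_
  rw [← pow_mul, ← pow_add]
  exact Nat.pow_le_pow_right (by omega) (by omega)

theorem gt_clip {k b i : ℕ} (l : List ℕ) (h : i < k) (hb : gt l i ≤ b) :
    gt (GM.clip k b l) i = gt l i := by
  rw [GM.clip, SC.gt_tab _ h, min_eq_right hb]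

theorem key (hB : BfK) (K : ℕ) (x : List Bool) (p : ℕ) (hp : p ≤ bt K x) (D : ℕ) :
    ∀ (l a u v : ℕ) (L : List ℕ), gt L 0 = u → gt L 1 = v → gt L 2 = p → gt L 3 = l → gt L 4 = a →
      u ≤ num x 0 → v ≤ num x 0 → a < 2 ^ l →
      rc (Fr K x) D L = (gx K x p).dr (pa K x) D l a u v := by
  have n0 := nle x 0
  have n3 := nle x 3
  have hl := len_le K x
  induction D with
  | zero => exact fun _ _ _ _ _ _ _ _ _ _ _ _ _ => rfl
  | succ D ih =>
    intro l a u v L h0 h1 h2 h3 h4 hu hv ha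
    change Fr K x (rc (Fr K x) D) L = (gx K x p).bd (pa K x) l a (2 ^ l) _ u v
    rw [Fr, h0, h1, h2, h3, h4]
    unfold Ge.bd
    have θ : (pa K x).θ + 1 ≤ bt K x := by
      change num x 3 + 1 ≤ _
      omega
    by_cases c : (pa K x).Lm ≤ l
    · rw [if_pos c, if_pos c]
      refine min_eq_right ((hB.le _ _ _ _ _ _ _).trans (le_trans ?_ θ))
      unfold l0
      split_ifs
      exacts [Nat.zero_le _, mn_le_z]
    · have t := two_le K x (not_le.1 c)
      have t1 : 2 ^ l ≤ bt K x := (Nat.pow_le_pow_right two_pos (Nat.le_add_right _ _)).trans t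
      rw [if_neg c, if_neg c, min_eq_right t1]
      refine (min_eq_right ((hB.le _ _ _ _ _ _ _).trans (le_trans ?_ θ))).trans
        (hB.congr _ _ _ _ _ _ _ _ hu hv fun y hy z hz => mn_congr fun w hw => ?_)
      · exact mn_le_z
      replace hy : y ≤ num x 0 := hy
      replace hz : z ≤ num x 0 := hz
      have t2 : a + w * 2 ^ l < 2 ^ (l + (pa K x).i) := by
        replace hw : w + 1 ≤ 2 ^ (pa K x).i := hw
        have := Nat.mul_le_mul_right (2 ^ l) hw
        rw [pow_add]
        nlinarith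
      have t3 : l + (pa K x).i ≤ bt K x := Nat.lt_two_pow_self.le.trans t
      exact ih _ _ _ _ _ (gt_clip _ (by omega) (show y ≤ _ by omega))
        (gt_clip _ (by omega) (show z ≤ _ by omega)) (gt_clip _ (by omega) hp)
        (gt_clip _ (by omega) t3) (gt_clip _ (by omega) (t2.le.trans t)) hy hz t2

end RqL

theorem rqS : RqS := fun hB K x p k hp hk => by
  have n0 := nle x 0
  have hl := RqL.len_le K x
  have m : ∀ y, min (num x 0) y ≤ bt K x := fun y => (min_le_left _ _).trans (by omega)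
  refine (RqL.key hB K x p hp _ 0 0 _ _ _ ?_ ?_ ?_ ?_ ?_ (min_le_left _ _) (min_le_left _ _)
    one_pos).symm
  · exact RqL.gt_clip _ (by omega) (m _)
  · exact RqL.gt_clip _ (by omega) (m _)
  · exact RqL.gt_clip _ (by omega) hp
  · exact RqL.gt_clip _ (by omega) (Nat.zero_le _)
  · exact RqL.gt_clip _ (by omega) (Nat.zero_le _)

end Pool.Agent.MP_1a6d78_lc.DS.SD
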