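import Pool.Agent.MP_1a6d78_lc.SD.Spec

/-! PROJECT SD, row SDC: the test for short distances is computable in small space. -/

namespace Pool.Agent.MP_1a6d78_lc.DS.SD

open Classical ED PR DD SC

namespace SdL

theorem bound {A c E q l m D : ℕ} (h1 : 1 ≤ m) (hq : q ≤ c * m ^ 35) (hl : l ≤ m)
    (hD : D ≤ 2 * m) : E * (A * l ^ 2 + q + 1) * (D + 1) ≤ E * (A + c + 1) * 3 * m ^ 36 := by
  have a1 : l ^ 2 ≤ m ^ 35 :=
    (Nat.pow_le_pow_left hl 2).trans (Nat.pow_le_pow_right h1 (by norm_num))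
  have a2 : 1 ≤ m ^ 35 := Nat.one_le_pow _ _ h1
  have a3 : A * l ^ 2 + q + 1 ≤ (A + c + 1) * m ^ 35 := by
    have := Nat.mul_le_mul_left A a1
    rw [add_mul, add_mul, one_mul]
    omega
  calc E * (A * l ^ 2 + q + 1) * (D + 1) ≤ E * ((A + c + 1) * m ^ 35) * (3 * m) :=
        Nat.mul_le_mul (Nat.mul_le_mul_left E a3) (by omega)
    _ = E * (A + c + 1) * 3 * m ^ 36 := by ring

theorem five {κ : List Bool → ℕ} {a b : List Bool → ℕ} (h5 : ∀ x, 5 ≤ κ x)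
    (ha : Cn κ fun x _ => a x) (hb : Cn κ fun x _ => b x) :
    Cm κ fun x ρ => [a x, b x, hd (ρ 0), 0, 0] :=
  (kitOne κ).tab (n := fun _ => 5) (fun x ρ i => if i = 0 then a x else if i = 1 then b x
    else if i = 2 then hd (ρ 0) else 0) h5 (K.c 5)
    (K.ite (K.eq (K.v 0) (K.c 0)) ha (K.ite (K.eq (K.v 0) (K.c 1)) hb
      (K.ite (K.eq (K.v 0) (K.c 2)) (K.v 1) (K.c 0))))

end SdL

theorem sdS : SdS := by
  rintro hR hP hK hq hB hN J ⟨A, hA⟩
  obtain ⟨⟨c, hc⟩, hm, e, he⟩ := hN J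
  have k5 : ∀ x, 5 ≤ A * lg x ^ 2 + qx J x := fun x => by
    unfold qx
    omega
  obtain ⟨E, hE⟩ := hR (fun x => A * lg x ^ 2 + qx J x) (qx J) (bt J) Dx (Fr J) e
    (hA _ (fun x => Nat.le_add_right _ _) fun x => Nat.le_add_left _ _)
    (fun x g l => min_le_left _ _) (fun x => by have := k5 x; omega) he
  refine ⟨E * (A + c + 1) * 3 + 5, fun κ hκ => ?_⟩
  have m1 : ∀ x, 1 ≤ mx x := fun x => by
    unfold mx
    omega
  have hκ' : ∀ x, E * (A + c + 1) * 3 * mx x ^ 36 + 5 * mx x ^ 36 ≤ κ x := fun x => by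
    rw [← add_mul]
    exact hκ x
  have h5 : ∀ x, 5 ≤ κ x := fun x => by
    have := hκ' x
    have := Nat.one_le_pow 36 _ (m1 x)
    omega
  obtain ⟨-, cW, -, cN, cθ, cK, cD⟩ := hK.pi J κ
  have hrc := hE κ (fun x => (SdL.bound (m1 x) (hc x) (hm x).1 (hm x).2).trans
      ((Nat.le_add_right _ _).trans (hκ' x))) cD
    (K.add (K.mul (K.c A) (K.pow 2 (lgC κ)))
      (K.add (K.add (K.add (K.add cN cθ) cW) cK) (K.c 5))) (hK.bt J κ)
  have cn : ∀ i, Cn κ fun x _ => num x i := fun i => K.app (hP.num κ) (K.c i)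
  have cv : ∀ i, Cn κ fun x _ => min (num x 0) ((inp x).nd (num x i)) := fun i =>
    K.min (cn 0) (K.app (hP.nd κ) (cn i))
  have hd1 : Cn κ fun x ρ => rc (Fr J x) (Dx x) (GM.clip (A * lg x ^ 2 + qx J x) (bt J x)
      [min (num x 0) ((inp x).nd (num x 1)), min (num x 0) ((inp x).nd (num x 2)),
        hd (ρ 0), 0, 0]) :=
    (kitA κ).bind _ _ (SdL.five h5 (cv 1) (cv 2)) hrc
  have hex := K.ex (P := fun x _ p => rc (Fr J x) (Dx x)
    (GM.clip (A * lg x ^ 2 + qx J x) (bt J x) [min (num x 0) ((inp x).nd (num x 1)),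
      min (num x 0) ((inp x).nd (num x 2)), p, 0, 0]) ≤ num x 3) (hK.bt J κ) (K.le hd1 (cn 3))
  have hex' : PR.Cp κ fun x _ => ∃ p < bt J x, dt J x p ≤ num x 3 :=
    K.cgP hex fun x _ => exists_congr fun p => and_congr_right fun hp => by
      rw [hq hB J x p _ hp.le (k5 x)]
  exact K.cg hex' fun x _ => by
    unfold sd
    congr

end Pool.Agent.MP_1a6d78_lc.DS.SD
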