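import Pool.Agent.MP_1a6d78_lc.SD.Spec

/-! PROJECT SD, row SHAPE: a round keeps the shape of a state. -/

namespace Pool.Agent.MP_1a6d78_lc.DS.SD

open Classical ED PR DD SC

namespace ShL

variable {n : ℕ} {ρ β : ℕ → ℕ}

theorem fr_trans {A A' : ℕ → Prop} {φ ψ nx : ℕ → ℕ} (h : SDE.FR n A φ ψ) (p : Pm n φ)
    (sub : ∀ d < n, A' d → A d) (h' : SDE.FR n A' ψ nx) : SDE.FR n A' φ nx := by
  intro d hd a
  obtain ⟨t, e, k, l⟩ := h' d hd a
  have key : ∀ t, ∃ u, ψ^[t + 1] d = φ^[u + 1] d ∧ ∀ s, 0 < s → s ≤ u → A' (φ^[s] d) →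
      ∃ s', 0 < s' ∧ s' ≤ t ∧ φ^[s] d = ψ^[s'] d := by
    intro t
    induction t with
    | zero =>
      obtain ⟨u, e, -, l⟩ := h d hd (sub d hd a)
      exact ⟨u, e, fun s h0 hs c =>
        (l s h0 hs (sub _ (iter_inv (Q := fun a => a < n) p.1 hd s) c)).elim⟩
    | succ t ih =>
      obtain ⟨u, e, l⟩ := ih
      have k := h.iter p hd (sub d hd a) (t + 1)
      obtain ⟨v, e', -, l'⟩ := h _ k.1 k.2
      refine ⟨v + (u + 1), ?_, fun s h0 hs c => ?_⟩
      · rw [Function.iterate_succ_apply' ψ (t + 1), e', e, ← Function.iterate_add_apply]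
        congr 1; omega
      rcases lt_trichotomy s (u + 1) with c1 | c1 | c1
      · obtain ⟨s', a1, a2, a3⟩ := l s h0 (by omega) c
        exact ⟨s', a1, by omega, a3⟩
      · exact ⟨t + 1, by omega, le_rfl, by rw [c1, e]⟩
      · refine (l' (s - (u + 1)) (by omega) (by omega) ?_).elim
        rw [e, ← Function.iterate_add_apply, Nat.sub_add_cancel c1.le]
        exact sub _ (iter_inv (Q := fun a => a < n) p.1 hd s) c
  obtain ⟨u, e', l'⟩ := key t
  refine ⟨u, e.trans e', k, fun s h0 hs c => ?_⟩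
  obtain ⟨s', a1, a2, a3⟩ := l' s h0 hs c
  exact l s' a1 a2 (a3 ▸ c)

theorem fr_kap {A : ℕ → Prop} {τ γ κ nx : ℕ → ℕ} (h : SDE.FR n A (fun d => ρ (τ d)) nx)
    (p : Pm n fun d => ρ (τ d)) (fx : ∀ d < n, A d → τ d = d)
    (h1 : ∀ d < n, A d → κ d < n ∧ A (κ d) ∧ γ d = κ d) (h2 : ∀ d < n, ¬A d → γ d = τ d) :
    SDE.FR n A (fun d => ρ (γ d)) fun d => nx (κ d) := by
  intro d hd a
  obtain ⟨hb, ab, eb⟩ := h1 d hd a
  obtain ⟨t, e, k, l⟩ := h (κ d) hb ab
  have key : ∀ s ≤ t, (fun d => ρ (γ d))^[s + 1] d = (fun d => ρ (τ d))^[s + 1] (κ d) := by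
    intro s hs
    induction s with
    | zero =>
      show ρ (γ d) = ρ (τ (κ d))
      rw [eb, fx _ hb ab]
    | succ s ih =>
      rw [Function.iterate_succ_apply', ih (by omega),
        Function.iterate_succ_apply' (fun d => ρ (τ d)) (s + 1)]
      show ρ (γ _) = ρ (τ _)
      rw [h2 _ (iter_inv (Q := fun a => a < n) p.1 hb _) (l (s + 1) (by omega) hs)]
  refine ⟨t, by rw [key t le_rfl]; exact e, k, fun s h0 hs => ?_⟩
  obtain ⟨s, rfl⟩ : ∃ u, s = u + 1 := ⟨s - 1, by omega⟩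
  rw [key s (by omega)]
  exact l _ h0 hs

/-- The contracted darts. -/
def Tr (β : ℕ → ℕ) (Sel : ℕ → Prop) (ch : ℕ → ℕ) (d : ℕ) : Prop :=
  (Sel d ∧ ch d = d) ∨ (Sel (β d) ∧ ch (β d) = β d)

theorem tA {A Sel : ℕ → Prop} {ch : ℕ → ℕ} (q : Iv n β) (cl : ∀ d, A d → A (β d))
    (sA : ∀ d, Sel d → A d) {d : ℕ} (hd : d < n) (t : Tr β Sel ch d) : A d := by
  rcases t with t | t
  · exact sA d t.1
  · have := cl _ (sA _ t.1)
    rwa [(q d hd).2] at this

theorem tr_b {Sel : ℕ → Prop} {ch : ℕ → ℕ} (q : Iv n β) {d : ℕ} (hd : d < n)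
    (t : Tr β Sel ch d) : Tr β Sel ch (β d) := by
  unfold Tr at t ⊢
  rw [(q d hd).2]
  exact t.symm

theorem one_ind {A Sel : ℕ → Prop} {τ ch : ℕ → ℕ} (p : Pm n ρ) (q : Iv n β) (iv : Iv n τ)
    (one : ∀ a < n, ∀ b < n, Conn n ρ τ a b → Sc n (fun d => ρ (τ d)) a b)
    (fx : ∀ d, A d → τ d = d) (cl : ∀ d, A d → A (β d)) (sA : ∀ d, Sel d → A d)
    (nb : ∀ d, Sel d → ¬Sel (β d))
    (sc : ∀ a b, Sel a → A b → Conn n ρ τ a b → Sel b ∧ ch b = ch a) :
    ∀ γ, Iv n γ → Sb n γ β → (∀ d < n, ¬Tr β Sel ch d → γ d = τ d) →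
    ∀ a < n, ∀ b < n, Conn n ρ γ a b → Sc n (fun d => ρ (γ d)) a b := by
  intro γ
  induction h : cnt n (fun d => Tr β Sel ch d ∧ γ d ≠ d) using Nat.strong_induction_on
    generalizing γ with
  | _ k ih =>
    intro g s t
    by_cases e : ∀ d < n, Tr β Sel ch d → γ d = d
    · have eq : ∀ d < n, γ d = τ d := fun d hd => by
        by_cases a : Tr β Sel ch d
        · rw [e d hd a, fx d (tA q cl sA hd a)]
        · exact t d hd a
      intro a ha b hb c
      exact (one a ha b hb (c.mono fun d hd => Or.inr (eq d hd))).congr (p.comp iv.pm).1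
        (fun d hd => by rw [eq d hd]) ha
    push Not at e
    obtain ⟨i, hi, si, ci, e⟩ : ∃ i < n, Sel i ∧ ch i = i ∧ γ i ≠ i := by
      obtain ⟨a, ha, ta | ta, e⟩ := e
      · exact ⟨a, ha, ta.1, ta.2, e⟩
      · have b := (s a ha).resolve_left e
        refine ⟨β a, (q a ha).1, ta.1, ta.2, ?_⟩
        rw [← b, (g a ha).2]
        exact e.symm
    have b := (s i hi).resolve_left e
    have hb := (g i hi).1
    have g0 := g.del hi
    have s0 := (del_sb n i γ).trans s
    have da : del γ i i = i := by simp [del]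
    have db : del γ i (γ i) = γ i := by simp [del]
    have ti : Tr β Sel ch i := Or.inl ⟨si, ci⟩
    have IH := ih _ (by
      rw [← h]
      refine cnt_lt (a := i) (fun d _ u => ⟨u.1, fun v => u.2 ?_⟩) hi ⟨ti, e⟩ fun u => u.2 da
      unfold del
      split_ifs
      exacts [rfl, v]) (del γ i) rfl g0 s0 fun d hd u => by
        rw [← t d hd u, del, if_neg]
        rintro (c | c)
        · exact u (c ▸ ti)
        · exact u (by rw [c, b]; exact tr_b q hi ti)
    have cn : ¬Conn n ρ (del γ i) i (γ i) := by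
      intro c
      have := Conn.ind (r := fun x y => Conn n ρ τ i x ↔ Conn n ρ τ i y)
        ⟨fun _ => Iff.rfl, Iff.symm, Iff.trans⟩
        (fun x hx => ⟨fun k => k.trans (Conn.rho ρ _ hx), fun k => k.trans (Conn.rho ρ _ hx).symm⟩)
        (fun x hx => ?_) c
      · have c := this.1 (Conn.refl _ _ _ _)
        rw [b] at c
        exact nb i si (sc _ _ si (cl i (sA i si)) c).1
      unfold del
      split_ifs with u
      · rfl
      push Not at u
      by_cases tx : Tr β Sel ch x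
      · rcases s x hx with v | v <;> rw [v]
        have ax := tA q cl sA hx tx
        refine iff_of_false (fun k => ?_) fun k => ?_
        · have k := sc _ _ si ax k
          rcases tx with w | w
          · exact u.1 (by rw [← w.2, k.2, ci])
          · exact nb x k.1 w.1
        · have k := sc _ _ si (cl x ax) k
          rcases tx with w | w
          · exact nb x w.1 k.1
          · refine u.2 ?_
            rw [b, ← ci, ← k.2, w.2, (q x hx).2]
      · rw [t x hx tx]
        exact ⟨fun k => k.trans (Conn.gam ρ _ hx), fun k => k.trans (Conn.gam ρ _ hx).symm⟩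
    have p0 := p.comp g0.pm
    have ns : ¬Sc n (fun d => ρ (del γ i d)) i (γ i) := fun k => cn (k.conn p g0 hi)
    intro x hx y hy c
    have c1 := (nclK.add p g0 hi hb da db x hx y hy).1
      (c.mono fun d _ => Or.inr (SDE.del_sw g hi).symm)
    have c2 := swapK.merge p0 hi hb ns x hx y hy
    simp only [SDE.del_sw g hi] at c2
    refine c2.2 ?_
    rcases c1 with k | ⟨k, l⟩ | ⟨k, l⟩
    · exact Or.inl (IH x hx y hy k)
    · exact Or.inr (Or.inl ⟨IH x hx _ hi k, IH _ hb y hy l⟩)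
    · exact Or.inr (Or.inr ⟨IH x hx _ hb k, IH _ hi y hy l⟩)

end ShL

theorem shS : ShS := by
  intro th M r S q u j h N L
  have p := h.ok.pm
  have b := h.ok.iv
  have fx : ∀ d, S.A d → S.tau M d = d := fun d a => if_neg (h.ab d a).2.2
  have et : ∀ d < M.n, (S.stp M r q u j).tau M d =
      if S.con M r q u j d then M.β d else S.tau M d := by
    intro d hd
    by_cases c : S.con M r q u j d
    · rw [if_pos c]
      exact if_pos ⟨hd, Or.inr c⟩
    · rw [if_neg c]
      by_cases t : S.tr d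
      · exact (if_pos ⟨hd, Or.inl t⟩).trans (if_pos t).symm
      · exact (if_neg fun k => k.2.elim t c).trans (if_neg t).symm
  have tb : ∀ d, (S.stp M r q u j).tr d → (S.stp M r q u j).tr (M.β d) := fun d t =>
    ⟨(b d t.1).1, t.2.imp (h.tb d) fun c => (L.con d c).2⟩
  have iv : Iv M.n ((S.stp M r q u j).tau M) := by
    intro d hd
    by_cases t : (S.stp M r q u j).tr d
    · have e1 : (S.stp M r q u j).tau M d = M.β d := if_pos t
      have e2 : (S.stp M r q u j).tau M (M.β d) = M.β (M.β d) := if_pos (tb d t)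
      rw [e1, e2]
      exact b d hd
    · have e1 : (S.stp M r q u j).tau M d = d := if_neg t
      rw [e1, e1]
      exact ⟨hd, rfl⟩
  have sb : Sb M.n ((S.stp M r q u j).tau M) M.β := fun d _ => by
    by_cases t : (S.stp M r q u j).tr d
    · exact Or.inr (if_pos t)
    · exact Or.inl (if_neg t)
  have fr : SDE.FR M.n S.A (fun d => M.ρ ((S.stp M r q u j).tau M d)) (S.ps1 M r q u j) :=
    ShL.fr_kap (κ := fun d => if S.con M r q u j d then M.β d else d) h.fr (p.comp N.iv.pm)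
      (fun d _ a => fx d a)
      (fun d hd a => by
        rw [et d hd]
        split_ifs
        exacts [⟨(b d hd).1, (h.ab d a).1, rfl⟩, ⟨hd, a, fx d a⟩])
      fun d hd a => by rw [et d hd, if_neg fun t => a (L.con d t).1]
  refine ⟨h.ok, fun d a => h.lt d a.1, fun d t => t.1, fun d a => ⟨⟨(h.ab d a.1).1, fun k => ?_⟩,
    (h.ab d a.1).2.1, fun t => t.2.elim (h.ab d a.1).2.2 fun c => a.2 (Or.inl c)⟩, tb,
    fun d a => ⟨if_neg a, if_neg a⟩,
    ShL.fr_trans fr (p.comp iv.pm) (fun d _ a => a.1) (th M r S q u j h N L), fun d hd => ?_⟩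
  · have := (L.kill _ k).2
    rw [(b d (h.lt d a.1)).2] at this
    exact a.2 this
  · refine ShL.one_ind (A := S.A) (Sel := S.sl M r q) (ch := S.ch M u j) p b N.iv
      (fun x hx y hy c => (N.cs x hx y hy).1 c) fx (fun d a => (h.ab d a).1) (fun d s => s.2.1)
      (fun d s => (L.nd d s).2.2) L.cl _ iv sb (fun x hx t => ?_) d hd _ (iv d hd).1
      (Conn.gam _ _ hd)
    rw [et x hx, if_neg fun c => t c.2]

end Pool.Agent.MP_1a6d78_lc.DS.SD
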