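import Pool.Agent.MP_1a6d78_lc.SD.Spec

/-! SEL: the selected nodes of a round. -/

namespace Pool.Agent.MP_1a6d78_lc.DS.SD

open Classical ED PR DD SC

namespace SlL

variable {M : Mp} {r : ℕ} {S : St} {q u j : ℕ}

theorem goC (h : Sh M S) (K : NdK M S) (t : ℕ) {x : ℕ} (hx : S.A x) :
    S.A (S.go M t x) ∧ S.C M x (S.go M t x) :=
  ⟨(K.go t x hx).2, (K.sc x _ hx (K.go t x hx).2).2
    ((sc_iff K.pm.1 (h.lt x hx)).2 ⟨t, (K.go t x hx).1.symm⟩)⟩

theorem pkC (h : Sh M S) (K : NdK M S) {x : ℕ} (hx : S.A x) :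
    S.A (S.pk M u j x) ∧ S.C M x (S.pk M u j x) := by
  unfold St.pk
  split_ifs
  · exact goC h K _ hx
  · exact goC h K _ hx

theorem back (K : NdK M S) {d : ℕ} (hd : S.A d) (hl : S.low M d) :
    ∃ t < 6, S.go M t (S.nm M d) = d := by
  obtain ⟨h1, h2⟩ := K.nm d hd
  exact (K.low _ d h1 hd (K.low d _ hd h1 hl h2).1 (Conn.symm h2)).2.2

theorem join (K : NdK M S) {a b : ℕ} (ha : S.A a) (hb : S.A b) (e : S.nm M b = S.nm M a) :
    S.C M a b :=
  Conn.trans (K.nm a ha).2 (Conn.symm (e ▸ (K.nm b hb).2))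

theorem cf_even (x t : ℕ) : S.cf1 M x (2 * t) = S.nm M (M.β (S.go M t x)) := by
  unfold St.cf1
  rw [if_pos (by omega), show 2 * t / 2 = t by omega]

theorem cf_odd (x t : ℕ) : S.cf1 M x (2 * t + 1) = S.nm M (M.β (S.fc M (S.go M t x))) := by
  unfold St.cf1
  rw [if_neg (by omega), show (2 * t + 1) / 2 = t by omega]

theorem conf {x i : ℕ} (h : S.s1 M r q x) (hi : i < 12) (hc : col M q (S.cf1 M x i)) :
    S.cf1 M x i = x := by
  by_contra e
  exact h.2.2 i hi e hc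

theorem con (h : Sh M S) {d : ℕ} (k : S.con M r q u j d) : S.A d ∧ S.con M r q u j (M.β d) := by
  obtain ⟨hd, k⟩ := k
  obtain ⟨h1, h2⟩ := h.ok.iv d hd
  refine ⟨?_, h1, ?_⟩
  · rcases k with k | k
    · exact k.1.2.1
    · exact h2 ▸ (h.ab _ k.1.2.1).1
  · rw [h2]
    exact k.symm

end SlL

open SlL in
theorem slS : SlS := by
  intro M r S q u j h K
  refine ⟨?_, ?_, ?_, ?_, fun d k => con h k, ?_⟩
  · rintro a b ⟨h0, ha, hl, hs⟩ hb hc
    obtain ⟨k1, k2, -⟩ := K.low a b ha hb hl hc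
    exact ⟨⟨h0, hb, k1, k2 ▸ hs⟩, by unfold St.ch; rw [k2]⟩
  · intro d hd
    obtain ⟨h1, h2⟩ := K.nm d hd
    exact ⟨(pkC h K h1).1, Conn.trans h2 (pkC h K h1).2⟩
  · rintro d ⟨h0, hd, hl, hs⟩
    obtain ⟨t, ht, e⟩ := back K hd hl
    have hD : ¬S.dl M r d := fun k => hs.1 t ht (Or.inl (e.symm ▸ k))
    have hb := (h.ab d hd).1
    have hC : ¬S.C M d (M.β d) := fun k => hD (Or.inr (Or.inl (K.low d _ hd hb hl k).2.2))
    refine ⟨not_lt.1 fun k => hD (Or.inl k), hC, fun k => hC (join K hd hb ?_)⟩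
    have := conf hs (i := 2 * t) (by omega) (by rw [cf_even, e]; exact k.2.2.2.2.1)
    rwa [cf_even, e] at this
  · rintro d ⟨h0, hd, hl, hs⟩ k
    obtain ⟨t, ht, e⟩ := back K hd hl
    refine join K hd k.2.1 ?_
    have := conf hs (i := 2 * t + 1) (by omega) (by rw [cf_odd, e]; exact k.2.2.2.2.1)
    rwa [cf_odd, e] at this
  · rintro d (k | ⟨h0, hd, hs⟩)
    · exact ⟨(con h k).1, Or.inl (con h k).2⟩
    · refine ⟨hd, Or.inr ⟨h0, (h.ab d hd).1, ?_⟩⟩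
      have e : eid M (M.β d) = eid M d := by
        unfold eid
        rw [(h.ok.iv d (h.lt d hd)).2, min_comm]
      rwa [e]

end Pool.Agent.MP_1a6d78_lc.DS.SD
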