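import Pool.Agent.MP_1a6d78_lc.SD.Spec

/-! A balanced closed interval. -/

namespace Pool.Agent.MP_1a6d78_lc.DS.SD

open Classical ED PR DD SC

namespace SpL

open Finset

theorem step (S : Finset ℕ) (pos o : ℕ → ℕ) (B : ℕ) (ho : ∀ d ∈ S, o d ∈ S ∧ o (o d) = d)
    (inj : ∀ a ∈ S, ∀ b ∈ S, pos a = pos b → a = b)
    (nc : ∀ a ∈ S, ∀ c ∈ S, ¬(pos a < pos c ∧ pos c < pos (o a) ∧ pos (o a) < pos (o c)))
    (k : ℕ) : ∀ lo ≤ B, ∀ hi ≤ B,
      (∀ d ∈ S, lo ≤ pos d ∧ pos d < hi → lo ≤ pos (o d) ∧ pos (o d) < hi) →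
      (S.filter fun d => lo ≤ pos d ∧ pos d < hi).card = k → S.card ≤ 3 * k →
      ∃ lo ≤ B, ∃ hi ≤ B, (∀ d ∈ S, lo ≤ pos d ∧ pos d < hi → lo ≤ pos (o d) ∧ pos (o d) < hi) ∧
        S.card ≤ 3 * (S.filter fun d => lo ≤ pos d ∧ pos d < hi).card ∧
        3 * (S.filter fun d => lo ≤ pos d ∧ pos d < hi).card ≤ 2 * S.card + 6 := by
  induction k using Nat.strong_induction_on with
  | _ k ih =>
  intro lo h1 hi h2 cl hk hS
  by_cases c : 3 * k ≤ 2 * S.card + 6
  · exact ⟨lo, h1, hi, h2, cl, hk ▸ hS, hk ▸ c⟩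
  obtain ⟨x, hx, mx⟩ := exists_min_image (S.filter fun d => lo ≤ pos d ∧ pos d < hi) pos
    (card_pos.1 (by omega))
  obtain ⟨xS, x1⟩ := mem_filter.1 hx
  have x2 := cl x xS x1
  have mn : ∀ d ∈ S, lo ≤ pos d ∧ pos d < hi → pos x ≤ pos d := fun d a b =>
    mx d (mem_filter.2 ⟨a, b⟩)
  have x3 := mn _ (ho x xS).1 x2
  have e1 : ∀ d ∈ S, pos (o d) = pos x → pos d = pos (o x) := fun d a b => by
    rw [← inj _ (ho d a).1 _ xS b, (ho d a).2]
  have e2 : ∀ d ∈ S, pos (o d) = pos (o x) → pos d = pos x := fun d a b => by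
    rw [← (ho d a).2, inj _ (ho d a).1 _ (ho x xS).1 b, (ho x xS).2]
  have cA : ∀ d ∈ S, pos x + 1 ≤ pos d ∧ pos d < pos (o x) →
      pos x + 1 ≤ pos (o d) ∧ pos (o d) < pos (o x) := fun d a b => by
    have := mn _ (ho d a).1 (cl d a (by omega))
    have := e1 d a
    have := e2 d a
    have := nc x xS d a
    omega
  have cC : ∀ d ∈ S, pos (o x) + 1 ≤ pos d ∧ pos d < hi →
      pos (o x) + 1 ≤ pos (o d) ∧ pos (o d) < hi := fun d a b => by
    have p := cl d a (by omega)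
    have := mn _ (ho d a).1 p
    have := e1 d a
    have := e2 d a
    have := cA _ (ho d a).1
    rw [(ho d a).2] at this
    omega
  have lt : ∀ l h, pos x < l → h ≤ hi → (S.filter fun d => l ≤ pos d ∧ pos d < h).card < k :=
    fun l h a b => hk ▸ card_lt_card ⟨fun d hd => by
      rw [mem_filter] at hd ⊢
      exact ⟨hd.1, by omega⟩, fun s => by
        have := (mem_filter.1 (s hx)).2
        omega⟩
  have cv : (S.filter fun d => lo ≤ pos d ∧ pos d < hi) ⊆ {x, o x} ∪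
      ((S.filter fun d => pos x + 1 ≤ pos d ∧ pos d < pos (o x)) ∪
        S.filter fun d => pos (o x) + 1 ≤ pos d ∧ pos d < hi) := fun d hd => by
    obtain ⟨a, b⟩ := mem_filter.1 hd
    have := mn d a b
    have := inj d a x xS
    have := inj d a _ (ho x xS).1
    simp only [mem_union, mem_insert, mem_singleton, mem_filter, a, true_and]
    omega
  have := (card_le_card cv).trans ((card_union_le _ _).trans
    (Nat.add_le_add card_le_two (card_union_le _ _)))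
  by_cases g : S.card ≤ 3 * (S.filter fun d => pos x + 1 ≤ pos d ∧ pos d < pos (o x)).card
  · exact ih _ (lt _ _ (by omega) (by omega)) _ (by omega) _ (by omega) cA rfl g
  · exact ih _ (lt _ _ (by omega) le_rfl) _ (by omega) _ h2 cC rfl (by omega)

end SpL

theorem spS : SpS := by
  intro G H U ok hU
  have mS : ∀ d, d ∈ (Finset.range G.n).filter U ↔ d < G.n ∧ U d := fun d => by
    rw [Finset.mem_filter, Finset.mem_range]
  obtain ⟨lo, h1, hi, h2, cl, c1, c2⟩ := SpL.step ((Finset.range G.n).filter U) G.pos G.o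
    (G.n * G.n) (fun d hd => ⟨(mS _).2 ⟨(ok.iv d ((mS d).1 hd).1).1,
      hU d ((mS d).1 hd).1 ((mS d).1 hd).2⟩, (ok.iv d ((mS d).1 hd).1).2⟩)
    (fun a ha b hb => ok.inj a ((mS a).1 ha).1 b ((mS b).1 hb).1)
    (fun a ha b hb => ok.nc a ((mS a).1 ha).1 b ((mS b).1 hb).1) _ 0 (Nat.zero_le _) _ le_rfl
    (fun d hd _ => ⟨Nat.zero_le _, (ok.lt _ (ok.iv d ((mS d).1 hd).1).1).1⟩) rfl (by
      rw [Finset.filter_true_of_mem (p := fun d => 0 ≤ G.pos d ∧ G.pos d < G.n * G.n)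
        fun d hd => ⟨Nat.zero_le _, (ok.lt d ((mS d).1 hd).1).1⟩]
      omega)
  have p1 : lo < G.P := Nat.lt_succ_of_le h1
  have p2 : hi < G.P := Nat.lt_succ_of_le h2
  have hI : ∀ d, G.In (lo * G.P + hi) d ↔ lo ≤ G.pos d ∧ G.pos d < hi := fun d => by
    rw [Ge.In, Nat.add_comm, Nat.add_mul_div_right _ _ (by omega), Nat.add_mul_mod_self_right,
      Nat.div_eq_of_lt p2, Nat.mod_eq_of_lt p2, Nat.zero_add]
  have e : cnt G.n (fun d => U d ∧ G.In (lo * G.P + hi) d) =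
      (((Finset.range G.n).filter U).filter fun d => lo ≤ G.pos d ∧ G.pos d < hi).card := by
    rw [Finset.filter_filter]
    exact congrArg _ (Finset.filter_congr_decidable .. |>.trans
      (Finset.filter_congr fun d _ => by rw [hI]))
  refine ⟨lo * G.P + hi, by nlinarith, fun d a b => ?_, e ▸ c1, e ▸ c2⟩
  rw [hI, hI]
  refine ⟨cl d ((mS d).2 ⟨a, b⟩), fun k => ?_⟩
  have := cl _ ((mS _).2 ⟨(ok.iv d a).1, hU d a b⟩) k
  rwa [(ok.iv d a).2] at this

end Pool.Agent.MP_1a6d78_lc.DS.SD
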