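import Pool.Agent.MP_1a6d78_lc.DD.Basic
import Pool.Agent.MP_1a6d78_lc.SC.ElimF
import Pool.Agent.MP_1a6d78_lc.PD.CkAll
import Pool.Agent.h69.SDKey
import Pool.Agent.h69.SDEuler

/-! PROJECT SD: short distances in plane digraphs in polynomial time and small space.  The
algorithm and the statements of the rows.  Note: SD1a6d78_note_h51.md. -/

namespace Pool.Agent.MP_1a6d78_lc.DS.SD

open Classical ED PR DD SC

noncomputable section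

/-! ### Part 1: the levelled contraction -/

/-- Alive darts, tree darts, marks, the rotation of the nodes, the depths. -/
structure St where
  A : ℕ → Prop
  tr : ℕ → Prop
  mr : ℕ → Prop
  nx : ℕ → ℕ
  dep : ℕ → ℕ

def eid (M : Mp) (d : ℕ) : ℕ := min d (M.β d)

/-- The colour class of the seed `q`; `q % 2` is the type of the round. -/
def col (M : Mp) (q y : ℕ) : Prop := colq M.n 48 (q / 2) y

def Qs (M : Mp) : ℕ := 2 * (48 * (2 * M.n + 3) ^ 2)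

namespace St

variable (M : Mp) (r : ℕ) (S : St) (q u j : ℕ)

def tau (d : ℕ) : ℕ := if S.tr d then M.β d else d

def C : ℕ → ℕ → Prop := Conn M.n M.ρ (S.tau M)

def cost (d : ℕ) : ℕ := 1 + S.dep d + S.dep (M.β d)

def key (d : ℕ) : ℕ := S.cost M d * M.n + eid M d

def fc (d : ℕ) : ℕ := S.nx (M.β d)

def go (t d : ℕ) : ℕ := it M.n S.nx t d

def dl (d : ℕ) : Prop :=
  r < S.cost M d ∨ (∃ t < 6, S.go M t d = M.β d) ∨
    (S.fc M (S.fc M d) = d ∧ S.key M (S.fc M d) < S.key M d)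

def Del (d : ℕ) : Prop := S.dl M r d ∨ S.dl M r (M.β d)

def low (d : ℕ) : Prop := ∃ t < 6, S.go M (t + 1) d = d

def nm (d : ℕ) : ℕ := mn 6 (fun _ => True) (fun t => S.go M t d) d

def cf0 (x i : ℕ) : ℕ := eid M (if i % 2 = 0 then S.nx x else S.fc M x)

def cf1 (x i : ℕ) : ℕ :=
  S.nm M (M.β (if i % 2 = 0 then S.go M (i / 2) x else S.fc M (S.go M (i / 2) x)))

/-- The edge `x` is selected in a round of deletions. -/
def s0 (x : ℕ) : Prop :=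
  S.Del M r x ∧ col M q x ∧ ∀ i < 12, S.cf0 M x i ≠ x → ¬col M q (S.cf0 M x i)

/-- The node with the name `x` is selected in a round of contractions. -/
def s1 (x : ℕ) : Prop :=
  (∀ t < 6, ¬S.Del M r (S.go M t x)) ∧ col M q x ∧
    ∀ i < 12, S.cf1 M x i ≠ x → ¬col M q (S.cf1 M x i)

def sl (d : ℕ) : Prop := q % 2 = 1 ∧ S.A d ∧ S.low M d ∧ S.s1 M r q (S.nm M d)

def ce (x : ℕ) : ℕ := S.go M (amin 8 fun t => S.cost M (S.go M t x)) x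

/-- The dart chosen by the node with the name `x`; the coin is `u = 2 ^ y` and `j`. -/
def pk (x : ℕ) : ℕ :=
  if S.cost M (S.go M (j % 8) x) ≤ u * S.cost M (S.ce M x) then S.go M (j % 8) x else S.ce M x

def ch (d : ℕ) : ℕ := S.pk M u j (S.nm M d)

def con (d : ℕ) : Prop :=
  d < M.n ∧
    ((S.sl M r q d ∧ S.ch M u j d = d) ∨ (S.sl M r q (M.β d) ∧ S.ch M u j (M.β d) = M.β d))

def kill (d : ℕ) : Prop := S.con M r q u j d ∨ (q % 2 = 0 ∧ S.A d ∧ S.s0 M r q (eid M d))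

/-- The marks do not depend on the coin. -/
def mq (d : ℕ) : Prop :=
  (S.sl M r q d ∧ S.nm M d = d) ∨ (q % 2 = 0 ∧ S.A d ∧ S.s0 M r q (eid M d))

def sv (d : ℕ) : Prop := S.A d ∧ ¬S.kill M r q u j d

def ps1 (d : ℕ) : ℕ := S.nx (if S.con M r q u j d then M.β d else d)

def n3 (d : ℕ) : ℕ :=
  if S.sv M r q u j (S.ps1 M r q u j d) then S.ps1 M r q u j d
  else if S.sv M r q u j (S.ps1 M r q u j (S.ps1 M r q u j d)) then
    S.ps1 M r q u j (S.ps1 M r q u j d)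
  else S.ps1 M r q u j (S.ps1 M r q u j (S.ps1 M r q u j d))

def inc (d : ℕ) : ℕ := if S.sl M r q d then S.cost M (S.ch M u j d) else 0

/-- One round. -/
def stp : St where
  A := S.sv M r q u j
  tr d := d < M.n ∧ (S.tr d ∨ S.con M r q u j d)
  mr := S.mq M r q
  nx d := if S.sv M r q u j d then S.n3 M r q u j d else d
  dep d := if S.sv M r q u j d then S.dep d + S.inc M r q u j d else 0

def seed : ℕ := amin (Qs M) fun q => M.n - cnt M.n (S.mq M r q)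

end St

def al0 (M : Mp) (d : ℕ) : Prop := d < M.n ∧ M.β d ≠ d

def st0 (M : Mp) : St where
  A := al0 M
  tr _ := False
  mr _ := False
  nx d := if al0 M d then
    it M.n M.ρ (lst M.n (fun t => al0 M (it M.n M.ρ (t + 1) d)) + 1) d else d
  dep _ := 0

/-- The levels for the coins `cy`, `cj`. -/
def run (M : Mp) (r : ℕ) (cy cj : ℕ → ℕ) : ℕ → St
  | 0 => st0 M
  | l + 1 => (run M r cy cj l).stp M r ((run M r cy cj l).seed M r) (2 ^ cy l) (cj l)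

/-- A walk with free rotations and at most `k` steps along `τ`. -/
inductive Tw (n : ℕ) (ρ τ : ℕ → ℕ) (a : ℕ) : ℕ → ℕ → Prop
  | nil (k : ℕ) : Tw n ρ τ a a k
  | rot {b k : ℕ} : Tw n ρ τ a b k → b < n → Tw n ρ τ a (ρ b) k
  | edge {b k : ℕ} : Tw n ρ τ a b k → b < n → Tw n ρ τ a (τ b) (k + 1)

/-- TW -/
structure TwK : Prop where
  mono : ∀ {n ρ τ a b k k'}, Tw n ρ τ a b k → k ≤ k' → Tw n ρ τ a b k'
  trans : ∀ {n ρ τ a b c k k'}, Tw n ρ τ a b k → Tw n ρ τ b c k' → Tw n ρ τ a c (k + k')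
  lt : ∀ {n ρ τ a b k}, Pm n ρ → Iv n τ → a < n → Tw n ρ τ a b k → b < n
  symm : ∀ {n ρ τ a b k}, Pm n ρ → Iv n τ → a < n → Tw n ρ τ a b k → Tw n ρ τ b a k
  sub : ∀ {n ρ τ τ' a b k}, (∀ d < n, τ d = d ∨ τ' d = τ d) → Tw n ρ τ a b k → Tw n ρ τ' a b k
  sc : ∀ {n ρ τ a b}, Pm n ρ → a < n → Sc n ρ a b → Tw n ρ τ a b 0

/-- The shape of a state. -/
structure Sh (M : Mp) (S : St) : Prop where
  ok : M.Ok
  lt : ∀ d, S.A d → d < M.n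
  tl : ∀ d, S.tr d → d < M.n
  ab : ∀ d, S.A d → S.A (M.β d) ∧ M.β d ≠ d ∧ ¬S.tr d
  tb : ∀ d, S.tr d → S.tr (M.β d)
  fix : ∀ d, ¬S.A d → S.nx d = d ∧ S.dep d = 0
  fr : SDE.FR M.n S.A (fun d => M.ρ (S.tau M d)) S.nx
  one : ∀ d < M.n, Sc M.n (fun d => M.ρ (S.tau M d)) d (S.tau M d)

/-- The depths after `l` rounds. -/
def Dp (M : Mp) (r l : ℕ) (S : St) : Prop :=
  (∀ d, S.dep d ≤ l * r) ∧ ∃ rt : ℕ → ℕ, ∀ d < M.n, rt (M.ρ d) = rt d ∧ rt (S.tau M d) = rt d ∧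
    Tw M.n M.ρ (S.tau M) d (rt d) (l * r) ∧ (S.A d → Tw M.n M.ρ (S.tau M) d (rt d) (S.dep d))

/-- NODE: consequences of the shape. -/
structure NdK (M : Mp) (S : St) : Prop where
  iv : Iv M.n (S.tau M)
  sb : Sb M.n (S.tau M) M.β
  pm : Pm M.n S.nx
  nx : ∀ d, S.A d → S.A (S.nx d)
  go : ∀ t d, S.A d → S.go M t d = S.nx^[t] d ∧ S.A (S.go M t d)
  cs : ∀ a < M.n, ∀ b < M.n, S.C M a b ↔ Sc M.n (fun d => M.ρ (S.tau M d)) a b
  sc : ∀ a b, S.A a → S.A b → (S.C M a b ↔ Sc M.n S.nx a b)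
  br : ∀ d < M.n, S.tau M d ≠ d → ¬Conn M.n M.ρ (del (S.tau M) d) d (S.tau M d)
  nm : ∀ d, S.A d → S.A (S.nm M d) ∧ S.C M d (S.nm M d)
  low : ∀ a b, S.A a → S.A b → S.low M a → S.C M a b →
    S.low M b ∧ S.nm M b = S.nm M a ∧ ∃ t < 6, S.go M t a = b

def NdS : Prop := ∀ M S, Sh M S → NdK M S

/-- BASE -/
def BaseS : Prop := TwK → ∀ (M : Mp) r, M.Ok → Sh M (st0 M) ∧ Dp M r 0 (st0 M)

/-- SEL: the selected nodes. -/
structure SlK (M : Mp) (r : ℕ) (S : St) (q u j : ℕ) : Prop where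
  cl : ∀ a b, S.sl M r q a → S.A b → S.C M a b → S.sl M r q b ∧ S.ch M u j b = S.ch M u j a
  ch : ∀ d, S.A d → S.A (S.ch M u j d) ∧ S.C M d (S.ch M u j d)
  nd : ∀ d, S.sl M r q d → S.cost M d ≤ r ∧ ¬S.C M d (M.β d) ∧ ¬S.sl M r q (M.β d)
  two : ∀ d, S.sl M r q d → S.sl M r q (M.β (S.fc M d)) → S.C M d (M.β (S.fc M d))
  con : ∀ d, S.con M r q u j d → S.A d ∧ S.con M r q u j (M.β d)
  kill : ∀ d, S.kill M r q u j d → S.A d ∧ S.kill M r q u j (M.β d)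

def SlS : Prop := ∀ M r S q u j, Sh M S → NdK M S → SlK M r S q u j

/-- THREE: a survivor is found in three steps. -/
def ThS : Prop :=
  ∀ M r S q u j, Sh M S → NdK M S → SlK M r S q u j →
    SDE.FR M.n (S.sv M r q u j) (S.ps1 M r q u j) (S.stp M r q u j).nx

/-- SHAPE -/
def ShS : Prop :=
  ThS → ∀ M r S q u j, Sh M S → NdK M S → SlK M r S q u j → Sh M (S.stp M r q u j)

/-- DEPTH -/
def DpS : Prop :=
  TwK → ∀ M r l S q u j, Sh M S → NdK M S → SlK M r S q u j → Dp M r l S →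
    Dp M r (l + 1) (S.stp M r q u j)

/-- GAIN -/
def GnS : Prop :=
  ∀ M r S, Sh M S → NdK M S → (∀ q u j, SlK M r S q u j) →
    (∃ q < Qs M, cnt M.n S.A ≤ 40000 * cnt M.n (S.mq M r q)) ∧
      ∀ q u j, cnt M.n (S.sv M r q u j) + cnt M.n (S.mq M r q) ≤ cnt M.n S.A

/-- All levels are sound. -/
def RunK : Prop :=
  ∀ (M : Mp) r cy cj l, M.Ok → Sh M (run M r cy cj l) ∧ Dp M r l (run M r cy cj l)

/-- END: nothing is alive at the end. -/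
def EndS : Prop :=
  RunK → NdS → SlS → GnS → ∀ (M : Mp) r cy cj K L, M.Ok → 40000 ≤ K → M.n < 2 ^ L →
    ∀ d, ¬(run M r cy cj (K * L)).A d

def mc (M : Mp) (r : ℕ) (S : St) (e : ℕ) : ℕ :=
  lst (r + 2) fun c => c = r + 1 ∨
    ∃ f, S.A f ∧ S.C M f e ∧ S.C M (M.β f) (M.β e) ∧ S.cost M f = c

def psi (M : Mp) (r : ℕ) (S : St) (e : ℕ) : ℝ :=
  if S.C M e (M.β e) then 0 else (mc M r S e : ℝ) ^ (1 / 32 : ℝ)

/-- KILL: why an edge dies. -/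
def KlS : Prop :=
  ∀ M r S q u j, Sh M S → NdK M S → SlK M r S q u j →
    (∀ a b, S.C M a b → (S.stp M r q u j).C M a b) ∧
    (∀ d, S.con M r q u j d → (S.stp M r q u j).C M d (M.β d)) ∧
    ∀ d, S.kill M r q u j d → S.con M r q u j d ∨ (q % 2 = 0 ∧ (r < S.cost M d ∨
      S.C M d (M.β d) ∨ ∃ f, S.sv M r q u j f ∧ S.C M f d ∧ S.C M (M.β f) (M.β d) ∧
        S.cost M f ≤ S.cost M d))

/-- KEY: the potential of an edge is a supermartingale. -/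
def KeyS : Prop :=
  KlS → ∀ M r S q e, Sh M S → NdK M S → (∀ u j, SlK M r S q u j) → e < M.n →
    ∑ y ∈ Finset.range (r + 1), ∑ j ∈ Finset.range 8,
      SDKey.P r y / 8 * psi M r (S.stp M r q (2 ^ y) j) e ≤ psi M r S e

/-- GOOD: some cheap sequence of coins keeps `k` given edges. -/
def GdS : Prop :=
  RunK → NdS → SlS → KlS → KeyS → ∀ (M : Mp) (k T : ℕ) (P : Finset ℕ), M.Ok → 1 ≤ k → 1 ≤ T →
    P.card ≤ k → (∀ e ∈ P, e < M.n) → ∃ cy cj : ℕ → ℕ, ∑ l ∈ Finset.range T, cy l ≤ 2 * T ∧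
      (∀ l, cj l < 8) ∧ ((∀ d, ¬(run M ((2 * k) ^ 32) cy cj T).A d) →
        ∀ e ∈ P, (run M ((2 * k) ^ 32) cy cj T).C M e (M.β e))

def cb (T p l : ℕ) : ℕ := sel (3 * T + 1) (fun i => 8 ≤ dg 16 p i) l

def cyy (T p l : ℕ) : ℕ := cb T p (l + 1) - cb T p l - 1

def cjj (p l : ℕ) : ℕ := dg 16 p l % 8

/-- COIN -/
def CoS : Prop :=
  (∀ T (cy cj : ℕ → ℕ), ∑ l ∈ Finset.range T, cy l ≤ 2 * T → (∀ l, cj l < 8) →
    ∃ p < 16 ^ (3 * T + 1), ∀ l < T, cyy T p l = cy l ∧ cjj p l = cj l) ∧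
  (∀ T p l, cyy T p l ≤ 3 * T + 1) ∧
  ∀ M r (cy cj cy' cj' : ℕ → ℕ) T, (∀ l < T, cy l = cy' l ∧ cj l = cj' l) →
    run M r cy cj T = run M r cy' cj' T

/-! ### Part 2: distances inside a shallow forest -/

/-- A walk along the darts with `P`. -/
inductive Wu (n : ℕ) (nd β w : ℕ → ℕ) (P : ℕ → Prop) (u : ℕ) : ℕ → ℕ → Prop
  | nil : Wu n nd β w P u u 0
  | step {d c : ℕ} : Wu n nd β w P u (nd d) c → d < n → P d → Wu n nd β w P u (nd (β d)) (c + w d)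

def bv (n N : ℕ) (B : ℕ → Prop) (leg : ℕ → ℕ → ℕ) (u m : ℕ) : List ℕ :=
  itr (fun _ V => tab N fun e => mn N (fun _ => True)
    (fun e' => gt V e' + leg (sel n B e') (sel n B e)) (leg u (sel n B e)))
    (tab N fun e => leg u (sel n B e)) m

/-- Bellman-Ford on the set `B`. -/
def bf (n N θ : ℕ) (B : ℕ → Prop) (leg : ℕ → ℕ → ℕ) (u v : ℕ) : ℕ :=
  mn N (fun _ => True) (fun e => gt (bv n N B leg u θ) e + leg (sel n B e) v) (leg u v)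

/-- A chain of `m + 1` legs. -/
inductive Ch (n : ℕ) (B : ℕ → Prop) (leg : ℕ → ℕ → ℕ) (u : ℕ) : ℕ → ℕ → ℕ → Prop
  | one (z : ℕ) : Ch n B leg u 0 z (leg u z)
  | step {m y c : ℕ} (z : ℕ) : Ch n B leg u m y c → y < n → B y →
      Ch n B leg u (m + 1) z (c + leg y z)

/-- BF -/
structure BfK : Prop where
  snd : ∀ (n N θ Z : ℕ) (B : ℕ → Prop) (leg : ℕ → ℕ → ℕ) (W : ℕ → ℕ → ℕ → Prop),
    (∀ a b c x y, W a b x → W b c y → W a c (x + y)) → (∀ y z, leg y z < Z → W y z (leg y z)) →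
      ∀ u v, bf n N θ B leg u v < Z → W u v (bf n N θ B leg u v)
  cpl : ∀ (n N θ : ℕ) (B : ℕ → Prop) (leg : ℕ → ℕ → ℕ) u m v c, cnt n B ≤ N → m ≤ θ →
    Ch n B leg u m v c → bf n N θ B leg u v ≤ c
  le : ∀ (n N θ : ℕ) (B : ℕ → Prop) (leg : ℕ → ℕ → ℕ) u v, bf n N θ B leg u v ≤ leg u v
  congr : ∀ (n N θ : ℕ) (B : ℕ → Prop) (leg leg' : ℕ → ℕ → ℕ) u v, u ≤ n → v ≤ n →
    (∀ y ≤ n, ∀ z ≤ n, leg y z = leg' y z) → bf n N θ B leg u v = bf n N θ B leg' u v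

def l0 (n Z : ℕ) (nd β w : ℕ → ℕ) (P : ℕ → Prop) (y z : ℕ) : ℕ :=
  if y = z then 0 else mn n (fun d => P d ∧ nd d = y ∧ nd (β d) = z) w Z

/-- DEC: a walk is cut into legs. -/
structure DcK : Prop where
  trans : ∀ {n nd β w P a b c x y}, Wu n nd β w P a b x → Wu n nd β w P b c y →
    Wu n nd β w P a c (x + y)
  mono : ∀ {n nd β w} {P P' : ℕ → Prop} {a b x}, (∀ d < n, P d → P' d) → Wu n nd β w P a b x →
    Wu n nd β w P' a b x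
  s0 : ∀ n Z nd β w P y z, l0 n Z nd β w P y z < Z → Wu n nd β w P y z (l0 n Z nd β w P y z)
  c0 : ∀ (n Z : ℕ) (nd β w : ℕ → ℕ) (P B : ℕ → Prop) u v c,
    (∀ d < n, P d → 1 ≤ w d ∧ nd d < n ∧ B (nd d)) → Wu n nd β w P u v c →
      ∃ m ≤ c, ∃ c' ≤ c, Ch n B (l0 n Z nd β w P) u m v c'
  c1 : ∀ (n Z W : ℕ) (nd β w : ℕ → ℕ) (P B : ℕ → Prop) (Pw : ℕ → ℕ → Prop) (g : ℕ → ℕ → ℕ → ℕ)
    u v c, 0 < W → (∀ d < n, P d → 1 ≤ w d ∧ nd d < n ∧ ∃ i < W, Pw i d) →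
    (∀ d < n, ∀ d' < n, ∀ i < W, P d → P d' → Pw i d → nd (β d) = nd d' → Pw i d' ∨ B (nd d')) →
    (∀ i < W, ∀ y z c', c' < Z → Wu n nd β w (Pw i) y z c' → g i y z ≤ c') → c < Z →
    Wu n nd β w P u v c → ∃ m ≤ c, ∃ c' ≤ c,
      Ch n B (fun y z => mn W (fun _ => True) (fun i => g i y z) Z) u m v c'

/-- Darts on a line: tree edges `τ`, chords `o`, usable arcs `ar`. -/
structure Ge where
  n : ℕ
  nd : ℕ → ℕ
  β : ℕ → ℕ
  τ : ℕ → ℕ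
  o : ℕ → ℕ
  pos : ℕ → ℕ
  w : ℕ → ℕ
  ar : ℕ → Prop

/-- Fan-out `W = 2 ^ i`, binary depth `Lm`, size of the vectors, threshold, length of lists. -/
structure Pa where
  i : ℕ
  W : ℕ
  Lm : ℕ
  N : ℕ
  θ : ℕ
  K : ℕ

namespace Ge

variable (G : Ge) (Λ : Pa)

def P : ℕ := G.n * G.n + 1

def In (z d : ℕ) : Prop := z / G.P ≤ G.pos d ∧ G.pos d < z % G.P

def bal (U : ℕ → Prop) (z : ℕ) : Prop :=
  (∀ d < G.n, U d → (G.In z d ↔ G.In z (G.o d))) ∧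
    cnt G.n U ≤ 3 * cnt G.n (fun d => U d ∧ G.In z d) ∧
    3 * cnt G.n (fun d => U d ∧ G.In z d) ≤ 2 * cnt G.n U + 6

def spl (U : ℕ → Prop) : ℕ := lst (G.P * G.P) (G.bal U)

def mem (C : List ℕ) (a l d : ℕ) : Prop := ∀ h < l, G.In (gt C h) d ↔ dg 2 a h = 1

def cuts (K a l : ℕ) : List ℕ :=
  itr (fun h C => El.upd K C h (G.spl (G.mem C a h))) (tab K fun _ => 0) l

/-- The region with the address `a` at binary depth `l`. -/
def U (K a l : ℕ) : ℕ → Prop := G.mem (G.cuts K a l) a l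

/-- The vertices that are cut at the position `p`. -/
def X (p v : ℕ) : Prop :=
  ∃ a < G.n, ∃ b < G.n, G.nd a = v ∧ (G.nd b = v ∨ G.nd (G.τ b) = v) ∧
    ¬(G.pos a < p ↔ G.pos b < p)

def B1 (a l e v : ℕ) : Prop :=
  ∃ w < Λ.W, ∃ h < Λ.i, G.X (gt (G.cuts Λ.K (a + w * e) (l + Λ.i)) (l + h) / G.P) v ∨
    G.X (gt (G.cuts Λ.K (a + w * e) (l + Λ.i)) (l + h) % G.P) v

def B0 (a l v : ℕ) : Prop := ∃ d < G.n, G.U Λ.K a l d ∧ G.nd d = v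

def arc (a l d : ℕ) : Prop := G.ar d ∧ G.U Λ.K a l d

/-- One frame; `e = 2 ^ l`. -/
def bd (l a e : ℕ) (g : ℕ → ℕ → ℕ → ℕ) (u v : ℕ) : ℕ :=
  if Λ.Lm ≤ l then
    bf G.n Λ.N Λ.θ (G.B0 Λ a l) (l0 G.n (Λ.θ + 1) G.nd G.β G.w (G.arc Λ a l)) u v
  else bf G.n Λ.N Λ.θ (G.B1 Λ a l e)
    (fun y z => mn Λ.W (fun _ => True) (fun w => g w y z) (Λ.θ + 1)) u v

def dr : ℕ → ℕ → ℕ → ℕ → ℕ → ℕ
  | 0 => fun _ _ _ _ => 0
  | D + 1 => fun l a => G.bd Λ l a (2 ^ l) fun w => dr D (l + Λ.i) (a + w * 2 ^ l)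

structure Ok (H : ℕ) : Prop where
  inj : ∀ a < G.n, ∀ b < G.n, G.pos a = G.pos b → a = b
  lt : ∀ d < G.n, G.pos d < G.n * G.n ∧ G.nd d < G.n
  iv : Iv G.n G.o
  nc : Nc G.n G.pos G.o
  ar : ∀ d < G.n, G.ar d → 1 ≤ G.w d ∧ (G.β d = G.τ d ∨ G.β d = G.o d)
  cut : ∀ p, cnt G.n (G.X p) ≤ 2 * H + 1

end Ge

structure Pa.Ok (Λ : Pa) (n H : ℕ) : Prop where
  i : 2 ≤ Λ.i
  W : Λ.W = 2 ^ Λ.i
  Lm : ∃ L, n < 2 ^ L ∧ Λ.Lm = 2 * L
  N : Λ.W * Λ.i * (2 * (2 * H + 1)) ≤ Λ.N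
  K : Λ.Lm + Λ.i ≤ Λ.K

/-- SPLIT -/
def SpS : Prop :=
  ∀ (G : Ge) H (U : ℕ → Prop), G.Ok H → (∀ d < G.n, U d → U (G.o d)) →
    ∃ z < G.P * G.P, G.bal U z

/-- REG: the regions. -/
structure RgK (G : Ge) (K : ℕ) : Prop where
  zero : ∀ a d, G.U K a 0 d
  pre : ∀ a w l l', a < 2 ^ l → l + l' ≤ K → ∀ d, G.U K (a + w * 2 ^ l) (l + l') d ↔ G.U K a l d ∧
    ∀ h < l', G.In (gt (G.cuts K (a + w * 2 ^ l) (l + l')) (l + h)) d ↔
      dg 2 (a + w * 2 ^ l) (l + h) = 1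
  cov : ∀ a l l', a < 2 ^ l → l + l' ≤ K → ∀ d, G.U K a l d →
    ∃ w < 2 ^ l', G.U K (a + w * 2 ^ l) (l + l') d
  suc : ∀ a l, l < K → ∀ d, G.U K a (l + 1) d ↔ G.U K a l d ∧
    (G.In (G.spl (G.U K a l)) d ↔ dg 2 a l = 1)

def RgS : Prop := ∀ G K, RgK G K

/-- SIZE -/
def SzS : Prop :=
  SpS → ∀ (G : Ge) H K, G.Ok H → RgK G K → ∀ a l, l ≤ K →
    (∀ d < G.n, G.U K a l d → G.U K a l (G.o d)) ∧
      ∀ L, G.n < 2 ^ L → 2 * L ≤ l → cnt G.n (G.U K a l) ≤ 7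

/-- REC: the recursion is exact below the threshold. -/
def RcS : Prop :=
  BfK → DcK → SpS → SzS → RgS → ∀ (G : Ge) (Λ : Pa) H, G.Ok H → Λ.Ok G.n H → ∀ D l a,
    a < 2 ^ l → l < Λ.Lm + Λ.i → Λ.Lm + Λ.i < l + D * Λ.i + 1 → ∀ u v,
      (G.dr Λ D l a u v ≤ Λ.θ → Wu G.n G.nd G.β G.w (G.arc Λ a l) u v (G.dr Λ D l a u v)) ∧
      ∀ c ≤ Λ.θ, Wu G.n G.nd G.β G.w (G.arc Λ a l) u v c → G.dr Λ D l a u v ≤ c

/-- The line of the contours of the forest `τ`. -/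
def geo (M : Mp) (us : ℕ → Prop) (w τ : ℕ → ℕ) : Ge where
  n := M.n
  nd := M.nd
  β := M.β
  τ := τ
  o := out (fun d => if Sc M.n (fun d => M.ρ (τ d)) d (M.β d) then M.β d else d) τ
  pos := ps M.n (fun d => M.ρ (τ d)) fun _ => True
  w := w
  ar d := us d ∧ Sc M.n (fun d => M.ρ (τ d)) d (M.β d)

/-- CONT: the contours. -/
structure CtK (n : ℕ) (ρ τ o pos : ℕ → ℕ) : Prop where
  inj : ∀ a < n, ∀ b < n, pos a = pos b → a = b
  lt : ∀ d < n, pos d < n * n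
  iv : Iv n o
  nco : Nc n pos o
  nci : Nc n pos τ
  pre : ∀ f < n, pos (ρ f) = pos (τ f) + 1 ∨
    (pos (ρ f) ≤ pos f ∧ ∀ d < n, pos d < pos (ρ f) → pos (τ d) < pos (ρ f))
  blk : ∀ a < n, ∀ b < n, pos a ≤ pos b → pos b < pos (τ a) → Conn n ρ τ a b

def CtS : Prop :=
  ∀ M (S : St) us w, Sh M S → NdK M S → CtK M.n M.ρ (S.tau M) (geo M us w (S.tau M)).o
    (geo M us w (S.tau M)).pos

/-- CUT -/
def CuS : Prop :=
  ∀ (G : Ge) (ρ : ℕ → ℕ) H, Pm G.n ρ → Iv G.n G.τ → CtK G.n ρ G.τ G.o G.pos →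
    (∀ a < G.n, ∀ b < G.n, G.nd a = G.nd b ↔ Sc G.n ρ a b) → (∀ d < G.n, G.nd d < G.n) →
    (∀ a < G.n, ∀ b < G.n, Conn G.n ρ G.τ a b → Tw G.n ρ G.τ a b H) →
      ∀ p, cnt G.n (G.X p) ≤ 2 * H + 1

/-- GEO -/
def GeS : Prop :=
  TwK → CtS → CuS → ∀ M r l (S : St) (us : ℕ → Prop) w, Sh M S → NdK M S → Dp M r l S →
    (∀ d < M.n, us d → 1 ≤ w d) → (geo M us w (S.tau M)).Ok (2 * (l * r))

/-- PATH -/
def PtS : Prop :=
  ∀ (M : Mp) (us : ℕ → Prop) (w : ℕ → ℕ) s t c, M.Ok → s < M.n → t < M.n →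
    (∀ P : ℕ → Prop, (∀ d < M.n, P d → us d) → Wu M.n M.nd M.β w P (M.nd s) (M.nd t) c →
      Dw M us w s t c) ∧
    ((∀ d < M.n, us d → 1 ≤ w d) → Dw M us w s t c → ∃ F : Finset ℕ, F.card ≤ c ∧
      (∀ e ∈ F, e < M.n) ∧ ∀ P : ℕ → Prop, (∀ e ∈ F, us e → P e) →
        Wu M.n M.nd M.β w P (M.nd s) (M.nd t) c)

/-! ### The top -/

def enc (S : St) (l : List ℕ) : ℕ :=
  if gt l 0 = 0 then (if S.A (gt l 1) then 1 else 0)
  else if gt l 0 = 1 then (if S.tr (gt l 1) then 1 else 0)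
  else if gt l 0 = 2 then (if S.mr (gt l 1) then 1 else 0)
  else if gt l 0 = 3 then S.nx (gt l 1) else S.dep (gt l 1)

def dec (n : ℕ) (g : Orc) : St where
  A d := d < n ∧ g [0, min n d] = 1
  tr d := d < n ∧ g [1, min n d] = 1
  mr d := d < n ∧ g [2, min n d] = 1
  nx d := if d < n then g [3, min n d] else d
  dep d := if d < n then g [4, min n d] else 0

section
variable (K : ℕ) (x : List Bool)

def bt : ℕ := (x.length + 2) ^ (32 * K + 80)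

def rr : ℕ := (2 * (num x 3 + 1)) ^ 32

def stq (p q l : ℕ) (g : Orc) : List ℕ → ℕ :=
  enc ((dec (num x 0) g).stp (inp x) (rr x) q (2 ^ cyy (K * lg x) p l) (cjj p l))

def phi (_ : ℕ) (g : Orc) : ℕ := num x 0 - cnt (num x 0) (dec (num x 0) g).mr

def chn (p : ℕ) : Orc :=
  El.chain 2 (bt K x) (Qs (inp x)) (enc (st0 (inp x))) (stq K x p) (phi x) (K * lg x)

def gx (p : ℕ) : Ge :=
  geo (inp x) (us x) (wt x) ((dec (num x 0) (chn K x (min (bt K x) p))).tau (inp x))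

def mx : ℕ := num x 3 + lg x + 2

def pa : Pa where
  i := Nat.log 2 (mx x) + 1
  W := 2 ^ (Nat.log 2 (mx x) + 1)
  Lm := 2 * lg x
  N := 2 ^ (Nat.log 2 (mx x) + 1) * (Nat.log 2 (mx x) + 1) * (2 * (2 * (2 * (K * lg x * rr x)) + 1))
  θ := num x 3
  K := 2 * lg x + (Nat.log 2 (mx x) + 1)

def Dx : ℕ := 2 * lg x / (Nat.log 2 (mx x) + 1) + 2

def dt (p : ℕ) : ℕ :=
  (gx K x p).dr (pa K x) (Dx x) 0 0 (min (num x 0) ((inp x).nd (num x 1)))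
    (min (num x 0) ((inp x).nd (num x 2)))

def sd : ℕ := if ∃ p < bt K x, dt K x p ≤ num x 3 then 1 else 0

def Fr (g : Orc) (L : List ℕ) : ℕ :=
  min (bt K x) ((gx K x (gt L 2)).bd (pa K x) (gt L 3) (gt L 4) (min (bt K x) (2 ^ gt L 3))
    (fun w y z => g (GM.clip 5 (bt K x) [y, z, gt L 2, gt L 3 + (pa K x).i,
      gt L 4 + w * min (bt K x) (2 ^ gt L 3)])) (gt L 0) (gt L 1))

def posW : Prop := ∀ d < num x 0, us x d → 1 ≤ wt x d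

end

/-- ENC: the chain of oracles codes the levels. -/
def EnS : Prop :=
  RunK → NdS → ∀ K x p, (inp x).Ok →
    dec (num x 0) (chn K x p) = run (inp x) (rr x) (cyy (K * lg x) p) (cjj p) (K * lg x)

/-- TOP -/
def TpS : Prop :=
  RunK → NdS → SlS → GnS → EndS → GdS → KlS → KeyS → CoS → EnS → TwK → CtS → CuS → GeS → PtS →
    BfK → DcK → SpS → SzS → RgS → RcS → ∀ K x, 40000 ≤ K → (inp x).Ok → num x 2 < num x 0 →
      posW x → (sd K x = 1 ↔ ∃ c ≤ num x 3, Dw (inp x) (us x) (wt x) (num x 1) (num x 2) c)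

/-! ### Computability -/

/-- KIT -/
structure KtK : Prop where
  p2 : ∀ (κ : List Bool → ℕ) (b y : List Bool → Env → ℕ), Cn κ b → Cn κ y →
    Cn κ fun x ρ => min (b x ρ) (2 ^ y x ρ)
  log : ∀ (κ : List Bool → ℕ) (a : List Bool → Env → ℕ), Cn κ a → Cn κ fun x ρ => Nat.log 2 (a x ρ)
  us : ∀ κ, P1 κ fun x _ => us x
  bt : ∀ K κ, Cn κ fun x _ => bt K x
  rr : ∀ κ, Cn κ fun x _ => rr x
  mx : ∀ κ, Cn κ fun x _ => mx x
  pi : ∀ K κ, (Cn κ fun x _ => (pa K x).i) ∧ (Cn κ fun x _ => (pa K x).W) ∧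
    (Cn κ fun x _ => (pa K x).Lm) ∧ (Cn κ fun x _ => (pa K x).N) ∧
    (Cn κ fun x _ => (pa K x).θ) ∧ (Cn κ fun x _ => (pa K x).K) ∧ Cn κ fun x _ => Dx x
  co : ∀ K (κ : List Bool → ℕ) (p l : List Bool → Env → ℕ), Cn κ p → Cn κ l →
    (Cn κ fun x ρ => 2 ^ cyy (K * lg x) (p x ρ) (l x ρ)) ∧ Cn κ fun x ρ => cjj (p x ρ) (l x ρ)
  pw : ∀ κ, Cp κ fun x _ => posW x

def KtS : Prop := PiK 1 → KtK

/-- ELIMC: the chain is a function of the plain calculus. -/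
def ElS : Prop :=
  GM.RecCS → ∀ (r m b J : ℕ), 1 ≤ b → J ≤ 2 ^ (b - 1) →
    ∀ (β W : List Bool → ℕ) (base : List Bool → List ℕ → ℕ)
      (step : List Bool → ℕ → ℕ → ℕ → Orc → List ℕ → ℕ) (Φ : List Bool → ℕ → Orc → ℕ),
      (β = fun x => (x.length + 2) ^ b) → (∀ x, W x ≤ β x) →
      (∀ κ : List Bool → ℕ, (∀ x, r ≤ κ x) → (Cn κ fun x ρ => base x (ρ 0)) ∧
        (Nq κ (fun _ => m) β fun x g ρ =>
          step x (hd (ρ 0)) (hd (ρ 1)) (hd (ρ 2)) g (ρ 3)) ∧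
        (Nq κ β β fun x g ρ => Φ x (hd (ρ 0)) g) ∧ Cn κ fun x _ => W x) →
      Ev (fun x => lg x ^ 2) fun κ => Cn κ fun x ρ => El.chain r (β x) (W x) (base x)
        (step x (min (β x) (hd (ρ 0)))) (Φ x) (J * lg x) (ρ 1)

/-- A state given by an oracle. -/
structure StQ (κ β : List Bool → ℕ) (S : List Bool → Orc → St) : Prop where
  A : P1q κ (fun _ => 12) β fun x g _ => (S x g).A
  tr : P1q κ (fun _ => 12) β fun x g _ => (S x g).tr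
  nx : Fq κ (fun _ => 12) β fun x g _ => (S x g).nx
  dep : Fq κ (fun _ => 12) β fun x g _ => (S x g).dep

/-- SQ1: the tests that do not depend on the seed. -/
structure Q1K (κ β : List Bool → ℕ) (S : List Bool → Orc → St) : Prop where
  cost : Fq κ (fun _ => 12) β fun x g _ => (S x g).cost (inp x)
  Del : P1q κ (fun _ => 12) β fun x g _ => (S x g).Del (inp x) (rr x)
  low : P1q κ (fun _ => 12) β fun x g _ => (S x g).low (inp x)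
  nm : Fq κ (fun _ => 12) β fun x g _ => (S x g).nm (inp x)
  ce : Fq κ (fun _ => 12) β fun x g _ => (S x g).ce (inp x)
  cf : ∀ a i : List Bool → Orc → Env → ℕ, Nq κ (fun _ => 12) β a → Nq κ (fun _ => 12) β i →
    (∀ x g ρ, i x g ρ ≤ 12) →
      (Nq κ (fun _ => 12) β fun x g ρ => (S x g).go (inp x) (i x g ρ) (a x g ρ)) ∧
      (Nq κ (fun _ => 12) β fun x g ρ => (S x g).cf0 (inp x) (a x g ρ) (i x g ρ)) ∧
      Nq κ (fun _ => 12) β fun x g ρ => (S x g).cf1 (inp x) (a x g ρ) (i x g ρ)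

def Q1S : Prop := PiK 1 → KtK → ∀ κ β S, StQ κ β S → Q1K κ β S

/-- SQ2: one round. -/
def Q2S : Prop :=
  PiK 1 → KtK → ∀ κ β S, StQ κ β S → Q1K κ β S →
    Nq κ (fun _ => 12) β fun x g ρ =>
      enc ((S x g).stp (inp x) (rr x) (hd (ρ 0)) (hd (ρ 1)) (hd (ρ 2))) (ρ 3)

/-- CHAIN -/
def ChS : Prop :=
  GM.RecCS → ElS → PiK 1 → KtK → Q1S → Q2S → ∀ K, Ev (fun x => lg x ^ 2) fun κ =>
    Cp κ fun x ρ => (dec (num x 0) (chn K x (min (bt K x) (hd (ρ 0))))).tr (hd (ρ 1))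

/-- A line that depends on the input and on a number. -/
structure GeC (κ : List Bool → ℕ) (G : List Bool → ℕ → Ge) : Prop where
  n : F1 κ fun x _ p => (G x p).n
  nd : F2 κ fun x p => (G x p).nd
  β : F2 κ fun x p => (G x p).β
  τ : F2 κ fun x p => (G x p).τ
  o : F2 κ fun x p => (G x p).o
  pos : F2 κ fun x p => (G x p).pos
  w : F2 κ fun x p => (G x p).w
  ar : P2 κ fun x p => (G x p).ar

/-- GC -/
def GcS : Prop :=
  PiK 1 → KtK → ∀ K κ,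
    (Cp κ fun x ρ => (dec (num x 0) (chn K x (min (bt K x) (hd (ρ 0))))).tr (hd (ρ 1))) →
      GeC κ (gx K)

/-- RC: the regions are computable. -/
structure RgC (K : ℕ) (κ : List Bool → ℕ) (G : List Bool → ℕ → Ge) : Prop where
  B0 : ∀ p a l v : List Bool → Env → ℕ, Cn κ p → Cn κ a → Cn κ l → Cn κ v →
    Cp κ fun x ρ => (G x (p x ρ)).B0 (pa K x) (a x ρ) (l x ρ) (v x ρ)
  B1 : ∀ p a l e v : List Bool → Env → ℕ, Cn κ p → Cn κ a → Cn κ l → Cn κ e → Cn κ v →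
    Cp κ fun x ρ => (G x (p x ρ)).B1 (pa K x) (a x ρ) (l x ρ) (e x ρ) (v x ρ)
  l0 : ∀ p a l y z : List Bool → Env → ℕ, Cn κ p → Cn κ a → Cn κ l → Cn κ y → Cn κ z →
    Cn κ fun x ρ => l0 (G x (p x ρ)).n ((pa K x).θ + 1) (G x (p x ρ)).nd (G x (p x ρ)).β
      (G x (p x ρ)).w ((G x (p x ρ)).arc (pa K x) (a x ρ) (l x ρ)) (y x ρ) (z x ρ)

def RgCS : Prop := KtK → ∀ K κ G, (∀ x, (pa K x).K ≤ κ x) → GeC κ G → RgC K κ G

/-- BFQ: Bellman-Ford with calls in the legs. -/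
def BqS : Prop :=
  ∀ (κ q β N θ : List Bool → ℕ) (n : List Bool → Env → ℕ) (B : List Bool → Env → ℕ → Prop)
    (leg : List Bool → Orc → Env → ℕ → ℕ → ℕ) (u v : List Bool → Orc → Env → ℕ),
    (∀ x, N x ≤ κ x ∧ N x ≤ q x ∧ θ x ≤ q x) → (Cn κ fun x _ => N x) → (Cn κ fun x _ => θ x) →
    Cn κ n → P1 κ B → (Nq κ q β fun x g ρ => leg x g (tl (tl ρ)) (hd (ρ 1)) (hd (ρ 0))) →
    (∀ x g ρ y z, leg x g ρ y z ≤ θ x + 1) → Nq κ q β u → Nq κ q β v →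
      Nq κ q β fun x g ρ => bf (n x ρ) (N x) (θ x) (B x ρ) (leg x g ρ) (u x g ρ) (v x g ρ)

def qx (K : ℕ) (x : List Bool) : ℕ := (pa K x).N + (pa K x).θ + (pa K x).W + (pa K x).K + 5

/-- FQ: one frame. -/
def FqS : Prop :=
  KtK → BqS → ∀ K κ, (∀ x, qx K x ≤ κ x) → GeC κ (gx K) → RgC K κ (gx K) →
    Nq κ (qx K) (bt K) fun x g ρ => Fr K x g (ρ 0)

/-- RCQ: the recursion of the machine. -/
def RqS : Prop :=
  BfK → ∀ K x p k, p ≤ bt K x → 5 ≤ k → dt K x p = rc (Fr K x) (Dx x) (GM.clip k (bt K x)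
    [min (num x 0) ((inp x).nd (num x 1)), min (num x 0) ((inp x).nd (num x 2)), p, 0, 0])

/-- NUM -/
def NuS : Prop :=
  ∀ K, (∃ c, ∀ x, qx K x ≤ c * mx x ^ 35) ∧ (∀ x, lg x ≤ mx x ∧ Dx x ≤ 2 * mx x) ∧
    ∃ e, ∀ x, bt K x ≤ (x.length + 2) ^ e ∧ qx K x ≤ (x.length + 2) ^ e ∧
      (qx K x + 2) ^ Dx x ≤ (x.length + 2) ^ e

/-- SDC -/
def SdS : Prop :=
  GM.RecCS → PiK 1 → KtK → RqS → BfK → NuS → ∀ K,
    (Ev (fun x => lg x ^ 2) fun κ => (∀ x, qx K x ≤ κ x) →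
      Nq κ (qx K) (bt K) fun x g ρ => Fr K x g (ρ 0)) →
    Ev (fun x => mx x ^ 36) fun κ => Cn κ fun x _ => sd K x

/-- ITEK: the space bound may depend on a test. -/
def ItS : Prop :=
  ∀ (κ κ1 : List Bool → ℕ) (P : List Bool → Prop) (f : List Bool → Env → ℕ), Cn κ1 f →
    (Cp κ fun x _ => P x) → (∀ x, P x → κ x = κ1 x) → Cn κ fun x ρ => if P x then f x ρ else 0

/-- MCH: one machine with both space bounds. -/
def McS : Prop :=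
  ItS → RoS → PiK 1 → KtK → ∀ ε : ℝ, 0 < ε → ∃ r, 1 ≤ r ∧ ∀ f f' : List Bool → ℕ,
    (Ev (bm (Mt r)) fun κ => Cn κ fun x _ => f x) →
    (Ev (fun x => mx x ^ 36) fun κ => Cn κ fun x _ => f' x) →
      ∃ (M : TM) (c : ℕ), ∀ x : List Bool, ∃ b : Bool,
        M.out (M.run x ((x.length + 2) ^ c)).q = some b ∧
        (b = (f x != 0) ∨ (posW x ∧ b = (f' x != 0))) ∧
        (∀ t i, ((M.run x t).head i : ℝ) ≤ c * ((x.length : ℝ) + 1) ^ ε) ∧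
        (posW x → ∀ t i, (M.run x t).head i ≤ (num x 3 + Nat.log 2 x.length + 2) ^ c)

/-- The theorem. -/
def MainS : Prop :=
  ∀ ε : ℝ, 0 < ε → ∃ (M : TM) (c : ℕ), ∀ x : List Bool, ∃ r : Bool,
    M.out (M.run x ((x.length + 2) ^ c)).q = some r ∧
    (∀ t i, ((M.run x t).head i : ℝ) ≤ c * ((x.length : ℝ) + 1) ^ ε) ∧
    ∀ (n : ℕ) (σ α : Equiv.Perm (Fin n)) (dir : Fin n → Bool) (w : Fin n → ℕ) (s t : Fin n)
      (θ : ℕ), α * α = 1 → Planar σ α → x = DS.code σ α dir w s t θ →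
        (r = true ↔ ∃ c ≤ θ, Walk σ α dir w s t c) ∧
        ((∀ a, dir a = true → 1 ≤ w a) →
          ∀ τ i, (M.run x τ).head i ≤ (θ + Nat.log 2 x.length + 2) ^ c)

end

end Pool.Agent.MP_1a6d78_lc.DS.SD
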