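import Pool.Agent.MP_1a6d78_lc.SD.Spec

/-! PROJECT SD, row SIZE: the regions are closed under the chords and shrink geometrically. -/

namespace Pool.Agent.MP_1a6d78_lc.DS.SD

open Classical ED PR DD SC

namespace SzL

theorem cnt_split (n : ℕ) (P Q : ℕ → Prop) :
    cnt n (fun d => P d ∧ Q d) + cnt n (fun d => P d ∧ ¬Q d) = cnt n P := by
  induction n with
  | zero => simp [cnt]
  | succ n ih =>
    rw [cnt_succ, cnt_succ, cnt_succ]
    by_cases h1 : P n <;> by_cases h2 : Q n <;> simp [h1, h2] <;> omega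

theorem pw (l L n t : ℕ) (hn : n < 2 ^ L) (hl : 2 * L ≤ l) (h : 3 ^ l * t ≤ 2 ^ l * n) :
    t = 0 := by
  obtain ⟨m, rfl⟩ := Nat.exists_eq_add_of_le hl
  by_contra ht
  have h1 : 3 ^ (2 * L + m) ≤ 3 ^ (2 * L + m) * t :=
    Nat.le_mul_of_pos_right _ (Nat.pos_of_ne_zero ht)
  have h2 : 2 ^ (2 * L + m) * n < 2 ^ (2 * L + m) * 2 ^ L :=
    Nat.mul_lt_mul_of_pos_left hn (by positivity)
  have h3 : 2 ^ (2 * L + m) * 2 ^ L = 8 ^ L * 2 ^ m := by
    rw [show (8 : ℕ) = 2 ^ 3 by norm_num, ← pow_mul, ← pow_add, ← pow_add]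
    congr 1
    ring
  have h4 : 3 ^ (2 * L + m) = 9 ^ L * 3 ^ m := by
    rw [show (9 : ℕ) = 3 ^ 2 by norm_num, ← pow_mul, ← pow_add]
  have h5 : 8 ^ L * 2 ^ m ≤ 9 ^ L * 3 ^ m :=
    Nat.mul_le_mul (Nat.pow_le_pow_left (by norm_num) _) (Nat.pow_le_pow_left (by norm_num) _)
  omega

theorem main (hS : SpS) (G : Ge) (H K : ℕ) (hG : G.Ok H) (hR : RgK G K) (a l : ℕ) (hl : l ≤ K) :
    (∀ d < G.n, G.U K a l d → G.U K a l (G.o d)) ∧
      3 ^ l * (cnt G.n (G.U K a l) - 6) ≤ 2 ^ l * G.n := by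
  induction l with
  | zero =>
    refine ⟨fun d _ _ => hR.zero a _, ?_⟩
    have := cnt_le G.n (G.U K a 0)
    simp only [pow_zero, one_mul]
    omega
  | succ l ih =>
    obtain ⟨i1, i2⟩ := ih (by omega)
    have hb : G.bal (G.U K a l) (G.spl (G.U K a l)) := (lst_spec (hS G H _ hG i1)).2
    obtain ⟨b1, b2, b3⟩ := hb
    have hs := hR.suc a l (by omega)
    refine ⟨fun d hd h => ?_, ?_⟩
    · obtain ⟨h1, h2⟩ := (hs d).1 h
      exact (hs _).2 ⟨i1 d hd h1, (b1 d hd h1).symm.trans h2⟩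
    · have key : 3 * (cnt G.n (G.U K a (l + 1)) - 6) ≤ 2 * (cnt G.n (G.U K a l) - 6) := by
        by_cases hd : dg 2 a l = 1
        · have e : cnt G.n (G.U K a (l + 1)) =
              cnt G.n (fun d => G.U K a l d ∧ G.In (G.spl (G.U K a l)) d) :=
            cnt_congr fun d _ => by rw [hs d]; simp [hd]
          omega
        · have e : cnt G.n (G.U K a (l + 1)) =
              cnt G.n (fun d => G.U K a l d ∧ ¬G.In (G.spl (G.U K a l)) d) :=
            cnt_congr fun d _ => by rw [hs d]; simp [hd]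
          have e2 := cnt_split G.n (G.U K a l) (G.In (G.spl (G.U K a l)))
          omega
      calc 3 ^ (l + 1) * (cnt G.n (G.U K a (l + 1)) - 6)
          = 3 ^ l * (3 * (cnt G.n (G.U K a (l + 1)) - 6)) := by ring
        _ ≤ 3 ^ l * (2 * (cnt G.n (G.U K a l) - 6)) := Nat.mul_le_mul_left _ key
        _ = 2 * (3 ^ l * (cnt G.n (G.U K a l) - 6)) := by ring
        _ ≤ 2 * (2 ^ l * G.n) := Nat.mul_le_mul_left _ i2
        _ = 2 ^ (l + 1) * G.n := by ring

end SzL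

theorem szS : SzS := by
  intro hS G H K hG hR a l hl
  obtain ⟨h1, h2⟩ := SzL.main hS G H K hG hR a l hl
  refine ⟨h1, fun L hn hL => ?_⟩
  have := SzL.pw l L G.n _ hn hL h2
  omega

end Pool.Agent.MP_1a6d78_lc.DS.SD
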