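import Pool.Agent.MP_1a6d78_lc.SD.Spec

/-! PROJECT SD, row THREE: a survivor is found in three steps. -/

namespace Pool.Agent.MP_1a6d78_lc.DS.SD

open Classical ED PR DD SC

namespace ThL

variable {M : Mp} {r : ℕ} {S : St} {q u j : ℕ}

theorem bb (h : Sh M S) {d : ℕ} (a : S.A d) : M.β (M.β d) = d := (h.ok.iv d (h.lt d a)).2

theorem inj (h : Sh M S) (k : NdK M S) {a b : ℕ} (Aa : S.A a) (Ab : S.A b)
    (e : S.nx a = S.nx b) : a = b := k.pm.2 a (h.lt a Aa) b (h.lt b Ab) e

theorem cnx (h : Sh M S) (k : NdK M S) {a : ℕ} (Aa : S.A a) : S.C M a (S.nx a) := by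
  refine (k.sc a _ Aa (k.nx a Aa)).2 ⟨1, ?_, (k.go 1 a Aa).1⟩
  have h1 := h.lt a Aa
  have h2 := h.lt _ (h.ab a Aa).1
  have h3 := (h.ab a Aa).2.1
  omega

theorem aps (h : Sh M S) (k : NdK M S) {a : ℕ} (Aa : S.A a) : S.A (S.ps1 M r q u j a) := by
  unfold St.ps1
  split_ifs
  · exact k.nx _ (h.ab a Aa).1
  · exact k.nx _ Aa

theorem eid_eq (h : Sh M S) {a b : ℕ} (Aa : S.A a) (Ab : S.A b) (e : eid M a = eid M b) :
    a = b ∨ a = M.β b := by
  have h1 := bb h Aa
  have h2 := bb h Ab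
  unfold eid at e
  rcases min_choice a (M.β a) with p | p <;> rcases min_choice b (M.β b) with p' | p'
  · exact Or.inl (by omega)
  · exact Or.inr (by omega)
  · have : M.β a = b := by omega
    exact Or.inr (by rw [← this, h1])
  · have : M.β a = M.β b := by omega
    exact Or.inl (by rw [← h1, this, h2])

theorem s0_nx (h : Sh M S) (k : NdK M S) {a : ℕ} (Aa : S.A a) (s : S.s0 M r q (eid M a))
    (s' : S.s0 M r q (eid M (S.nx a))) : S.nx a = a ∨ S.nx a = M.β a := by
  refine eid_eq h (k.nx a Aa) Aa ?_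
  by_contra ne
  rcases min_choice a (M.β a) with p | p
  · have e : S.cf0 M (eid M a) 0 = eid M (S.nx a) := by
      have : eid M a = a := p
      rw [this]; simp [St.cf0]
    exact s.2.2 0 (by norm_num) (by rw [e]; exact ne) (by rw [e]; exact s'.2.1)
  · have e : S.cf0 M (eid M a) 1 = eid M (S.nx a) := by
      have : eid M a = M.β a := p
      rw [this]; simp [St.cf0, St.fc, bb h Aa]
    exact s.2.2 1 (by norm_num) (by rw [e]; exact ne) (by rw [e]; exact s'.2.1)

theorem even (h : Sh M S) (k : NdK M S) (hq : q % 2 = 0) {b : ℕ} (v : S.sv M r q u j b)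
    (k1 : S.kill M r q u j (S.ps1 M r q u j b))
    (k2 : S.kill M r q u j (S.ps1 M r q u j (S.ps1 M r q u j b)))
    (k3 : S.kill M r q u j (S.ps1 M r q u j (S.ps1 M r q u j (S.ps1 M r q u j b)))) : False := by
  have nc : ∀ d, ¬S.con M r q u j d := fun d c => by
    rcases c.2 with c | c <;> have := c.1.1 <;> omega
  have ps : ∀ d, S.ps1 M r q u j d = S.nx d := fun d => by
    unfold St.ps1
    rw [if_neg (nc d)]
  simp only [ps] at k1 k2 k3
  have A0 := v.1
  have A1 := k.nx b A0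
  have A2 := k.nx _ A1
  have s1 := (k1.resolve_left (nc _)).2.2
  have s2 := (k2.resolve_left (nc _)).2.2
  have s3 := (k3.resolve_left (nc _)).2.2
  have n1 : S.nx (S.nx b) ≠ S.nx b := fun e => v.2 (inj h k A1 A0 e ▸ k1)
  have e2 := (s0_nx h k A1 s1 s2).resolve_left n1
  rcases s0_nx h k A2 s2 s3 with e | e
  · exact n1 (inj h k A2 A1 e)
  · rw [e2, bb h A1, ← e2] at e
    exact v.2 (inj h k A2 A0 e ▸ k2)

theorem one (s : SlK M r S q u j) {a c : ℕ} (sa : S.sl M r q a) (C : S.C M a c)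
    (cc : S.con M r q u j c) : c = S.ch M u j a := by
  obtain ⟨sc, e⟩ := s.cl a c sa (s.con c cc).1 C
  rcases cc.2 with p | p
  · rw [← e, p.2]
  · exact absurd p.1 (s.nd c sc).2.2

theorem odd (h : Sh M S) (k : NdK M S) (s : SlK M r S q u j) (hq : q % 2 = 1) {b : ℕ}
    (v : S.sv M r q u j b) (k1 : S.kill M r q u j (S.ps1 M r q u j b))
    (k2 : S.kill M r q u j (S.ps1 M r q u j (S.ps1 M r q u j b)))
    (k3 : S.kill M r q u j (S.ps1 M r q u j (S.ps1 M r q u j (S.ps1 M r q u j b)))) : False := by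
  have kc : ∀ d, S.kill M r q u j d → S.con M r q u j d := fun d c =>
    c.resolve_right fun c => by have := c.1; omega
  have ps : ∀ d, S.con M r q u j d → S.ps1 M r q u j d = S.nx (M.β d) := fun d c => by
    unfold St.ps1
    rw [if_pos c]
  have A0 := v.1
  have p0 : S.ps1 M r q u j b = S.nx b := by
    unfold St.ps1
    rw [if_neg fun c => v.2 (Or.inl c)]
  rw [p0] at k1 k2 k3
  have A1 := k.nx b A0
  have n1 : S.nx (S.nx b) ≠ S.nx b := fun e => v.2 (inj h k A1 A0 e ▸ k1)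
  generalize S.nx b = c at k1 k2 k3 A1 n1
  have c1 := kc _ k1
  rw [ps c c1] at k2 k3
  have c2 := kc _ k2
  rw [ps _ c2] at k3
  have c3 := kc _ k3
  have Ab := (h.ab c A1).1
  rcases c1.2 with p | p
  · rcases c2.2 with p' | p'
    · exact (s.nd c p.1).2.2 (s.cl _ _ p'.1 Ab (Relation.EqvGen.symm _ _ (cnx h k Ab))).1
    · have e := one s p.1 (s.two c p.1 p'.1) (s.con _ c2).2
      rw [p.2] at e
      have e' : M.β (S.nx (M.β c)) = c := e
      rw [e'] at c3
      exact n1 ((one s p.1 (cnx h k A1) c3).trans p.2)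
  · have e := (one s p.1 (cnx h k Ab) c2).trans p.2
    rw [e, bb h A1] at c3
    have f : S.fc M (M.β c) = S.nx c := by
      unfold St.fc
      rw [bb h A1]
    rcases c3.2 with p' | p'
    · have := (s.cl _ _ p'.1 A1 (Relation.EqvGen.symm _ _ (cnx h k A1))).1
      exact (s.nd c this).2.2 p.1
    · have t := s.two (M.β c) p.1 (by rw [f]; exact p'.1)
      rw [f] at t
      have e' := (one s p.1 t (s.con _ c3).2).trans p.2
      refine n1 ?_
      rw [← bb h (k.nx c A1), e', bb h A1]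

end ThL

theorem thS : ThS := by
  intro M r S q u j h k s d _ v
  have e : (S.stp M r q u j).nx d = S.n3 M r q u j d := if_pos v
  have A1 : S.A (S.ps1 M r q u j d) := ThL.aps h k v.1
  have A2 : S.A (S.ps1 M r q u j (S.ps1 M r q u j d)) := ThL.aps h k A1
  have A3 : S.A (S.ps1 M r q u j (S.ps1 M r q u j (S.ps1 M r q u j d))) := ThL.aps h k A2
  rw [e]
  unfold St.n3
  split_ifs with v1 v2
  · exact ⟨0, rfl, v1, fun t a b => by omega⟩
  · refine ⟨1, rfl, v2, fun t a b => ?_⟩
    obtain rfl : t = 1 := by omega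
    exact v1
  · refine ⟨2, rfl, ⟨A3, fun k3 => ?_⟩, fun t a b => ?_⟩
    · have k1 : S.kill M r q u j _ := not_not.1 fun n => v1 ⟨A1, n⟩
      have k2 : S.kill M r q u j _ := not_not.1 fun n => v2 ⟨A2, n⟩
      rcases Nat.mod_two_eq_zero_or_one q with hq | hq
      · exact ThL.even h k hq v k1 k2 k3
      · exact ThL.odd h k s hq v k1 k2 k3
    · obtain rfl | rfl : t = 1 ∨ t = 2 := by omega
      · exact v1
      · exact v2

end Pool.Agent.MP_1a6d78_lc.DS.SD
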