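import Pool.Agent.MP_1a6d78_lc.SD.Spec

/-! PROJECT SD, row TOP: the value at the top decides the short distance. -/

namespace Pool.Agent.MP_1a6d78_lc.DS.SD

open Classical ED PR DD SC

namespace TpL

theorem n_lt (x : List Bool) : num x 0 < 2 ^ lg x :=
  (nle x 0).trans_lt (Nat.lt_pow_succ_log_self (by omega) _)

theorem pa_ok (K : ℕ) (x : List Bool) : (pa K x).Ok (num x 0) (2 * (K * lg x * rr x)) where
  i := by
    have : 0 < Nat.log 2 (mx x) := Nat.log_pos (by omega) (by unfold mx; omega)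
    show 2 ≤ Nat.log 2 (mx x) + 1
    omega
  W := rfl
  Lm := ⟨lg x, n_lt x, rfl⟩
  N := le_rfl
  K := le_rfl

theorem depth (K : ℕ) (x : List Bool) :
    (pa K x).Lm + (pa K x).i < 0 + Dx x * (pa K x).i + 1 := by
  show 2 * lg x + (Nat.log 2 (mx x) + 1) <
    0 + (2 * lg x / (Nat.log 2 (mx x) + 1) + 2) * (Nat.log 2 (mx x) + 1) + 1
  have := Nat.lt_div_mul_add (a := 2 * lg x) (Nat.succ_pos (Nat.log 2 (mx x)))
  rw [add_mul]
  simp only [Nat.succ_eq_add_one] at this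
  omega

theorem coin_le (K : ℕ) (x : List Bool) : 16 ^ (3 * (K * lg x) + 1) ≤ bt K x := by
  have h1 : 16 ^ (3 * (K * lg x) + 1) = (2 ^ lg x) ^ (12 * K) * 2 ^ 4 := by
    rw [show 16 = 2 ^ 4 from rfl, ← pow_mul, ← pow_mul, ← pow_add]
    congr 1
    ring
  rw [h1]
  calc (2 ^ lg x) ^ (12 * K) * 2 ^ 4
      ≤ ((x.length + 2) ^ 2) ^ (12 * K) * (x.length + 2) ^ 4 :=
        Nat.mul_le_mul (Nat.pow_le_pow_left (two_lg x) _) (Nat.pow_le_pow_left (by omega) _)
    _ = (x.length + 2) ^ (2 * (12 * K) + 4) := by rw [← pow_mul, ← pow_add]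
    _ ≤ bt K x := Nat.pow_le_pow_right (by omega) (by omega)

end TpL

open TpL in
theorem tpS : TpS := by
  intro hRun hNd hSl hGn hEnd hGd hKl hKey hCo hEn hTw hCt hCu hGe hPt hBf hDc hSp hSz hRg hRc
    K x hK hM ht hw
  have hs : num x 1 < num x 0 := hM.s
  have e1 : min (num x 0) ((inp x).nd (num x 1)) = (inp x).nd (num x 1) :=
    min_eq_right (Mp.nd_spec (M := inp x) hs).1.le
  have e2 : min (num x 0) ((inp x).nd (num x 2)) = (inp x).nd (num x 2) :=
    min_eq_right (Mp.nd_spec (M := inp x) ht).1.le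
  have hgx : ∀ p < bt K x, gx K x p = geo (inp x) (us x) (wt x)
      ((run (inp x) (rr x) (cyy (K * lg x) p) (cjj p) (K * lg x)).tau (inp x)) := by
    intro p hp
    unfold gx
    rw [min_eq_right hp.le, hEn hRun hNd K x p hM]
  have main : ∀ p < bt K x,
      (dt K x p ≤ num x 3 → Wu (inp x).n (inp x).nd (inp x).β (wt x) ((gx K x p).arc (pa K x) 0 0)
        ((inp x).nd (num x 1)) ((inp x).nd (num x 2)) (dt K x p)) ∧
      ∀ c ≤ num x 3, Wu (inp x).n (inp x).nd (inp x).β (wt x) ((gx K x p).arc (pa K x) 0 0)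
        ((inp x).nd (num x 1)) ((inp x).nd (num x 2)) c → dt K x p ≤ c := by
    intro p hp
    obtain ⟨r1, r2⟩ := hRun (inp x) (rr x) (cyy (K * lg x) p) (cjj p) (K * lg x) hM
    have hG : (gx K x p).Ok (2 * (K * lg x * rr x)) := by
      rw [hgx p hp]
      exact hGe hTw hCt hCu _ _ _ _ _ _ r1 (hNd _ _ r1) r2 hw
    have := hRc hBf hDc hSp hSz hRg (gx K x p) (pa K x) _ hG (pa_ok K x) (Dx x) 0 0
      (by norm_num) (Nat.add_pos_right _ (Nat.succ_pos _)) (depth K x)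
      ((inp x).nd (num x 1)) ((inp x).nd (num x 2))
    unfold dt
    rw [e1, e2]
    exact this
  constructor
  · intro h
    unfold sd at h
    split_ifs at h with h'
    obtain ⟨p, hp, hd⟩ := h'
    exact ⟨_, hd, (hPt (inp x) (us x) (wt x) _ _ _ hM hs ht).1 _ (fun d _ k => k.1.1)
      ((main p hp).1 hd)⟩
  · rintro ⟨c, hc, hD⟩
    obtain ⟨F, f1, f2, f3⟩ := (hPt (inp x) (us x) (wt x) _ _ c hM hs ht).2 hw hD
    have hT : 1 ≤ K * lg x := Nat.mul_pos (by omega) (Nat.succ_pos _)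
    obtain ⟨cy, cj, g1, g2, g3⟩ := hGd hRun hNd hSl hKl hKey (inp x) (num x 3 + 1) (K * lg x) F hM
      (by omega) hT (by omega) f2
    obtain ⟨p, hp, hp'⟩ := hCo.1 _ cy cj g1 g2
    have hpb : p < bt K x := hp.trans_le (coin_le K x)
    have g4 := g3 (hEnd hRun hNd hSl hGn (inp x) _ cy cj K (lg x) hM hK (n_lt x))
    rw [← hCo.2.2 (inp x) _ _ _ cy cj _ hp'] at g4
    have nk := hNd _ _ (hRun (inp x) (rr x) (cyy (K * lg x) p) (cjj p) (K * lg x) hM).1
    have hWu := f3 ((gx K x p).arc (pa K x) 0 0) fun e he hu => by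
      refine ⟨?_, (hRg _ _).zero 0 e⟩
      rw [hgx p hpb]
      exact ⟨hu, (nk.cs e (f2 e he) _ (hM.iv e (f2 e he)).1).1 (g4 e he)⟩
    unfold sd
    rw [if_pos ⟨p, hpb, ((main p hpb).2 c hc hWu).trans hc⟩]

end Pool.Agent.MP_1a6d78_lc.DS.SD
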