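import Pool.Agent.MP_1a6d78_lc.SD.Spec

/-! PROJECT SD, rows TW and BASE. -/

namespace Pool.Agent.MP_1a6d78_lc.DS.SD

open Classical ED PR DD SC

namespace TwL

variable {n : ℕ} {ρ τ τ' : ℕ → ℕ} {a b c k k' : ℕ}

theorem mono (h : Tw n ρ τ a b k) (hk : k ≤ k') : Tw n ρ τ a b k' := by
  induction h generalizing k' with
  | nil k => exact Tw.nil _
  | rot _ hb ih => exact Tw.rot (ih hk) hb
  | edge _ hb ih =>
    obtain ⟨j, rfl⟩ : ∃ j, k' = j + 1 := ⟨k' - 1, by omega⟩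
    exact Tw.edge (ih (by omega)) hb

theorem trans (h : Tw n ρ τ a b k) (h' : Tw n ρ τ b c k') : Tw n ρ τ a c (k + k') := by
  induction h' with
  | nil j => exact mono h (by omega)
  | rot _ hb ih => exact Tw.rot ih hb
  | edge _ hb ih => exact Tw.edge ih hb

theorem lt (hρ : Pm n ρ) (hτ : Iv n τ) (ha : a < n) (h : Tw n ρ τ a b k) : b < n := by
  induction h with
  | nil j => exact ha
  | rot _ hb _ => exact hρ.1 _ hb
  | edge _ hb _ => exact (hτ _ hb).1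

theorem sc (hρ : Pm n ρ) (ha : a < n) (h : Sc n ρ a b) : Tw n ρ τ a b 0 :=
  Sc.ind hρ.1 (Q := fun d => Tw n ρ τ a d 0) ha (Tw.nil 0) (fun _ hd k => Tw.rot k hd) h

theorem symm (hρ : Pm n ρ) (hτ : Iv n τ) (h : Tw n ρ τ a b k) : Tw n ρ τ b a k := by
  induction h with
  | nil j => exact Tw.nil _
  | rot _ hb ih =>
    have := trans (sc (τ := τ) hρ (hρ.1 _ hb) ((Sc.step hρ.1 hb).symm hρ hb)) ih
    rwa [Nat.zero_add] at this
  | @edge b k _ hb ih =>
    have h1 : Tw n ρ τ (τ b) (τ (τ b)) (0 + 1) := Tw.edge (Tw.nil 0) (hτ _ hb).1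
    rw [(hτ _ hb).2] at h1
    exact mono (trans h1 ih) (by omega)

theorem sub (hs : ∀ d < n, τ d = d ∨ τ' d = τ d) (h : Tw n ρ τ a b k) : Tw n ρ τ' a b k := by
  induction h with
  | nil j => exact Tw.nil _
  | rot _ hb ih => exact Tw.rot ih hb
  | edge _ hb ih =>
    rcases hs _ hb with e | e
    · rw [e]; exact mono ih (by omega)
    · rw [← e]; exact Tw.edge ih hb

theorem tau0 (M : Mp) (d : ℕ) : (st0 M).tau M d = d := by
  simp [St.tau, st0]

end TwL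

theorem twK : TwK :=
  ⟨TwL.mono, TwL.trans, TwL.lt, fun hρ hτ _ h => TwL.symm hρ hτ h, TwL.sub, TwL.sc⟩

theorem baseS : BaseS := by
  intro tw M r ok
  have hρ := ok.pm
  have e : (fun d => M.ρ ((st0 M).tau M d)) = M.ρ := funext fun d => by rw [TwL.tau0]
  refine ⟨⟨ok, fun d h => h.1, fun d h => h.elim, fun d h => ?_, fun d h => h.elim,
    fun d h => ⟨if_neg h, rfl⟩, ?_, fun d hd => ?_⟩, fun d => Nat.zero_le _, M.nd, fun d hd => ?_⟩
  · have k := ok.iv d h.1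
    exact ⟨⟨k.1, by rw [k.2]; exact h.2.symm⟩, h.2, fun k => k⟩
  · rw [e]
    intro d hd ha
    have ha' : al0 M d := ha
    obtain ⟨t, ht, et⟩ := (Sc.step hρ.1 hd).symm hρ hd
    rw [it_eq hρ.1 (hρ.1 d hd)] at et
    have ex : ∃ t < M.n, al0 M (it M.n M.ρ (t + 1) d) :=
      ⟨t, ht, by rw [it_eq hρ.1 hd, Function.iterate_succ_apply, et]; exact ha'⟩
    have sp := lst_spec ex
    have nx : (st0 M).nx d =
        it M.n M.ρ (lst M.n (fun t => al0 M (it M.n M.ρ (t + 1) d)) + 1) d := if_pos ha'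
    refine ⟨lst M.n fun t => al0 M (it M.n M.ρ (t + 1) d), by rw [nx, it_eq hρ.1 hd], ?_,
      fun s h0 hs k => ?_⟩
    · rw [nx]; exact sp.2
    · obtain ⟨s, rfl⟩ : ∃ s', s = s' + 1 := ⟨s - 1, by omega⟩
      have := lst_le (n := M.n) (m := s) (P := fun t => al0 M (it M.n M.ρ (t + 1) d))
        (by have := sp.1; omega) (by rw [it_eq hρ.1 hd]; exact k)
      omega
  · rw [TwL.tau0]; exact Sc.refl _ hd
  · have k : Tw M.n M.ρ ((st0 M).tau M) d (M.nd d) 0 := tw.sc hρ hd (Mp.nd_spec hd).2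
    refine ⟨((Mp.nd_iff hρ hd (hρ.1 d hd)).2 (Sc.step hρ.1 hd)).symm, by rw [TwL.tau0],
      tw.mono k (Nat.zero_le _), fun _ => k⟩

end Pool.Agent.MP_1a6d78_lc.DS.SD
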